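import Mathlib

set_option autoImplicit false

open Complex Metric Filter MeasureTheory
open scoped Topology ComplexConjugate

namespace Pool.Agent.H765R2.AR

/-- denominator -/
noncomputable def Nt (s : ℂ) : ℂ := 2 * s * Complex.cos s - I * (s ^ 2 + 1) * Complex.sin s
/-- numerator -/
noncomputable def Mt (s : ℂ) : ℂ := (s ^ 2 - 1) * Complex.sin s

noncomputable def b0 (s : ℂ) : ℂ := -I * Mt s / Nt s
noncomputable def a0 (s : ℂ) : ℂ := 2 * s / Nt s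

/-- the excess -/
noncomputable def ex (σ τ : ℝ) : ℝ :=
  2 * σ ^ 2 * Real.sinh τ ^ 2 - 2 * τ ^ 2 * Real.sin σ ^ 2 +
    σ * (σ ^ 2 + τ ^ 2 + 1) * (Real.sinh τ * Real.cosh τ) +
    τ * (σ ^ 2 + τ ^ 2 - 1) * (Real.sin σ * Real.cos σ)

lemma sin_mk (σ τ : ℝ) : Complex.sin (⟨σ, τ⟩ : ℂ) =
      ⟨Real.sin σ * Real.cosh τ, Real.cos σ * Real.sinh τ⟩ := by
  have hs : (⟨σ, τ⟩ : ℂ) = (σ : ℂ) + (τ : ℂ) * I := by
    apply Complex.ext <;> simp
  rw [hs, Complex.sin_add_mul_I]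
  rw [← Complex.ofReal_sin, ← Complex.ofReal_cos, ← Complex.ofReal_sinh, ← Complex.ofReal_cosh]
  apply Complex.ext <;>
    simp only [add_re, add_im, mul_re, mul_im, ofReal_re, ofReal_im, I_re, I_im] <;> ring

lemma cos_mk (σ τ : ℝ) : Complex.cos (⟨σ, τ⟩ : ℂ) =
      ⟨Real.cos σ * Real.cosh τ, -(Real.sin σ * Real.sinh τ)⟩ := by
  have hs : (⟨σ, τ⟩ : ℂ) = (σ : ℂ) + (τ : ℂ) * I := by
    apply Complex.ext <;> simp
  rw [hs, Complex.cos_add_mul_I]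
  rw [← Complex.ofReal_sin, ← Complex.ofReal_cos, ← Complex.ofReal_sinh, ← Complex.ofReal_cosh]
  apply Complex.ext <;>
    simp only [sub_re, sub_im, mul_re, mul_im, ofReal_re, ofReal_im, I_re, I_im] <;>
    ring

lemma key_identity (σ τ : ℝ) :
    ‖Nt (⟨σ, τ⟩ : ℂ)‖ ^ 2 = 4 * ‖(⟨σ, τ⟩ : ℂ)‖ ^ 2 + ‖Mt (⟨σ, τ⟩ : ℂ)‖ ^ 2 + 4 * ex σ τ := by
  unfold Nt Mt ex
  rw [sin_mk, cos_mk, ← Complex.normSq_eq_norm_sq, ← Complex.normSq_eq_norm_sq,
    ← Complex.normSq_eq_norm_sq]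
  simp only [Complex.normSq_apply, Complex.sub_re, Complex.sub_im, Complex.mul_re, Complex.mul_im,
    Complex.add_re, Complex.add_im, Complex.one_re, Complex.one_im, Complex.I_re, Complex.I_im,
    pow_two, Complex.re_ofNat, Complex.im_ofNat]
  have h1 : Real.cosh τ * Real.cosh τ = 1 + Real.sinh τ * Real.sinh τ := by
    have := Real.cosh_sq τ
    nlinarith
  have h2 : Real.sin σ * Real.sin σ = 1 - Real.cos σ * Real.cos σ := by
    have := Real.sin_sq_add_cos_sq σ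
    nlinarith
  generalize Real.cosh τ = C at *
  generalize Real.sinh τ = S at *
  generalize Real.sin σ = s at *
  generalize Real.cos σ = c at *
  grind

lemma ex_nonneg {σ τ : ℝ} (hσ : 0 ≤ σ) (hτ : 0 ≤ τ) : 0 ≤ ex σ τ := by
  have hS : τ ≤ Real.sinh τ := Real.self_le_sinh_iff.2 hτ
  have hC : 1 ≤ Real.cosh τ := Real.one_le_cosh τ
  have hs : Real.sin σ ^ 2 ≤ σ ^ 2 := Real.sin_sq_le_sq
  have hs' : |Real.sin σ| ≤ σ := by
    exact abs_le_of_sq_le_sq hs hσ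
  have hc : |Real.cos σ| ≤ 1 := Real.abs_cos_le_one σ
  have hsc : |Real.sin σ * Real.cos σ| ≤ σ := by
    rw [abs_mul]
    calc |Real.sin σ| * |Real.cos σ| ≤ σ * 1 := mul_le_mul hs' hc (abs_nonneg _) hσ
      _ = σ := mul_one _
  have hSC : τ ≤ Real.sinh τ * Real.cosh τ := by nlinarith
  unfold ex
  have h1 : 0 ≤ 2 * σ ^ 2 * Real.sinh τ ^ 2 - 2 * τ ^ 2 * Real.sin σ ^ 2 := by
    have h2 : τ ^ 2 ≤ Real.sinh τ ^ 2 := pow_le_pow_left₀ hτ hS 2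
    have h3 : σ ^ 2 * τ ^ 2 ≤ σ ^ 2 * Real.sinh τ ^ 2 := mul_le_mul_of_nonneg_left h2 (sq_nonneg _)
    have h4 : τ ^ 2 * Real.sin σ ^ 2 ≤ τ ^ 2 * σ ^ 2 := mul_le_mul_of_nonneg_left hs (sq_nonneg _)
    nlinarith
  have h5 : σ * (σ ^ 2 + τ ^ 2 + 1) * τ ≤
      σ * (σ ^ 2 + τ ^ 2 + 1) * (Real.sinh τ * Real.cosh τ) :=
    mul_le_mul_of_nonneg_left hSC (by positivity)
  have h6 : -(τ * (σ ^ 2 + τ ^ 2 + 1) * σ) ≤
      τ * (σ ^ 2 + τ ^ 2 - 1) * (Real.sin σ * Real.cos σ) := by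
    have h7 : |τ * (σ ^ 2 + τ ^ 2 - 1) * (Real.sin σ * Real.cos σ)| ≤
        τ * (σ ^ 2 + τ ^ 2 + 1) * σ := by
      rw [abs_mul, abs_mul, abs_of_nonneg hτ]
      have h8 : |σ ^ 2 + τ ^ 2 - 1| ≤ σ ^ 2 + τ ^ 2 + 1 := by
        rw [abs_le]
        constructor <;> nlinarith [sq_nonneg σ, sq_nonneg τ]
      apply mul_le_mul _ hsc (abs_nonneg _) (by positivity)
      exact mul_le_mul_of_nonneg_left h8 hτ
    exact neg_le_of_abs_le h7
  nlinarith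

lemma ex_re (σ : ℝ) : ex σ 0 = 0 := by simp [ex]

lemma ex_im (τ : ℝ) : ex 0 τ = 0 := by simp [ex]

lemma Nt_sq_ge {s : ℂ} (h1 : 0 ≤ s.re) (h2 : 0 ≤ s.im) :
    4 * ‖s‖ ^ 2 + ‖Mt s‖ ^ 2 ≤ ‖Nt s‖ ^ 2 := by
  have := key_identity s.re s.im
  have h3 := ex_nonneg h1 h2
  rw [Complex.eta] at this
  linarith

lemma Nt_ne {s : ℂ} (h1 : 0 ≤ s.re) (h2 : 0 ≤ s.im) (hs : s ≠ 0) : Nt s ≠ 0 := by
  intro h
  have := Nt_sq_ge h1 h2
  rw [h, norm_zero] at this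
  have h3 : 0 < ‖s‖ := norm_pos_iff.2 hs
  nlinarith [sq_nonneg ‖Mt s‖]

lemma ab_le {s : ℂ} (h1 : 0 ≤ s.re) (h2 : 0 ≤ s.im) (hs : s ≠ 0) :
    ‖a0 s‖ ^ 2 + ‖b0 s‖ ^ 2 ≤ 1 := by
  have hN := Nt_ne h1 h2 hs
  have hN' : 0 < ‖Nt s‖ ^ 2 := by positivity
  unfold a0 b0
  rw [norm_div, norm_div, div_pow, div_pow, ← add_div, div_le_one hN', norm_mul, norm_mul, norm_neg,
    Complex.norm_I, one_mul]
  have h3 : ‖(2 : ℂ)‖ = 2 := by norm_num
  rw [h3]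
  have := Nt_sq_ge h1 h2
  nlinarith

lemma ab_eq {s : ℂ} (h1 : 0 ≤ s.re) (h2 : 0 ≤ s.im) (hs : s ≠ 0) (h : s.re = 0 ∨ s.im = 0) :
    ‖a0 s‖ ^ 2 + ‖b0 s‖ ^ 2 = 1 := by
  have hN := Nt_ne h1 h2 hs
  have hN' : 0 < ‖Nt s‖ ^ 2 := by positivity
  have hk := key_identity s.re s.im
  have hex : ex s.re s.im = 0 := by
    rcases h with h | h
    · rw [h]; exact ex_im _
    · rw [h]; exact ex_re _
  rw [Complex.eta, hex] at hk
  unfold a0 b0
  rw [norm_div, norm_div, div_pow, div_pow, ← add_div, div_eq_one_iff_eq hN'.ne', norm_mul,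
    norm_mul, norm_neg, Complex.norm_I, one_mul]
  have h3 : ‖(2 : ℂ)‖ = 2 := by norm_num
  rw [h3]
  nlinarith

/-- on the two half-axes `Mt s * conj s` is real -/
lemma M_real {s : ℂ} (h : s.re = 0 ∨ s.im = 0) : conj (Mt s) * s = Mt s * conj s := by
  rcases s with ⟨σ, τ⟩
  simp only at h
  unfold Mt
  rw [sin_mk]
  rcases h with h | h
  · subst h
    apply Complex.ext <;>
      simp [pow_two] <;> ring
  · subst h
    apply Complex.ext <;>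
      simp [pow_two]

lemma ba_sym {s : ℂ} (h : s.re = 0 ∨ s.im = 0) :
    conj (b0 s) * a0 s = -(b0 s * conj (a0 s)) := by
  have h1 := M_real h
  unfold a0 b0
  simp only [map_div₀, map_mul, map_neg, Complex.conj_I, map_ofNat]
  have e : -(-I * Mt s / Nt s * (2 * conj s / conj (Nt s))) =
      I * 2 * (Mt s * conj s) / (Nt s * conj (Nt s)) := by
    rw [div_mul_div_comm, ← neg_div]
    congr 1
    ring
  have e2 : - -I * conj (Mt s) / conj (Nt s) * (2 * s / Nt s) =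
      I * 2 * (conj (Mt s) * s) / (Nt s * conj (Nt s)) := by
    rw [div_mul_div_comm]
    congr 1 <;> ring
  rw [e, e2, h1]

lemma sinh_le_mul_exp {t : ℝ} (ht : 0 ≤ t) : Real.sinh t ≤ t * Real.exp t := by
  have h1 : Real.exp (-t) ≥ 1 - t := by
    have := Real.add_one_le_exp (-t)
    linarith
  have h2 : Real.exp t * Real.exp (-t) = 1 := by rw [← Real.exp_add]; simp
  have h3 : 0 < Real.exp t := Real.exp_pos t
  have h4 : 0 < Real.exp (-t) := Real.exp_pos _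
  rw [Real.sinh_eq]
  have h5 : Real.exp (-t) ≤ 1 := by
    rw [Real.exp_le_one_iff]; linarith
  -- e^t - e^{-t} ≤ 2 t e^t  iff  1 - e^{-2t} ≤ 2 t
  have h6 : 1 - Real.exp (-t) * Real.exp (-t) ≤ 2 * t := by
    have := Real.add_one_le_exp (-(2 * t))
    have h7 : Real.exp (-(2*t)) = Real.exp (-t) * Real.exp (-t) := by
      rw [← Real.exp_add]; congr 1; ring
    linarith
  have h8 : Real.exp (-t) = Real.exp t * (Real.exp (-t) * Real.exp (-t)) := by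
    rw [← mul_assoc, h2, one_mul]
  have h9 : Real.exp t - Real.exp (-t) = Real.exp t * (1 - Real.exp (-t) * Real.exp (-t)) := by
    rw [mul_sub, ← h8, mul_one]
  rw [h9]
  nlinarith [mul_le_mul_of_nonneg_left h6 h3.le]

lemma norm_sin_sq (s : ℂ) : ‖Complex.sin s‖ ^ 2 = Real.sin s.re ^ 2 + Real.sinh s.im ^ 2 := by
  rcases s with ⟨σ, τ⟩
  rw [sin_mk, ← Complex.normSq_eq_norm_sq]
  simp only [Complex.normSq_apply]
  have h1 : Real.cosh τ * Real.cosh τ = 1 + Real.sinh τ * Real.sinh τ := by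
    have := Real.cosh_sq τ
    nlinarith
  have h2 : Real.sin σ * Real.sin σ = 1 - Real.cos σ * Real.cos σ := by
    have := Real.sin_sq_add_cos_sq σ
    nlinarith
  generalize Real.cosh τ = C at *
  generalize Real.sinh τ = S at *
  generalize Real.sin σ = s at *
  generalize Real.cos σ = c at *
  grind

lemma norm_cos_sq (s : ℂ) : ‖Complex.cos s‖ ^ 2 = Real.cos s.re ^ 2 + Real.sinh s.im ^ 2 := by
  rcases s with ⟨σ, τ⟩
  rw [cos_mk, ← Complex.normSq_eq_norm_sq]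
  simp only [Complex.normSq_apply]
  have h1 : Real.cosh τ * Real.cosh τ = 1 + Real.sinh τ * Real.sinh τ := by
    have := Real.cosh_sq τ
    nlinarith
  have h2 : Real.sin σ * Real.sin σ = 1 - Real.cos σ * Real.cos σ := by
    have := Real.sin_sq_add_cos_sq σ
    nlinarith
  generalize Real.cosh τ = C at *
  generalize Real.sinh τ = S at *
  generalize Real.sin σ = s at *
  generalize Real.cos σ = c at *
  grind

lemma norm_sin_le {s : ℂ} : ‖Complex.sin s‖ ≤ ‖s‖ * Real.exp ‖s‖ := by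
  have h1 : ‖Complex.sin s‖ ^ 2 ≤ (‖s‖ * Real.exp ‖s‖) ^ 2 := by
    rw [norm_sin_sq]
    have h2 : Real.sin s.re ^ 2 ≤ s.re ^ 2 := Real.sin_sq_le_sq
    have h3 : Real.sinh s.im ^ 2 ≤ s.im ^ 2 * Real.exp ‖s‖ ^ 2 := by
      rw [← mul_pow, ← sq_abs (Real.sinh s.im), Real.abs_sinh]
      have h4 := sinh_le_mul_exp (abs_nonneg s.im)
      have h5 : Real.exp |s.im| ≤ Real.exp ‖s‖ := Real.exp_le_exp.2 (Complex.abs_im_le_norm s)
      have h6 : (s.im * Real.exp ‖s‖) ^ 2 = (|s.im| * Real.exp ‖s‖) ^ 2 := by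
        rw [mul_pow, mul_pow, sq_abs]
      rw [h6]
      apply pow_le_pow_left₀ (Real.sinh_nonneg_iff.2 (abs_nonneg _))
      exact h4.trans (mul_le_mul_of_nonneg_left h5 (abs_nonneg _))
    have h7 : ‖s‖ ^ 2 = s.re ^ 2 + s.im ^ 2 := by
      rw [← Complex.normSq_eq_norm_sq, Complex.normSq_apply]; ring
    have h8 : 1 ≤ Real.exp ‖s‖ ^ 2 := by
      have : 1 ≤ Real.exp ‖s‖ := Real.one_le_exp (norm_nonneg _)
      nlinarith
    rw [mul_pow, h7]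
    nlinarith [sq_nonneg s.re]
  exact le_of_sq_le_sq h1 (by positivity)

lemma norm_cos_le {s : ℂ} : ‖Complex.cos s‖ ≤ Real.exp ‖s‖ := by
  have h1 : ‖Complex.cos s‖ ^ 2 ≤ (Real.exp ‖s‖) ^ 2 := by
    rw [norm_cos_sq]
    have h2 : Real.cos s.re ^ 2 ≤ 1 := Real.cos_sq_le_one _
    have h3 : Real.cosh s.im ^ 2 ≤ Real.exp ‖s‖ ^ 2 := by
      rw [← Real.cosh_abs]
      have h4 : Real.cosh |s.im| ≤ Real.exp |s.im| := by
        rw [Real.cosh_eq]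
        have : Real.exp (-|s.im|) ≤ Real.exp |s.im| := by
          apply Real.exp_le_exp.2
          have := abs_nonneg s.im
          linarith
        linarith
      have h5 : Real.exp |s.im| ≤ Real.exp ‖s‖ := Real.exp_le_exp.2 (Complex.abs_im_le_norm s)
      apply pow_le_pow_left₀ (Real.cosh_pos _).le
      exact h4.trans h5
    have := Real.cosh_sq s.im
    linarith
  exact le_of_sq_le_sq h1 (Real.exp_pos _).le

lemma norm_Nt_le (s : ℂ) : ‖Nt s‖ ≤ ‖s‖ * ((3 + ‖s‖ ^ 2) * Real.exp ‖s‖) := by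
  unfold Nt
  have h1 := @norm_sin_le s
  have h2 := @norm_cos_le s
  calc ‖2 * s * Complex.cos s - I * (s ^ 2 + 1) * Complex.sin s‖
      ≤ ‖2 * s * Complex.cos s‖ + ‖I * (s ^ 2 + 1) * Complex.sin s‖ := norm_sub_le _ _
    _ = 2 * ‖s‖ * ‖Complex.cos s‖ + ‖s ^ 2 + 1‖ * ‖Complex.sin s‖ := by
        simp [norm_mul]
    _ ≤ 2 * ‖s‖ * Real.exp ‖s‖ + (‖s‖ ^ 2 + 1) * (‖s‖ * Real.exp ‖s‖) := by
        have h3 : ‖s ^ 2 + 1‖ ≤ ‖s‖ ^ 2 + 1 := by
          calc ‖s ^ 2 + 1‖ ≤ ‖s ^ 2‖ + ‖(1 : ℂ)‖ := norm_add_le _ _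
            _ = ‖s‖ ^ 2 + 1 := by simp
        gcongr
    _ = ‖s‖ * ((3 + ‖s‖ ^ 2) * Real.exp ‖s‖) := by ring

lemma norm_a0_ge {s : ℂ} (h1 : 0 ≤ s.re) (h2 : 0 ≤ s.im) (hs : s ≠ 0) :
    2 / ((3 + ‖s‖ ^ 2) * Real.exp ‖s‖) ≤ ‖a0 s‖ := by
  unfold a0
  have hN := Nt_ne h1 h2 hs
  have hN' : 0 < ‖Nt s‖ := by positivity
  rw [norm_div, norm_mul]
  have h3 : ‖(2 : ℂ)‖ = 2 := by norm_num
  rw [h3, div_le_div_iff₀ (by positivity) hN']
  have := norm_Nt_le s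
  nlinarith

end Pool.Agent.H765R2.AR
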