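import Mathlib
import Pool.Agent.H765R2.AR1

set_option autoImplicit false

open Complex Metric Filter MeasureTheory Real
open scoped Topology ComplexConjugate

namespace Pool.Agent.H765R2.AR

/-! ### diagonal estimates -/

lemma ex_diag {q : ℝ} (hq : 1 ≤ q) : q ^ 3 * (Real.sinh q * Real.cosh q) ≤ ex q q := by
  have hS : q ≤ Real.sinh q := Real.self_le_sinh_iff.2 (by linarith)
  have hC : 1 ≤ Real.cosh q := Real.one_le_cosh q
  have hSC : 1 ≤ Real.sinh q * Real.cosh q := by nlinarith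
  have hs2 : Real.sin q ^ 2 ≤ 1 := Real.sin_sq_le_one q
  have hsc : -1 ≤ Real.sin q * Real.cos q := by
    nlinarith [Real.sin_sq_add_cos_sq q, sq_nonneg (Real.sin q + Real.cos q)]
  have hsinh2 : 1 ≤ Real.sinh q ^ 2 := by nlinarith
  unfold ex
  have e1 : 0 ≤ 2 * q ^ 2 * Real.sinh q ^ 2 - 2 * q ^ 2 * Real.sin q ^ 2 := by
    have : 0 ≤ 2 * q ^ 2 * (Real.sinh q ^ 2 - Real.sin q ^ 2) :=
      mul_nonneg (by positivity) (by linarith)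
    linarith
  have e2 : q * (q ^ 2 + q ^ 2 - 1) * (-1) ≤
      q * (q ^ 2 + q ^ 2 - 1) * (Real.sin q * Real.cos q) := by
    apply mul_le_mul_of_nonneg_left hsc
    apply mul_nonneg (by linarith)
    nlinarith
  have e3 : q * (q ^ 2 + q ^ 2 + 1) * (Real.sinh q * Real.cosh q) -
      q ^ 3 * (Real.sinh q * Real.cosh q) = (q ^ 3 + q) * (Real.sinh q * Real.cosh q) := by ring
  -- need better constant: (q^3+q) SC >= q(2q^2-1)
  have hSC2 : q * 1 ≤ Real.sinh q * Real.cosh q := mul_le_mul hS hC (by norm_num) (by linarith)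
  have e4 : (q ^ 3 + q) * 2 ≤ (q ^ 3 + q) * (Real.sinh q * Real.cosh q) + (q ^ 3 + q) := by
    nlinarith [mul_le_mul_of_nonneg_left hSC (show 0 ≤ q ^ 3 + q by positivity)]
  have hsc' : -(1/2) ≤ Real.sin q * Real.cos q := by
    nlinarith [Real.sin_sq_add_cos_sq q, sq_nonneg (Real.sin q + Real.cos q)]
  have e5 : q * (q ^ 2 + q ^ 2 - 1) * (-(1/2)) ≤
      q * (q ^ 2 + q ^ 2 - 1) * (Real.sin q * Real.cos q) := by
    apply mul_le_mul_of_nonneg_left hsc'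
    apply mul_nonneg (by linarith)
    nlinarith
  have e6 : (q ^ 3 + q) * 1 ≤ (q ^ 3 + q) * (Real.sinh q * Real.cosh q) :=
    mul_le_mul_of_nonneg_left hSC (by positivity)
  nlinarith

lemma norm_diag {q : ℝ} (hq : 0 ≤ q) : ‖(⟨q, q⟩ : ℂ)‖ ^ 2 = 2 * q ^ 2 := by
  rw [← Complex.normSq_eq_norm_sq, Complex.normSq_apply]; ring

lemma Nt_diag {q : ℝ} (hq : 1 ≤ q) : ‖Nt (⟨q, q⟩ : ℂ)‖ ≤ 6 * q ^ 2 * Real.cosh q := by
  have hn : ‖(⟨q, q⟩ : ℂ)‖ ^ 2 = 2 * q ^ 2 := norm_diag (by linarith)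
  have hn' : ‖(⟨q, q⟩ : ℂ)‖ ≤ 3 / 2 * q := by
    apply le_of_sq_le_sq _ (by linarith)
    rw [hn]; nlinarith
  have hc : ‖Complex.cos (⟨q, q⟩ : ℂ)‖ ≤ Real.cosh q := by
    apply le_of_sq_le_sq _ (Real.cosh_pos _).le
    rw [norm_cos_sq, Real.cosh_sq]
    have := Real.cos_sq_le_one q
    simp only
    linarith
  have hs : ‖Complex.sin (⟨q, q⟩ : ℂ)‖ ≤ Real.cosh q := by
    apply le_of_sq_le_sq _ (Real.cosh_pos _).le
    rw [norm_sin_sq, Real.cosh_sq]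
    have := Real.sin_sq_le_one q
    simp only
    linarith
  have hC : 0 < Real.cosh q := Real.cosh_pos q
  unfold Nt
  calc ‖2 * (⟨q, q⟩ : ℂ) * Complex.cos ⟨q, q⟩ -
        I * ((⟨q, q⟩ : ℂ) ^ 2 + 1) * Complex.sin ⟨q, q⟩‖
      ≤ ‖2 * (⟨q, q⟩ : ℂ) * Complex.cos ⟨q, q⟩‖ +
        ‖I * ((⟨q, q⟩ : ℂ) ^ 2 + 1) * Complex.sin ⟨q, q⟩‖ := norm_sub_le _ _
    _ = 2 * ‖(⟨q, q⟩ : ℂ)‖ * ‖Complex.cos ⟨q, q⟩‖ +
        ‖(⟨q, q⟩ : ℂ) ^ 2 + 1‖ * ‖Complex.sin ⟨q, q⟩‖ := by simp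
    _ ≤ 2 * (3 / 2 * q) * Real.cosh q + (2 * q ^ 2 + 1) * Real.cosh q := by
        have h3 : ‖(⟨q, q⟩ : ℂ) ^ 2 + 1‖ ≤ 2 * q ^ 2 + 1 := by
          calc ‖(⟨q, q⟩ : ℂ) ^ 2 + 1‖ ≤ ‖(⟨q, q⟩ : ℂ) ^ 2‖ + ‖(1 : ℂ)‖ := norm_add_le _ _
            _ = 2 * q ^ 2 + 1 := by rw [norm_pow, hn, norm_one]
        gcongr
    _ = (3 * q + 2 * q ^ 2 + 1) * Real.cosh q := by ring
    _ ≤ 6 * q ^ 2 * Real.cosh q := by
        apply mul_le_mul_of_nonneg_right _ hC.le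
        nlinarith

lemma tanh_ge {q : ℝ} (hq : 1 ≤ q) : Real.cosh q ≤ 2 * Real.sinh q := by
  have hS : q ≤ Real.sinh q := Real.self_le_sinh_iff.2 (by linarith)
  apply le_of_sq_le_sq _ (by linarith)
  rw [Real.cosh_sq]
  nlinarith

lemma one_sub_b0_diag {q : ℝ} (hq : 1 ≤ q) : 1 / (18 * q) ≤ 1 - ‖b0 (⟨q, q⟩ : ℂ)‖ ^ 2 := by
  have hk := key_identity q q
  have hex := ex_diag hq
  have hN := Nt_diag hq
  have hT := tanh_ge hq
  have hC : 0 < Real.cosh q := Real.cosh_pos q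
  have hS : q ≤ Real.sinh q := Real.self_le_sinh_iff.2 (by linarith)
  have hs0 : (⟨q, q⟩ : ℂ) ≠ 0 := by
    intro h
    have := congrArg Complex.re h
    simp at this
    linarith
  have hNn := Nt_ne (s := ⟨q, q⟩) (by simp; linarith) (by simp; linarith) hs0
  have hN' : 0 < ‖Nt (⟨q, q⟩ : ℂ)‖ ^ 2 := by positivity
  have hb : ‖b0 (⟨q, q⟩ : ℂ)‖ ^ 2 = ‖Mt (⟨q, q⟩ : ℂ)‖ ^ 2 / ‖Nt (⟨q, q⟩ : ℂ)‖ ^ 2 := by
    unfold b0
    rw [norm_div, div_pow, norm_mul, norm_neg, Complex.norm_I, one_mul]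
  rw [hb, one_sub_div hN'.ne', div_le_div_iff₀ (by positivity) hN']
  have h1 : ‖Nt (⟨q, q⟩ : ℂ)‖ ^ 2 ≤ (6 * q ^ 2 * Real.cosh q) ^ 2 :=
    pow_le_pow_left₀ (norm_nonneg _) hN 2
  have h2 : (0 : ℝ) ≤ 4 * ‖(⟨q, q⟩ : ℂ)‖ ^ 2 := by positivity
  have h3 : 4 * (q ^ 3 * (Real.sinh q * Real.cosh q)) ≤
      ‖Nt (⟨q, q⟩ : ℂ)‖ ^ 2 - ‖Mt (⟨q, q⟩ : ℂ)‖ ^ 2 := by linarith
  have h4 : (6 * q ^ 2 * Real.cosh q) ^ 2 ≤
      4 * (q ^ 3 * (Real.sinh q * Real.cosh q)) * (18 * q) := by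
    have h5 : Real.cosh q * Real.cosh q ≤ 2 * (Real.sinh q * Real.cosh q) := by nlinarith
    have h6 : 0 ≤ 36 * q ^ 4 := by positivity
    nlinarith [mul_le_mul_of_nonneg_left h5 h6]
  have h7 : 4 * (q ^ 3 * (Real.sinh q * Real.cosh q)) * (18 * q) ≤
      (‖Nt (⟨q, q⟩ : ℂ)‖ ^ 2 - ‖Mt (⟨q, q⟩ : ℂ)‖ ^ 2) * (18 * q) :=
    mul_le_mul_of_nonneg_right h3 (by linarith)
  linarith

/-! ### the conformal parameter -/

noncomputable def uu (z : ℂ) : ℂ := (1 + z) / (1 - z)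

noncomputable def sq (z : ℂ) : ℂ := Complex.exp ((π / 4 : ℝ) * I + Complex.log (uu z) / 2)

lemma sq_ne (z : ℂ) : sq z ≠ 0 := Complex.exp_ne_zero _

lemma uu_re (z : ℂ) : (uu z).re = (1 - ‖z‖ ^ 2) / ‖1 - z‖ ^ 2 := by
  unfold uu
  rw [Complex.div_re, ← Complex.normSq_eq_norm_sq, ← Complex.normSq_eq_norm_sq]
  simp only [Complex.add_re, Complex.one_re, Complex.sub_re, Complex.add_im, Complex.one_im,
    Complex.sub_im, Complex.normSq_apply]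
  rw [← add_div]
  congr 1
  ring

lemma uu_re_nonneg {z : ℂ} (hz : ‖z‖ ≤ 1) : 0 ≤ (uu z).re := by
  rw [uu_re]
  apply div_nonneg _ (by positivity)
  nlinarith [norm_nonneg z]

lemma uu_re_zero {z : ℂ} (hz : ‖z‖ = 1) : (uu z).re = 0 := by
  rw [uu_re, hz]; simp

lemma uu_ne {z : ℂ} (h1 : z ≠ 1) (h2 : z ≠ -1) : uu z ≠ 0 := by
  unfold uu
  apply div_ne_zero
  · intro h
    apply h2
    linear_combination h
  · intro h
    apply h1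
    linear_combination -h

lemma uu_slit {z : ℂ} (hz : ‖z‖ ≤ 1) (h1 : z ≠ 1) (h2 : z ≠ -1) : uu z ∈ slitPlane := by
  rw [Complex.mem_slitPlane_iff]
  by_contra hcon
  push Not at hcon
  have h3 := uu_re_nonneg hz
  have h4 : (uu z).re = 0 := le_antisymm hcon.1 h3
  exact uu_ne h1 h2 (Complex.ext h4 hcon.2)

lemma ne_of_mem_ball {z : ℂ} (hz : ‖z‖ < 1) : z ≠ 1 ∧ z ≠ -1 := by
  constructor
  · rintro rfl; simp at hz
  · rintro rfl; simp at hz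

lemma sq_sq {z : ℂ} (h1 : z ≠ 1) (h2 : z ≠ -1) : sq z ^ 2 = I * uu z := by
  unfold sq
  rw [← Complex.exp_nat_mul]
  have h3 : ((2 : ℕ) : ℂ) * ((π / 4 : ℝ) * I + Complex.log (uu z) / 2) =
      (π / 2 : ℂ) * I + Complex.log (uu z) := by push_cast; ring
  rw [h3, Complex.exp_add, Complex.exp_log (uu_ne h1 h2), Complex.exp_pi_div_two_mul_I]

lemma sq_norm {z : ℂ} (h1 : z ≠ 1) (h2 : z ≠ -1) : ‖sq z‖ ^ 2 = ‖uu z‖ := by
  rw [← norm_pow, sq_sq h1 h2, norm_mul, Complex.norm_I, one_mul]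

lemma sq_im_arg {z : ℂ} (hz : ‖z‖ ≤ 1) :
    0 ≤ π / 4 + (uu z).arg / 2 ∧ π / 4 + (uu z).arg / 2 ≤ π / 2 := by
  have h := Complex.abs_arg_le_pi_div_two_iff.2 (uu_re_nonneg hz)
  rw [abs_le] at h
  constructor <;> linarith [h.1, h.2]

lemma sq_arg_im (z : ℂ) : ((π / 4 : ℝ) * I + Complex.log (uu z) / 2).im =
    π / 4 + (uu z).arg / 2 := by
  have h : (Complex.log (uu z) / 2).im = (uu z).arg / 2 := by
    rw [show (2 : ℂ) = ((2 : ℝ) : ℂ) by push_cast; rfl, Complex.div_ofReal_im, Complex.log_im]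
  rw [Complex.add_im, h]
  simp

lemma sq_re_nonneg {z : ℂ} (hz : ‖z‖ ≤ 1) : 0 ≤ (sq z).re := by
  unfold sq
  rw [Complex.exp_re, sq_arg_im]
  have h := sq_im_arg hz
  apply mul_nonneg (Real.exp_pos _).le
  exact Real.cos_nonneg_of_neg_pi_div_two_le_of_le (by linarith [h.1, Real.pi_pos]) h.2

lemma sq_im_nonneg {z : ℂ} (hz : ‖z‖ ≤ 1) : 0 ≤ (sq z).im := by
  unfold sq
  rw [Complex.exp_im, sq_arg_im]
  have h := sq_im_arg hz
  apply mul_nonneg (Real.exp_pos _).le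
  exact Real.sin_nonneg_of_nonneg_of_le_pi h.1 (by linarith [h.2, Real.pi_pos])

lemma sq_bdry {z : ℂ} (hz : ‖z‖ = 1) (h1 : z ≠ 1) (h2 : z ≠ -1) :
    (sq z).re = 0 ∨ (sq z).im = 0 := by
  have h3 := congrArg Complex.im (sq_sq h1 h2)
  simp only [pow_two, Complex.mul_im, Complex.I_re, Complex.I_im, zero_mul, one_mul,
    zero_add, uu_re_zero hz] at h3
  have h4 : (sq z).re * (sq z).im = 0 := by linarith
  exact mul_eq_zero.1 h4

lemma sq_real {r : ℝ} (hr0 : 0 ≤ r) (hr : r < 1) :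
    sq r = ⟨Real.sqrt ((1 + r) / (1 - r) / 2), Real.sqrt ((1 + r) / (1 - r) / 2)⟩ := by
  have h1r : 0 < 1 - r := by linarith
  have hU : 0 < (1 + r) / (1 - r) := by positivity
  have hne := ne_of_mem_ball (z := (r : ℂ)) (by
    rw [Complex.norm_real, Real.norm_eq_abs, abs_of_nonneg hr0]; exact hr)
  have huu : uu r = (((1 + r) / (1 - r) : ℝ) : ℂ) := by unfold uu; push_cast; rfl
  have harg : (uu r).arg = 0 := by rw [huu]; exact Complex.arg_ofReal_of_nonneg hU.le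
  have hri : (sq r).re = (sq r).im := by
    unfold sq
    rw [Complex.exp_re, Complex.exp_im, sq_arg_im, harg, zero_div, add_zero, Real.cos_pi_div_four,
      Real.sin_pi_div_four]
  have hnorm := sq_norm hne.1 hne.2
  have h3 : (sq r).re ^ 2 = (1 + r) / (1 - r) / 2 := by
    rw [huu, Complex.norm_real, Real.norm_eq_abs, abs_of_pos hU, ← Complex.normSq_eq_norm_sq,
      Complex.normSq_apply, ← hri] at hnorm
    nlinarith
  have h4 : (sq r).re = Real.sqrt ((1 + r) / (1 - r) / 2) := by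
    rw [← h3, Real.sqrt_sq]
    apply sq_re_nonneg
    rw [Complex.norm_real, Real.norm_eq_abs, abs_of_nonneg hr0]; exact hr.le
  apply Complex.ext
  · exact h4
  · rw [← hri]; exact h4

lemma sq_differentiableAt {z : ℂ} (hz : ‖z‖ ≤ 1) (h1 : z ≠ 1) (h2 : z ≠ -1) :
    DifferentiableAt ℂ sq z := by
  unfold sq
  apply DifferentiableAt.cexp
  apply DifferentiableAt.const_add
  apply DifferentiableAt.div_const
  apply DifferentiableAt.clog _ (uu_slit hz h1 h2)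
  unfold uu
  apply DifferentiableAt.div (by fun_prop) (by fun_prop)
  intro h
  apply h1
  linear_combination -h

lemma Nt_diff : Differentiable ℂ Nt := by
  unfold Nt
  fun_prop

lemma Mt_diff : Differentiable ℂ Mt := by
  unfold Mt
  fun_prop

noncomputable def B0 (z : ℂ) : ℂ := b0 (sq z)
noncomputable def A0 (z : ℂ) : ℂ := a0 (sq z)

lemma AB_le {z : ℂ} (hz : ‖z‖ ≤ 1) : ‖A0 z‖ ^ 2 + ‖B0 z‖ ^ 2 ≤ 1 :=
  ab_le (sq_re_nonneg hz) (sq_im_nonneg hz) (sq_ne z)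

lemma AB_eq {z : ℂ} (hz : ‖z‖ = 1) (h1 : z ≠ 1) (h2 : z ≠ -1) : ‖A0 z‖ ^ 2 + ‖B0 z‖ ^ 2 = 1 :=
  ab_eq (sq_re_nonneg hz.le) (sq_im_nonneg hz.le) (sq_ne z) (sq_bdry hz h1 h2)

lemma BA_sym {z : ℂ} (hz : ‖z‖ = 1) (h1 : z ≠ 1) (h2 : z ≠ -1) :
    conj (B0 z) * A0 z = -(B0 z * conj (A0 z)) := ba_sym (sq_bdry hz h1 h2)

lemma A0_ne {z : ℂ} (hz : ‖z‖ ≤ 1) : A0 z ≠ 0 := by
  unfold A0 a0
  exact div_ne_zero (mul_ne_zero two_ne_zero (sq_ne z))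
    (Nt_ne (sq_re_nonneg hz) (sq_im_nonneg hz) (sq_ne z))

lemma A0_diff {z : ℂ} (hz : ‖z‖ ≤ 1) (h1 : z ≠ 1) (h2 : z ≠ -1) : DifferentiableAt ℂ A0 z := by
  unfold A0 a0
  have hs := sq_differentiableAt hz h1 h2
  apply DifferentiableAt.div
  · exact (differentiableAt_const _).mul hs
  · exact (Nt_diff _).comp z hs
  · exact Nt_ne (sq_re_nonneg hz) (sq_im_nonneg hz) (sq_ne z)

lemma B0_diff {z : ℂ} (hz : ‖z‖ ≤ 1) (h1 : z ≠ 1) (h2 : z ≠ -1) : DifferentiableAt ℂ B0 z := by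
  unfold B0 b0
  have hs := sq_differentiableAt hz h1 h2
  apply DifferentiableAt.div
  · exact (differentiableAt_const _).mul ((Mt_diff _).comp z hs)
  · exact (Nt_diff _).comp z hs
  · exact Nt_ne (sq_re_nonneg hz) (sq_im_nonneg hz) (sq_ne z)

lemma B0_lt {z : ℂ} (hz : ‖z‖ ≤ 1) : ‖B0 z‖ < 1 := by
  have h1 := AB_le hz
  have h2 : 0 < ‖A0 z‖ := norm_pos_iff.2 (A0_ne hz)
  nlinarith [norm_nonneg (B0 z)]

/-- local lower bound of `A0` away from 1 -/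
lemma A0_local {z : ℂ} (hz : ‖z‖ < 1) {δ : ℝ} (hδ : 0 < δ) (hd : δ ≤ ‖z - 1‖) :
    2 / ((3 + 2 / δ) * Real.exp (Real.sqrt (2 / δ))) ≤ ‖A0 z‖ := by
  have hne := ne_of_mem_ball hz
  have hn := sq_norm hne.1 hne.2
  have h1 : ‖uu z‖ ≤ 2 / δ := by
    unfold uu
    rw [norm_div, norm_sub_rev (1 : ℂ) z]
    have h2 : ‖1 + z‖ ≤ 2 := by
      calc ‖1 + z‖ ≤ ‖(1 : ℂ)‖ + ‖z‖ := norm_add_le _ _
        _ ≤ 2 := by rw [norm_one]; linarith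
    gcongr
  have h3 : ‖sq z‖ ^ 2 ≤ 2 / δ := by rw [hn]; exact h1
  have h4 : ‖sq z‖ ≤ Real.sqrt (2 / δ) := Real.le_sqrt_of_sq_le h3
  refine le_trans ?_ (norm_a0_ge (sq_re_nonneg hz.le) (sq_im_nonneg hz.le) (sq_ne z))
  gcongr

end Pool.Agent.H765R2.AR
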