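import Mathlib

set_option autoImplicit false

open Complex Metric Filter MeasureTheory Real
open scoped Topology ComplexConjugate

namespace Pool.Agent.H765R2.AR

/-- abstract convergence lemma with concentration allowed only where `w` is small -/
lemma abs_conv {α : Type*} [MeasurableSpace α] {μ : Measure α} [IsFiniteMeasure μ] (w : α → ℝ)
    (hw : Measurable w) (G : ℕ → α → ℝ) (Φ : α → ℝ) (hGi : ∀ k, Integrable (G k) μ)
    (hG0 : ∀ k θ, 0 ≤ G k θ) (M : ℝ) (hM : ∀ k, ∫ θ, G k θ ∂μ ≤ M)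
    (hlim : ∀ᵐ θ ∂μ, Tendsto (fun k => G k θ) atTop (𝓝 (Φ θ)))
    (hb : ∀ δ : ℝ, 0 < δ → ∃ C, ∀ᶠ k in atTop, ∀ θ, δ ≤ w θ → G k θ ≤ C) :
    Integrable Φ μ ∧ ∫ θ, Φ θ ∂μ ≤ M ∧ ∀ D : α → ℂ, AEStronglyMeasurable D μ →
      ∀ K K' : ℝ, 0 ≤ K → (∀ θ, ‖D θ‖ ≤ K * w θ) → (∀ θ, ‖D θ‖ ≤ K') →
      Tendsto (fun k => ∫ θ, D θ * (G k θ : ℂ) ∂μ) atTop (𝓝 (∫ θ, D θ * (Φ θ : ℂ) ∂μ)) := by
  have hΦ0 : ∀ᵐ θ ∂μ, 0 ≤ Φ θ := by
    filter_upwards [hlim] with θ h
    exact ge_of_tendsto' h (fun k => hG0 k θ)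
  have hΦm : AEStronglyMeasurable Φ μ :=
    aestronglyMeasurable_of_tendsto_ae atTop (fun k => (hGi k).aestronglyMeasurable) hlim
  have hlint : ∫⁻ θ, ENNReal.ofReal (Φ θ) ∂μ ≤ ENNReal.ofReal M := by
    have h1 : ∫⁻ θ, ENNReal.ofReal (Φ θ) ∂μ =
        ∫⁻ θ, liminf (fun k => ENNReal.ofReal (G k θ)) atTop ∂μ := by
      apply lintegral_congr_ae
      filter_upwards [hlim] with θ h
      exact (ENNReal.tendsto_ofReal h).liminf_eq.symm
    rw [h1]
    refine (lintegral_liminf_le' (fun k => (hGi k).aestronglyMeasurable.aemeasurable.ennreal_ofReal)).trans ?_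
    have h2 : ∀ k, ∫⁻ θ, ENNReal.ofReal (G k θ) ∂μ ≤ ENNReal.ofReal M := by
      intro k
      rw [← ofReal_integral_eq_lintegral_ofReal (hGi k) (Eventually.of_forall (hG0 k))]
      exact ENNReal.ofReal_le_ofReal (hM k)
    calc liminf (fun k => ∫⁻ θ, ENNReal.ofReal (G k θ) ∂μ) atTop
        ≤ liminf (fun _ : ℕ => ENNReal.ofReal M) atTop :=
          liminf_le_liminf (Eventually.of_forall h2)
      _ = ENNReal.ofReal M := liminf_const _
  have hΦi : Integrable Φ μ := by
    refine ⟨hΦm, ?_⟩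
    rw [hasFiniteIntegral_iff_ofReal hΦ0]
    exact hlint.trans_lt ENNReal.ofReal_lt_top
  have hMn : 0 ≤ M := (integral_nonneg (hG0 0)).trans (hM 0)
  have hΦM : ∫ θ, Φ θ ∂μ ≤ M := by
    rw [integral_eq_lintegral_of_nonneg_ae hΦ0 hΦm]
    exact ENNReal.toReal_le_of_le_ofReal hMn hlint
  refine ⟨hΦi, hΦM, ?_⟩
  intro D hD K K' hK hDw hDK
  have hDG : ∀ k, Integrable (fun θ => D θ * (G k θ : ℂ)) μ := by
    intro k
    exact (hGi k).ofReal.bdd_mul hD (Eventually.of_forall hDK)
  have hDΦ : Integrable (fun θ => D θ * (Φ θ : ℂ)) μ :=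
    hΦi.ofReal.bdd_mul hD (Eventually.of_forall hDK)
  rw [Metric.tendsto_atTop]
  intro ε hε
  -- choose δ
  set δ : ℝ := ε / (4 * (K + 1) * (M + 1)) with hδ
  have hδp : 0 < δ := by positivity
  obtain ⟨C, hC⟩ := hb δ hδp
  -- far part
  set S : Set α := {θ | δ ≤ w θ} with hS
  have hSm : MeasurableSet S := measurableSet_le measurable_const hw
  have hfar : Tendsto (fun k => ∫ θ, S.indicator (fun θ => |G k θ - Φ θ|) θ ∂μ) atTop (𝓝 0) := by
    have h0 : (0 : ℝ) = ∫ θ, (0 : ℝ) ∂μ := by simp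
    rw [h0]
    apply tendsto_integral_filter_of_dominated_convergence (fun θ => |C| + |Φ θ|)
    · exact Eventually.of_forall fun k =>
        (((hGi k).sub hΦi).abs.indicator hSm).aestronglyMeasurable
    · filter_upwards [hC] with k hk
      refine Eventually.of_forall fun θ => ?_
      by_cases hθ : θ ∈ S
      · rw [Set.indicator_of_mem hθ, Real.norm_eq_abs, abs_abs]
        calc |G k θ - Φ θ| ≤ |G k θ| + |Φ θ| := abs_sub _ _
          _ ≤ |C| + |Φ θ| := by
            have h1 : |G k θ| ≤ |C| := by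
              rw [abs_of_nonneg (hG0 k θ)]
              exact (hk θ hθ).trans (le_abs_self _)
            linarith
      · rw [Set.indicator_of_notMem hθ, norm_zero]
        positivity
    · exact (integrable_const _).add hΦi.abs
    · filter_upwards [hlim] with θ h
      by_cases hθ : θ ∈ S
      · simp only [Set.indicator_of_mem hθ]
        have := (h.sub_const (Φ θ)).abs
        simpa using this
      · simp only [Set.indicator_of_notMem hθ]
        exact tendsto_const_nhds
  have hK'0 : 0 ≤ |K'| := abs_nonneg _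
  have hev := (Metric.tendsto_atTop.1 hfar) (ε / (4 * (|K'| + 1))) (by positivity)
  obtain ⟨N, hN⟩ := hev
  refine ⟨N, fun k hk => ?_⟩
  have h1 := hN k hk
  rw [dist_eq_norm, ← integral_sub (hDG k) hDΦ]
  have hI1 : Integrable (fun θ => S.indicator (fun θ => |G k θ - Φ θ|) θ) μ :=
    ((hGi k).sub hΦi).abs.indicator hSm
  have h2 : ‖∫ θ, (D θ * (G k θ : ℂ) - D θ * (Φ θ : ℂ)) ∂μ‖ ≤
      ∫ θ, (K * δ * (G k θ + Φ θ) + |K'| * S.indicator (fun θ => |G k θ - Φ θ|) θ) ∂μ := by
    apply norm_integral_le_of_norm_le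
    · exact (((hGi k).add hΦi).const_mul _).add (hI1.const_mul _)
    · filter_upwards [hΦ0] with θ h0
      rw [← mul_sub, norm_mul, ← Complex.ofReal_sub, Complex.norm_real, Real.norm_eq_abs]
      by_cases hθ : θ ∈ S
      · rw [Set.indicator_of_mem hθ]
        have h3 : ‖D θ‖ * |G k θ - Φ θ| ≤ |K'| * |G k θ - Φ θ| :=
          mul_le_mul_of_nonneg_right ((hDK θ).trans (le_abs_self _)) (abs_nonneg _)
        have h4 : 0 ≤ K * δ * (G k θ + Φ θ) := by
          have := hG0 k θ
          positivity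
        linarith
      · rw [Set.indicator_of_notMem hθ, mul_zero, add_zero]
        have h5 : w θ < δ := not_le.1 hθ
        have h6 : |G k θ - Φ θ| ≤ G k θ + Φ θ := by
          calc |G k θ - Φ θ| ≤ |G k θ| + |Φ θ| := abs_sub _ _
            _ = G k θ + Φ θ := by rw [abs_of_nonneg (hG0 k θ), abs_of_nonneg h0]
        have h7 : ‖D θ‖ ≤ K * δ := (hDw θ).trans (mul_le_mul_of_nonneg_left h5.le hK)
        exact mul_le_mul h7 h6 (abs_nonneg _) (by positivity)
  refine h2.trans_lt ?_
  have hI2 : Integrable (fun θ => K * δ * (G k θ + Φ θ)) μ := ((hGi k).add hΦi).const_mul _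
  rw [integral_add hI2 (hI1.const_mul _), integral_const_mul,
    integral_const_mul, integral_add (hGi k) hΦi]
  have h8 : K * δ * (∫ θ, G k θ ∂μ + ∫ θ, Φ θ ∂μ) ≤ ε / 2 := by
    have h9 : ∫ θ, G k θ ∂μ + ∫ θ, Φ θ ∂μ ≤ 2 * M := by linarith [hM k]
    calc K * δ * (∫ θ, G k θ ∂μ + ∫ θ, Φ θ ∂μ) ≤ K * δ * (2 * M) :=
          mul_le_mul_of_nonneg_left h9 (by positivity)
      _ = (K / (K + 1)) * (M / (M + 1)) * (ε / 2) := by
          rw [hδ]; field_simp; ring
      _ ≤ 1 * 1 * (ε / 2) := by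
          have e1 : K / (K + 1) ≤ 1 := by rw [div_le_one (by positivity)]; linarith
          have e2 : M / (M + 1) ≤ 1 := by rw [div_le_one (by positivity)]; linarith
          gcongr
      _ = ε / 2 := by ring
  have h10 : |K'| * ∫ θ, S.indicator (fun θ => |G k θ - Φ θ|) θ ∂μ < ε / 2 := by
    rw [Real.dist_eq, sub_zero] at h1
    have h11 := (abs_lt.1 h1).2
    calc |K'| * ∫ θ, S.indicator (fun θ => |G k θ - Φ θ|) θ ∂μ
        ≤ |K'| * (ε / (4 * (|K'| + 1))) := mul_le_mul_of_nonneg_left h11.le hK'0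
      _ = (|K'| / (|K'| + 1)) * (ε / 4) := by field_simp
      _ ≤ 1 * (ε / 4) := by
          have e1 : |K'| / (|K'| + 1) ≤ 1 := by rw [div_le_one (by positivity)]; linarith
          gcongr
      _ < ε / 2 := by linarith
  linarith

/-- Schwarz integral formula on the unit disc -/
lemma schwarz {f : ℂ → ℂ} (hf : DiffContOnCl ℂ f (ball 0 1)) {w : ℂ} (hw : w ∈ ball (0:ℂ) 1) :
    circleAverage (fun ζ => ((ζ + w) / (ζ - w)) * ((f ζ).re : ℂ)) 0 1 = f w - I * (f 0).im := by
  have hf1 : DiffContOnCl ℂ f (ball 0 |1|) := by simpa using hf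
  have hw1 : w ∈ ball (0:ℂ) |1| := by simpa using hw
  have hne : ∀ ζ ∈ sphere (0:ℂ) 1, ζ - w ≠ 0 := by
    intro ζ hζ h
    have : ζ = w := sub_eq_zero.1 h
    subst this
    simp only [mem_sphere_iff_norm, sub_zero] at hζ
    simp only [mem_ball, dist_zero_right] at hw
    linarith
  have hfc : ContinuousOn f (sphere 0 1) := by
    apply hf.2.mono
    rw [closure_ball 0 one_ne_zero]
    exact sphere_subset_closedBall
  have hHc : ContinuousOn (fun ζ : ℂ => (ζ + w) / (ζ - w)) (sphere 0 1) :=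
    (continuousOn_id.add continuousOn_const).div (continuousOn_id.sub continuousOn_const) hne
  have hci : ∀ g : ℂ → ℂ, ContinuousOn g (sphere 0 1) → CircleIntegrable g 0 1 := by
    intro g hg
    exact hg.circleIntegrable zero_le_one
  -- A1: avg (H f) = 2 f w - f 0
  have A1 : circleAverage (fun ζ => ((ζ + w) / (ζ - w)) * f ζ) 0 1 = 2 * f w - f 0 := by
    have h1 := hf1.circleAverage_smul_div hw1
    have h2 := hf1.circleAverage
    have h3 : circleAverage (fun ζ => ((ζ + w) / (ζ - w)) * f ζ) 0 1 =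
        circleAverage (fun ζ => (2 : ℂ) • (((ζ - 0) / (ζ - w)) • f ζ) - f ζ) 0 1 := by
      apply circleAverage_congr_sphere
      intro ζ hζ
      rw [abs_one] at hζ
      have h4 := hne ζ hζ
      simp only [smul_eq_mul, sub_zero]
      field_simp
      ring
    rw [h3, circleAverage_fun_sub, circleAverage_fun_smul, h1, h2, smul_eq_mul]
    · apply hci
      have h5 : ContinuousOn (fun ζ : ℂ => (ζ - 0) / (ζ - w)) (sphere 0 1) :=
        (continuousOn_id.sub continuousOn_const).div (continuousOn_id.sub continuousOn_const) hne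
      have h6 : ContinuousOn (fun ζ : ℂ => (2 : ℂ) * (((ζ - 0) / (ζ - w)) * f ζ)) (sphere 0 1) :=
        continuousOn_const.mul (h5.mul hfc)
      exact h6
    · exact hci _ hfc
  -- A2: Poisson
  have A2 : circleAverage (fun ζ => (((ζ + w) / (ζ - w)).re : ℂ) * f ζ) 0 1 = f w := by
    have h1 := hf.circleAverage_re_herglotzRieszKernel_smul' hw
    simpa using h1
  have A3 : circleAverage (fun ζ => conj ((ζ + w) / (ζ - w)) * f ζ) 0 1 = f 0 := by
    have h1 : circleAverage (fun ζ => conj ((ζ + w) / (ζ - w)) * f ζ) 0 1 =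
        circleAverage (fun ζ => (2 : ℂ) • ((((ζ + w) / (ζ - w)).re : ℂ) * f ζ) -
          ((ζ + w) / (ζ - w)) * f ζ) 0 1 := by
      congr 1
      funext ζ
      have h2 : conj ((ζ + w) / (ζ - w)) = 2 * (((ζ + w) / (ζ - w)).re : ℂ) -
          ((ζ + w) / (ζ - w)) := by
        have := Complex.add_conj ((ζ + w) / (ζ - w))
        push_cast at this
        linear_combination this
      rw [h2, smul_eq_mul]
      ring
    rw [h1, circleAverage_fun_sub, circleAverage_fun_smul, A1, A2, smul_eq_mul]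
    · ring
    · apply hci
      have h5 : ContinuousOn (fun ζ => (2 : ℂ) * ((((ζ + w) / (ζ - w)).re : ℂ) * f ζ))
          (sphere 0 1) :=
        continuousOn_const.mul ((Complex.continuous_ofReal.comp_continuousOn
          (Complex.continuous_re.comp_continuousOn hHc)).mul hfc)
      exact h5
    · exact hci _ (hHc.mul hfc)
  have A4 : circleAverage (fun ζ => ((ζ + w) / (ζ - w)) * conj (f ζ)) 0 1 = conj (f 0) := by
    have h1 : (fun ζ => ((ζ + w) / (ζ - w)) * conj (f ζ)) =
        (Complex.conjCLE : ℂ →L[ℝ] ℂ) ∘ (fun ζ => conj ((ζ + w) / (ζ - w)) * f ζ) := by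
      funext ζ
      simp
    rw [h1, ContinuousLinearMap.circleAverage_comp_comm, A3]
    · simp
    · apply hci
      exact (Complex.continuous_conj.comp_continuousOn hHc).mul hfc
  have A5 : circleAverage (fun ζ => ((ζ + w) / (ζ - w)) * ((f ζ).re : ℂ)) 0 1 =
      circleAverage (fun ζ => (1 / 2 : ℂ) • (((ζ + w) / (ζ - w)) * f ζ +
          ((ζ + w) / (ζ - w)) * conj (f ζ))) 0 1 := by
    congr 1
    funext ζ
    have h2 : ((f ζ).re : ℂ) = (1 / 2) * (f ζ + conj (f ζ)) := by
      have := Complex.add_conj (f ζ)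
      push_cast at this
      linear_combination (-1/2 : ℂ) * this
    rw [h2, smul_eq_mul]
    ring
  rw [A5, circleAverage_fun_smul, circleAverage_fun_add, A1, A4, smul_eq_mul]
  · have h2 : conj (f 0) = f 0 - 2 * I * (f 0).im := by
      have := Complex.sub_conj (f 0)
      push_cast at this
      linear_combination -this
    rw [h2]
    ring
  · exact hci _ (hHc.mul hfc)
  · exact hci _ (hHc.mul (Complex.continuous_conj.comp_continuousOn hfc))

end Pool.Agent.H765R2.AR
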