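import Mathlib
import Pool.Agent.H765R2.AR3

set_option autoImplicit false

open Complex Metric Filter MeasureTheory Real
open scoped Topology ComplexConjugate

namespace Pool.Agent.H765R2.AR

lemma circleMap_smul (r θ : ℝ) : circleMap 0 r θ = (r : ℂ) * circleMap 0 1 θ := by
  simp [circleMap]

lemma norm_circleMap_zero' (r θ : ℝ) (hr : 0 ≤ r) : ‖circleMap 0 r θ‖ = r := by
  rw [norm_circleMap_zero, abs_of_nonneg hr]

lemma circleAverage_eq_setIntegral {E : Type*} [NormedAddCommGroup E] [NormedSpace ℝ E]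
    (F : ℂ → E) :
    circleAverage F 0 1 = (2 * π)⁻¹ • ∫ θ in Set.Ioc 0 (2 * π), F (circleMap 0 1 θ) := by
  rw [circleAverage_def, intervalIntegral.integral_of_le (by positivity)]

noncomputable def Rk (k : ℕ) : ℝ := 1 - 1 / ((k : ℝ) + 2)

lemma Rk_lt (k : ℕ) : Rk k < 1 := by
  unfold Rk
  have : (0 : ℝ) < 1 / ((k : ℝ) + 2) := by positivity
  linarith

lemma Rk_pos (k : ℕ) : 0 < Rk k := by
  unfold Rk
  have : 1 / ((k : ℝ) + 2) ≤ 1 / 2 := by
    apply one_div_le_one_div_of_le (by norm_num)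
    have : (0 : ℝ) ≤ k := Nat.cast_nonneg k
    linarith
  linarith

lemma Rk_tendsto : Tendsto Rk atTop (𝓝 1) := by
  unfold Rk
  have h1 : Tendsto (fun k : ℕ => 1 / ((k : ℝ) + 2)) atTop (𝓝 0) := by
    apply Tendsto.div_atTop tendsto_const_nhds
    exact tendsto_atTop_add_const_right _ _ tendsto_natCast_atTop_atTop
  simpa using h1.const_sub (1 : ℝ)

lemma Rk_tendsto' : Tendsto Rk atTop (𝓝[<] 1) :=
  tendsto_nhdsWithin_iff.2 ⟨Rk_tendsto, Eventually.of_forall Rk_lt⟩

/-- Herglotz representation with boundary values when the only possible concentration is at 1 -/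
theorem herglotz_lim {h : ℂ → ℂ} (hd : DifferentiableOn ℂ h (ball 0 1))
    (hpos : ∀ z ∈ ball (0:ℂ) 1, 0 ≤ (h z).re)
    (hb : ∀ δ : ℝ, 0 < δ → ∃ C, ∀ z ∈ ball (0:ℂ) 1, δ ≤ ‖z - 1‖ → (h z).re ≤ C)
    (φ : ℂ → ℝ)
    (hφ : ∀ᵐ θ : ℝ, Tendsto (fun r : ℝ => (h (circleMap 0 r θ)).re) (𝓝[<] 1)
      (𝓝 (φ (circleMap 0 1 θ)))) :
    CircleIntegrable φ 0 1 ∧ ∃ c : ℝ, 0 ≤ c ∧ ∀ z ∈ ball (0:ℂ) 1,
      h z = I * (h 0).im + circleAverage (fun ζ => ((ζ + z) / (ζ - z)) * (φ ζ : ℂ)) 0 1 +
        c * ((1 + z) / (1 - z)) := by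
  set μ : Measure ℝ := volume.restrict (Set.Ioc 0 (2 * π)) with hμ
  set w : ℝ → ℝ := fun θ => ‖circleMap 0 1 θ - 1‖ with hw
  have hwc : Continuous w := ((continuous_circleMap 0 1).sub continuous_const).norm
  set G : ℕ → ℝ → ℝ := fun k θ => (h (circleMap 0 (Rk k) θ)).re with hG
  set Φ : ℝ → ℝ := fun θ => φ (circleMap 0 1 θ) with hΦ
  have hmem : ∀ k θ, circleMap 0 (Rk k) θ ∈ ball (0:ℂ) 1 := by
    intro k θ
    rw [mem_ball_zero_iff, norm_circleMap_zero' _ _ (Rk_pos k).le]
    exact Rk_lt k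
  have hGc : ∀ k, Continuous (G k) := by
    intro k
    exact Complex.continuous_re.comp
      (hd.continuousOn.comp_continuous (continuous_circleMap 0 (Rk k)) (hmem k))
  have hGi : ∀ k, Integrable (G k) μ := by
    intro k
    exact (hGc k).integrableOn_Ioc
  have hG0 : ∀ k θ, 0 ≤ G k θ := fun k θ => hpos _ (hmem k θ)
  -- f_k
  have hfk : ∀ k, DiffContOnCl ℂ (fun z => h (Rk k * z)) (ball 0 1) := by
    intro k
    have h1 : DifferentiableOn ℂ (fun z : ℂ => h (Rk k * z)) (closedBall 0 1) := by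
      apply hd.comp (f := fun z : ℂ => (Rk k : ℂ) * z)
      · exact (differentiable_const _ |>.mul differentiable_id).differentiableOn
      · intro z hz
        rw [mem_closedBall_zero_iff] at hz
        rw [mem_ball_zero_iff, norm_mul, Complex.norm_real, Real.norm_eq_abs,
          abs_of_pos (Rk_pos k)]
        calc Rk k * ‖z‖ ≤ Rk k * 1 := mul_le_mul_of_nonneg_left hz (Rk_pos k).le
          _ < 1 := by rw [mul_one]; exact Rk_lt k
    exact h1.diffContOnCl_ball Set.Subset.rfl
  have hmean : ∀ k, ∫ θ, G k θ ∂μ = (2 * π) * (h 0).re := by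
    intro k
    have h1 := schwarz (hfk k) (w := 0) (by simp)
    rw [circleAverage_eq_setIntegral] at h1
    have h2 : ∫ θ in Set.Ioc 0 (2 * π), (((circleMap 0 1 θ) + 0) / (circleMap 0 1 θ - 0)) *
        (((h (Rk k * circleMap 0 1 θ)).re : ℝ) : ℂ) = ((∫ θ, G k θ ∂μ : ℝ) : ℂ) := by
      rw [← integral_complex_ofReal]
      apply integral_congr_ae
      refine Eventually.of_forall fun θ => ?_
      simp only
      have h3 : circleMap 0 1 θ ≠ 0 := by
        intro h4
        have := norm_circleMap_zero' 1 θ zero_le_one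
        rw [h4, norm_zero] at this
        exact zero_ne_one this
      rw [add_zero, sub_zero, div_self h3, one_mul, ← circleMap_smul]
    rw [h2, mul_zero] at h1
    have h3 := congrArg Complex.re h1
    simp only [real_smul, ← Complex.ofReal_mul, Complex.ofReal_re, Complex.sub_re, Complex.mul_re,
      Complex.I_re, Complex.I_im, Complex.ofReal_im, zero_mul, mul_zero, sub_zero] at h3
    rw [← h3, ← mul_assoc, mul_inv_cancel₀ (by positivity), one_mul]
  have hlim : ∀ᵐ θ ∂μ, Tendsto (fun k => G k θ) atTop (𝓝 (Φ θ)) := by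
    apply ae_restrict_of_ae
    filter_upwards [hφ] with θ h1
    exact h1.comp Rk_tendsto'
  have hbb : ∀ δ : ℝ, 0 < δ → ∃ C, ∀ᶠ k in atTop, ∀ θ, δ ≤ w θ → G k θ ≤ C := by
    intro δ hδ
    obtain ⟨C, hC⟩ := hb (δ / 2) (by positivity)
    refine ⟨C, ?_⟩
    have h1 : ∀ᶠ k in atTop, 1 - δ / 2 < Rk k :=
      Rk_tendsto.eventually (lt_mem_nhds (by linarith))
    filter_upwards [h1] with k hk θ hθ
    apply hC _ (hmem k θ)
    have h2 : ‖circleMap 0 1 θ - 1‖ ≤ ‖circleMap 0 (Rk k) θ - 1‖ + (1 - Rk k) := by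
      have h3 : circleMap 0 1 θ - 1 = (circleMap 0 (Rk k) θ - 1) +
          ((1 - Rk k : ℝ) : ℂ) * circleMap 0 1 θ := by
        rw [circleMap_smul (Rk k) θ]
        push_cast
        ring
      rw [h3]
      refine (norm_add_le _ _).trans ?_
      rw [norm_mul, norm_circleMap_zero' 1 θ zero_le_one, mul_one, Complex.norm_real,
        Real.norm_eq_abs, abs_of_pos (by linarith [Rk_lt k])]
    have h4 : δ ≤ ‖circleMap 0 1 θ - 1‖ := hθ
    linarith
  obtain ⟨hΦi, hΦM, hconv⟩ := abs_conv w hwc.measurable G Φ hGi hG0 ((2 * π) * (h 0).re)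
    (fun k => (hmean k).le) hlim hbb
  have hci : CircleIntegrable φ 0 1 := by
    rw [CircleIntegrable, intervalIntegrable_iff, Set.uIoc_of_le (by positivity)]
    exact hΦi
  refine ⟨hci, (h 0).re - circleAverage φ 0 1, ?_, ?_⟩
  · rw [circleAverage_eq_setIntegral, smul_eq_mul]
    have h1 : ∫ θ in Set.Ioc 0 (2 * π), φ (circleMap 0 1 θ) ≤ (2 * π) * (h 0).re := hΦM
    have h2 : (2 * π)⁻¹ * ∫ θ in Set.Ioc 0 (2 * π), φ (circleMap 0 1 θ) ≤
        (2 * π)⁻¹ * ((2 * π) * (h 0).re) := mul_le_mul_of_nonneg_left h1 (by positivity)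
    rw [← mul_assoc, inv_mul_cancel₀ (by positivity), one_mul] at h2
    linarith
  · intro z hz
    have hz1 : ‖z‖ < 1 := by simpa using hz
    have hne : ∀ θ, circleMap 0 1 θ - z ≠ 0 := by
      intro θ h1
      have h2 : circleMap 0 1 θ = z := sub_eq_zero.1 h1
      have := norm_circleMap_zero' 1 θ zero_le_one
      rw [h2] at this
      linarith
    have hne1 : (1 : ℂ) - z ≠ 0 := by
      intro h1
      have h2 : (1 : ℂ) = z := sub_eq_zero.1 h1
      rw [← h2, norm_one] at hz1
      exact lt_irrefl _ hz1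
    set D : ℝ → ℂ := fun θ => (circleMap 0 1 θ + z) / (circleMap 0 1 θ - z) -
      (1 + z) / (1 - z) with hD
    have hDc : Continuous D := by
      apply Continuous.sub _ continuous_const
      exact ((continuous_circleMap 0 1).add continuous_const).div
        ((continuous_circleMap 0 1).sub continuous_const) hne
    set K : ℝ := 2 / (1 - ‖z‖) ^ 2 with hK
    have h1z : 0 < 1 - ‖z‖ := by linarith
    have hKn : 0 ≤ K := by positivity
    have hDw : ∀ θ, ‖D θ‖ ≤ K * w θ := by
      intro θ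
      have h1 : D θ = 2 * z * (1 - circleMap 0 1 θ) / ((circleMap 0 1 θ - z) * (1 - z)) := by
        simp only [hD]
        have := hne θ
        field_simp
        ring
      rw [h1, norm_div, norm_mul, norm_mul, norm_mul]
      have h2 : 1 - ‖z‖ ≤ ‖circleMap 0 1 θ - z‖ := by
        have := norm_sub_norm_le (circleMap 0 1 θ) z
        rw [norm_circleMap_zero' 1 θ zero_le_one] at this
        exact this
      have h3 : 1 - ‖z‖ ≤ ‖(1 : ℂ) - z‖ := by
        have := norm_sub_norm_le (1 : ℂ) z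
        rw [norm_one] at this
        exact this
      have h4 : ‖(2 : ℂ)‖ = 2 := by norm_num
      rw [h4, norm_sub_rev (1 : ℂ) (circleMap 0 1 θ)]
      calc 2 * ‖z‖ * ‖circleMap 0 1 θ - 1‖ / (‖circleMap 0 1 θ - z‖ * ‖1 - z‖)
          ≤ 2 * 1 * ‖circleMap 0 1 θ - 1‖ / ((1 - ‖z‖) * (1 - ‖z‖)) := by
            gcongr
        _ = K * w θ := by rw [hK, hw]; ring
    have hDK : ∀ θ, ‖D θ‖ ≤ K * 2 := by
      intro θ
      refine (hDw θ).trans (mul_le_mul_of_nonneg_left ?_ hKn)
      calc w θ ≤ ‖circleMap 0 1 θ‖ + ‖(1 : ℂ)‖ := norm_sub_le _ _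
        _ = 2 := by rw [norm_circleMap_zero' 1 θ zero_le_one, norm_one]; norm_num
    have hc := hconv D hDc.aestronglyMeasurable K (K * 2) hKn hDw hDK
    -- identify the integrals
    have hint : ∀ k, ∫ θ, D θ * (G k θ : ℂ) ∂μ =
        (2 * π) * (h (Rk k * z) - I * (h 0).im - (1 + z) / (1 - z) * (h 0).re) := by
      intro k
      have h1 := schwarz (hfk k) hz
      rw [circleAverage_eq_setIntegral, mul_zero] at h1
      have h2 : ∫ θ, D θ * (G k θ : ℂ) ∂μ = (∫ θ, ((circleMap 0 1 θ + z) / (circleMap 0 1 θ - z)) *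
          (G k θ : ℂ) ∂μ) - (1 + z) / (1 - z) * ∫ θ, (G k θ : ℂ) ∂μ := by
        rw [← integral_const_mul, ← integral_sub]
        · apply integral_congr_ae
          refine Eventually.of_forall fun θ => ?_
          simp only [hD]
          ring
        · apply Continuous.integrableOn_Ioc
          exact (((continuous_circleMap 0 1).add continuous_const).div
            ((continuous_circleMap 0 1).sub continuous_const) hne).mul
            (Complex.continuous_ofReal.comp (hGc k))
        · exact (hGi k).ofReal.const_mul _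
      have h3 : ∫ θ, (G k θ : ℂ) ∂μ = ((2 * π) * (h 0).re : ℝ) := by
        rw [integral_complex_ofReal, hmean k]
      have h4 : ∫ θ, ((circleMap 0 1 θ + z) / (circleMap 0 1 θ - z)) * (G k θ : ℂ) ∂μ =
          (2 * π) * (h (Rk k * z) - I * (h 0).im) := by
        rw [← h1, real_smul]
        push_cast
        rw [← mul_assoc, mul_inv_cancel₀ (by simp), one_mul]
        apply integral_congr_ae
        refine Eventually.of_forall fun θ => ?_
        simp only [hG]
        rw [← circleMap_smul]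
      rw [h2, h3, h4]
      push_cast
      ring
    have hcont : Tendsto (fun k => h (Rk k * z)) atTop (𝓝 (h z)) := by
      have h1 : ContinuousAt h z := hd.continuousOn.continuousAt (isOpen_ball.mem_nhds hz)
      have h2 : Tendsto (fun k => (Rk k : ℂ) * z) atTop (𝓝 z) := by
        have h3 : Tendsto (fun k => (Rk k : ℂ)) atTop (𝓝 ((1 : ℝ) : ℂ)) :=
          (Complex.continuous_ofReal.tendsto _).comp Rk_tendsto
        simpa using h3.mul_const z
      exact h1.tendsto.comp h2
    have hlim2 : Tendsto (fun k => ∫ θ, D θ * (G k θ : ℂ) ∂μ) atTop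
        (𝓝 ((2 * π) * (h z - I * (h 0).im - (1 + z) / (1 - z) * (h 0).re))) := by
      simp_rw [hint]
      exact ((hcont.sub_const _).sub_const _).const_mul _
    have heq := tendsto_nhds_unique hc hlim2
    have h5 : ∫ θ, D θ * (Φ θ : ℂ) ∂μ = (2 * π) *
        (circleAverage (fun ζ => ((ζ + z) / (ζ - z)) * (φ ζ : ℂ)) 0 1 -
          (1 + z) / (1 - z) * (circleAverage φ 0 1 : ℝ)) := by
      have hi1 : Integrable (fun θ => (circleMap 0 1 θ + z) / (circleMap 0 1 θ - z) *
          (Φ θ : ℂ)) μ := by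
        apply hΦi.ofReal.bdd_mul (c := K * 2 + ‖(1 + z) / (1 - z)‖)
        · exact (((continuous_circleMap 0 1).add continuous_const).div
            ((continuous_circleMap 0 1).sub continuous_const) hne).aestronglyMeasurable
        · refine Eventually.of_forall fun θ => ?_
          have h6 : (circleMap 0 1 θ + z) / (circleMap 0 1 θ - z) = D θ + (1 + z) / (1 - z) := by
            simp only [hD]; ring
          rw [h6]
          exact (norm_add_le _ _).trans (by linarith [hDK θ])
      have h6 : ∫ θ, D θ * (Φ θ : ℂ) ∂μ = (∫ θ, ((circleMap 0 1 θ + z) / (circleMap 0 1 θ - z)) *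
          (Φ θ : ℂ) ∂μ) - (1 + z) / (1 - z) * ∫ θ, (Φ θ : ℂ) ∂μ := by
        have hi2 : Integrable (fun θ => (1 + z) / (1 - z) * (Φ θ : ℂ)) μ :=
          hΦi.ofReal.const_mul _
        rw [← integral_const_mul, ← integral_sub hi1 hi2]
        apply integral_congr_ae
        refine Eventually.of_forall fun θ => ?_
        simp only [hD]
        ring
      rw [h6, circleAverage_eq_setIntegral, circleAverage_eq_setIntegral, real_smul, smul_eq_mul,
        integral_complex_ofReal]
      push_cast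
      have hpi : (π : ℂ) ≠ 0 := by simp
      field_simp
      ring
    rw [h5] at heq
    have hpi : (2 * (π : ℂ)) ≠ 0 := by simp
    have h7 := mul_left_cancel₀ hpi heq
    push_cast
    linear_combination -h7

end Pool.Agent.H765R2.AR
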