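import Mathlib
import Pool.Agent.H765R2.AR2

set_option autoImplicit false

open Complex Metric Filter MeasureTheory Real
open scoped Topology ComplexConjugate

namespace Pool.Agent.H765R2.AR

noncomputable def bet : ℂ := B0 0

lemma bet_lt : ‖bet‖ < 1 := B0_lt (by simp)

noncomputable def den (z : ℂ) : ℂ := 1 - conj bet * B0 z

noncomputable def kap : ℝ := Real.sqrt (1 - ‖bet‖ ^ 2)

lemma kap_pos : 0 < kap := by
  unfold kap
  apply Real.sqrt_pos.2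
  have := bet_lt
  nlinarith [norm_nonneg bet]

lemma kap_sq : kap ^ 2 = 1 - ‖bet‖ ^ 2 := by
  unfold kap
  apply Real.sq_sqrt
  have := bet_lt
  nlinarith [norm_nonneg bet]

noncomputable def chi (z : ℂ) : ℂ := (B0 z - bet) / den z
noncomputable def AA (z : ℂ) : ℂ := (kap : ℂ) * A0 z / den z
noncomputable def GG (z : ℂ) : ℂ := (-B0 z - conj bet * (A0 z ^ 2 - B0 z ^ 2)) / den z

lemma den_ge {z : ℂ} (hz : ‖z‖ ≤ 1) : 1 - ‖bet‖ ≤ ‖den z‖ := by
  unfold den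
  have h1 := norm_sub_norm_le (1 : ℂ) (conj bet * B0 z)
  rw [norm_one, norm_mul, Complex.norm_conj] at h1
  have h2 : ‖bet‖ * ‖B0 z‖ ≤ ‖bet‖ * 1 :=
    mul_le_mul_of_nonneg_left (B0_lt hz).le (norm_nonneg _)
  linarith

lemma den_le {z : ℂ} (hz : ‖z‖ ≤ 1) : ‖den z‖ ≤ 2 := by
  unfold den
  have h1 := norm_sub_le (1 : ℂ) (conj bet * B0 z)
  rw [norm_one, norm_mul, Complex.norm_conj] at h1
  have h2 : ‖bet‖ * ‖B0 z‖ ≤ 1 * 1 :=
    mul_le_mul bet_lt.le (B0_lt hz).le (norm_nonneg _) zero_le_one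
  linarith

lemma den_ne {z : ℂ} (hz : ‖z‖ ≤ 1) : den z ≠ 0 := by
  have h1 := den_ge hz
  have h2 := bet_lt
  intro h
  rw [h, norm_zero] at h1
  linarith

lemma den_pos {z : ℂ} (hz : ‖z‖ ≤ 1) : 0 < ‖den z‖ := norm_pos_iff.2 (den_ne hz)

lemma schwarz_pick (z : ℂ) : ‖den z‖ ^ 2 - ‖B0 z - bet‖ ^ 2 =
    (1 - ‖bet‖ ^ 2) * (1 - ‖B0 z‖ ^ 2) := by
  unfold den
  generalize B0 z = b
  generalize bet = β
  rw [← Complex.normSq_eq_norm_sq, ← Complex.normSq_eq_norm_sq, ← Complex.normSq_eq_norm_sq,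
    ← Complex.normSq_eq_norm_sq]
  simp only [Complex.normSq_apply, Complex.sub_re, Complex.sub_im, Complex.mul_re, Complex.mul_im,
    Complex.one_re, Complex.one_im, Complex.conj_re, Complex.conj_im]
  ring

lemma one_sub_chi {z : ℂ} (hz : ‖z‖ ≤ 1) :
    1 - ‖chi z‖ ^ 2 = (1 - ‖bet‖ ^ 2) * (1 - ‖B0 z‖ ^ 2) / ‖den z‖ ^ 2 := by
  have h1 := den_pos hz
  rw [← schwarz_pick z]
  unfold chi
  rw [norm_div, div_pow]
  field_simp

lemma AA_sq {z : ℂ} : ‖AA z‖ ^ 2 = (1 - ‖bet‖ ^ 2) * ‖A0 z‖ ^ 2 / ‖den z‖ ^ 2 := by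
  unfold AA
  rw [norm_div, norm_mul, Complex.norm_real, Real.norm_eq_abs, abs_of_pos kap_pos, div_pow,
    mul_pow, kap_sq]

lemma chi_AA_le {z : ℂ} (hz : ‖z‖ ≤ 1) : ‖AA z‖ ^ 2 ≤ 1 - ‖chi z‖ ^ 2 := by
  rw [one_sub_chi hz, AA_sq]
  have h1 := AB_le hz
  have h2 : 0 ≤ 1 - ‖bet‖ ^ 2 := by rw [← kap_sq]; positivity
  gcongr
  linarith

lemma chi_AA_eq {z : ℂ} (hz : ‖z‖ = 1) (h1 : z ≠ 1) (h2 : z ≠ -1) :
    1 - ‖chi z‖ ^ 2 = ‖AA z‖ ^ 2 := by
  rw [one_sub_chi hz.le, AA_sq]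
  have h3 := AB_eq hz h1 h2
  congr 2
  linarith

lemma AA_ne {z : ℂ} (hz : ‖z‖ ≤ 1) : AA z ≠ 0 := by
  unfold AA
  have := kap_pos
  exact div_ne_zero (mul_ne_zero (by exact_mod_cast kap_pos.ne') (A0_ne hz)) (den_ne hz)

lemma chi_zero : chi 0 = 0 := by
  unfold chi bet; simp

lemma chi_lt {z : ℂ} (hz : ‖z‖ ≤ 1) : ‖chi z‖ < 1 := by
  have h1 := chi_AA_le hz
  have h2 : 0 < ‖AA z‖ := norm_pos_iff.2 (AA_ne hz)
  nlinarith [norm_nonneg (chi z)]

lemma AA_le_one {z : ℂ} (hz : ‖z‖ ≤ 1) : ‖AA z‖ ≤ 1 := by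
  have h1 := chi_AA_le hz
  nlinarith [norm_nonneg (chi z), norm_nonneg (AA z)]

lemma den_diff {z : ℂ} (hz : ‖z‖ ≤ 1) (h1 : z ≠ 1) (h2 : z ≠ -1) : DifferentiableAt ℂ den z := by
  unfold den
  exact (differentiableAt_const _).sub ((differentiableAt_const _).mul (B0_diff hz h1 h2))

lemma chi_diff {z : ℂ} (hz : ‖z‖ ≤ 1) (h1 : z ≠ 1) (h2 : z ≠ -1) : DifferentiableAt ℂ chi z := by
  unfold chi
  exact ((B0_diff hz h1 h2).sub (differentiableAt_const _)).div (den_diff hz h1 h2) (den_ne hz)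

lemma AA_diff {z : ℂ} (hz : ‖z‖ ≤ 1) (h1 : z ≠ 1) (h2 : z ≠ -1) : DifferentiableAt ℂ AA z := by
  unfold AA
  exact ((differentiableAt_const _).mul (A0_diff hz h1 h2)).div (den_diff hz h1 h2) (den_ne hz)

lemma GG_diff {z : ℂ} (hz : ‖z‖ ≤ 1) (h1 : z ≠ 1) (h2 : z ≠ -1) : DifferentiableAt ℂ GG z := by
  unfold GG
  exact ((B0_diff hz h1 h2).neg.sub ((differentiableAt_const _).mul
    (((A0_diff hz h1 h2).pow 2).sub ((B0_diff hz h1 h2).pow 2)))).div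
    (den_diff hz h1 h2) (den_ne hz)

lemma A0_le {z : ℂ} (hz : ‖z‖ ≤ 1) : ‖A0 z‖ ≤ 1 := by
  have h1 := AB_le hz
  nlinarith [norm_nonneg (B0 z), norm_nonneg (A0 z)]

lemma GG_bdd {z : ℂ} (hz : ‖z‖ ≤ 1) : ‖GG z‖ ≤ 3 / (1 - ‖bet‖) := by
  unfold GG
  rw [norm_div]
  have h0 : 0 < 1 - ‖bet‖ := by linarith [bet_lt]
  have h1 : ‖-B0 z - conj bet * (A0 z ^ 2 - B0 z ^ 2)‖ ≤ 3 := by
    refine (norm_sub_le _ _).trans ?_
    rw [norm_neg, norm_mul, Complex.norm_conj]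
    have h2 : ‖A0 z ^ 2 - B0 z ^ 2‖ ≤ 2 := by
      refine (norm_sub_le _ _).trans ?_
      rw [norm_pow, norm_pow]
      have := A0_le hz
      have h3 := (B0_lt hz).le
      nlinarith [norm_nonneg (B0 z), norm_nonneg (A0 z)]
    have h4 : ‖bet‖ * ‖A0 z ^ 2 - B0 z ^ 2‖ ≤ 1 * 2 :=
      mul_le_mul bet_lt.le h2 (norm_nonneg _) zero_le_one
    linarith [(B0_lt hz).le]
  have h5 := den_ge hz
  gcongr

lemma GG_bdry {z : ℂ} (hz : ‖z‖ = 1) (h1 : z ≠ 1) (h2 : z ≠ -1) :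
    conj (chi z) * AA z / conj (AA z) = GG z := by
  have hA := A0_ne hz.le
  have hcA : conj (A0 z) ≠ 0 := by simpa using hA
  have hd := den_ne hz.le
  have hcd : conj (den z) ≠ 0 := by simpa using hd
  have hk : (kap : ℂ) ≠ 0 := by exact_mod_cast kap_pos.ne'
  have hsym := BA_sym hz h1 h2
  have heq := AB_eq hz h1 h2
  have heq' : A0 z * conj (A0 z) + B0 z * conj (B0 z) = 1 := by
    rw [Complex.mul_conj, Complex.mul_conj, Complex.normSq_eq_norm_sq, Complex.normSq_eq_norm_sq,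
      ← Complex.ofReal_add, heq, Complex.ofReal_one]
  have key : A0 z ^ 2 - B0 z ^ 2 = A0 z / conj (A0 z) := by
    rw [eq_div_iff hcA]
    linear_combination (-(B0 z)) * hsym + (A0 z) * heq'
  have key2 : conj (B0 z) * A0 z / conj (A0 z) = - B0 z := by
    rw [hsym]
    field_simp
  unfold GG chi AA
  rw [key]
  simp only [map_div₀, map_mul, map_sub, Complex.conj_ofReal]
  have e : (conj (B0 z) - conj bet) / conj (den z) * ((kap : ℂ) * A0 z / den z) /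
      ((kap : ℂ) * conj (A0 z) / conj (den z)) =
      (conj (B0 z) * A0 z / conj (A0 z) - conj bet * (A0 z / conj (A0 z))) / den z := by
    field_simp
  rw [e, key2]

lemma AA_local {z : ℂ} (hz : ‖z‖ < 1) {δ : ℝ} (hδ : 0 < δ) (hd : δ ≤ ‖z - 1‖) :
    kap / 2 * (2 / ((3 + 2 / δ) * Real.exp (Real.sqrt (2 / δ)))) ≤ ‖AA z‖ := by
  have h1 := A0_local hz hδ hd
  have h2 := den_le hz.le
  have h3 := den_pos hz.le
  have h4 := kap_pos
  unfold AA
  rw [norm_div, norm_mul, Complex.norm_real, Real.norm_eq_abs, abs_of_pos kap_pos,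
    le_div_iff₀ h3]
  calc kap / 2 * (2 / ((3 + 2 / δ) * Real.exp (Real.sqrt (2 / δ)))) * ‖den z‖
      ≤ kap / 2 * ‖A0 z‖ * 2 := by gcongr
    _ = kap * ‖A0 z‖ := by ring

lemma chi_diag {r : ℝ} (hr : 1 / 2 ≤ r) (hr1 : r < 1) :
    (1 - ‖bet‖ ^ 2) / 72 * Real.sqrt (1 - r) ≤ 1 - ‖chi r‖ ^ 2 := by
  have h1r : 0 < 1 - r := by linarith
  have hz : ‖(r : ℂ)‖ ≤ 1 := by
    rw [Complex.norm_real, Real.norm_eq_abs, abs_of_nonneg (by linarith)]; linarith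
  set q := Real.sqrt ((1 + r) / (1 - r) / 2) with hq
  have hq1 : 1 ≤ q := by
    rw [hq]
    apply Real.one_le_sqrt.2
    rw [div_div, le_div_iff₀ (by positivity)]
    linarith
  have hb := one_sub_b0_diag hq1
  have hs : B0 r = b0 ⟨q, q⟩ := by
    unfold B0
    rw [sq_real (by linarith) hr1]
  rw [← hs] at hb
  rw [one_sub_chi hz]
  have hk : 0 ≤ 1 - ‖bet‖ ^ 2 := by rw [← kap_sq]; positivity
  have hd := den_le hz
  have hdp := den_pos hz
  -- q ≤ 1/ sqrt(1-r)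
  have hq2 : q * Real.sqrt (1 - r) ≤ 1 := by
    rw [hq, ← Real.sqrt_mul (by positivity)]
    apply Real.sqrt_le_one.2
    have : (1 + r) / (1 - r) / 2 * (1 - r) = (1 + r) / 2 := by field_simp
    rw [this]; linarith
  have hqpos : 0 < q := by linarith
  have h5 : Real.sqrt (1 - r) / 18 ≤ 1 - ‖B0 r‖ ^ 2 := by
    refine le_trans ?_ hb
    rw [div_le_div_iff₀ (by norm_num) (by positivity)]
    nlinarith
  rw [le_div_iff₀ (by positivity)]
  have h6 : ‖den r‖ ^ 2 ≤ 4 := by nlinarith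
  calc (1 - ‖bet‖ ^ 2) / 72 * Real.sqrt (1 - r) * ‖den r‖ ^ 2
      ≤ (1 - ‖bet‖ ^ 2) / 72 * Real.sqrt (1 - r) * 4 := by gcongr
    _ = (1 - ‖bet‖ ^ 2) * (Real.sqrt (1 - r) / 18) := by ring
    _ ≤ (1 - ‖bet‖ ^ 2) * (1 - ‖B0 r‖ ^ 2) := by gcongr

/-- lower bound for `AA` on the real segment -/
lemma AA_real {r : ℝ} (hr : 0 ≤ r) (hr1 : r < 1) :
    -Real.log ‖AA r‖ * (1 - r) ≤ (-Real.log (kap / 2) + 5) * (1 - r) +
      5 * Real.sqrt (1 - r) := by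
  have h1r : 0 < 1 - r := by linarith
  have hz : ‖(r : ℂ)‖ < 1 := by
    rw [Complex.norm_real, Real.norm_eq_abs, abs_of_nonneg (by linarith)]; linarith
  have hd : 1 - r ≤ ‖(r : ℂ) - 1‖ := by
    have h2 : ((r : ℂ) - 1) = ((r - 1 : ℝ) : ℂ) := by push_cast; rfl
    rw [h2, Complex.norm_real, Real.norm_eq_abs, abs_of_neg (by linarith)]
    linarith
  have h3 := AA_local hz h1r hd
  have hkp := kap_pos
  have hpos : 0 < kap / 2 * (2 / ((3 + 2 / (1 - r)) * Real.exp (Real.sqrt (2 / (1 - r))))) := by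
    positivity
  have h4 := Real.log_le_log hpos h3
  set y := Real.sqrt (2 / (1 - r)) with hy
  have hy2 : y ^ 2 = 2 / (1 - r) := Real.sq_sqrt (by positivity)
  have hy0 : 0 ≤ y := Real.sqrt_nonneg _
  rw [← hy2] at h4
  have e1 : Real.log (kap / 2 * (2 / ((3 + y ^ 2) * Real.exp y))) =
      Real.log (kap / 2) + Real.log (2 / ((3 + y ^ 2) * Real.exp y)) :=
    Real.log_mul (by positivity) (by positivity)
  have e2 : Real.log (2 / ((3 + y ^ 2) * Real.exp y)) =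
      Real.log 2 - (Real.log (3 + y ^ 2) + y) := by
    rw [Real.log_div (by norm_num) (by positivity), Real.log_mul (by positivity) (by positivity),
      Real.log_exp]
  rw [e1, e2] at h4
  have h5 : Real.log (3 + y ^ 2) ≤ 2 * y + 5 := by
    have h6 : 3 + y ^ 2 ≤ (3 + y) ^ 2 := by nlinarith
    calc Real.log (3 + y ^ 2) ≤ Real.log ((3 + y) ^ 2) := Real.log_le_log (by positivity) h6
      _ = 2 * Real.log (3 + y) := by rw [Real.log_pow]; norm_num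
      _ ≤ 2 * ((3 + y) - 1) := by
          have := Real.log_le_sub_one_of_pos (show 0 < 3 + y by positivity)
          linarith
      _ ≤ 2 * y + 5 := by linarith
  have hlog2 : 0 ≤ Real.log 2 := Real.log_nonneg (by norm_num)
  have h7 : -Real.log ‖AA r‖ ≤ (-Real.log (kap / 2) + 5) + 3 * y := by linarith
  have h8 : y * (1 - r) = Real.sqrt 2 * Real.sqrt (1 - r) := by
    have h9 : y = Real.sqrt 2 / Real.sqrt (1 - r) := by rw [hy, Real.sqrt_div (by norm_num)]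
    have h10 : 0 < Real.sqrt (1 - r) := Real.sqrt_pos.2 h1r
    have h11 : Real.sqrt (1 - r) * Real.sqrt (1 - r) = 1 - r := Real.mul_self_sqrt h1r.le
    rw [h9]
    field_simp
    nlinarith
  have h12 : Real.sqrt 2 ≤ 5 / 3 := by
    rw [Real.sqrt_le_left (by norm_num)]
    norm_num
  have h13 : 0 ≤ Real.sqrt (1 - r) := Real.sqrt_nonneg _
  calc -Real.log ‖AA r‖ * (1 - r) ≤ ((-Real.log (kap / 2) + 5) + 3 * y) * (1 - r) :=
        mul_le_mul_of_nonneg_right h7 h1r.le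
    _ = (-Real.log (kap / 2) + 5) * (1 - r) + 3 * (Real.sqrt 2 * Real.sqrt (1 - r)) := by
        rw [← h8]; ring
    _ ≤ _ := by nlinarith

end Pool.Agent.H765R2.AR
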