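import Mathlib

set_option autoImplicit false

open Complex Metric Filter MeasureTheory Real
open scoped Topology ComplexConjugate

/-!
Scalar case `N = M = ℂ` of the objects of the problem (absolute continuity and a
Hankel-resolvent limit condition).
-/

namespace Pool.Agent.H765R2.Hank

/-- the class `B(ℂ, ℂ)`: analytic functions on the open unit disc bounded by one -/
def Schur (f : ℂ → ℂ) : Prop :=
  DifferentiableOn ℂ f (ball 0 1) ∧ ∀ z ∈ ball (0 : ℂ) 1, ‖f z‖ ≤ 1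

/-- radial boundary value at the point `ζ` of the unit circle -/
noncomputable def bv (f : ℂ → ℂ) (ζ : ℂ) : ℂ :=
  limUnder (𝓝[<] (1 : ℝ)) (fun r : ℝ => f (r * ζ))

/-- the Herglotz measure of `(1 + χ E) / (1 - χ E)` is absolutely continuous,
with density `s` with respect to normalised Lebesgue measure -/
def AC (χ E : ℂ → ℂ) : Prop :=
  ∃ s : ℂ → ℝ, (∀ ζ, 0 ≤ s ζ) ∧ CircleIntegrable s 0 1 ∧ ∀ z ∈ ball (0 : ℂ) 1,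
    (1 + χ z * E z) / (1 - χ z * E z) =
      circleAverage (fun ζ => ((ζ + z) / (ζ - z)) * (s ζ : ℂ)) 0 1

/-- `χ ∈ B_a(ℂ, ℂ)` -/
def InBa (χ : ℂ → ℂ) : Prop :=
  Schur χ ∧ χ 0 = 0 ∧ ∀ E : ℂ → ℂ, Schur E → AC χ E

/-- `1 - |χ|²` on the circle -/
noncomputable def wt (χ : ℂ → ℂ) (ζ : ℂ) : ℝ := 1 - ‖bv χ ζ‖ ^ 2

/-- `χ ∈ B⁰_Sz(ℂ, ℂ)`: `log (1 - |χ|²)` is integrable on the circle
(in particular `|χ| < 1` almost everywhere) -/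
def InSz (χ : ℂ → ℂ) : Prop :=
  Schur χ ∧ χ 0 = 0 ∧ (∀ᵐ θ : ℝ, 0 < wt χ (circleMap 0 1 θ)) ∧
    CircleIntegrable (fun ζ => Real.log (wt χ ζ)) 0 1

/-- the outer function, positive at the origin, with `|·|² = 1 - |χ|²` on the circle; it is
`P₊⁻¹` and (in the scalar case) also `(P₋⁻¹)^*` -/
noncomputable def outer (χ : ℂ → ℂ) (z : ℂ) : ℂ :=
  Complex.exp (circleAverage
    (fun ζ => ((ζ + z) / (ζ - z)) * ((Real.log (wt χ ζ) / 2 : ℝ) : ℂ)) 0 1)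

/-- `f₀ = P₋ χ^* P₊⁻¹` on the circle -/
noncomputable def f0 (χ : ℂ → ℂ) (ζ : ℂ) : ℂ :=
  (conj (bv (outer χ) ζ))⁻¹ * conj (bv χ ζ) * bv (outer χ) ζ

/-- the Fourier coefficient `\hat f₀(-n)` -/
noncomputable def gam (χ : ℂ → ℂ) (n : ℕ) : ℂ :=
  circleAverage (fun ζ => ζ ^ n * f0 χ ζ) 0 1

/-- the Hankel operator with matrix `g (j + k + 1)`, `j, k ≥ 0` -/
noncomputable def Han (g : ℕ → ℂ) (u : ℕ → ℂ) (j : ℕ) : ℂ := ∑' k, g (j + k + 1) * u k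

/-- `u ∈ ℓ²` and `(I - ρ² Γ^* Γ) u = e₀` for the Hankel operator `Γ` of the sequence `g` -/
def IsRes (g : ℕ → ℂ) (ρ : ℝ) (u : ℕ → ℂ) : Prop :=
  Summable (fun k => ‖u k‖ ^ 2) ∧
    ∀ j, u j - (ρ : ℂ) ^ 2 * Han (fun n => conj (g n)) (Han g u) j = if j = 0 then 1 else 0

/-- `P₊(z, ρ)` from the resolvent vector `u`; note that `N(ρ)^{1/2} = (u 0)^{-1/2}` -/
noncomputable def Pp (u : ℕ → ℂ) (z : ℂ) : ℂ :=
  (∑' k, u k * z ^ k) / (Real.sqrt (u 0).re : ℂ)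

/-- `q₊(z, ρ)` from the resolvent vector `v`; note that `M(ρ)^{1/2} = (v 0)^{-1/2}` -/
noncomputable def qp (g : ℕ → ℂ) (ρ : ℝ) (v : ℕ → ℂ) (z : ℂ) : ℂ :=
  ρ * z * (∑' k, Han (fun n => conj (g n)) v k * z ^ k) / (Real.sqrt (v 0).re : ℂ)

/-- condition (4): `P₊(z, ρ)⁻¹ q₊(z, ρ) → χ(z)` as `ρ → 1-` for every `z` in the disc, where
`u ρ = (I - ρ² Γ^* Γ)⁻¹ e₀` and `v ρ = (I - ρ² Γ Γ^*)⁻¹ e₀` -/
def CondFour (χ : ℂ → ℂ) : Prop :=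
  ∀ u v : ℝ → ℕ → ℂ,
    (∀ ρ : ℝ, 0 < ρ → ρ < 1 → IsRes (gam χ) ρ (u ρ)) →
    (∀ ρ : ℝ, 0 < ρ → ρ < 1 → IsRes (fun n => conj (gam χ n)) ρ (v ρ)) →
    ∀ z ∈ ball (0 : ℂ) 1,
      Tendsto (fun ρ : ℝ => (Pp (u ρ) z)⁻¹ * qp (gam χ) ρ (v ρ) z) (𝓝[<] 1) (𝓝 (χ z))

end Pool.Agent.H765R2.Hank
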