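import Mathlib
import Pool.Agent.H765R2.AR4
import Pool.Agent.H765R2.AR5
import Pool.Agent.H765R2.ARDefs
import Pool.Agent.Helper203.Fatou

set_option autoImplicit false

open Complex Metric Filter MeasureTheory Real
open scoped Topology ComplexConjugate

namespace Pool.Agent.H765R2.AR

open Pool.Agent.H765R2.Hank

/-- almost every point of the circle is different from `±1` -/
lemma ae_ne : ∀ᵐ θ : ℝ, circleMap 0 1 θ ≠ 1 ∧ circleMap 0 1 θ ≠ -1 := by
  have h1 : (circleMap 0 1 ⁻¹' ({1, -1} : Set ℂ)).Countable :=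
    Set.Countable.preimage_circleMap (Set.countable_insert.2 (Set.countable_singleton _)) 0
      one_ne_zero
  have h2 := h1.measure_zero (volume : Measure ℝ)
  have h3 : ∀ᵐ θ : ℝ, θ ∉ (circleMap 0 1 ⁻¹' ({1, -1} : Set ℂ)) := measure_eq_zero_iff_ae_notMem.1 h2
  filter_upwards [h3] with θ h
  simp only [Set.mem_preimage, Set.mem_insert_iff, Set.mem_singleton_iff, not_or] at h
  exact h

lemma norm_cm (θ : ℝ) : ‖circleMap 0 1 θ‖ = 1 := norm_circleMap_zero' 1 θ zero_le_one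

lemma radial {F : ℂ → ℂ} {ζ : ℂ} (hF : ContinuousAt F ζ) :
    Tendsto (fun r : ℝ => F (r * ζ)) (𝓝[<] 1) (𝓝 (F ζ)) := by
  have h1 : Tendsto (fun r : ℝ => (r : ℂ) * ζ) (𝓝[<] 1) (𝓝 ζ) := by
    have h2 : Tendsto (fun r : ℝ => (r : ℂ) * ζ) (𝓝 1) (𝓝 ((1 : ℝ) * ζ)) :=
      ((Complex.continuous_ofReal.tendsto 1).mul_const ζ)
    simp only [Complex.ofReal_one, one_mul] at h2
    exact h2.mono_left nhdsWithin_le_nhds
  exact hF.tendsto.comp h1

lemma bv_eq {F : ℂ → ℂ} {ζ l : ℂ}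
    (h : Tendsto (fun r : ℝ => F (r * ζ)) (𝓝[<] 1) (𝓝 l)) : bv F ζ = l :=
  h.limUnder_eq

lemma ev_Ioo : ∀ᶠ r : ℝ in 𝓝[<] 1, 1 / 2 < r ∧ r < 1 := by
  have h1 : ∀ᶠ r : ℝ in 𝓝[<] 1, r < 1 := eventually_mem_nhdsWithin
  have h2 : ∀ᶠ r : ℝ in 𝓝[<] 1, 1 / 2 < r :=
    nhdsWithin_le_nhds (lt_mem_nhds (by norm_num))
  filter_upwards [h1, h2] with r a b using ⟨b, a⟩

lemma re_herglotz_nonneg {φ : ℂ → ℝ} (h0 : ∀ ζ, ‖ζ‖ = 1 → 0 ≤ φ ζ) (hci : CircleIntegrable φ 0 1)
    {z : ℂ} (hz : z ∈ ball (0:ℂ) 1) :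
    0 ≤ (circleAverage (fun ζ => ((ζ + z) / (ζ - z)) * (φ ζ : ℂ)) 0 1).re := by
  have h1 := re_circleAverage_herglotzRieszKernel_smul hci hz
  have h2 : (circleAverage (fun ζ => ((ζ + z) / (ζ - z)) * (φ ζ : ℂ)) 0 1) =
      circleAverage (fun ζ ↦ herglotzRieszKernel 0 z ζ • (φ ζ : ℂ)) 0 1 := by
    congr 1
    funext ζ
    simp [herglotzRieszKernel]
  rw [h2, h1]
  have hz1 : ‖z‖ < 1 := by simpa using hz
  apply circleAverage_nonneg_of_nonneg
  intro ζ hζ
  rw [abs_one, mem_sphere_iff_norm, sub_zero] at hζ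
  simp only [Pi.smul_apply', Function.comp, smul_eq_mul]
  apply mul_nonneg _ (h0 ζ hζ)
  have h3 : poissonKernel 0 z ζ = (herglotzRieszKernel 0 z ζ).re :=
    congrFun poissonKernel_eq_re_herglotzRieszKernel ζ
  rw [← h3]
  unfold poissonKernel
  simp only [sub_zero]
  rw [hζ]
  apply div_nonneg _ (by positivity)
  nlinarith [norm_nonneg z]

/-- the combination used twice: no point mass at 1 -/
theorem herglotz_ac {h : ℂ → ℂ} (hd : DifferentiableOn ℂ h (ball 0 1))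
    (hpos : ∀ z ∈ ball (0:ℂ) 1, 0 ≤ (h z).re)
    (hb : ∀ δ : ℝ, 0 < δ → ∃ C, ∀ z ∈ ball (0:ℂ) 1, δ ≤ ‖z - 1‖ → (h z).re ≤ C)
    (φ : ℂ → ℝ) (hφ0 : ∀ ζ, ‖ζ‖ = 1 → 0 ≤ φ ζ)
    (hφ : ∀ᵐ θ : ℝ, Tendsto (fun r : ℝ => (h (circleMap 0 r θ)).re) (𝓝[<] 1)
      (𝓝 (φ (circleMap 0 1 θ))))
    (F : ℝ → ℝ) (hF : Tendsto F (𝓝[<] 1) (𝓝 0))
    (hrad : ∀ r : ℝ, 1 / 2 < r → r < 1 → (h r).re * (1 - r) ≤ F r) :
    CircleIntegrable φ 0 1 ∧ ∀ z ∈ ball (0:ℂ) 1,
      h z = I * (h 0).im + circleAverage (fun ζ => ((ζ + z) / (ζ - z)) * (φ ζ : ℂ)) 0 1 := by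
  obtain ⟨hci, c, hc, hrep⟩ := herglotz_lim hd hpos hb φ hφ
  have hc0 : c ≤ 0 := by
    apply ge_of_tendsto hF
    filter_upwards [ev_Ioo] with r hr
    have hmem : (r : ℂ) ∈ ball (0:ℂ) 1 := by
      rw [mem_ball_zero_iff, Complex.norm_real, Real.norm_eq_abs, abs_of_nonneg (by linarith [hr.1])]
      exact hr.2
    have h1 := congrArg Complex.re (hrep r hmem)
    have h2 := re_herglotz_nonneg hφ0 hci hmem
    have h3 : ((c : ℂ) * ((1 + r) / (1 - r))).re = c * ((1 + r) / (1 - r)) := by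
      have : (c : ℂ) * ((1 + r) / (1 - r)) = ((c * ((1 + r) / (1 - r)) : ℝ) : ℂ) := by
        push_cast; rfl
      rw [this, Complex.ofReal_re]
    rw [Complex.add_re, Complex.add_re, h3] at h1
    have h4 : (I * ((h 0).im : ℂ)).re = 0 := by simp
    rw [h4] at h1
    have h5 : c * ((1 + r) / (1 - r)) ≤ (h r).re := by linarith
    have h6 : 0 < 1 - r := by linarith [hr.2]
    have h7 := hrad r hr.1 hr.2
    have h8 : c * ((1 + r) / (1 - r)) * (1 - r) ≤ (h r).re * (1 - r) :=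
      mul_le_mul_of_nonneg_right h5 h6.le
    have h9 : c * ((1 + r) / (1 - r)) * (1 - r) = c * (1 + r) := by field_simp
    rw [h9] at h8
    nlinarith [hr.1]
  have hc1 : c = 0 := le_antisymm hc0 hc
  refine ⟨hci, fun z hz => ?_⟩
  have := hrep z hz
  rw [hc1, Complex.ofReal_zero, zero_mul, add_zero] at this
  exact this

lemma sqrt_tendsto (C : ℝ) : Tendsto (fun r : ℝ => C * Real.sqrt (1 - r)) (𝓝[<] 1) (𝓝 0) := by
  have h1 : Continuous (fun r : ℝ => C * Real.sqrt (1 - r)) := by fun_prop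
  have h2 := h1.tendsto 1
  simp only [sub_self, Real.sqrt_zero, mul_zero] at h2
  exact h2.mono_left nhdsWithin_le_nhds

lemma chi_schur : Schur chi := by
  constructor
  · intro z hz
    have hz1 : ‖z‖ < 1 := by simpa using hz
    have hne := ne_of_mem_ball hz1
    exact (chi_diff hz1.le hne.1 hne.2).differentiableWithinAt
  · intro z hz
    have hz1 : ‖z‖ < 1 := by simpa using hz
    exact (chi_lt hz1.le).le

lemma AA_diffOn : DifferentiableOn ℂ AA (ball 0 1) := by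
  intro z hz
  have hz1 : ‖z‖ < 1 := by simpa using hz
  have hne := ne_of_mem_ball hz1
  exact (AA_diff hz1.le hne.1 hne.2).differentiableWithinAt

/-- analytic logarithm of a non-vanishing function on the disc -/
lemma exists_log {f : ℂ → ℂ} (hf : DifferentiableOn ℂ f (ball 0 1))
    (hne : ∀ z ∈ ball (0:ℂ) 1, f z ≠ 0) :
    ∃ L : ℂ → ℂ, DifferentiableOn ℂ L (ball 0 1) ∧ ∀ z ∈ ball (0:ℂ) 1, Complex.exp (L z) = f z := by
  have hq : DifferentiableOn ℂ (fun z => deriv f z / f z) (ball 0 1) :=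
    (hf.deriv isOpen_ball).div hf hne
  obtain ⟨P, hP⟩ := hq.isExactOn_ball
  have h0 : (0 : ℂ) ∈ ball (0:ℂ) 1 := by simp
  -- f * exp(-P) is constant
  have hconst : ∀ z ∈ ball (0:ℂ) 1, f z * Complex.exp (-(P z)) = f 0 * Complex.exp (-(P 0)) := by
    intro z hz
    apply IsOpen.is_const_of_deriv_eq_zero (𝕜 := ℂ) (s := ball (0:ℂ) 1)
      (f := fun z => f z * Complex.exp (-(P z))) isOpen_ball
      (convex_ball 0 1).isPreconnected _ _ hz h0
    · intro w hw
      exact ((hf w hw).mul ((hP w hw).differentiableAt.neg.cexp.differentiableWithinAt))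
    · intro w hw
      have hfw : HasDerivAt f (deriv f w) w :=
        ((hf w hw).differentiableAt (isOpen_ball.mem_nhds hw)).hasDerivAt
      have h1 : HasDerivAt (fun z => f z * Complex.exp (-(P z)))
          (deriv f w * Complex.exp (-(P w)) +
            f w * (Complex.exp (-(P w)) * (-(deriv f w / f w)))) w :=
        hfw.mul ((hP w hw).neg.cexp)
      rw [h1.deriv]
      have := hne w hw
      simp only [Pi.zero_apply]
      field_simp
      ring
  refine ⟨fun z => P z + (Complex.log (f 0) - P 0), ?_, ?_⟩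
  · intro w hw
    exact ((hP w hw).differentiableAt.add_const _).differentiableWithinAt
  · intro z hz
    have h1 := hconst z hz
    have h2 := hne 0 h0
    rw [Complex.exp_add, Complex.exp_sub, Complex.exp_log h2]
    have h3 : Complex.exp (-(P z)) ≠ 0 := Complex.exp_ne_zero _
    rw [Complex.exp_neg, Complex.exp_neg] at h1
    have h4 : Complex.exp (P z) ≠ 0 := Complex.exp_ne_zero _
    have h5 : Complex.exp (P 0) ≠ 0 := Complex.exp_ne_zero _
    field_simp at h1 ⊢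
    linear_combination -h1

lemma AA_cont {ζ : ℂ} (hζ : ‖ζ‖ = 1) (h1 : ζ ≠ 1) (h2 : ζ ≠ -1) : ContinuousAt AA ζ :=
  (AA_diff hζ.le h1 h2).continuousAt

lemma chi_cont {ζ : ℂ} (hζ : ‖ζ‖ = 1) (h1 : ζ ≠ 1) (h2 : ζ ≠ -1) : ContinuousAt chi ζ :=
  (chi_diff hζ.le h1 h2).continuousAt

lemma bv_chi {ζ : ℂ} (hζ : ‖ζ‖ = 1) (h1 : ζ ≠ 1) (h2 : ζ ≠ -1) : bv chi ζ = chi ζ :=
  bv_eq (radial (chi_cont hζ h1 h2))

lemma wt_chi {ζ : ℂ} (hζ : ‖ζ‖ = 1) (h1 : ζ ≠ 1) (h2 : ζ ≠ -1) : wt chi ζ = ‖AA ζ‖ ^ 2 := by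
  unfold wt
  rw [bv_chi hζ h1 h2, chi_AA_eq hζ h1 h2]

/-- representation of `AA` through its modulus -/
lemma AA_rep : CircleIntegrable (fun ζ => -Real.log ‖AA ζ‖) 0 1 ∧ ∃ t : ℝ, ∀ z ∈ ball (0:ℂ) 1,
    AA z = Complex.exp (t * I) * Complex.exp (-(circleAverage
      (fun ζ => ((ζ + z) / (ζ - z)) * ((-Real.log ‖AA ζ‖ : ℝ) : ℂ)) 0 1)) := by
  have hne : ∀ z ∈ ball (0:ℂ) 1, AA z ≠ 0 := by
    intro z hz
    have hz1 : ‖z‖ < 1 := by simpa using hz
    exact AA_ne hz1.le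
  obtain ⟨L, hL, hexp⟩ := exists_log AA_diffOn hne
  have hre : ∀ z ∈ ball (0:ℂ) 1, (-(L z)).re = -Real.log ‖AA z‖ := by
    intro z hz
    rw [← hexp z hz, Complex.norm_exp, Real.log_exp, Complex.neg_re]
  have hmain := herglotz_ac (h := fun z => -(L z)) hL.neg (φ := fun ζ => -Real.log ‖AA ζ‖)
    (F := fun r => (-Real.log (kap / 2) + 5) * (1 - r) + 5 * Real.sqrt (1 - r)) ?_ ?_ ?_ ?_ ?_ ?_
  · refine ⟨hmain.1, -((-(L 0)).im), ?_⟩
    intro z hz
    have h1 := hmain.2 z hz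
    rw [← hexp z hz, ← Complex.exp_add]
    congr 1
    have e : ((-(-(L 0)).im : ℝ) : ℂ) = -(((-(L 0)).im : ℝ) : ℂ) := Complex.ofReal_neg _
    rw [e]
    linear_combination -h1
  · intro z hz
    rw [hre z hz]
    have hz1 : ‖z‖ < 1 := by simpa using hz
    have := Real.log_nonpos (norm_nonneg _) (AA_le_one hz1.le)
    linarith
  · intro δ hδ
    refine ⟨-Real.log (kap / 2 * (2 / ((3 + 2 / δ) * Real.exp (Real.sqrt (2 / δ))))), ?_⟩
    intro z hz hzd
    rw [hre z hz]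
    have hz1 : ‖z‖ < 1 := by simpa using hz
    have hk := kap_pos
    have := Real.log_le_log (by positivity) (AA_local hz1 hδ hzd)
    linarith
  · intro ζ hζ
    have := Real.log_nonpos (norm_nonneg _) (AA_le_one hζ.le)
    linarith
  · filter_upwards [ae_ne] with θ hθ
    have h1 : Tendsto (fun r : ℝ => -Real.log ‖AA (circleMap 0 r θ)‖) (𝓝[<] 1)
        (𝓝 (-Real.log ‖AA (circleMap 0 1 θ)‖)) := by
      have h2 := radial (AA_cont (norm_cm θ) hθ.1 hθ.2)
      have h3 : Tendsto (fun r : ℝ => AA (circleMap 0 r θ)) (𝓝[<] 1)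
          (𝓝 (AA (circleMap 0 1 θ))) := by
        refine h2.congr fun r => ?_
        rw [← circleMap_smul]
      have h4 : ‖AA (circleMap 0 1 θ)‖ ≠ 0 := norm_ne_zero_iff.2 (AA_ne (norm_cm θ).le)
      exact ((Real.continuousAt_log h4).tendsto.comp h3.norm).neg
    refine h1.congr' ?_
    filter_upwards [ev_Ioo] with r hr
    rw [hre]
    rw [mem_ball_zero_iff, norm_circleMap_zero' _ _ (by linarith [hr.1])]
    exact hr.2
  · have h1 : Tendsto (fun r : ℝ => (-Real.log (kap / 2) + 5) * (1 - r)) (𝓝[<] 1) (𝓝 0) := by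
      have h2 : Continuous (fun r : ℝ => (-Real.log (kap / 2) + 5) * (1 - r)) := by fun_prop
      have h3 := h2.tendsto 1
      simp only [sub_self, mul_zero] at h3
      exact h3.mono_left nhdsWithin_le_nhds
    simpa using h1.add (sqrt_tendsto 5)
  · intro r hr hr1
    have hmem : (r : ℂ) ∈ ball (0:ℂ) 1 := by
      rw [mem_ball_zero_iff, Complex.norm_real, Real.norm_eq_abs, abs_of_nonneg (by linarith)]
      exact hr1
    rw [hre _ hmem]
    exact AA_real (by linarith) hr1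

/-- congruence of circle averages almost everywhere -/
lemma circleAverage_congr_ae' {E : Type*} [NormedAddCommGroup E] [NormedSpace ℝ E] {F G : ℂ → E}
    (h : ∀ᵐ θ : ℝ, F (circleMap 0 1 θ) = G (circleMap 0 1 θ)) :
    circleAverage F 0 1 = circleAverage G 0 1 := by
  rw [circleAverage_eq_setIntegral, circleAverage_eq_setIntegral]
  congr 1
  apply integral_congr_ae
  exact ae_restrict_of_ae h

lemma outer_eq : ∃ κ : ℂ, ‖κ‖ = 1 ∧ ∀ z ∈ ball (0:ℂ) 1, outer chi z = κ * AA z := by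
  obtain ⟨_, t, ht⟩ := AA_rep
  refine ⟨Complex.exp (-(t * I)), ?_, ?_⟩
  · rw [show -(t * I : ℂ) = ((-t : ℝ) : ℂ) * I by push_cast; ring, Complex.norm_exp_ofReal_mul_I]
  · intro z hz
    rw [ht z hz, ← mul_assoc, ← Complex.exp_add, neg_add_cancel, Complex.exp_zero, one_mul]
    unfold outer
    congr 1
    have h1 : -(circleAverage (fun ζ => ((ζ + z) / (ζ - z)) * ((-Real.log ‖AA ζ‖ : ℝ) : ℂ)) 0 1) =
        circleAverage (fun ζ => (-1 : ℂ) • (((ζ + z) / (ζ - z)) *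
          ((-Real.log ‖AA ζ‖ : ℝ) : ℂ))) 0 1 := by
      rw [circleAverage_fun_smul]; simp
    rw [h1]
    apply circleAverage_congr_ae'
    filter_upwards [ae_ne] with θ hθ
    rw [wt_chi (norm_cm θ) hθ.1 hθ.2, Real.log_pow, smul_eq_mul]
    push_cast
    ring

lemma f0_eq : ∃ κ : ℂ, ∀ᵐ θ : ℝ, f0 chi (circleMap 0 1 θ) = κ * GG (circleMap 0 1 θ) := by
  obtain ⟨κ, hκ, hout⟩ := outer_eq
  refine ⟨κ ^ 2, ?_⟩
  filter_upwards [ae_ne] with θ hθ
  have hζ := norm_cm θ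
  set ζ := circleMap 0 1 θ with hζdef
  have h1 : bv (outer chi) ζ = κ * AA ζ := by
    apply bv_eq
    have h2 := (radial (AA_cont hζ hθ.1 hθ.2)).const_mul κ
    refine h2.congr' ?_
    filter_upwards [ev_Ioo] with r hr
    rw [hout]
    rw [mem_ball_zero_iff, norm_mul, hζ, mul_one, Complex.norm_real, Real.norm_eq_abs,
      abs_of_nonneg (by linarith [hr.1])]
    exact hr.2
  unfold f0
  rw [h1, bv_chi hζ hθ.1 hθ.2, ← GG_bdry hζ hθ.1 hθ.2]
  have hκ2 : κ * conj κ = 1 := by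
    rw [Complex.mul_conj, Complex.normSq_eq_norm_sq, hκ]; simp
  have hκ0 : conj κ ≠ 0 := by
    intro h; rw [h, mul_zero] at hκ2; exact zero_ne_one hκ2
  have hA : conj (AA ζ) ≠ 0 := by simpa using AA_ne hζ.le
  rw [map_mul]
  field_simp
  linear_combination (-(conj (chi ζ) * κ * AA ζ)) * hκ2

/-- mean value property up to the boundary -/
lemma mean_bdd {F : ℂ → ℂ} {M : ℝ} (hF : DifferentiableOn ℂ F (ball 0 1))
    (hM : ∀ z ∈ ball (0:ℂ) 1, ‖F z‖ ≤ M)
    (hc : ∀ᵐ θ : ℝ, ContinuousAt F (circleMap 0 1 θ)) : circleAverage F 0 1 = F 0 := by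
  have h1 : ∀ k, circleAverage F 0 (Rk k) = F 0 := by
    intro k
    apply DiffContOnCl.circleAverage
    rw [abs_of_pos (Rk_pos k)]
    apply (hF.mono _).diffContOnCl_ball Set.Subset.rfl
    intro z hz
    rw [mem_closedBall_zero_iff] at hz
    rw [mem_ball_zero_iff]
    exact hz.trans_lt (Rk_lt k)
  have h2 : Tendsto (fun k => circleAverage F 0 (Rk k)) atTop (𝓝 (circleAverage F 0 1)) := by
    have h3 : ∀ R : ℝ, circleAverage F 0 R =
        (2 * π)⁻¹ • ∫ θ in Set.Ioc 0 (2 * π), F (circleMap 0 R θ) := by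
      intro R
      rw [circleAverage_def, intervalIntegral.integral_of_le (by positivity)]
    simp_rw [h3]
    apply Tendsto.const_smul
    apply tendsto_integral_of_dominated_convergence (fun _ => M)
    · intro k
      apply Continuous.aestronglyMeasurable
      apply hF.continuousOn.comp_continuous (continuous_circleMap 0 (Rk k))
      intro θ
      rw [mem_ball_zero_iff, norm_circleMap_zero' _ _ (Rk_pos k).le]
      exact Rk_lt k
    · exact integrable_const _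
    · intro k
      refine Eventually.of_forall fun θ => hM _ ?_
      rw [mem_ball_zero_iff, norm_circleMap_zero' _ _ (Rk_pos k).le]
      exact Rk_lt k
    · apply ae_restrict_of_ae
      filter_upwards [hc] with θ hθ
      have h4 := (radial hθ).comp Rk_tendsto'
      refine h4.congr fun k => ?_
      simp only [Function.comp]
      rw [← circleMap_smul]
  simp_rw [h1] at h2
  exact (tendsto_nhds_unique h2 tendsto_const_nhds)

lemma gam_zero (n : ℕ) (hn : 1 ≤ n) : gam chi n = 0 := by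
  obtain ⟨κ, hκ⟩ := f0_eq
  have h1 : gam chi n = circleAverage (fun ζ => κ • (ζ ^ n * GG ζ)) 0 1 := by
    unfold gam
    apply circleAverage_congr_ae'
    filter_upwards [hκ] with θ hθ
    rw [hθ, smul_eq_mul]
    ring
  rw [h1, circleAverage_fun_smul]
  have h2 : circleAverage (fun ζ => ζ ^ n * GG ζ) 0 1 = (fun ζ => ζ ^ n * GG ζ) 0 := by
    apply mean_bdd (M := 3 / (1 - ‖bet‖))
    · intro z hz
      have hz1 : ‖z‖ < 1 := by simpa using hz
      have hne := ne_of_mem_ball hz1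
      exact ((differentiableAt_id.pow n).mul (GG_diff hz1.le hne.1 hne.2)).differentiableWithinAt
    · intro z hz
      have hz1 : ‖z‖ < 1 := by simpa using hz
      rw [norm_mul, norm_pow]
      have h3 := GG_bdd hz1.le
      have h4 : ‖z‖ ^ n ≤ 1 := pow_le_one₀ (norm_nonneg _) hz1.le
      calc ‖z‖ ^ n * ‖GG z‖ ≤ 1 * (3 / (1 - ‖bet‖)) :=
            mul_le_mul h4 h3 (norm_nonneg _) zero_le_one
        _ = _ := one_mul _
    · filter_upwards [ae_ne] with θ hθ
      exact ((differentiableAt_id.pow n).mul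
        (GG_diff (norm_cm θ).le hθ.1 hθ.2)).continuousAt
  rw [h2]
  simp only [smul_eq_mul]
  rw [zero_pow (by omega), zero_mul, mul_zero]

/-- the key: absolute continuity for every Schur parameter -/
lemma chi_AC (E : ℂ → ℂ) (hE : Schur E) : AC chi E := by
  obtain ⟨hEd, hEb⟩ := hE
  have hlt : ∀ z ∈ ball (0:ℂ) 1, ‖chi z * E z‖ < 1 := by
    intro z hz
    have hz1 : ‖z‖ < 1 := by simpa using hz
    rw [norm_mul]
    calc ‖chi z‖ * ‖E z‖ ≤ ‖chi z‖ * 1 := mul_le_mul_of_nonneg_left (hEb z hz) (norm_nonneg _)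
      _ < 1 := by rw [mul_one]; exact chi_lt hz1.le
  have hden : ∀ w : ℂ, ‖w‖ < 1 → 1 - w ≠ 0 := by
    intro w hw h
    have : w = 1 := by linear_combination -h
    rw [this, norm_one] at hw
    exact lt_irrefl _ hw
  set h : ℂ → ℂ := fun z => (1 + chi z * E z) / (1 - chi z * E z) with hh
  have hhre : ∀ w : ℂ, ‖w‖ ≤ 1 → 0 ≤ ((1 + w) / (1 - w)).re := fun w hw => uu_re_nonneg hw
  have hhn : ∀ z ∈ ball (0:ℂ) 1, ‖h z‖ ≤ 4 / (1 - ‖chi z‖ ^ 2) := by
    intro z hz
    have hz1 : ‖z‖ < 1 := by simpa using hz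
    have h1 := chi_lt hz1.le
    have h2 := hlt z hz
    have h3 : ‖chi z * E z‖ ≤ ‖chi z‖ := by
      rw [norm_mul]
      calc ‖chi z‖ * ‖E z‖ ≤ ‖chi z‖ * 1 := mul_le_mul_of_nonneg_left (hEb z hz) (norm_nonneg _)
        _ = _ := mul_one _
    have h4 : 1 - ‖chi z‖ ≤ ‖1 - chi z * E z‖ := by
      have := norm_sub_norm_le (1 : ℂ) (chi z * E z)
      rw [norm_one] at this
      linarith
    have h5 : ‖1 + chi z * E z‖ ≤ 2 := by
      have := norm_add_le (1 : ℂ) (chi z * E z)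
      rw [norm_one] at this
      linarith
    simp only [hh]
    rw [norm_div]
    have h6 : 0 < 1 - ‖chi z‖ := by linarith
    have h7 : 0 < 1 - ‖chi z‖ ^ 2 := by nlinarith [norm_nonneg (chi z)]
    calc ‖1 + chi z * E z‖ / ‖1 - chi z * E z‖ ≤ 2 / (1 - ‖chi z‖) := by gcongr
      _ ≤ 4 / (1 - ‖chi z‖ ^ 2) := by
          rw [div_le_div_iff₀ h6 h7]
          nlinarith [norm_nonneg (chi z)]
  have hfat := Pool.Agent.Helper203.Hardy.fatou hEd hEb
  -- the density
  set φ : ℂ → ℝ := fun ζ => max 0 (limUnder (𝓝[<] (1:ℝ)) (fun r : ℝ => (h (r * ζ)).re)) with hφ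
  have hφt : ∀ᵐ θ : ℝ, Tendsto (fun r : ℝ => (h (circleMap 0 r θ)).re) (𝓝[<] 1)
      (𝓝 (φ (circleMap 0 1 θ))) := by
    filter_upwards [ae_ne, hfat] with θ hθ hf
    obtain ⟨l, hl⟩ := hf
    have hl1 : ‖l‖ ≤ 1 := by
      apply le_of_tendsto hl.norm
      filter_upwards [ev_Ioo] with r hr
      apply hEb
      rw [mem_ball_zero_iff, norm_circleMap_zero' _ _ (by linarith [hr.1])]
      exact hr.2
    have h1 : Tendsto (fun r : ℝ => chi (circleMap 0 r θ)) (𝓝[<] 1)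
        (𝓝 (chi (circleMap 0 1 θ))) := by
      refine (radial (chi_cont (norm_cm θ) hθ.1 hθ.2)).congr fun r => ?_
      rw [← circleMap_smul]
    have h2 : ‖chi (circleMap 0 1 θ) * l‖ < 1 := by
      rw [norm_mul]
      calc ‖chi (circleMap 0 1 θ)‖ * ‖l‖ ≤ ‖chi (circleMap 0 1 θ)‖ * 1 :=
            mul_le_mul_of_nonneg_left hl1 (norm_nonneg _)
        _ < 1 := by rw [mul_one]; exact chi_lt (norm_cm θ).le
    have h3 : Tendsto (fun r : ℝ => (h (circleMap 0 r θ)).re) (𝓝[<] 1)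
        (𝓝 ((1 + chi (circleMap 0 1 θ) * l) / (1 - chi (circleMap 0 1 θ) * l)).re) := by
      apply (Complex.continuous_re.tendsto _).comp
      exact ((h1.mul hl).const_add 1).div ((h1.mul hl).const_sub 1) (hden _ h2)
    have h4 : φ (circleMap 0 1 θ) =
        ((1 + chi (circleMap 0 1 θ) * l) / (1 - chi (circleMap 0 1 θ) * l)).re := by
      simp only [hφ]
      have h5 : limUnder (𝓝[<] (1:ℝ)) (fun r : ℝ => (h (r * circleMap 0 1 θ)).re) =
          ((1 + chi (circleMap 0 1 θ) * l) / (1 - chi (circleMap 0 1 θ) * l)).re := by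
        apply Tendsto.limUnder_eq
        refine h3.congr fun r => ?_
        rw [← circleMap_smul]
      rw [h5]
      exact max_eq_right (hhre _ h2.le)
    rw [h4]
    exact h3
  have hmain := herglotz_ac (h := h) ?_ ?_ ?_ φ (fun ζ _ => le_max_left _ _) hφt
    (fun r => 4 / ((1 - ‖bet‖ ^ 2) / 72) * Real.sqrt (1 - r)) (sqrt_tendsto _) ?_
  · refine ⟨φ, fun ζ => le_max_left _ _, hmain.1, ?_⟩
    intro z hz
    have h1 := hmain.2 z hz
    have h2 : h 0 = 1 := by simp only [hh]; rw [chi_zero]; simp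
    rw [h2, Complex.one_im, Complex.ofReal_zero, mul_zero, zero_add] at h1
    exact h1
  · intro z hz
    have h1 := chi_schur.1 z hz
    have h2 := hEd z hz
    exact ((h1.mul h2).const_add 1).div ((h1.mul h2).const_sub 1) (hden _ (hlt z hz))
  · intro z hz
    exact hhre _ (hlt z hz).le
  · intro δ hδ
    set m := kap / 2 * (2 / ((3 + 2 / δ) * Real.exp (Real.sqrt (2 / δ)))) with hm
    have hmp : 0 < m := by
      have := kap_pos
      positivity
    refine ⟨4 / m ^ 2, ?_⟩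
    intro z hz hzd
    have hz1 : ‖z‖ < 1 := by simpa using hz
    have h1 := AA_local hz1 hδ hzd
    have h2 := chi_AA_le hz1.le
    have h3 : m ^ 2 ≤ ‖AA z‖ ^ 2 := pow_le_pow_left₀ hmp.le h1 2
    calc (h z).re ≤ ‖h z‖ := Complex.re_le_norm _
      _ ≤ 4 / (1 - ‖chi z‖ ^ 2) := hhn z hz
      _ ≤ 4 / m ^ 2 := by
          apply div_le_div_of_nonneg_left (by norm_num) (by positivity)
          linarith
  · intro r hr hr1
    have hmem : (r : ℂ) ∈ ball (0:ℂ) 1 := by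
      rw [mem_ball_zero_iff, Complex.norm_real, Real.norm_eq_abs, abs_of_nonneg (by linarith)]
      exact hr1
    have h1r : 0 < 1 - r := by linarith
    have h1 := chi_diag hr.le hr1
    have hk : 0 < (1 - ‖bet‖ ^ 2) / 72 := by
      rw [← kap_sq]
      have := kap_pos
      positivity
    set k2 := (1 - ‖bet‖ ^ 2) / 72 with hk2
    have hs : 0 < Real.sqrt (1 - r) := Real.sqrt_pos.2 h1r
    have hss : Real.sqrt (1 - r) * Real.sqrt (1 - r) = 1 - r := Real.mul_self_sqrt h1r.le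
    have h2 : (h r).re ≤ 4 / (k2 * Real.sqrt (1 - r)) := by
      calc (h r).re ≤ ‖h r‖ := Complex.re_le_norm _
        _ ≤ 4 / (1 - ‖chi r‖ ^ 2) := hhn r hmem
        _ ≤ 4 / (k2 * Real.sqrt (1 - r)) := by
            apply div_le_div_of_nonneg_left (by norm_num) (by positivity) h1
    calc (h r).re * (1 - r) ≤ 4 / (k2 * Real.sqrt (1 - r)) * (1 - r) :=
          mul_le_mul_of_nonneg_right h2 h1r.le
      _ = 4 / (k2 * Real.sqrt (1 - r)) * (Real.sqrt (1 - r) * Real.sqrt (1 - r)) := by rw [hss]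
      _ = 4 / k2 * Real.sqrt (1 - r) := by
          field_simp

lemma chi_InSz : InSz chi := by
  refine ⟨chi_schur, chi_zero, ?_, ?_⟩
  · filter_upwards [ae_ne] with θ hθ
    rw [wt_chi (norm_cm θ) hθ.1 hθ.2]
    have : 0 < ‖AA (circleMap 0 1 θ)‖ := norm_pos_iff.2 (AA_ne (norm_cm θ).le)
    positivity
  · obtain ⟨h1, _⟩ := AA_rep
    have h2 : CircleIntegrable (fun ζ => (-2 : ℝ) • (-Real.log ‖AA ζ‖)) 0 1 := h1.const_smul
    rw [CircleIntegrable] at h2 ⊢
    apply h2.congr_ae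
    apply ae_restrict_of_ae
    filter_upwards [ae_ne] with θ hθ
    rw [wt_chi (norm_cm θ) hθ.1 hθ.2, Real.log_pow, smul_eq_mul]
    push_cast
    ring

lemma exists_sq (s : ℝ) (hs : 0 < s) : ∃ z : ℂ, ‖z‖ = 1 ∧ z ≠ 1 ∧ z ≠ -1 ∧ sq z = s := by
  have hd : (1 - I * (s : ℂ) ^ 2) ≠ 0 := by
    intro h
    have := congrArg Complex.re h
    simp [pow_two] at this
  have hn : ‖(1 + I * (s : ℂ) ^ 2)‖ = ‖(1 - I * (s : ℂ) ^ 2)‖ := by
    have h1 : (1 - I * (s : ℂ) ^ 2) = conj (1 + I * (s : ℂ) ^ 2) := by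
      simp [sub_eq_add_neg]
    rw [h1, Complex.norm_conj]
  have hnp : ‖(1 - I * (s : ℂ) ^ 2)‖ ≠ 0 := norm_ne_zero_iff.2 hd
  refine ⟨-((1 + I * (s : ℂ) ^ 2) / (1 - I * (s : ℂ) ^ 2)), ?_, ?_, ?_, ?_⟩
  · rw [norm_neg, norm_div, hn, div_self hnp]
  · intro h
    rw [neg_eq_iff_eq_neg, div_eq_iff hd] at h
    have := congrArg Complex.re h
    simp [pow_two] at this
    norm_num at this
  · intro h
    rw [neg_inj, div_eq_one_iff_eq hd] at h
    have := congrArg Complex.im h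
    simp [pow_two] at this
    have h2 : 0 < s * s := by positivity
    linarith
  · have h1 : (-((1 + I * (s : ℂ) ^ 2) / (1 - I * (s : ℂ) ^ 2))) ≠ 1 := by
      intro h
      rw [neg_eq_iff_eq_neg, div_eq_iff hd] at h
      have := congrArg Complex.re h
      simp [pow_two] at this
      norm_num at this
    have h2 : (-((1 + I * (s : ℂ) ^ 2) / (1 - I * (s : ℂ) ^ 2))) ≠ -1 := by
      intro h
      rw [neg_inj, div_eq_one_iff_eq hd] at h
      have := congrArg Complex.im h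
      simp [pow_two] at this
      have h2 : 0 < s * s := by positivity
      linarith
    have h3 := sq_sq h1 h2
    have h4 : uu (-((1 + I * (s : ℂ) ^ 2) / (1 - I * (s : ℂ) ^ 2))) = -I * (s : ℂ) ^ 2 := by
      unfold uu
      have e1 : 1 + -((1 + I * (s : ℂ) ^ 2) / (1 - I * (s : ℂ) ^ 2)) =
          (-2 * I * (s : ℂ) ^ 2) / (1 - I * (s : ℂ) ^ 2) := by
        field_simp; ring
      have e2 : 1 - -((1 + I * (s : ℂ) ^ 2) / (1 - I * (s : ℂ) ^ 2)) =
          2 / (1 - I * (s : ℂ) ^ 2) := by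
        field_simp; ring
      rw [e1, e2]
      field_simp
    rw [h4] at h3
    have h5 : (sq (-((1 + I * (s : ℂ) ^ 2) / (1 - I * (s : ℂ) ^ 2)))) ^ 2 = (s : ℂ) ^ 2 := by
      rw [h3]
      linear_combination (-(s : ℂ) ^ 2) * Complex.I_sq
    rcases sq_eq_sq_iff_eq_or_eq_neg.1 h5 with h6 | h6
    · exact h6
    · exfalso
      have h7 := sq_re_nonneg (z := -((1 + I * (s : ℂ) ^ 2) / (1 - I * (s : ℂ) ^ 2))) (by
        rw [norm_neg, norm_div, hn, div_self hnp])
      rw [h6] at h7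
      simp at h7
      linarith

/-- `χ` is not identically zero -/
lemma chi_ne_zero : ∃ z ∈ ball (0:ℂ) 1, chi z ≠ 0 := by
  by_contra hcon
  push Not at hcon
  have hB : ∀ ζ : ℂ, ‖ζ‖ = 1 → ζ ≠ 1 → ζ ≠ -1 → B0 ζ = bet := by
    intro ζ hζ h1 h2
    have h3 := radial (chi_cont hζ h1 h2)
    have h4 : Tendsto (fun r : ℝ => chi (r * ζ)) (𝓝[<] 1) (𝓝 0) := by
      refine tendsto_const_nhds.congr' ?_
      filter_upwards [ev_Ioo] with r hr
      rw [hcon]
      rw [mem_ball_zero_iff, norm_mul, hζ, mul_one, Complex.norm_real, Real.norm_eq_abs,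
        abs_of_nonneg (by linarith [hr.1])]
      exact hr.2
    have h5 : chi ζ = 0 := tendsto_nhds_unique h3 h4
    unfold chi at h5
    rcases div_eq_zero_iff.1 h5 with h6 | h6
    · linear_combination h6
    · exact absurd h6 (den_ne hζ.le)
  obtain ⟨z1, hz1, hz2, hz3, hz4⟩ := exists_sq π Real.pi_pos
  obtain ⟨w1, hw1, hw2, hw3, hw4⟩ := exists_sq (π / 2) (by positivity)
  have e1 := hB z1 hz1 hz2 hz3
  have e2 := hB w1 hw1 hw2 hw3
  have e3 : B0 z1 = 0 := by
    unfold B0 b0 Mt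
    rw [hz4, Complex.sin_pi]
    simp
  have e4 : B0 w1 ≠ 0 := by
    unfold B0
    rw [hw4]
    have hN : Nt ((π / 2 : ℝ) : ℂ) ≠ 0 := by
      apply Nt_ne
      · rw [Complex.ofReal_re]; positivity
      · simp
      · have := Real.pi_pos.ne'
        simp
    unfold b0
    apply div_ne_zero _ hN
    apply mul_ne_zero (neg_ne_zero.2 Complex.I_ne_zero)
    unfold Mt
    apply mul_ne_zero
    · intro h
      have h5 : ((π / 2 : ℝ) : ℂ) ^ 2 - 1 = (((π / 2) ^ 2 - 1 : ℝ) : ℂ) := by push_cast; ring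
      rw [h5] at h
      have h6 : (π / 2) ^ 2 - 1 = 0 := by exact_mod_cast h
      have := Real.pi_gt_three
      nlinarith
    · rw [← Complex.ofReal_sin, Real.sin_pi_div_two]
      simp
  rw [e1] at e3
  rw [e2] at e4
  exact e4 e3

end Pool.Agent.H765R2.AR
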