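import Mathlib

set_option autoImplicit false

open Set Metric Topology

namespace Pool.Agent.H765R2.CS

/-- `ℂⁿ`, with its Euclidean norm and Hermitian inner product. -/
abbrev Cn (n : ℕ) := EuclideanSpace ℂ (Fin n)

/-- `S` is a continuous linear functional on the space `H(U)` of the holomorphic functions on the open
set `U` with the topology of uniform convergence on compact subsets of `U`: it is linear on `H(U)`
and bounded by a multiple of the supremum over some compact subset `L` of `U`. (A function on `U` is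
given by a function on `ℂⁿ`; by the estimate its values outside `U` play no role.) -/
def IsHolFunctional {n : ℕ} (U : Set (Cn n)) (S : (Cn n → ℂ) → ℂ) : Prop :=
  (∀ f g : Cn n → ℂ, DifferentiableOn ℂ f U → DifferentiableOn ℂ g U →
    S (fun z => f z + g z) = S f + S g) ∧
  (∀ (c : ℂ) (f : Cn n → ℂ), DifferentiableOn ℂ f U → S (fun z => c * f z) = c * S f) ∧
  ∃ (L : Set (Cn n)) (C : ℝ), IsCompact L ∧ L ⊆ U ∧ 0 ≤ C ∧
    ∀ f : Cn n → ℂ, DifferentiableOn ℂ f U → ∀ M : ℝ, 0 ≤ M → (∀ z ∈ L, ‖f z‖ ≤ M) → ‖S f‖ ≤ C * M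

/-- `T` is an analytic functional, i.e. a continuous linear functional on `H(ℂⁿ)`. -/
def IsAnalyticFunctional {n : ℕ} (T : (Cn n → ℂ) → ℂ) : Prop := IsHolFunctional univ T

/-- `K` carries `T`: for every open `ω ⊇ K` the functional `T` extends to a continuous linear
functional `S` on `H(ω)`. -/
def IsCarrier {n : ℕ} (T : (Cn n → ℂ) → ℂ) (K : Set (Cn n)) : Prop :=
  ∀ ω : Set (Cn n), IsOpen ω → K ⊆ ω → ∃ S : (Cn n → ℂ) → ℂ, IsHolFunctional ω S ∧
    ∀ f : Cn n → ℂ, Differentiable ℂ f → S f = T f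

/-- `K` is a C-support of `T`: minimal (for inclusion) among the convex compact carriers of `T`. -/
def IsCSupport {n : ℕ} (T : (Cn n → ℂ) → ℂ) (K : Set (Cn n)) : Prop :=
  Minimal (fun K' : Set (Cn n) => IsCompact K' ∧ Convex ℝ K' ∧ IsCarrier T K') K

/-- the convex compact set `K` is a unique C-support: it is the only C-support of every analytic
functional having it as a C-support. -/
def IsUniqueCSupport {n : ℕ} (K : Set (Cn n)) : Prop :=
  ∀ T : (Cn n → ℂ) → ℂ, IsAnalyticFunctional T → IsCSupport T K →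
    ∀ K' : Set (Cn n), IsCSupport T K' → K' = K

/-- `h` is a complex supporting hyperplane of `K` with respect to `V(K) = affineSpan ℂ K`: a complex
affine hyperplane of `V(K)` that meets `K` but not the interior of `K` relative to `V(K)`. -/
def IsComplexSupportingHyperplane {n : ℕ} (K : Set (Cn n)) (h : AffineSubspace ℂ (Cn n)) : Prop :=
  h ≤ affineSpan ℂ K ∧
  Module.finrank ℂ h.direction + 1 = Module.finrank ℂ (affineSpan ℂ K).direction ∧
  ((h : Set (Cn n)) ∩ K).Nonempty ∧ Disjoint (h : Set (Cn n)) (intrinsicInterior ℂ K)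

/-- the real hyperplane of `ℂⁿ` with normal `p.1` and offset `p.2` -/
def realHyperplane {n : ℕ} (p : Cn n × ℝ) : Set (Cn n) := {z | (inner ℂ p.1 z).re = p.2}

/-- `𝒮(K)`: the supporting hyperplanes of `K`, each one given by (either of its two) pairs of
unit normal and offset. -/
def suppHyp {n : ℕ} (K : Set (Cn n)) : Set (Cn n × ℝ) :=
  {p | ‖p.1‖ = 1 ∧ (realHyperplane p ∩ K).Nonempty ∧
    ((∀ z ∈ K, (inner ℂ p.1 z).re ≤ p.2) ∨ (∀ z ∈ K, p.2 ≤ (inner ℂ p.1 z).re))}

/-- `𝒮₀(K)`: the supporting hyperplanes of `K` that contain an extreme point of `K` which lies in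
exactly one complex supporting hyperplane of `K` with respect to `V(K)`. -/
def suppHyp₀ {n : ℕ} (K : Set (Cn n)) : Set (Cn n × ℝ) :=
  {p | p ∈ suppHyp K ∧ ∃ x ∈ K.extremePoints ℝ ∩ realHyperplane p,
    ∃! h : AffineSubspace ℂ (Cn n), IsComplexSupportingHyperplane K h ∧ x ∈ h}

/-- the closed unit ball of the `ℓ¹` norm in `ℂ²` -/
def l1Ball : Set (Cn 2) := {z | ‖z 0‖ + ‖z 1‖ ≤ 1}

end Pool.Agent.H765R2.CS
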