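import Mathlib
import Pool.Agent.H765R2.CS0

set_option autoImplicit false

open Set Metric Topology

namespace Pool.Agent.H765R2.CS

section
variable {n : ℕ}

/-- the entire functions -/
def Ent (n : ℕ) : Submodule ℂ (Cn n → ℂ) where
  carrier := {f | Differentiable ℂ f}
  add_mem' := fun hf hg => hf.add hg
  zero_mem' := differentiable_const 0
  smul_mem' := fun c _ hf => hf.const_smul c

/-- the linear map on entire functions given by an analytic functional -/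
def toLin {T : (Cn n → ℂ) → ℂ} (hT : IsAnalyticFunctional T) : Ent n →ₗ[ℂ] ℂ where
  toFun f := T f.1
  map_add' f g := hT.1 f.1 g.1 f.2.differentiableOn g.2.differentiableOn
  map_smul' c f := hT.2.1 c f.1 f.2.differentiableOn

/-- the restriction of an entire function to a set, as a continuous map -/
noncomputable def res (L : Set (Cn n)) (f : Cn n → ℂ) (hf : Differentiable ℂ f) : C(L, ℂ) :=
  ⟨fun z => f z.1, hf.continuous.comp continuous_subtype_val⟩

@[simp] theorem res_apply (L : Set (Cn n)) (f : Cn n → ℂ) (hf : Differentiable ℂ f) (z : L) :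
    res L f hf z = f z.1 := rfl

/-- restriction as a linear map -/
noncomputable def resL (L : Set (Cn n)) : Ent n →ₗ[ℂ] C(L, ℂ) where
  toFun f := res L f.1 f.2
  map_add' f g := by ext; rfl
  map_smul' c f := by ext; rfl

/-- an estimate by a compact set `L` gives a continuous functional on `C(L, ℂ)` -/
theorem exists_lambda {T : (Cn n → ℂ) → ℂ} (hT : IsAnalyticFunctional T) (L : Set (Cn n))
    [CompactSpace L] (C : ℝ)
    (h : ∀ f : Cn n → ℂ, Differentiable ℂ f → ∀ M : ℝ, 0 ≤ M → (∀ z ∈ L, ‖f z‖ ≤ M) →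
      ‖T f‖ ≤ C * M) :
    ∃ Λ : C(L, ℂ) →L[ℂ] ℂ, ∀ (f : Cn n → ℂ) (hf : Differentiable ℂ f), T f = Λ (res L f hf) := by
  set r := resL (n := n) L with hr
  obtain ⟨g, hg⟩ := r.rangeRestrict.exists_rightInverse_of_surjective
    (LinearMap.range_eq_top.2 r.surjective_rangeRestrict)
  have hg' : ∀ y : LinearMap.range r, r (g y) = y.1 := by
    intro y
    have := congrArg (fun φ => (φ y : LinearMap.range r)) hg
    simpa using congrArg Subtype.val this
  have hzero : ∀ f : Ent n, r f = 0 → toLin hT f = 0 := by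
    intro f hf
    have h1 := h f.1 f.2 0 le_rfl (fun z hz => by
      have : r f ⟨z, hz⟩ = 0 := by rw [hf]; rfl
      have h2 : r f ⟨z, hz⟩ = f.1 z := rfl
      rw [← h2, this, norm_zero])
    rw [mul_zero] at h1
    exact norm_le_zero_iff.1 h1
  let T' : LinearMap.range r →ₗ[ℂ] ℂ := (toLin hT).comp g
  have hT'b : ∀ y : LinearMap.range r, ‖T' y‖ ≤ C * ‖y‖ := by
    intro y
    show ‖T (g y).1‖ ≤ C * ‖y‖
    apply h _ (g y).2 _ (norm_nonneg _)
    intro z hz
    have : (g y).1 z = y.1 ⟨z, hz⟩ := by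
      rw [← hg' y]; rfl
    rw [this]
    exact ContinuousMap.norm_coe_le_norm y.1 _
  obtain ⟨Λ, hΛ, -⟩ := exists_extension_norm_eq (LinearMap.range r) (T'.mkContinuous C hT'b)
  refine ⟨Λ, fun f hf => ?_⟩
  have h2 := hΛ ⟨r ⟨f, hf⟩, LinearMap.mem_range_self r ⟨f, hf⟩⟩
  have h3 : res L f hf = r ⟨f, hf⟩ := rfl
  rw [h3, h2, LinearMap.mkContinuous_apply]
  show toLin hT ⟨f, hf⟩ = toLin hT (g _)
  rw [← sub_eq_zero, ← map_sub]
  apply hzero
  rw [map_sub, hg', sub_self]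

/-- the functional `f ↦ Λ(f|L)` on functions continuous on `L` -/
noncomputable def onL (L : Set (Cn n)) (Λ : C(L, ℂ) →ₗ[ℂ] ℂ) (f : Cn n → ℂ) : ℂ :=
  open Classical in if h : ContinuousOn f L then Λ ⟨L.domRestrict f, h.domRestrict⟩ else 0

theorem onL_of {L : Set (Cn n)} (Λ : C(L, ℂ) →ₗ[ℂ] ℂ) {f : Cn n → ℂ} (h : ContinuousOn f L) :
    onL L Λ f = Λ ⟨L.domRestrict f, h.domRestrict⟩ := by
  unfold onL
  rw [dif_pos h]

theorem isHolFunctional_onL {L ω : Set (Cn n)} [CompactSpace L] (hLω : L ⊆ ω)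
    (Λ : C(L, ℂ) →L[ℂ] ℂ) : IsHolFunctional ω (onL L Λ.toLinearMap) := by
  have hc : ∀ f : Cn n → ℂ, DifferentiableOn ℂ f ω → ContinuousOn f L := fun f hf =>
    hf.continuousOn.mono hLω
  refine ⟨?_, ?_, L, ‖Λ‖, isCompact_iff_compactSpace.2 inferInstance, hLω, norm_nonneg _, ?_⟩
  · intro f g hf hg
    have hfg : ContinuousOn (fun z => f z + g z) L := (hc f hf).add (hc g hg)
    rw [onL_of _ hfg, onL_of _ (hc f hf), onL_of _ (hc g hg), ← map_add]
    rfl
  · intro c f hf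
    have hcf : ContinuousOn (fun z => c * f z) L := continuousOn_const.mul (hc f hf)
    rw [onL_of _ hcf, onL_of _ (hc f hf), ← smul_eq_mul, ← map_smul]
    rfl
  · intro f hf M hM hfM
    rw [onL_of _ (hc f hf)]
    show ‖Λ _‖ ≤ _
    refine (Λ.le_opNorm _).trans ?_
    gcongr
    rw [ContinuousMap.norm_le _ hM]
    intro z
    exact hfM z.1 z.2

/-- an estimate by compact subsets of all neighbourhoods of `K` gives that `K` is a carrier -/
theorem isCarrier_of_bound {T : (Cn n → ℂ) → ℂ} (hT : IsAnalyticFunctional T) (K : Set (Cn n))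
    (h : ∀ ω : Set (Cn n), IsOpen ω → K ⊆ ω → ∃ L ⊆ ω, IsCompact L ∧ ∃ C : ℝ,
      ∀ f : Cn n → ℂ, Differentiable ℂ f → ∀ M : ℝ, 0 ≤ M → (∀ z ∈ L, ‖f z‖ ≤ M) →
      ‖T f‖ ≤ C * M) : IsCarrier T K := by
  intro ω hω hK
  obtain ⟨L, hLω, hL, C, hC⟩ := h ω hω hK
  have : CompactSpace L := isCompact_iff_compactSpace.1 hL
  obtain ⟨Λ, hΛ⟩ := exists_lambda hT L C hC
  refine ⟨onL L Λ.toLinearMap, isHolFunctional_onL hLω Λ, ?_⟩
  intro f hf
  rw [hΛ f hf, onL_of _ hf.continuous.continuousOn]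
  rfl

/-- a carrier gives estimates -/
theorem IsCarrier.bound {T : (Cn n → ℂ) → ℂ} {K : Set (Cn n)} (h : IsCarrier T K)
    {ω : Set (Cn n)} (hω : IsOpen ω) (hK : K ⊆ ω) : ∃ L ⊆ ω, IsCompact L ∧ ∃ C : ℝ, 0 ≤ C ∧
      ∀ f : Cn n → ℂ, Differentiable ℂ f → ∀ M : ℝ, 0 ≤ M → (∀ z ∈ L, ‖f z‖ ≤ M) →
      ‖T f‖ ≤ C * M := by
  obtain ⟨S, ⟨-, -, L, C, hL, hLω, hC, hb⟩, hS⟩ := h ω hω hK
  refine ⟨L, hLω, hL, C, hC, fun f hf M hM hfM => ?_⟩
  rw [← hS f hf]
  exact hb f hf.differentiableOn M hM hfM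

end

end Pool.Agent.H765R2.CS
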