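import Mathlib

set_option autoImplicit false

open Set Metric Topology

namespace Pool.Agent.H765R2.CS

/-- a smooth concave function close to `1 - |w| - (Re w - c₀)⁺` -/
noncomputable def Rs (c0 δ : ℝ) (w : ℂ) : ℝ :=
  1 + 3 * δ - Real.sqrt (‖w‖ ^ 2 + δ ^ 2) - ((w.re - c0) + Real.sqrt ((w.re - c0) ^ 2 + δ ^ 2)) / 2

/-- `-2 ∂_w` of `Rs` -/
noncomputable def sf (c0 δ : ℝ) (w : ℂ) : ℂ :=
  (starRingEnd ℂ) w / (Real.sqrt (‖w‖ ^ 2 + δ ^ 2) : ℂ) +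
    (((1 + (w.re - c0) / Real.sqrt ((w.re - c0) ^ 2 + δ ^ 2)) / 2 : ℝ) : ℂ)

/-- a smooth function between `Rs⁺` and `Rs⁺ + δ`, vanishing where `Rs ≤ -δ` -/
noncomputable def rf (c0 δ : ℝ) (w : ℂ) : ℝ :=
  (Rs c0 δ w + δ) * Real.smoothTransition (Rs c0 δ w / δ + 1)

variable {c0 δ : ℝ}

theorem sqrt_pos_aux (hδ : 0 < δ) (x : ℝ) : 0 < Real.sqrt (x ^ 2 + δ ^ 2) :=
  Real.sqrt_pos.2 (by positivity)

/-- the gradient inequality for `√(x² + δ²)` on the line -/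
theorem sqrt_grad (hδ : 0 < δ) (x y : ℝ) :
    Real.sqrt (x ^ 2 + δ ^ 2) + x / Real.sqrt (x ^ 2 + δ ^ 2) * (y - x) ≤
      Real.sqrt (y ^ 2 + δ ^ 2) := by
  have hx := sqrt_pos_aux hδ x
  have hy := sqrt_pos_aux hδ y
  have hx2 : Real.sqrt (x ^ 2 + δ ^ 2) ^ 2 = x ^ 2 + δ ^ 2 := Real.sq_sqrt (by positivity)
  have hy2 : Real.sqrt (y ^ 2 + δ ^ 2) ^ 2 = y ^ 2 + δ ^ 2 := Real.sq_sqrt (by positivity)
  set a := Real.sqrt (x ^ 2 + δ ^ 2)
  set b := Real.sqrt (y ^ 2 + δ ^ 2)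
  have h1 : x * y + δ ^ 2 ≤ a * b := by
    apply le_of_sq_le_sq _ (by positivity) |> fun h => h
    rw [mul_pow, hx2, hy2]
    nlinarith [sq_nonneg (δ * (x - y))]
  have h2 : a + x / a * (y - x) = (x * y + δ ^ 2) / a := by
    field_simp
    nlinarith
  rw [h2, div_le_iff₀ hx]
  linarith

/-- the gradient inequality for `√(|w|² + δ²)` on the plane -/
theorem norm_grad (hδ : 0 < δ) (w z : ℂ) :
    Real.sqrt (‖w‖ ^ 2 + δ ^ 2) +
      ((starRingEnd ℂ) w / (Real.sqrt (‖w‖ ^ 2 + δ ^ 2) : ℂ) * (z - w)).re ≤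
      Real.sqrt (‖z‖ ^ 2 + δ ^ 2) := by
  have hx := sqrt_pos_aux hδ ‖w‖
  have hy := sqrt_pos_aux hδ ‖z‖
  have hx2 : Real.sqrt (‖w‖ ^ 2 + δ ^ 2) ^ 2 = ‖w‖ ^ 2 + δ ^ 2 := Real.sq_sqrt (by positivity)
  have hy2 : Real.sqrt (‖z‖ ^ 2 + δ ^ 2) ^ 2 = ‖z‖ ^ 2 + δ ^ 2 := Real.sq_sqrt (by positivity)
  set a := Real.sqrt (‖w‖ ^ 2 + δ ^ 2)
  set b := Real.sqrt (‖z‖ ^ 2 + δ ^ 2)
  have h1 : ‖w‖ * ‖z‖ + δ ^ 2 ≤ a * b := by
    apply le_of_sq_le_sq _ (by positivity) |> fun h => h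
    rw [mul_pow, hx2, hy2]
    nlinarith [sq_nonneg (δ * (‖w‖ - ‖z‖))]
  have h3 : ((starRingEnd ℂ) w * z).re ≤ ‖w‖ * ‖z‖ := by
    calc ((starRingEnd ℂ) w * z).re ≤ ‖(starRingEnd ℂ) w * z‖ := Complex.re_le_norm _
      _ = ‖w‖ * ‖z‖ := by rw [norm_mul, RCLike.norm_conj]
  have h4 : ((starRingEnd ℂ) w * w).re = ‖w‖ ^ 2 := by
    rw [← Complex.normSq_eq_conj_mul_self, Complex.ofReal_re, Complex.normSq_eq_norm_sq]
  have h5 : ((starRingEnd ℂ) w / (a : ℂ) * (z - w)).re =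
      (((starRingEnd ℂ) w * z).re - ‖w‖ ^ 2) / a := by
    have : (starRingEnd ℂ) w / (a : ℂ) * (z - w) =
        ((starRingEnd ℂ) w * z - (starRingEnd ℂ) w * w) / (a : ℂ) := by ring
    rw [this, Complex.div_ofReal_re, Complex.sub_re, h4]
  rw [h5]
  have h2 : a + (((starRingEnd ℂ) w * z).re - ‖w‖ ^ 2) / a =
      (((starRingEnd ℂ) w * z).re + δ ^ 2) / a := by
    field_simp
    nlinarith
  rw [h2, div_le_iff₀ hx]
  linarith

theorem Rs_concave (hδ : 0 < δ) (w z : ℂ) :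
    Rs c0 δ z ≤ Rs c0 δ w + (sf c0 δ w * (w - z)).re := by
  have h1 := norm_grad hδ w z
  have h2 := sqrt_grad hδ (w.re - c0) (z.re - c0)
  unfold Rs sf
  have h3 : (((starRingEnd ℂ) w / (Real.sqrt (‖w‖ ^ 2 + δ ^ 2) : ℂ) +
    (((1 + (w.re - c0) / Real.sqrt ((w.re - c0) ^ 2 + δ ^ 2)) / 2 : ℝ) : ℂ)) * (w - z)).re =
    - ((starRingEnd ℂ) w / (Real.sqrt (‖w‖ ^ 2 + δ ^ 2) : ℂ) * (z - w)).re +
    ((1 + (w.re - c0) / Real.sqrt ((w.re - c0) ^ 2 + δ ^ 2)) / 2) * (w.re - z.re) := by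
    rw [add_mul, Complex.add_re, Complex.re_ofReal_mul, Complex.sub_re, ← Complex.neg_re]
    congr 2
    ring
  rw [h3]
  have h4 : (w.re - c0) / Real.sqrt ((w.re - c0) ^ 2 + δ ^ 2) * ((z.re - c0) - (w.re - c0)) =
    (w.re - c0) / Real.sqrt ((w.re - c0) ^ 2 + δ ^ 2) * (z.re - w.re) := by ring
  rw [h4] at h2
  linarith

theorem sqrt_le_aux (hδ : 0 < δ) (x : ℝ) : Real.sqrt (x ^ 2 + δ ^ 2) ≤ |x| + δ := by
  rw [Real.sqrt_le_left (by positivity)]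
  have := abs_nonneg x
  have h2 : |x| ^ 2 = x ^ 2 := sq_abs x
  nlinarith

theorem abs_le_sqrt_aux (x : ℝ) : |x| ≤ Real.sqrt (x ^ 2 + δ ^ 2) := by
  apply Real.le_sqrt_of_sq_le
  rw [sq_abs]
  have := sq_nonneg δ
  linarith

theorem Rs_ge (hδ : 0 < δ) (w : ℂ) :
    1 - ‖w‖ - max (w.re - c0) 0 + 3 / 2 * δ ≤ Rs c0 δ w := by
  unfold Rs
  have h1 := sqrt_le_aux hδ ‖w‖
  have h2 := sqrt_le_aux hδ (w.re - c0)
  rw [abs_of_nonneg (norm_nonneg w)] at h1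
  rcases le_total (w.re - c0) 0 with h | h
  · rw [max_eq_right h]
    rw [abs_of_nonpos h] at h2
    linarith
  · rw [max_eq_left h]
    rw [abs_of_nonneg h] at h2
    linarith

theorem Rs_le (w : ℂ) :
    Rs c0 δ w ≤ 1 + 3 * δ - ‖w‖ - max (w.re - c0) 0 := by
  unfold Rs
  have h1 := abs_le_sqrt_aux (δ := δ) ‖w‖
  have h2 := abs_le_sqrt_aux (δ := δ) (w.re - c0)
  rw [abs_of_nonneg (norm_nonneg w)] at h1
  rcases le_total (w.re - c0) 0 with h | h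
  · rw [max_eq_right h]
    rw [abs_of_nonpos h] at h2
    linarith
  · rw [max_eq_left h]
    rw [abs_of_nonneg h] at h2
    linarith

theorem norm_sf_le (hδ : 0 < δ) (w : ℂ) : ‖sf c0 δ w‖ ≤ 2 := by
  unfold sf
  have h1 := abs_le_sqrt_aux (δ := δ) ‖w‖
  rw [abs_of_nonneg (norm_nonneg w)] at h1
  have h2 := abs_le_sqrt_aux (δ := δ) (w.re - c0)
  have hx := sqrt_pos_aux hδ ‖w‖
  have hy := sqrt_pos_aux hδ (w.re - c0)
  calc _ ≤ ‖(starRingEnd ℂ) w / (Real.sqrt (‖w‖ ^ 2 + δ ^ 2) : ℂ)‖ + _ := norm_add_le _ _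
    _ ≤ 1 + 1 := by
        gcongr
        · rw [norm_div, RCLike.norm_conj, Complex.norm_real, Real.norm_of_nonneg hx.le,
            div_le_one hx]
          exact h1
        · rw [Complex.norm_real, Real.norm_eq_abs]
          have h3 : |(w.re - c0) / Real.sqrt ((w.re - c0) ^ 2 + δ ^ 2)| ≤ 1 := by
            rw [abs_div, abs_of_pos hy, div_le_one hy]
            exact h2
          rw [abs_le] at h3 ⊢
          constructor <;> linarith
    _ = 2 := by norm_num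

theorem rf_nonneg (hδ : 0 < δ) (w : ℂ) : 0 ≤ rf c0 δ w := by
  unfold rf
  rcases le_total (Rs c0 δ w + δ) 0 with h | h
  · rw [Real.smoothTransition.zero_of_nonpos, mul_zero]
    rw [div_add_one hδ.ne']
    exact div_nonpos_of_nonpos_of_nonneg h hδ.le
  · exact mul_nonneg h (Real.smoothTransition.nonneg _)

theorem Rs_le_rf (hδ : 0 < δ) (w : ℂ) : Rs c0 δ w ≤ rf c0 δ w := by
  rcases le_total (Rs c0 δ w) 0 with h | h
  · exact h.trans (rf_nonneg hδ w)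
  · unfold rf
    rw [Real.smoothTransition.one_of_one_le, mul_one]
    · linarith
    · have : 0 ≤ Rs c0 δ w / δ := by positivity
      linarith

theorem rf_le (hδ : 0 < δ) (w : ℂ) : rf c0 δ w ≤ max (Rs c0 δ w) 0 + δ := by
  unfold rf
  rcases le_total (Rs c0 δ w + δ) 0 with h | h
  · have h1 : (Rs c0 δ w + δ) * Real.smoothTransition (Rs c0 δ w / δ + 1) ≤ 0 :=
      mul_nonpos_of_nonpos_of_nonneg h (Real.smoothTransition.nonneg _)
    have h2 : 0 ≤ max (Rs c0 δ w) 0 := le_max_right _ _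
    linarith
  · calc (Rs c0 δ w + δ) * Real.smoothTransition (Rs c0 δ w / δ + 1) ≤ (Rs c0 δ w + δ) * 1 := by
          gcongr
          exact Real.smoothTransition.le_one _
      _ ≤ max (Rs c0 δ w) 0 + δ := by rw [mul_one]; gcongr; exact le_max_left _ _

theorem lt_Rs_of_rf_pos (hδ : 0 < δ) (w : ℂ) (h : 0 < rf c0 δ w) : -δ < Rs c0 δ w := by
  by_contra h1
  push Not at h1
  have : rf c0 δ w = 0 := by
    unfold rf
    rw [Real.smoothTransition.zero_of_nonpos, mul_zero]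
    rw [div_add_one hδ.ne']
    exact div_nonpos_of_nonpos_of_nonneg (by linarith) hδ.le
  linarith

theorem rf_eq_zero (hδ : 0 < δ) (w : ℂ) (h : 1 + 4 * δ ≤ ‖w‖) : rf c0 δ w = 0 := by
  by_contra h1
  have h2 := lt_Rs_of_rf_pos hδ w (lt_of_le_of_ne (rf_nonneg hδ w) (Ne.symm h1))
  have h3 := Rs_le (c0 := c0) (δ := δ) w
  have h4 : 0 ≤ max (w.re - c0) 0 := le_max_right _ _
  linarith

theorem contDiff_sqrt_aux (hδ : 0 < δ) {f : ℂ → ℝ} (hf : ContDiff ℝ 1 f) (hf0 : ∀ w, 0 ≤ f w) :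
    ContDiff ℝ 1 (fun w => Real.sqrt (f w + δ ^ 2)) :=
  (hf.add contDiff_const).sqrt (fun w => by have := hf0 w; positivity)

theorem contDiff_nsq : ContDiff ℝ 1 (fun w : ℂ => ‖w‖ ^ 2) := contDiff_norm_sq ℝ

theorem contDiff_re_sub : ContDiff ℝ 1 (fun w : ℂ => w.re - c0) :=
  Complex.reCLM.contDiff.sub contDiff_const

theorem contDiff_Rs (hδ : 0 < δ) : ContDiff ℝ 1 (Rs c0 δ) := by
  unfold Rs
  have h1 := contDiff_sqrt_aux hδ contDiff_nsq (fun w => by positivity)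
  have h2 := contDiff_sqrt_aux hδ ((contDiff_re_sub (c0 := c0)).pow 2) (fun w => by positivity)
  exact (contDiff_const.sub h1).sub ((contDiff_re_sub.add h2).div_const 2)

theorem contDiff_rf (hδ : 0 < δ) : ContDiff ℝ 1 (rf c0 δ) := by
  unfold rf
  have h := contDiff_Rs (c0 := c0) hδ
  exact (h.add contDiff_const).mul
    ((Real.smoothTransition.contDiff (n := 1)).comp ((h.div_const δ).add contDiff_const))

theorem contDiff_sf (hδ : 0 < δ) : ContDiff ℝ 1 (sf c0 δ) := by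
  unfold sf
  have h1 := contDiff_sqrt_aux hδ contDiff_nsq (fun w => by positivity)
  have h2 := contDiff_sqrt_aux hδ ((contDiff_re_sub (c0 := c0)).pow 2) (fun w => by positivity)
  have h3 : ContDiff ℝ 1 (fun w : ℂ => ((Real.sqrt (‖w‖ ^ 2 + δ ^ 2) : ℝ) : ℂ)) :=
    Complex.ofRealCLM.contDiff.comp h1
  have h4 : ContDiff ℝ 1 (fun w : ℂ => (starRingEnd ℂ) w) := Complex.conjCLE.contDiff
  refine ContDiff.add ?_ ?_
  · simp only [div_eq_mul_inv]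
    refine h4.mul (h3.inv (fun w => ?_))
    exact_mod_cast (sqrt_pos_aux hδ ‖w‖).ne'
  · refine Complex.ofRealCLM.contDiff.comp ?_
    refine ContDiff.div_const ?_ 2
    refine contDiff_const.add ?_
    exact contDiff_re_sub.div h2 (fun w => (sqrt_pos_aux hδ _).ne')

end Pool.Agent.H765R2.CS
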