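import Mathlib
import Pool.Agent.Helper523.LL.Pompeiu

set_option autoImplicit false

open Set Metric Topology MeasureTheory Complex
open Pool.Agent.Helper523.LL (dbar pompeiu)

namespace Pool.Agent.H765R2.CS

/-! ### a small calculus for `dbar` -/

theorem dbar_mul {f g : ℂ → ℂ} {w : ℂ} (hf : DifferentiableAt ℝ f w) (hg : DifferentiableAt ℝ g w) :
    dbar (fun z => f z * g z) w = dbar f w * g w + f w * dbar g w := by
  unfold dbar
  rw [fderiv_fun_mul hf hg]
  simp only [add_apply, smul_apply, smul_eq_mul]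
  ring

theorem dbar_comp {h f : ℂ → ℂ} {h' w : ℂ} (hh : HasDerivAt h h' (f w))
    (hf : DifferentiableAt ℝ f w) : dbar (fun z => h (f z)) w = h' * dbar f w := by
  unfold dbar
  have h1 : HasFDerivAt h ((ContinuousLinearMap.toSpanSingleton ℂ h').restrictScalars ℝ) (f w) :=
    hh.hasFDerivAt.restrictScalars ℝ
  have h2 := h1.comp w hf.hasFDerivAt
  have h3 : fderiv ℝ (fun z => h (f z)) w = _ := h2.fderiv
  rw [h3]
  simp only [ContinuousLinearMap.comp_apply, ContinuousLinearMap.coe_restrictScalars',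
    ContinuousLinearMap.toSpanSingleton_apply, smul_eq_mul]
  ring

theorem dbar_holo {h : ℂ → ℂ} {w : ℂ} (hh : DifferentiableAt ℂ h w) : dbar h w = 0 := by
  have h1 : HasFDerivAt h ((ContinuousLinearMap.toSpanSingleton ℂ (deriv h w)).restrictScalars ℝ) w :=
    hh.hasDerivAt.hasFDerivAt.restrictScalars ℝ
  unfold dbar
  rw [h1.fderiv]
  simp only [ContinuousLinearMap.coe_restrictScalars', ContinuousLinearMap.toSpanSingleton_apply,
    smul_eq_mul]
  linear_combination (1 / 2 * deriv h w) * I_sq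

theorem dbar_const_mul {f : ℂ → ℂ} {c w : ℂ} (hf : DifferentiableAt ℝ f w) :
    dbar (fun z => c * f z) w = c * dbar f w := by
  rw [dbar_mul (differentiableAt_const c) hf, dbar_holo (differentiableAt_const c)]
  ring

theorem continuous_dbar {f : ℂ → ℂ} (hf : ContDiff ℝ 1 f) : Continuous (dbar f) := by
  unfold dbar
  have h := hf.continuous_fderiv (by norm_num)
  have h1 : Continuous (fun w => fderiv ℝ f w 1) := h.clm_apply continuous_const
  have h2 : Continuous (fun w => fderiv ℝ f w I) := h.clm_apply continuous_const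
  fun_prop

theorem hasCompactSupport_dbar {f : ℂ → ℂ} (hc : HasCompactSupport f) :
    HasCompactSupport (dbar f) := by
  have h := hc.fderiv (𝕜 := ℝ)
  apply h.mono
  intro w hw
  rw [Function.mem_support] at hw ⊢
  intro h0
  apply hw
  unfold dbar
  rw [h0]
  simp

theorem integral_by_parts {φ p : ℂ → ℂ} (hφ : ContDiff ℝ 1 φ) (hc : HasCompactSupport φ)
    (hp : ContDiff ℝ 1 p) : ∫ w, dbar φ w * p w = - ∫ w, φ w * dbar p w := by
  have hfφ := hφ.continuous_fderiv (by norm_num)
  have hfp := hp.continuous_fderiv (by norm_num)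
  have hcφ : ∀ v, HasCompactSupport (fun w => fderiv ℝ φ w v) := fun v => hc.fderiv_apply (𝕜 := ℝ) v
  have i1 : ∀ v, Integrable (fun w => fderiv ℝ φ w v * p w) := fun v =>
    ((hfφ.clm_apply continuous_const).mul hp.continuous).integrable_of_hasCompactSupport
      (hcφ v).mul_right
  have i2 : ∀ v, Integrable (fun w => φ w * fderiv ℝ p w v) := fun v =>
    (hφ.continuous.mul (hfp.clm_apply continuous_const)).integrable_of_hasCompactSupport
      hc.mul_right
  have i3 : Integrable (fun w => φ w * p w) :=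
    (hφ.continuous.mul hp.continuous).integrable_of_hasCompactSupport hc.mul_right
  have key : ∀ v, ∫ w, φ w * fderiv ℝ p w v = - ∫ w, fderiv ℝ φ w v * p w := fun v =>
    integral_mul_fderiv_eq_neg_fderiv_mul_of_integrable (i1 v) (i2 v) i3
      (fun x _ => (hφ.differentiable (by norm_num)) x)
      (fun x _ => (hp.differentiable (by norm_num)) x)
  have e1 : ∀ w, dbar φ w * p w =
      (1 / 2) * (fderiv ℝ φ w 1 * p w) + (1 / 2 * I) * (fderiv ℝ φ w I * p w) := by
    intro w; unfold dbar; ring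
  have e2 : ∀ w, φ w * dbar p w =
      (1 / 2) * (φ w * fderiv ℝ p w 1) + (1 / 2 * I) * (φ w * fderiv ℝ p w I) := by
    intro w; unfold dbar; ring
  simp_rw [e1, e2]
  rw [integral_add ((i1 1).const_mul _) ((i1 I).const_mul _),
    integral_add ((i2 1).const_mul _) ((i2 I).const_mul _), integral_const_mul, integral_const_mul,
    integral_const_mul, integral_const_mul, key, key]
  ring

/-! ### the truncated exponential `e^{-x} ∑_{j ≤ k} x^j / j!` -/

noncomputable def Qc (k : ℕ) (x : ℂ) : ℂ := exp (-x) * ∑ j ∈ Finset.range (k + 1), x ^ j / j.factorial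

theorem hasDerivAt_Qc (k : ℕ) (x : ℂ) :
    HasDerivAt (Qc k) (-(exp (-x) * (x ^ k / k.factorial))) x := by
  induction k with
  | zero =>
    have h : Qc 0 = fun x => exp (-x) := by
      ext x; simp [Qc]
    rw [h]
    have := (hasDerivAt_neg x).cexp
    simpa using this
  | succ k ih =>
    have h : Qc (k + 1) = fun x => Qc k x + exp (-x) * (x ^ (k + 1) / (k + 1).factorial) := by
      ext x
      unfold Qc
      rw [Finset.sum_range_succ _ (k + 1)]
      ring
    rw [h]
    have h1 : HasDerivAt (fun x : ℂ => exp (-x)) (-exp (-x)) x := by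
      have := (hasDerivAt_neg x).cexp
      simpa using this
    have h2 : HasDerivAt (fun x : ℂ => x ^ (k + 1) / ((k + 1).factorial : ℂ))
        (((k + 1 : ℕ) : ℂ) * x ^ k / (k + 1).factorial) x := by
      have := (hasDerivAt_pow (k + 1) x).div_const ((k + 1).factorial : ℂ)
      simpa using this
    refine (ih.add (h1.mul h2)).congr_deriv ?_
    have h3 : ((k + 1 : ℕ) : ℂ) * x ^ k / (k + 1).factorial = x ^ k / k.factorial := by
      rw [Nat.factorial_succ]
      push_cast
      have : ((k : ℂ) + 1) ≠ 0 := by exact_mod_cast Nat.succ_ne_zero k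
      have : ((k.factorial : ℕ) : ℂ) ≠ 0 := by exact_mod_cast k.factorial_ne_zero
      field_simp
    rw [h3]
    ring

theorem differentiable_Qc (k : ℕ) : Differentiable ℂ (Qc k) :=
  fun x => (hasDerivAt_Qc k x).differentiableAt

theorem Qc_zero (k : ℕ) : Qc k 0 = 1 := by
  unfold Qc
  rw [neg_zero, exp_zero, one_mul, Finset.sum_range_succ']
  simp

/-! ### the kernel -/

/-- the integrand of `P_k` -/
noncomputable def pk (s ρ h : ℂ → ℂ) (k : ℕ) (t : ℝ) (w : ℂ) : ℂ :=
  s w * (exp (-(t * (s w * w))) * (h (t * s w) * Qc k (t * ρ w)))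

/-- the boundary term in `t` -/
noncomputable def bk (s ρ h : ℂ → ℂ) (k : ℕ) (w : ℂ) (t : ℝ) : ℂ :=
  t * (exp (-(t * (s w * w))) * (h (t * s w) * Qc k (t * ρ w)))

/-- the integrand of `∂̄ P_k` up to a factor -/
noncomputable def dk (s ρ h : ℂ → ℂ) (k : ℕ) (w : ℂ) (t : ℝ) : ℂ :=
  t * (exp (-(t * (s w * w))) * (h (t * s w) * (exp (-(t * ρ w)) * ((t * ρ w) ^ k / k.factorial))))

/-- the `t`-derivative of `bk` -/
noncomputable def bk' (s ρ h : ℂ → ℂ) (k : ℕ) (w : ℂ) (t : ℝ) : ℂ :=
  exp (-(t * (s w * w))) * (h (t * s w) * Qc k (t * ρ w)) +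
  t * (exp (-(t * (s w * w))) * (-(s w * w)) * (h (t * s w) * Qc k (t * ρ w)) +
    exp (-(t * (s w * w))) * (deriv h (t * s w) * s w * Qc k (t * ρ w) +
      h (t * s w) * (-(exp (-(t * ρ w)) * ((t * ρ w) ^ k / k.factorial)) * ρ w)))

variable {s ρ h : ℂ → ℂ}

theorem hasDerivAt_bk (hh : Differentiable ℂ h) (k : ℕ) (w : ℂ) (t : ℝ) :
    HasDerivAt (bk s ρ h k w) (bk' s ρ h k w t) t := by
  have h0 : HasDerivAt (fun t : ℝ => (t : ℂ)) 1 t := ofRealCLM.hasDerivAt
  have h1 : HasDerivAt (fun t : ℝ => exp (-((t : ℂ) * (s w * w))))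
      (exp (-(t * (s w * w))) * (-(s w * w))) t := by
    have := ((h0.mul_const (s w * w)).neg).cexp
    simpa using this
  have h2 : HasDerivAt (fun t : ℝ => h ((t : ℂ) * s w)) (deriv h (t * s w) * s w) t := by
    have e : HasDerivAt (fun t : ℝ => (t : ℂ) * s w) (s w) t := by
      simpa using h0.mul_const (s w)
    exact ((hh _).hasDerivAt).comp t e
  have h3 : HasDerivAt (fun t : ℝ => Qc k ((t : ℂ) * ρ w))
      (-(exp (-(t * ρ w)) * ((t * ρ w) ^ k / k.factorial)) * ρ w) t := by
    have e : HasDerivAt (fun t : ℝ => (t : ℂ) * ρ w) (ρ w) t := by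
      simpa using h0.mul_const (ρ w)
    exact (hasDerivAt_Qc k _).comp t e
  refine (h0.mul (h1.mul (h2.mul h3))).congr_deriv ?_
  unfold bk'
  simp only [Pi.mul_apply]
  ring

theorem dbar_pk (hs : ContDiff ℝ 1 s) (hρ : ContDiff ℝ 1 ρ) (hh : Differentiable ℂ h) (k : ℕ)
    (t : ℝ) (w : ℂ) : dbar (pk s ρ h k t) w =
      dbar s w * bk' s ρ h k w t + (ρ w * dbar s w - s w * dbar ρ w) * dk s ρ h k w t := by
  have ds : DifferentiableAt ℝ s w := (hs.differentiable (by norm_num)) w
  have dρ : DifferentiableAt ℝ ρ w := (hρ.differentiable (by norm_num)) w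
  have did : DifferentiableAt ℝ (fun z : ℂ => z) w := differentiableAt_id
  have e1 : dbar (fun z => s z * z) w = dbar s w * w := by
    rw [dbar_mul ds did, dbar_holo (h := fun z : ℂ => z) differentiableAt_fun_id]
    ring
  have d1 : DifferentiableAt ℝ (fun z => s z * z) w := ds.mul did
  have e2 : dbar (fun z => exp (-(t * (s z * z)))) w =
      exp (-(t * (s w * w))) * (-t) * (dbar s w * w) := by
    have hd : HasDerivAt (fun x : ℂ => exp (-((t : ℂ) * x))) (exp (-(t * (s w * w))) * (-t))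
        (s w * w) := by
      have := (((hasDerivAt_id (s w * w)).const_mul (t : ℂ)).neg).cexp
      simpa using this
    have := dbar_comp (h := fun x : ℂ => exp (-((t : ℂ) * x))) (f := fun z => s z * z) hd d1
    rw [this, e1]
  have d2 : DifferentiableAt ℝ (fun z => exp (-(t * (s z * z)))) w := by fun_prop
  have e3 : dbar (fun z => h (t * s z)) w = deriv h (t * s w) * t * dbar s w := by
    have hd : HasDerivAt (fun x : ℂ => h ((t : ℂ) * x)) (deriv h (t * s w) * t) (s w) := by
      have e : HasDerivAt (fun x : ℂ => (t : ℂ) * x) (t : ℂ) (s w) := by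
        simpa using (hasDerivAt_id (s w)).const_mul (t : ℂ)
      exact ((hh _).hasDerivAt).comp (s w) e
    exact dbar_comp (h := fun x : ℂ => h ((t : ℂ) * x)) (f := s) hd ds
  have hhR : Differentiable ℝ h := fun x => (hh x).restrictScalars ℝ
  have hQR : Differentiable ℝ (Qc k) := fun x => (differentiable_Qc k x).restrictScalars ℝ
  have d3 : DifferentiableAt ℝ (fun z => h (t * s z)) w :=
    (hhR _).comp w (ds.const_mul (t : ℂ))
  have e4 : dbar (fun z => Qc k (t * ρ z)) w =
      -(exp (-(t * ρ w)) * ((t * ρ w) ^ k / k.factorial)) * t * dbar ρ w := by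
    have hd : HasDerivAt (fun x : ℂ => Qc k ((t : ℂ) * x))
        (-(exp (-(t * ρ w)) * ((t * ρ w) ^ k / k.factorial)) * t) (ρ w) := by
      have e : HasDerivAt (fun x : ℂ => (t : ℂ) * x) (t : ℂ) (ρ w) := by
        simpa using (hasDerivAt_id (ρ w)).const_mul (t : ℂ)
      exact (hasDerivAt_Qc k _).comp (ρ w) e
    exact dbar_comp (h := fun x : ℂ => Qc k ((t : ℂ) * x)) (f := ρ) hd dρ
  have d4 : DifferentiableAt ℝ (fun z => Qc k (t * ρ z)) w :=
    (hQR _).comp w (dρ.const_mul (t : ℂ))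
  have d34 : DifferentiableAt ℝ (fun z => h (t * s z) * Qc k (t * ρ z)) w := d3.mul d4
  have d234 : DifferentiableAt ℝ
      (fun z => exp (-(t * (s z * z))) * (h (t * s z) * Qc k (t * ρ z))) w := d2.mul d34
  have e5 : dbar (pk s ρ h k t) w = _ := dbar_mul ds d234
  rw [e5, dbar_mul d2 d34, dbar_mul d3 d4, e2, e3, e4]
  unfold bk' dk
  ring

theorem contDiff_pk (hs : ContDiff ℝ 1 s) (hρ : ContDiff ℝ 1 ρ) (hh : Differentiable ℂ h) (k : ℕ)
    (t : ℝ) : ContDiff ℝ 1 (pk s ρ h k t) := by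
  unfold pk
  have hhC : ContDiff ℝ 1 h := (hh.contDiff (n := 1)).restrict_scalars ℝ
  have hQC : ContDiff ℝ 1 (Qc k) := ((differentiable_Qc k).contDiff (n := 1)).restrict_scalars ℝ
  have hE : ContDiff ℝ 1 (fun w : ℂ => exp w) := (Complex.contDiff_exp (𝕜 := ℂ) (n := 1)).restrict_scalars ℝ
  refine hs.mul (ContDiff.mul ?_ (ContDiff.mul ?_ ?_))
  · exact hE.comp ((contDiff_const.mul (hs.mul contDiff_id)).neg)
  · exact hhC.comp (contDiff_const.mul hs)
  · exact hQC.comp (contDiff_const.mul hρ)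

theorem continuous_pk (hs : ContDiff ℝ 1 s) (hρ : ContDiff ℝ 1 ρ) (hh : Differentiable ℂ h)
    (k : ℕ) : Continuous (fun p : ℝ × ℂ => pk s ρ h k p.1 p.2) := by
  unfold pk
  have h1 := hs.continuous
  have h2 := hρ.continuous
  have h3 := hh.continuous
  have h4 := (differentiable_Qc k).continuous
  fun_prop

theorem continuous_bk' (hs : ContDiff ℝ 1 s) (hρ : ContDiff ℝ 1 ρ) (hh : Differentiable ℂ h)
    (k : ℕ) : Continuous (fun p : ℝ × ℂ => bk' s ρ h k p.2 p.1) := by
  unfold bk'
  have h1 := hs.continuous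
  have h2 := hρ.continuous
  have h3 := hh.continuous
  have h4 := (differentiable_Qc k).continuous
  have h5 : Continuous (deriv h) := (hh.contDiff (n := 1)).continuous_deriv le_rfl
  fun_prop

theorem continuous_dk (hs : ContDiff ℝ 1 s) (hρ : ContDiff ℝ 1 ρ) (hh : Differentiable ℂ h)
    (k : ℕ) : Continuous (fun p : ℝ × ℂ => dk s ρ h k p.2 p.1) := by
  unfold dk
  have h1 := hs.continuous
  have h2 := hρ.continuous
  have h3 := hh.continuous
  fun_prop

theorem swap_aux {φ : ℂ → ℂ} (hφ : Continuous φ) (hc : HasCompactSupport φ) {F : ℝ → ℂ → ℂ}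
    (hF : Continuous (fun p : ℝ × ℂ => F p.1 p.2)) {N : ℝ} (hN : 0 ≤ N) :
    ∫ w, φ w * (∫ t in (0 : ℝ)..N, F t w) = ∫ t in (0 : ℝ)..N, ∫ w, φ w * F t w := by
  simp_rw [intervalIntegral.integral_of_le hN]
  simp_rw [← integral_const_mul]
  apply integral_integral_swap
  have hG : Continuous (fun p : ℂ × ℝ => φ p.1 * F p.2 p.1) := by
    have : Continuous (fun p : ℂ × ℝ => F p.2 p.1) :=
      hF.comp (f := fun p : ℂ × ℝ => ((p.2, p.1) : ℝ × ℂ)) (by fun_prop)
    fun_prop
  have h1 : IntegrableOn (fun p : ℂ × ℝ => φ p.1 * F p.2 p.1) (tsupport φ ×ˢ Ioc 0 N)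
      (volume.prod volume) := by
    have h2 : IntegrableOn (fun p : ℂ × ℝ => φ p.1 * F p.2 p.1) (tsupport φ ×ˢ Icc 0 N)
        (volume.prod volume) :=
      hG.continuousOn.integrableOn_compact (hc.isCompact.prod isCompact_Icc)
    exact h2.mono_set (prod_mono_right Ioc_subset_Icc_self)
  have h3 : IntegrableOn (fun p : ℂ × ℝ => φ p.1 * F p.2 p.1) (univ ×ˢ Ioc 0 N)
      (volume.prod volume) := by
    apply h1.of_forall_sdiff_eq_zero (MeasurableSet.univ.prod measurableSet_Ioc)
    rintro ⟨w, t⟩ ⟨⟨-, h4⟩, h5⟩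
    have h6 : w ∉ tsupport φ := fun h7 => h5 ⟨h7, h4⟩
    show φ w * F t w = 0
    rw [image_eq_zero_of_notMem_tsupport h6, zero_mul]
  unfold IntegrableOn at h3
  rw [← Measure.prod_restrict, Measure.restrict_univ] at h3
  exact h3

/-- the basic identity -/
theorem basic_identity (hs : ContDiff ℝ 1 s) (hρ : ContDiff ℝ 1 ρ) (hh : Differentiable ℂ h)
    (k : ℕ) {φ : ℂ → ℂ} (hφ : ContDiff ℝ 1 φ) (hc : HasCompactSupport φ) {N : ℝ} (hN : 0 ≤ N) :
    ∫ w, dbar φ w * (∫ t in (0 : ℝ)..N, pk s ρ h k t w) =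
    - ∫ w, φ w * (dbar s w * bk s ρ h k w N +
      (ρ w * dbar s w - s w * dbar ρ w) * ∫ t in (0 : ℝ)..N, dk s ρ h k w t) := by
  rw [swap_aux (continuous_dbar hφ) (hasCompactSupport_dbar hc) (continuous_pk hs hρ hh k) hN]
  have e1 : ∀ t : ℝ, ∫ w, dbar φ w * pk s ρ h k t w = - ∫ w, φ w * dbar (pk s ρ h k t) w :=
    fun t => integral_by_parts hφ hc (contDiff_pk hs hρ hh k t)
  simp_rw [e1]
  rw [intervalIntegral.integral_neg]
  congr 1
  have cb := continuous_bk' hs hρ hh k
  have cd := continuous_dk hs hρ hh k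
  have cs := continuous_dbar hs
  have cρ := continuous_dbar hρ
  have hs' := hs.continuous
  have hρ' := hρ.continuous
  have hcont : Continuous (fun p : ℝ × ℂ => dbar (pk s ρ h k p.1) p.2) := by
    simp_rw [dbar_pk hs hρ hh k]
    have c1 : Continuous (fun p : ℝ × ℂ => dbar s p.2) := cs.comp continuous_snd
    have c2 : Continuous (fun p : ℝ × ℂ => ρ p.2 * dbar s p.2 - s p.2 * dbar ρ p.2) := by
      have : Continuous (fun w : ℂ => ρ w * dbar s w - s w * dbar ρ w) :=
        (hρ'.mul cs).sub (hs'.mul cρ)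
      exact this.comp continuous_snd
    exact (c1.mul cb).add (c2.mul cd)
  rw [← swap_aux hφ.continuous hc (F := fun t w => dbar (pk s ρ h k t) w) hcont hN]
  congr 1
  ext w
  congr 1
  simp_rw [dbar_pk hs hρ hh k]
  have cb' : Continuous (fun t : ℝ => bk' s ρ h k w t) :=
    cb.comp (f := fun t : ℝ => ((t, w) : ℝ × ℂ)) (by fun_prop)
  have cd' : Continuous (fun t : ℝ => dk s ρ h k w t) :=
    cd.comp (f := fun t : ℝ => ((t, w) : ℝ × ℂ)) (by fun_prop)
  rw [intervalIntegral.integral_add, intervalIntegral.integral_const_mul,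
    intervalIntegral.integral_const_mul,
    intervalIntegral.integral_eq_sub_of_hasDerivAt (fun t _ => hasDerivAt_bk hh k w t)
      (cb'.intervalIntegrable _ _)]
  · have : bk s ρ h k w 0 = 0 := by simp [bk]
    rw [this, sub_zero]
  · exact (cb'.const_smul (dbar s w)).intervalIntegrable _ _
  · exact (cd'.const_smul (ρ w * dbar s w - s w * dbar ρ w)).intervalIntegrable _ _

end Pool.Agent.H765R2.CS
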