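import Mathlib
import Pool.Agent.H765R2.CS4

set_option autoImplicit false

open Set Metric Topology MeasureTheory Complex
open Pool.Agent.Helper523.LL (dbar pompeiu)

namespace Pool.Agent.H765R2.CS

section
variable {X : Type*} [TopologicalSpace X] [CompactSpace X]

/-- `e^{ζ Z}` in the Banach algebra `C(X, ℂ)` -/
noncomputable def ex (Z : C(X, ℂ)) (ζ : ℂ) : C(X, ℂ) := NormedSpace.exp (ζ • Z)

theorem exp_cm_apply (Z : C(X, ℂ)) (x : X) : (NormedSpace.exp Z) x = Complex.exp (Z x) := by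
  have h := NormedSpace.map_exp (ContinuousMap.evalAlgHom ℂ ℂ x : C(X, ℂ) →ₐ[ℂ] ℂ)
    (continuous_eval_const x) Z
  rw [Complex.exp_eq_exp_ℂ]
  exact h

theorem ex_apply (Z : C(X, ℂ)) (ζ : ℂ) (x : X) : ex Z ζ x = Complex.exp (ζ * Z x) := by
  unfold ex
  rw [exp_cm_apply]
  simp

theorem hasDerivAt_ex (Z : C(X, ℂ)) (ζ : ℂ) : HasDerivAt (ex Z) (ex Z ζ * Z) ζ :=
  hasDerivAt_exp_smul_const Z ζ

theorem continuous_ex (Z : C(X, ℂ)) : Continuous (ex Z) :=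
  continuous_iff_continuousAt.2 (fun ζ => (hasDerivAt_ex Z ζ).continuousAt)

theorem exp_add_smul (Z1 Z2 : C(X, ℂ)) (ζ1 ζ2 : ℂ) :
    NormedSpace.exp (ζ1 • Z1 + ζ2 • Z2) = ex Z2 ζ2 * ex Z1 ζ1 := by
  ext x
  rw [exp_cm_apply, ContinuousMap.mul_apply, ex_apply, ex_apply, ← Complex.exp_add]
  congr 1
  simp [add_comm]

variable (Z1 Z2 : C(X, ℂ)) (Λ : C(X, ℂ) →L[ℂ] ℂ)

/-- `G_k(ζ) = Λ(Z₂^k e^{ζ Z₁})` -/
noncomputable def Gk (k : ℕ) (ζ : ℂ) : ℂ := Λ (Z2 ^ k * ex Z1 ζ)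

theorem hasDerivAt_Gk (k : ℕ) (ζ : ℂ) :
    HasDerivAt (Gk Z1 Z2 Λ k) (Λ (Z2 ^ k * (ex Z1 ζ * Z1))) ζ := by
  have h1 := (hasDerivAt_ex Z1 ζ).const_mul (Z2 ^ k)
  exact (Λ.hasFDerivAt).comp_hasDerivAt ζ h1

theorem differentiable_Gk (k : ℕ) : Differentiable ℂ (Gk Z1 Z2 Λ k) :=
  fun ζ => (hasDerivAt_Gk Z1 Z2 Λ k ζ).differentiableAt

theorem iteratedDeriv_aux (a : C(X, ℂ)) (k : ℕ) :
    iteratedDeriv k (fun ξ => Λ (ex Z2 ξ * a)) = fun ξ => Λ (ex Z2 ξ * Z2 ^ k * a) := by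
  induction k with
  | zero => simp
  | succ k ih =>
    rw [iteratedDeriv_succ, ih]
    ext ξ
    have h1 : HasDerivAt (fun ξ => ex Z2 ξ * Z2 ^ k * a) (ex Z2 ξ * Z2 * Z2 ^ k * a) ξ :=
      ((hasDerivAt_ex Z2 ξ).mul_const (Z2 ^ k)).mul_const a
    have h2 := (Λ.hasFDerivAt (x := ex Z2 ξ * Z2 ^ k * a)).comp_hasDerivAt ξ h1
    have h3 : deriv (fun ξ => Λ (ex Z2 ξ * Z2 ^ k * a)) ξ = _ := h2.deriv
    rw [h3]
    congr 1
    rw [pow_succ]
    ring

/-- Cauchy estimate for `G_k` -/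
theorem norm_Gk_le (k : ℕ) (ζ : ℂ) {r B : ℝ} (hr : 0 < r)
    (hB : ∀ ξ : ℂ, ‖ξ‖ = r → ‖Λ (NormedSpace.exp (ζ • Z1 + ξ • Z2))‖ ≤ B) :
    ‖Gk Z1 Z2 Λ k ζ‖ ≤ k.factorial * B / r ^ k := by
  have h1 : Gk Z1 Z2 Λ k ζ = iteratedDeriv k (fun ξ => Λ (ex Z2 ξ * ex Z1 ζ)) 0 := by
    rw [iteratedDeriv_aux]
    unfold Gk
    congr 1
    have : ex Z2 0 = 1 := by
      ext x; rw [ex_apply]; simp
    rw [this, one_mul]
  rw [h1]
  apply Complex.norm_iteratedDeriv_le_of_forall_mem_sphere_norm_le k hr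
  · apply Differentiable.diffContOnCl
    intro ξ
    have h2 := (hasDerivAt_ex Z2 ξ).mul_const (ex Z1 ζ)
    exact ((Λ.hasFDerivAt).comp_hasDerivAt ξ h2).differentiableAt
  · intro ξ hξ
    have h2 := hB ξ (by simpa using hξ)
    rw [exp_add_smul] at h2
    exact h2

theorem isUnit_sub [Nonempty X] {w : ℂ} (hw : ‖Z1‖ < ‖w‖) :
    w ∈ resolventSet ℂ Z1 := spectrum.mem_resolventSet_of_norm_lt hw

theorem resolvent_apply [Nonempty X] {w : ℂ} (hw : ‖Z1‖ < ‖w‖) (x : X) :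
    resolvent Z1 w x = (w - Z1 x)⁻¹ := by
  have h1 : IsUnit (algebraMap ℂ C(X, ℂ) w - Z1) := isUnit_sub Z1 hw
  have h2 : (algebraMap ℂ C(X, ℂ) w - Z1) * resolvent Z1 w = 1 := Ring.mul_inverse_cancel _ h1
  have h3 := congrArg (fun f : C(X, ℂ) => f x) h2
  simp only [ContinuousMap.mul_apply, ContinuousMap.sub_apply, ContinuousMap.one_apply] at h3
  have h4 : (algebraMap ℂ C(X, ℂ) w) x = w := rfl
  rw [h4] at h3
  exact eq_inv_of_mul_eq_one_right h3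

theorem continuousAt_resolvent [Nonempty X] {w : ℂ} (hw : ‖Z1‖ < ‖w‖) :
    ContinuousAt (fun w : ℂ => resolvent Z1 w) w :=
  (spectrum.hasDerivAt_resolvent_const_left (isUnit_sub Z1 hw)).continuousAt

/-- the explicit `t`-integral where `ρ = 0` -/
theorem integral_far [Nonempty X] (k : ℕ) {w : ℂ} (hw : ‖Z1‖ < ‖w‖) (s : ℂ) (N : ℝ) :
    ∫ t in (0 : ℝ)..N, s * (exp (-(t * (s * w))) * (Gk Z1 Z2 Λ k (t * s) * 1)) =
      Λ (Z2 ^ k * resolvent Z1 w) - Λ (Z2 ^ k * (resolvent Z1 w * ex (algebraMap ℂ C(X, ℂ) w - Z1) (-(N * s)))) := by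
  set W : C(X, ℂ) := algebraMap ℂ C(X, ℂ) w - Z1 with hW
  have hWR : W * resolvent Z1 w = 1 := Ring.mul_inverse_cancel _ (isUnit_sub Z1 hw)
  have hd : ∀ t : ℝ, HasDerivAt (fun t : ℝ => - Λ (Z2 ^ k * (resolvent Z1 w * ex W (-(t * s)))))
      (s * (exp (-(t * (s * w))) * (Gk Z1 Z2 Λ k (t * s) * 1))) t := by
    intro t
    have h0 : HasDerivAt (fun t : ℝ => -((t : ℂ) * s)) (-s) t := by
      have := ((ofRealCLM.hasDerivAt (x := t)).mul_const s).fun_neg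
      simpa using this
    have h1 : HasDerivAt (fun t : ℝ => ex W (-((t : ℂ) * s))) ((-s) • (ex W (-(t * s)) * W)) t :=
      HasDerivAt.scomp (g₁ := ex W) (h := fun t : ℝ => -((t : ℂ) * s)) t
        (hasDerivAt_ex W (-(t * s))) h0
    have h2 := (h1.const_mul (resolvent Z1 w)).const_mul (Z2 ^ k)
    have h3 := (((Λ.restrictScalars ℝ).hasFDerivAt).comp_hasDerivAt t h2).neg
    refine h3.congr_deriv ?_
    rw [mul_one]
    have h4 : Z2 ^ k * (resolvent Z1 w * (-s) • (ex W (-(t * s)) * W)) =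
        (-(s * exp (-(t * (s * w))))) • (Z2 ^ k * ex Z1 (t * s)) := by
      have h5 : resolvent Z1 w * (-s) • (ex W (-(t * s)) * W) =
          (-s) • (ex W (-(t * s)) * (W * resolvent Z1 w)) := by
        rw [mul_smul_comm]; congr 1; ring
      rw [h5, hWR, mul_one]
      ext x
      simp only [ContinuousMap.mul_apply, ContinuousMap.smul_apply, smul_eq_mul, ex_apply,
        ContinuousMap.pow_apply]
      have h6 : W x = w - Z1 x := rfl
      rw [h6]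
      have h7 : exp (-(↑t * s) * (w - Z1 x)) = exp (-(t * (s * w))) * exp (t * s * Z1 x) := by
        rw [← exp_add]; congr 1; ring
      rw [h7]
      ring
    show -(Λ (Z2 ^ k * (resolvent Z1 w * (-s) • (ex W (-(t * s)) * W)))) = _
    rw [h4, map_smul, smul_eq_mul]
    unfold Gk
    ring
  have hcont : Continuous (fun t : ℝ => s * (exp (-(t * (s * w))) * (Gk Z1 Z2 Λ k (t * s) * 1))) := by
    have := (differentiable_Gk Z1 Z2 Λ k).continuous
    fun_prop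
  rw [intervalIntegral.integral_eq_sub_of_hasDerivAt (fun t _ => hd t) (hcont.intervalIntegrable _ _)]
  have h0 : ex W (-(((0 : ℝ) : ℂ) * s)) = 1 := by
    ext x; rw [ex_apply]; simp
  rw [h0, mul_one]
  ring

/-- composition `g(Z₁)` -/
noncomputable def cmp (g : ℂ → ℂ) (hg : Continuous g) (Z : C(X, ℂ)) : C(X, ℂ) :=
  (⟨g, hg⟩ : C(ℂ, ℂ)).comp Z

omit [CompactSpace X] in
@[simp] theorem cmp_apply (g : ℂ → ℂ) (hg : Continuous g) (Z : C(X, ℂ)) (x : X) :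
    cmp g hg Z x = g (Z x) := rfl

/-- Pompeiu's formula, tested with `Λ` -/
theorem pompeiu_lambda [Nonempty X] (k : ℕ) {R1 : ℝ} (hR1 : ‖Z1‖ < R1) {ψ : ℂ → ℂ}
    (hψ : ContDiff ℝ 1 ψ) (hc : HasCompactSupport ψ) (h0 : ∀ w, ‖w‖ < R1 → dbar ψ w = 0) :
    Integrable (fun w => dbar ψ w * Λ (Z2 ^ k * resolvent Z1 w)) ∧
    ∫ w, dbar ψ w * Λ (Z2 ^ k * resolvent Z1 w) =
      - (Real.pi * Λ (Z2 ^ k * cmp ψ hψ.continuous Z1)) := by
  set F : ℂ → C(X, ℂ) := fun w => dbar ψ w • resolvent Z1 w with hF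
  have hdc := continuous_dbar hψ
  have hFc : Continuous F := by
    rw [continuous_iff_continuousAt]
    intro w
    by_cases hw : ‖w‖ < R1
    · have h1 : F =ᶠ[𝓝 w] fun _ => 0 := by
        filter_upwards [(isOpen_lt continuous_norm continuous_const).mem_nhds hw] with z hz
        show dbar ψ z • resolvent Z1 z = 0
        rw [h0 z hz, zero_smul]
      exact continuousAt_const.congr h1.symm
    · push Not at hw
      exact hdc.continuousAt.smul (continuousAt_resolvent Z1 (hR1.trans_le hw))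
  have hFs : HasCompactSupport F := (hasCompactSupport_dbar hc).smul_right
  have hFi : Integrable F := hFc.integrable_of_hasCompactSupport hFs
  have hint : ∫ w, F w = - (Real.pi : ℂ) • cmp ψ hψ.continuous Z1 := by
    ext x
    have h1 := ((ContinuousMap.evalCLM ℂ x).integral_comp_comm hFi)
    have h2 : (∫ w, F w) x = ∫ w, (ContinuousMap.evalCLM ℂ x) (F w) := h1.symm
    rw [h2]
    have h3 : ∀ w, (ContinuousMap.evalCLM ℂ x) (F w) = dbar ψ w * (w - Z1 x)⁻¹ := by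
      intro w
      by_cases hw : ‖w‖ < R1
      · show (dbar ψ w • resolvent Z1 w) x = _
        rw [h0 w hw]; simp
      · push Not at hw
        show (dbar ψ w • resolvent Z1 w) x = _
        rw [ContinuousMap.smul_apply, smul_eq_mul, resolvent_apply Z1 (hR1.trans_le hw)]
    simp_rw [h3]
    rw [pompeiu hψ hc]
    simp
  set Φ : C(X, ℂ) →L[ℂ] ℂ := Λ.comp (ContinuousLinearMap.mul ℂ C(X, ℂ) (Z2 ^ k)) with hΦ
  have h5 : ∀ w, Φ (F w) = dbar ψ w * Λ (Z2 ^ k * resolvent Z1 w) := by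
    intro w
    show Λ (Z2 ^ k * (dbar ψ w • resolvent Z1 w)) = _
    rw [mul_smul_comm, map_smul, smul_eq_mul]
  have h6 := Φ.integral_comp_comm hFi
  have h7 := Φ.integrable_comp hFi
  simp_rw [h5] at h6 h7
  refine ⟨h7, ?_⟩
  rw [h6, hint]
  show Λ (Z2 ^ k * (-(Real.pi : ℂ) • cmp ψ hψ.continuous Z1)) = _
  rw [mul_smul_comm, map_smul, smul_eq_mul]
  ring

end

end Pool.Agent.H765R2.CS
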