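import Mathlib
import Pool.Agent.H765R2.CS5

set_option autoImplicit false

open Set Metric Topology MeasureTheory Complex
open Pool.Agent.Helper523.LL (dbar pompeiu)

namespace Pool.Agent.H765R2.CS

theorem norm_exp_neg_ofReal_mul (t : ℝ) (z : ℂ) : ‖exp (-(t * z))‖ = Real.exp (-(t * z.re)) := by
  rw [Complex.norm_exp]
  simp

theorem norm_Qc_le (k : ℕ) {N r : ℝ} (hN : 1 ≤ N) (hr : 0 ≤ r) :
    ‖Qc k (N * r)‖ ≤ Real.exp (-(N * r)) * (N ^ k * Real.exp r) := by
  unfold Qc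
  rw [norm_mul]
  have h1 : ‖exp (-((N : ℂ) * r))‖ = Real.exp (-(N * r)) := by
    rw [norm_exp_neg_ofReal_mul]; simp
  rw [h1]
  gcongr
  calc ‖∑ j ∈ Finset.range (k + 1), ((N : ℂ) * r) ^ j / j.factorial‖
      ≤ ∑ j ∈ Finset.range (k + 1), ‖((N : ℂ) * r) ^ j / j.factorial‖ := norm_sum_le _ _
    _ ≤ ∑ j ∈ Finset.range (k + 1), N ^ k * (r ^ j / j.factorial) := by
        apply Finset.sum_le_sum
        intro j hj
        rw [norm_div, norm_pow, norm_mul, Complex.norm_real, Complex.norm_real, Complex.norm_natCast,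
          Real.norm_of_nonneg (by linarith), Real.norm_of_nonneg hr, mul_pow, mul_div_assoc]
        exact mul_le_mul_of_nonneg_right
          (pow_le_pow_right₀ hN (by have := Finset.mem_range.1 hj; omega)) (by positivity)
    _ = N ^ k * ∑ j ∈ Finset.range (k + 1), r ^ j / j.factorial := by rw [Finset.mul_sum]
    _ ≤ N ^ k * Real.exp r := by
        gcongr
        exact Real.sum_le_exp_of_nonneg hr _

theorem integral_te_le {m N : ℝ} (hm : 0 < m) (hN : 0 ≤ N) :
    ∫ t in (0 : ℝ)..N, t * Real.exp (-(m * t)) ≤ 1 / m ^ 2 := by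
  have hd : ∀ t : ℝ, HasDerivAt (fun t : ℝ => -((t / m + 1 / m ^ 2) * Real.exp (-(m * t))))
      (t * Real.exp (-(m * t))) t := by
    intro t
    have h1 : HasDerivAt (fun t : ℝ => Real.exp (-(m * t))) (Real.exp (-(m * t)) * (-m)) t := by
      have := (((hasDerivAt_id t).const_mul m).fun_neg).exp
      simpa using this
    have h2 : HasDerivAt (fun t : ℝ => t / m + 1 / m ^ 2) (1 / m) t := by
      simpa using ((hasDerivAt_id t).div_const m).add_const (1 / m ^ 2)
    refine (h2.mul h1).neg.congr_deriv ?_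
    field_simp
    ring
  rw [intervalIntegral.integral_eq_sub_of_hasDerivAt (fun t _ => hd t)
    ((by fun_prop : Continuous fun t : ℝ => t * Real.exp (-(m * t))).intervalIntegrable _ _)]
  have h3 : 0 ≤ (N / m + 1 / m ^ 2) * Real.exp (-(m * N)) := by positivity
  simp only [zero_div, zero_add, mul_zero, neg_zero, Real.exp_zero, mul_one]
  linarith

section
variable {X : Type*} [TopologicalSpace X] [CompactSpace X]
variable (Z1 Z2 : C(X, ℂ)) (Λ : C(X, ℂ) →L[ℂ] ℂ)
variable {s : ℂ → ℂ} {ρ : ℂ → ℝ}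

/-- the growth hypothesis along the curve of directions `s(w)` -/
def GrowthHyp (s : ℂ → ℂ) (ρ : ℂ → ℝ) (m C : ℝ) : Prop :=
  ∀ w : ℂ, ∀ t : ℝ, 0 < t → ∀ ξ : ℂ, ‖ξ‖ = t →
    ‖Λ (NormedSpace.exp ((t * s w) • Z1 + ξ • Z2))‖ ≤ C * Real.exp (t * (ρ w + (s w * w).re - m))

theorem growth_Gk {m C : ℝ} (hG : GrowthHyp Z1 Z2 Λ s ρ m C) (k : ℕ) (w : ℂ) {t : ℝ} (ht : 0 < t) :
    ‖Gk Z1 Z2 Λ k (t * s w)‖ ≤
      k.factorial * (C * Real.exp (t * (ρ w + (s w * w).re - m))) / t ^ k :=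
  norm_Gk_le Z1 Z2 Λ k _ ht (fun ξ hξ => hG w t ht ξ hξ)

theorem norm_bk_le {m C : ℝ} (hρ0 : ∀ w, 0 ≤ ρ w) (hG : GrowthHyp Z1 Z2 Λ s ρ m C)
    (k : ℕ) (w : ℂ) {N : ℝ} (hN : 1 ≤ N) :
    ‖bk s (fun w => (ρ w : ℂ)) (Gk Z1 Z2 Λ k) k w N‖ ≤
      (N * Real.exp (-(m * N))) * (k.factorial * C * Real.exp (ρ w)) := by
  have hN0 : 0 < N := by linarith
  have h1 := growth_Gk Z1 Z2 Λ hG k w hN0
  have h2 := norm_Qc_le k hN (hρ0 w)
  unfold bk
  rw [norm_mul, norm_mul, norm_mul, norm_exp_neg_ofReal_mul, Complex.norm_real,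
    Real.norm_of_nonneg hN0.le]
  calc N * (Real.exp (-(N * (s w * w).re)) * (‖Gk Z1 Z2 Λ k (N * s w)‖ * ‖Qc k (N * (ρ w : ℂ))‖))
      ≤ N * (Real.exp (-(N * (s w * w).re)) *
        ((k.factorial * (C * Real.exp (N * (ρ w + (s w * w).re - m))) / N ^ k) *
          (Real.exp (-(N * ρ w)) * (N ^ k * Real.exp (ρ w))))) := by
        gcongr
        exact (norm_nonneg _).trans h1
    _ = N * (k.factorial * C * Real.exp (ρ w)) * (Real.exp (-(N * (s w * w).re)) *
          Real.exp (N * (ρ w + (s w * w).re - m)) * Real.exp (-(N * ρ w))) := by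
        field_simp
    _ = N * (k.factorial * C * Real.exp (ρ w)) * Real.exp (-(m * N)) := by
        rw [← Real.exp_add, ← Real.exp_add]
        congr 2
        ring
    _ = _ := by ring

theorem norm_dk_le {m C : ℝ} (hρ0 : ∀ w, 0 ≤ ρ w) (hG : GrowthHyp Z1 Z2 Λ s ρ m C)
    (k : ℕ) (w : ℂ) {t : ℝ} (ht : 0 < t) :
    ‖dk s (fun w => (ρ w : ℂ)) (Gk Z1 Z2 Λ k) k w t‖ ≤
      (C * ρ w ^ k) * (t * Real.exp (-(m * t))) := by
  have h1 := growth_Gk Z1 Z2 Λ hG k w ht
  unfold dk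
  rw [norm_mul, norm_mul, norm_mul, norm_mul, norm_exp_neg_ofReal_mul, norm_exp_neg_ofReal_mul,
    Complex.norm_real, Real.norm_of_nonneg ht.le, norm_div, norm_pow, norm_mul, Complex.norm_real,
    Complex.norm_real, Real.norm_of_nonneg ht.le, Real.norm_of_nonneg (hρ0 w),
    Complex.norm_natCast, Complex.ofReal_re]
  have hf : (0 : ℝ) < k.factorial := by exact_mod_cast k.factorial_pos
  have hρw := hρ0 w
  calc t * (Real.exp (-(t * (s w * w).re)) * (‖Gk Z1 Z2 Λ k (t * s w)‖ *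
        (Real.exp (-(t * ρ w)) * ((t * ρ w) ^ k / k.factorial))))
      ≤ t * (Real.exp (-(t * (s w * w).re)) *
        ((k.factorial * (C * Real.exp (t * (ρ w + (s w * w).re - m))) / t ^ k) *
          (Real.exp (-(t * ρ w)) * ((t * ρ w) ^ k / k.factorial)))) := by
        gcongr
    _ = t * (C * ρ w ^ k) * (Real.exp (-(t * (s w * w).re)) *
          Real.exp (t * (ρ w + (s w * w).re - m)) * Real.exp (-(t * ρ w))) := by
        rw [mul_pow]
        field_simp
    _ = t * (C * ρ w ^ k) * Real.exp (-(m * t)) := by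
        rw [← Real.exp_add, ← Real.exp_add]
        congr 2
        ring
    _ = _ := by ring

theorem norm_integral_dk_le {m C : ℝ} (hm : 0 < m) (hC : 0 ≤ C) (hρ0 : ∀ w, 0 ≤ ρ w)
    (hG : GrowthHyp Z1 Z2 Λ s ρ m C) (k : ℕ) (w : ℂ) {N : ℝ} (hN : 0 ≤ N) :
    ‖∫ t in (0 : ℝ)..N, dk s (fun w => (ρ w : ℂ)) (Gk Z1 Z2 Λ k) k w t‖ ≤
      (C * ρ w ^ k) * (1 / m ^ 2) := by
  calc _ ≤ ∫ t in (0 : ℝ)..N, (C * ρ w ^ k) * (t * Real.exp (-(m * t))) := by
        apply intervalIntegral.norm_integral_le_of_norm_le hN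
        · exact Filter.Eventually.of_forall (fun t ht => norm_dk_le Z1 Z2 Λ hρ0 hG k w ht.1)
        · exact (by fun_prop : Continuous fun t : ℝ =>
            (C * ρ w ^ k) * (t * Real.exp (-(m * t)))).intervalIntegrable _ _
    _ = (C * ρ w ^ k) * ∫ t in (0 : ℝ)..N, t * Real.exp (-(m * t)) := by
        rw [intervalIntegral.integral_const_mul]
    _ ≤ (C * ρ w ^ k) * (1 / m ^ 2) := by
        have := hρ0 w
        gcongr
        exact integral_te_le hm hN

theorem dbar_rho_eq_zero (hρ : ContDiff ℝ 1 ρ) (hρ0 : ∀ w, 0 ≤ ρ w) {w : ℂ} (h : ρ w = 0) :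
    dbar (fun w => (ρ w : ℂ)) w = 0 := by
  have hmin : IsLocalMin ρ w := Filter.Eventually.of_forall (fun z => by rw [h]; exact hρ0 z)
  have h1 : fderiv ℝ ρ w = 0 := hmin.fderiv_eq_zero
  have h2 : HasFDerivAt (fun w => (ρ w : ℂ)) (Complex.ofRealCLM.comp (fderiv ℝ ρ w)) w :=
    Complex.ofRealCLM.hasFDerivAt.comp w ((hρ.differentiable (by norm_num)) w).hasFDerivAt
  unfold dbar
  rw [h2.fderiv, h1]
  simp

/-- The weighted estimate for the functionals `g ↦ Λ(Z₂^k g(Z₁))`. -/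
theorem core_k [Nonempty X] (hs : ContDiff ℝ 1 s) (hρ : ContDiff ℝ 1 ρ) (hρ0 : ∀ w, 0 ≤ ρ w)
    {R1 c m C : ℝ} (hR1 : ‖Z1‖ + 1 ≤ R1) (hout : ∀ w, R1 ≤ ‖w‖ → ρ w = 0) (hc : 0 < c)
    (hout2 : ∀ w, R1 ≤ ‖w‖ → ∀ z, ‖z‖ ≤ ‖Z1‖ → c ≤ (s w * (w - z)).re) (hm : 0 < m) (hC : 0 ≤ C)
    (hG : GrowthHyp Z1 Z2 Λ s ρ m C) :
    ∃ A : ℝ, 0 ≤ A ∧ ∀ (k : ℕ) (g : ℂ → ℂ) (hg : Differentiable ℂ g) (S : ℝ), 0 ≤ S →
      (∀ w, 0 < ρ w → ‖g w‖ * ρ w ^ k ≤ S) →
      ‖Λ (Z2 ^ k * cmp g hg.continuous Z1)‖ ≤ A * S := by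
  have hR1pos : 0 < R1 := by have := norm_nonneg Z1; linarith
  let χb : ContDiffBump (0 : ℂ) := ⟨R1, R1 + 1, hR1pos, by linarith⟩
  set χ : ℂ → ℂ := fun w => (χb w : ℂ) with hχ
  have hχC : ContDiff ℝ 1 χ := Complex.ofRealCLM.contDiff.comp (χb.contDiff (n := 1))
  have hχs : HasCompactSupport χ := χb.hasCompactSupport.comp_left Complex.ofReal_zero
  set ρc : ℂ → ℂ := fun w => (ρ w : ℂ) with hρc
  have hρcC : ContDiff ℝ 1 ρc := Complex.ofRealCLM.contDiff.comp hρ
  set u : ℂ → ℂ := fun w => ρc w * dbar s w - s w * dbar ρc w with hu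
  have huC : Continuous u :=
    (hρcC.continuous.mul (continuous_dbar hs)).sub (hs.continuous.mul (continuous_dbar hρcC))
  have hu0 : ∀ w, ρ w = 0 → u w = 0 := by
    intro w hw
    rw [hu]
    show ρc w * dbar s w - s w * dbar ρc w = 0
    rw [hρc, dbar_rho_eq_zero hρ hρ0 hw]
    simp [hw]
  have hJ1i : Integrable (fun w => ‖χ w‖ * ‖u w‖) := by
    apply Continuous.integrable_of_hasCompactSupport
    · exact hχC.continuous.norm.mul huC.norm
    · exact hχs.norm.mul_right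
  set J1 : ℝ := ∫ w, ‖χ w‖ * ‖u w‖ with hJ1
  have hJ1n : 0 ≤ J1 := integral_nonneg (fun w => by positivity)
  refine ⟨C * (1 / m ^ 2) * J1 / Real.pi, by positivity, ?_⟩
  intro k g hg S hS hgS
  have hgC : ContDiff ℝ 1 g := (hg.contDiff (n := 1)).restrict_scalars ℝ
  set φ : ℂ → ℂ := fun w => χ w * g w with hφ
  have hφC : ContDiff ℝ 1 φ := hχC.mul hgC
  have hφs : HasCompactSupport φ := hχs.mul_right
  have hdφ0 : ∀ w, ‖w‖ < R1 → dbar φ w = 0 := by
    intro w hw
    have h1 : φ =ᶠ[𝓝 w] g := by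
      filter_upwards [(isOpen_lt continuous_norm continuous_const).mem_nhds hw] with z hz
      show (χb z : ℂ) * g z = g z
      rw [χb.one_of_mem_closedBall (by rw [mem_closedBall_zero_iff]; exact (le_of_lt hz))]
      simp
    unfold dbar
    rw [h1.fderiv_eq]
    exact dbar_holo (hg w)
  have hcmp : cmp φ hφC.continuous Z1 = cmp g hg.continuous Z1 := by
    ext x
    show (χb (Z1 x) : ℂ) * g (Z1 x) = g (Z1 x)
    rw [χb.one_of_mem_closedBall]
    · simp
    · rw [mem_closedBall_zero_iff]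
      show ‖Z1 x‖ ≤ R1
      have := Z1.norm_coe_le_norm x
      linarith
  obtain ⟨hAi, hA⟩ := pompeiu_lambda Z1 Z2 Λ k (by linarith : ‖Z1‖ < R1) hφC hφs hdφ0
  rw [hcmp] at hA
  have hGd := differentiable_Gk Z1 Z2 Λ k
  set G := Gk Z1 Z2 Λ k with hGdef
  have hJ2i : Integrable (fun w => ‖φ w‖ * (‖dbar s w‖ * (k.factorial * C * Real.exp (ρ w)))) := by
    apply Continuous.integrable_of_hasCompactSupport
    · have h1 := hφC.continuous
      have h2 := continuous_dbar hs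
      have h3 := hρ.continuous
      fun_prop
    · exact hφs.norm.mul_right
  set J2 : ℝ := ∫ w, ‖φ w‖ * (‖dbar s w‖ * (k.factorial * C * Real.exp (ρ w))) with hJ2
  have hJ2n : 0 ≤ J2 := integral_nonneg (fun w => by positivity)
  have hJ3i : Integrable (fun w => ‖dbar φ w‖ * (‖Λ‖ * ‖Z2 ^ k‖)) := by
    apply Continuous.integrable_of_hasCompactSupport
    · have h1 := continuous_dbar hφC
      fun_prop
    · exact (hasCompactSupport_dbar hφs).norm.mul_right
  set J3 : ℝ := ∫ w, ‖dbar φ w‖ * (‖Λ‖ * ‖Z2 ^ k‖) with hJ3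
  have hJ3n : 0 ≤ J3 := integral_nonneg (fun w => by positivity)
  -- the estimate for each `N ≥ 1`
  have hmain : ∀ N : ℝ, 1 ≤ N → Real.pi * ‖Λ (Z2 ^ k * cmp g hg.continuous Z1)‖ ≤
      (C * (1 / m ^ 2) * J1) * S + (N * Real.exp (-(m * N))) * J2 + Real.exp (-(c * N)) * J3 := by
    intro N hN
    have hN0 : 0 ≤ N := by linarith
    have hbasic := basic_identity hs hρcC hGd k hφC hφs hN0
    -- the left side of the basic identity
    have hPc : Continuous (fun w => ∫ t in (0 : ℝ)..N, pk s ρc G k t w) := by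
      apply intervalIntegral.continuous_parametric_intervalIntegral_of_continuous'
      exact (continuous_pk hs hρcC hGd k).comp
        (f := fun p : ℂ × ℝ => ((p.2, p.1) : ℝ × ℂ)) (by fun_prop)
    have hPi : Integrable (fun w => dbar φ w * ∫ t in (0 : ℝ)..N, pk s ρc G k t w) := by
      apply Continuous.integrable_of_hasCompactSupport
      · exact (continuous_dbar hφC).mul hPc
      · exact (hasCompactSupport_dbar hφs).mul_right
    have hdiff : ‖(∫ w, dbar φ w * Λ (Z2 ^ k * resolvent Z1 w)) -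
        ∫ w, dbar φ w * ∫ t in (0 : ℝ)..N, pk s ρc G k t w‖ ≤ Real.exp (-(c * N)) * J3 := by
      rw [← integral_sub hAi hPi, hJ3, ← integral_const_mul]
      apply norm_integral_le_of_norm_le (hJ3i.const_mul _)
      refine Filter.Eventually.of_forall (fun w => ?_)
      by_cases hw : ‖w‖ < R1
      · rw [hdφ0 w hw]
        simp
      · push Not at hw
        have hw' : ‖Z1‖ < ‖w‖ := by linarith
        have e1 : ∫ t in (0 : ℝ)..N, pk s ρc G k t w =
            ∫ t in (0 : ℝ)..N, s w * (exp (-(t * (s w * w))) * (G (t * s w) * 1)) := by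
          apply intervalIntegral.integral_congr
          intro t _
          show s w * (exp (-(t * (s w * w))) * (G (t * s w) * Qc k (t * ρc w))) = _
          have : ρc w = 0 := by
            show ((ρ w : ℝ) : ℂ) = 0
            rw [hout w hw]; simp
          rw [this, mul_zero, Qc_zero]
        rw [e1, hGdef, integral_far Z1 Z2 Λ k hw' (s w) N, mul_sub, sub_sub_cancel, norm_mul]
        have e2 : ‖Λ (Z2 ^ k * (resolvent Z1 w * ex (algebraMap ℂ C(X, ℂ) w - Z1) (-(N * s w))))‖ ≤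
            ‖Λ‖ * (‖Z2 ^ k‖ * Real.exp (-(c * N))) := by
          refine (Λ.le_opNorm _).trans ?_
          gcongr
          refine (norm_mul_le _ _).trans ?_
          gcongr
          rw [ContinuousMap.norm_le _ (Real.exp_pos _).le]
          intro x
          rw [ContinuousMap.mul_apply, resolvent_apply Z1 hw', ex_apply, norm_mul, norm_inv,
            Complex.norm_exp]
          have hx := Z1.norm_coe_le_norm x
          have h1 : 1 ≤ ‖w - Z1 x‖ := by
            have := norm_sub_norm_le w (Z1 x)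
            linarith
          have h2 : ‖w - Z1 x‖⁻¹ ≤ 1 := inv_le_one_of_one_le₀ h1
          have h3 : (algebraMap ℂ C(X, ℂ) w - Z1) x = w - Z1 x := rfl
          rw [h3]
          have h4 : (-(↑N * s w) * (w - Z1 x)).re = -(N * (s w * (w - Z1 x)).re) := by
            have : -(↑N * s w) * (w - Z1 x) = -((N : ℂ) * (s w * (w - Z1 x))) := by ring
            rw [this, Complex.neg_re, Complex.re_ofReal_mul]
          rw [h4]
          have h5 := hout2 w hw (Z1 x) hx
          have h6 : N * c ≤ N * (s w * (w - Z1 x)).re := mul_le_mul_of_nonneg_left h5 hN0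
          calc ‖w - Z1 x‖⁻¹ * Real.exp (-(N * (s w * (w - Z1 x)).re)) ≤
              1 * Real.exp (-(c * N)) := by
                refine mul_le_mul h2 (Real.exp_le_exp.2 ?_) (Real.exp_pos _).le zero_le_one
                linarith
            _ = _ := one_mul _
        calc ‖dbar φ w‖ * _ ≤ ‖dbar φ w‖ * (‖Λ‖ * (‖Z2 ^ k‖ * Real.exp (-(c * N)))) := by
              gcongr
          _ = Real.exp (-(c * N)) * (‖dbar φ w‖ * (‖Λ‖ * ‖Z2 ^ k‖)) := by ring
    have hright : ‖∫ w, dbar φ w * ∫ t in (0 : ℝ)..N, pk s ρc G k t w‖ ≤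
        (C * (1 / m ^ 2) * J1) * S + (N * Real.exp (-(m * N))) * J2 := by
      rw [hbasic, norm_neg]
      have e1 : (C * (1 / m ^ 2) * J1) * S + (N * Real.exp (-(m * N))) * J2 =
          ∫ w, ((C * (1 / m ^ 2) * S) * (‖χ w‖ * ‖u w‖) + (N * Real.exp (-(m * N))) *
            (‖φ w‖ * (‖dbar s w‖ * (k.factorial * C * Real.exp (ρ w))))) := by
        rw [integral_add (hJ1i.const_mul _) (hJ2i.const_mul _), integral_const_mul,
          integral_const_mul, ← hJ1, ← hJ2]
        ring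
      rw [e1]
      apply norm_integral_le_of_norm_le ((hJ1i.const_mul _).add (hJ2i.const_mul _))
      refine Filter.Eventually.of_forall (fun w => ?_)
      have b1 := norm_bk_le Z1 Z2 Λ hρ0 hG k w hN
      have b2 := norm_integral_dk_le Z1 Z2 Λ hm hC hρ0 hG k w hN0
      have hρw := hρ0 w
      show ‖φ w * (dbar s w * bk s ρc G k w N + u w * ∫ t in (0 : ℝ)..N, dk s ρc G k w t)‖ ≤
        (C * (1 / m ^ 2) * S) * (‖χ w‖ * ‖u w‖) + (N * Real.exp (-(m * N))) *
            (‖φ w‖ * (‖dbar s w‖ * (k.factorial * C * Real.exp (ρ w))))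
      calc _ ≤ ‖φ w‖ * (‖dbar s w‖ * ‖bk s ρc G k w N‖ +
            ‖u w‖ * ‖∫ t in (0 : ℝ)..N, dk s ρc G k w t‖) := by
            rw [norm_mul]
            gcongr
            refine (norm_add_le _ _).trans ?_
            rw [norm_mul, norm_mul]
        _ ≤ ‖φ w‖ * (‖dbar s w‖ * ((N * Real.exp (-(m * N))) * (k.factorial * C * Real.exp (ρ w))) +
            ‖u w‖ * ((C * ρ w ^ k) * (1 / m ^ 2))) := by
            gcongr
        _ = (C * (1 / m ^ 2)) * (‖φ w‖ * ρ w ^ k * ‖u w‖) + (N * Real.exp (-(m * N))) *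
            (‖φ w‖ * (‖dbar s w‖ * (k.factorial * C * Real.exp (ρ w)))) := by ring
        _ ≤ _ := by
            gcongr ?_ + _
            have h1 : ‖φ w‖ * ρ w ^ k * ‖u w‖ ≤ S * (‖χ w‖ * ‖u w‖) := by
              rcases hρw.eq_or_lt with h0 | hpos
              · rw [hu0 w h0.symm]
                simp
              · have h2 := hgS w hpos
                have h3 : ‖φ w‖ = ‖χ w‖ * ‖g w‖ := norm_mul _ _
                rw [h3]
                calc ‖χ w‖ * ‖g w‖ * ρ w ^ k * ‖u w‖ = (‖g w‖ * ρ w ^ k) * (‖χ w‖ * ‖u w‖) := by ring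
                  _ ≤ S * (‖χ w‖ * ‖u w‖) := by gcongr
            calc (C * (1 / m ^ 2)) * (‖φ w‖ * ρ w ^ k * ‖u w‖) ≤
                (C * (1 / m ^ 2)) * (S * (‖χ w‖ * ‖u w‖)) := by gcongr
              _ = _ := by ring
    have e3 : ‖∫ w, dbar φ w * Λ (Z2 ^ k * resolvent Z1 w)‖ =
        Real.pi * ‖Λ (Z2 ^ k * cmp g hg.continuous Z1)‖ := by
      rw [hA, norm_neg, norm_mul, Complex.norm_real, Real.norm_of_nonneg Real.pi_pos.le]
    rw [← e3]
    calc _ = ‖(∫ w, dbar φ w * ∫ t in (0 : ℝ)..N, pk s ρc G k t w) +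
          ((∫ w, dbar φ w * Λ (Z2 ^ k * resolvent Z1 w)) -
          ∫ w, dbar φ w * ∫ t in (0 : ℝ)..N, pk s ρc G k t w)‖ := by congr 1; ring
      _ ≤ _ := norm_add_le _ _
      _ ≤ _ := add_le_add hright hdiff
  -- let `N → ∞`
  have hlim : Real.pi * ‖Λ (Z2 ^ k * cmp g hg.continuous Z1)‖ ≤ (C * (1 / m ^ 2) * J1) * S := by
    apply le_of_forall_pos_le_add
    intro ε hε
    set B : ℝ := 2 / m ^ 2 * J2 + 1 / c * J3 with hB
    have hBn : 0 ≤ B := by positivity
    set N : ℝ := max 1 (B / ε) with hN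
    have hN1 : 1 ≤ N := le_max_left _ _
    have hNpos : 0 < N := by linarith
    have hN2 : B / N ≤ ε := by
      rw [div_le_iff₀ hNpos]
      have : B / ε ≤ N := le_max_right _ _
      rw [div_le_iff₀ hε] at this
      linarith
    have h1 : N * Real.exp (-(m * N)) ≤ 2 / m ^ 2 / N := by
      have h2 := Real.quadratic_le_exp_of_nonneg (by positivity : 0 ≤ m * N)
      have h3 : (m * N) ^ 2 / 2 ≤ Real.exp (m * N) := by
        have : 0 ≤ m * N := by positivity
        linarith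
      rw [Real.exp_neg]
      calc N * (Real.exp (m * N))⁻¹ ≤ N * ((m * N) ^ 2 / 2)⁻¹ := by gcongr
        _ = 2 / m ^ 2 / N := by field_simp
    have h2 : Real.exp (-(c * N)) ≤ 1 / c / N := by
      have h3 := Real.add_one_le_exp (c * N)
      have h4 : c * N ≤ Real.exp (c * N) := by linarith
      rw [Real.exp_neg]
      calc (Real.exp (c * N))⁻¹ ≤ (c * N)⁻¹ := by gcongr
        _ = 1 / c / N := by field_simp
    calc _ ≤ _ := hmain N hN1
      _ ≤ (C * (1 / m ^ 2) * J1) * S + (2 / m ^ 2 / N) * J2 + (1 / c / N) * J3 := by gcongr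
      _ = (C * (1 / m ^ 2) * J1) * S + B / N := by rw [hB]; field_simp; ring
      _ ≤ (C * (1 / m ^ 2) * J1) * S + ε := by gcongr
  rw [div_mul_eq_mul_div, le_div_iff₀ Real.pi_pos]
  linarith

end

end Pool.Agent.H765R2.CS
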