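import Mathlib
import Pool.Agent.H765R2.CS6

set_option autoImplicit false

open Set Metric Topology MeasureTheory Complex

namespace Pool.Agent.H765R2.CS

/-- the `k`-th Taylor coefficient in the second variable -/
noncomputable def tk (f : ℂ × ℂ → ℂ) (k : ℕ) (w : ℂ) : ℂ :=
  (k.factorial : ℂ)⁻¹ * iteratedDeriv k (fun ξ => f (w, ξ)) 0

theorem differentiable_slice2 {f : ℂ × ℂ → ℂ} (hf : Differentiable ℂ f) (w : ℂ) :
    Differentiable ℂ (fun ξ => f (w, ξ)) :=
  fun ξ => (hf (w, ξ)).comp ξ ((differentiableAt_const w).prodMk differentiableAt_id)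

theorem differentiable_slice1 {f : ℂ × ℂ → ℂ} (hf : Differentiable ℂ f) (ξ : ℂ) :
    Differentiable ℂ (fun w => f (w, ξ)) :=
  fun w => (hf (w, ξ)).comp w (differentiableAt_id.prodMk (differentiableAt_const ξ))

theorem differentiable_circle {f : ℂ × ℂ → ℂ} (hf : Differentiable ℂ f) {u : ℝ → ℂ}
    (hu : Continuous u) :
    Differentiable ℂ (fun w => ∫ θ in (0 : ℝ)..(2 * Real.pi), u θ * f (w, circleMap 0 1 θ)) := by
  intro w0
  have hfc := hf.continuous
  have hcirc : Continuous (circleMap (0 : ℂ) 1) := continuous_circleMap 0 1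
  obtain ⟨M, hM⟩ : ∃ M : ℝ, ∀ p ∈ closedBall w0 2 ×ˢ closedBall (0 : ℂ) 1, ‖f p‖ ≤ M :=
    ((isCompact_closedBall w0 2).prod (isCompact_closedBall (0 : ℂ) 1)).exists_bound_of_continuousOn
      hfc.continuousOn
  have hFm : ∀ w : ℂ, Continuous (fun θ : ℝ => u θ * f (w, circleMap 0 1 θ)) := by
    intro w
    exact hu.mul (hfc.comp (continuous_const.prodMk hcirc))
  have hmeas : Measurable (fun θ : ℝ => fderiv ℂ f (w0, circleMap 0 1 θ) ((1 : ℂ), (0 : ℂ))) :=
    (measurable_fderiv_apply_const ℂ f ((1 : ℂ), (0 : ℂ))).comp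
      (measurable_const.prodMk hcirc.measurable)
  have hd : ∀ w ξ : ℂ, HasDerivAt (fun w => f (w, ξ)) (fderiv ℂ f (w, ξ) ((1 : ℂ), (0 : ℂ))) w := by
    intro w ξ
    have h1 : HasDerivAt (fun w : ℂ => ((w, ξ) : ℂ × ℂ)) ((1 : ℂ), (0 : ℂ)) w :=
      (hasDerivAt_id w).prodMk (hasDerivAt_const w ξ)
    exact (hf (w, ξ)).hasFDerivAt.comp_hasDerivAt w h1
  have key := intervalIntegral.hasDerivAt_integral_of_dominated_loc_of_deriv_le (μ := volume)
    (a := 0) (b := 2 * Real.pi) (x₀ := w0) (s := ball w0 1)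
    (F := fun w θ => u θ * f (w, circleMap 0 1 θ))
    (F' := fun w θ => u θ * fderiv ℂ f (w, circleMap 0 1 θ) ((1 : ℂ), (0 : ℂ)))
    (bound := fun θ => ‖u θ‖ * M)
    (ball_mem_nhds w0 one_pos)
    (Filter.Eventually.of_forall (fun w => (hFm w).aestronglyMeasurable))
    ((hFm w0).intervalIntegrable _ _)
    ((hu.measurable.mul hmeas).aestronglyMeasurable)
    (Filter.Eventually.of_forall (fun θ _ w hw => by
      show ‖u θ * fderiv ℂ f (w, circleMap 0 1 θ) ((1 : ℂ), (0 : ℂ))‖ ≤ ‖u θ‖ * M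
      rw [norm_mul]
      gcongr
      rw [← (hd w (circleMap 0 1 θ)).deriv]
      have h1 := Complex.norm_deriv_le_of_forall_mem_sphere_norm_le (c := w) (R := 1) (C := M)
        (f := fun w => f (w, circleMap 0 1 θ)) one_pos
        (differentiable_slice1 hf (circleMap 0 1 θ)).diffContOnCl
        (fun z hz => by
          apply hM
          refine ⟨?_, ?_⟩
          · rw [mem_closedBall]
            rw [mem_sphere] at hz
            rw [mem_ball] at hw
            calc dist z w0 ≤ dist z w + dist w w0 := dist_triangle _ _ _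
              _ ≤ 1 + 1 := by gcongr; exact hz.le
              _ = 2 := by norm_num
          · exact sphere_subset_closedBall (circleMap_mem_sphere 0 zero_le_one θ))
      simpa using h1))
    ((hu.norm.mul continuous_const).intervalIntegrable _ _)
    (Filter.Eventually.of_forall (fun θ _ w _ => (hd w (circleMap 0 1 θ)).const_mul (u θ)))
  exact key.2.differentiableAt

theorem differentiable_tk {f : ℂ × ℂ → ℂ} (hf : Differentiable ℂ f) (k : ℕ) :
    Differentiable ℂ (tk f k) := by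
  set u : ℝ → ℂ := fun θ => deriv (circleMap 0 1) θ * (1 / (circleMap 0 1 θ) ^ (k + 1)) with hu
  have huc : Continuous u := by
    have h1 : Continuous (fun θ : ℝ => circleMap (0 : ℂ) 1 θ) := continuous_circleMap 0 1
    have h2 : ∀ θ : ℝ, (circleMap (0 : ℂ) 1 θ) ^ (k + 1) ≠ 0 := by
      intro θ
      apply pow_ne_zero
      intro h0
      have h3 := circleMap_mem_sphere (0 : ℂ) zero_le_one θ
      rw [h0] at h3
      simp at h3
    rw [hu]
    simp only [deriv_circleMap]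
    exact (h1.mul continuous_const).mul (continuous_const.div (h1.pow _) h2)
  have h1 := differentiable_circle hf huc
  have h2 : tk f k = fun w => (2 * Real.pi * I)⁻¹ *
      ∫ θ in (0 : ℝ)..(2 * Real.pi), u θ * f (w, circleMap 0 1 θ) := by
    ext w
    have h3 := DifferentiableOn.circleIntegral_one_div_sub_center_pow_smul (c := (0 : ℂ)) (R := 1)
      (f := fun ξ => f (w, ξ)) one_pos k (differentiable_slice2 hf w).differentiableOn
    unfold tk
    have h4 : (∫ θ in (0 : ℝ)..(2 * Real.pi), u θ * f (w, circleMap 0 1 θ)) =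
        ∮ z in C(0, 1), (1 / (z - 0) ^ (k + 1)) • f (w, z) := by
      unfold circleIntegral
      apply intervalIntegral.integral_congr
      intro θ _
      simp only [hu, sub_zero, smul_eq_mul]
      ring
    rw [h4, h3, smul_eq_mul, ← mul_assoc]
    congr 1
    have : (2 * Real.pi * I : ℂ) ≠ 0 := Complex.two_pi_I_ne_zero
    field_simp
  rw [h2]
  exact (differentiable_const _).mul h1

theorem norm_tk_le {f : ℂ × ℂ → ℂ} (hf : Differentiable ℂ f) (k : ℕ) (w : ℂ) {r M : ℝ}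
    (hr : 0 < r) (hM : ∀ ξ : ℂ, ‖ξ‖ = r → ‖f (w, ξ)‖ ≤ M) : ‖tk f k w‖ ≤ M / r ^ k := by
  unfold tk
  have h1 := Complex.norm_iteratedDeriv_le_of_forall_mem_sphere_norm_le (c := (0 : ℂ)) (R := r)
    (C := M) (f := fun ξ => f (w, ξ)) k hr (differentiable_slice2 hf w).diffContOnCl
    (fun z hz => hM z (by simpa using hz))
  rw [norm_mul, norm_inv, Complex.norm_natCast]
  have h2 : (0 : ℝ) < k.factorial := by exact_mod_cast k.factorial_pos
  calc (k.factorial : ℝ)⁻¹ * ‖iteratedDeriv k (fun ξ => f (w, ξ)) 0‖ ≤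
      (k.factorial : ℝ)⁻¹ * (k.factorial * M / r ^ k) := by gcongr
    _ = M / r ^ k := by field_simp

section
variable {X : Type*} [TopologicalSpace X] [CompactSpace X]
variable (Z1 Z2 : C(X, ℂ)) (Λ : C(X, ℂ) →L[ℂ] ℂ)
variable {s : ℂ → ℂ} {ρ : ℂ → ℝ}

/-- `f(Z₁, Z₂)` -/
noncomputable def cmp2 (f : ℂ × ℂ → ℂ) (hf : Continuous f) : C(X, ℂ) :=
  (⟨f, hf⟩ : C(ℂ × ℂ, ℂ)).comp (Z1.prodMk Z2)

omit [CompactSpace X] in
theorem cmp2_apply (f : ℂ × ℂ → ℂ) (hf : Continuous f) (x : X) :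
    cmp2 Z1 Z2 f hf x = f (Z1 x, Z2 x) := rfl

theorem hasSum_cmp2 {f : ℂ × ℂ → ℂ} (hf : Differentiable ℂ f) :
    HasSum (fun k : ℕ => Z2 ^ k * cmp (tk f k) (differentiable_tk hf k).continuous Z1)
      (cmp2 Z1 Z2 f hf.continuous) := by
  set r : ℝ := ‖Z2‖ + 1 with hr
  have hrpos : 0 < r := by have := norm_nonneg Z2; linarith
  obtain ⟨M, hM⟩ : ∃ M : ℝ, ∀ p ∈ closedBall (0 : ℂ) ‖Z1‖ ×ˢ closedBall (0 : ℂ) r, ‖f p‖ ≤ M :=
    ((isCompact_closedBall _ _).prod (isCompact_closedBall (0 : ℂ) r)).exists_bound_of_continuousOn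
      hf.continuous.continuousOn
  have hM0 : 0 ≤ M := (norm_nonneg _).trans (hM (0, 0) ⟨by simp, by simp [hrpos.le]⟩)
  have hterm : ∀ k : ℕ, ‖Z2 ^ k * cmp (tk f k) (differentiable_tk hf k).continuous Z1‖ ≤
      M * (‖Z2‖ / r) ^ k := by
    intro k
    rw [ContinuousMap.norm_le _ (by positivity)]
    intro x
    have h1 := Z1.norm_coe_le_norm x
    have h2 := Z2.norm_coe_le_norm x
    have h3 := norm_tk_le hf k (Z1 x) hrpos (M := M) (fun ξ hξ => hM _ ⟨by simpa using h1, by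
      simp [hξ]⟩)
    rw [ContinuousMap.mul_apply, ContinuousMap.pow_apply, cmp_apply, norm_mul, norm_pow]
    calc ‖Z2 x‖ ^ k * ‖tk f k (Z1 x)‖ ≤ ‖Z2‖ ^ k * (M / r ^ k) := by gcongr
      _ = M * (‖Z2‖ / r) ^ k := by rw [div_pow]; ring
  have hq : ‖Z2‖ / r < 1 := by rw [div_lt_one hrpos]; linarith
  have hsum : Summable (fun k : ℕ => Z2 ^ k * cmp (tk f k) (differentiable_tk hf k).continuous Z1) :=
    Summable.of_norm_bounded ((summable_geometric_of_lt_one (by positivity) hq).mul_left M) hterm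
  have h4 : ∑' k : ℕ, Z2 ^ k * cmp (tk f k) (differentiable_tk hf k).continuous Z1 =
      cmp2 Z1 Z2 f hf.continuous := by
    ext x
    have h5 := hsum.hasSum.map (ContinuousMap.evalCLM ℂ x) (ContinuousMap.evalCLM ℂ x).continuous
    have h6 := Complex.hasSum_taylorSeries_of_entire (differentiable_slice2 hf (Z1 x)) 0 (Z2 x)
    have h7 : ((fun k : ℕ => (ContinuousMap.evalCLM ℂ x)
        (Z2 ^ k * cmp (tk f k) (differentiable_tk hf k).continuous Z1))) =
        fun n : ℕ => (n.factorial : ℂ)⁻¹ • (Z2 x - 0) ^ n •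
          iteratedDeriv n (fun ξ => f (Z1 x, ξ)) 0 := by
      ext k
      show (Z2 ^ k * cmp (tk f k) (differentiable_tk hf k).continuous Z1) x = _
      rw [ContinuousMap.mul_apply, ContinuousMap.pow_apply, cmp_apply, sub_zero, smul_eq_mul,
        smul_eq_mul]
      unfold tk
      ring
    have h8 := h5
    rw [show ((ContinuousMap.evalCLM ℂ x) ∘ fun k : ℕ =>
        (Z2 ^ k * cmp (tk f k) (differentiable_tk hf k).continuous Z1)) = _ from h7] at h8
    exact h8.unique h6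
  rw [← h4]
  exact hsum.hasSum

/-- The estimate for entire functions of two variables. -/
theorem core_f [Nonempty X] (hs : ContDiff ℝ 1 s) (hρ : ContDiff ℝ 1 ρ) (hρ0 : ∀ w, 0 ≤ ρ w)
    {R1 c m C B δ : ℝ} (hR1 : ‖Z1‖ + 1 ≤ R1) (hout : ∀ w, R1 ≤ ‖w‖ → ρ w = 0) (hc : 0 < c)
    (hout2 : ∀ w, R1 ≤ ‖w‖ → ∀ z, ‖z‖ ≤ ‖Z1‖ → c ≤ (s w * (w - z)).re) (hm : 0 < m) (hC : 0 ≤ C)
    (hG : GrowthHyp Z1 Z2 Λ s ρ m C) (hB : ∀ w, ρ w ≤ B) (hB0 : 0 ≤ B) (hδ : 0 < δ) :
    ∃ A : ℝ, 0 ≤ A ∧ ∀ (f : ℂ × ℂ → ℂ) (hf : Differentiable ℂ f) (M : ℝ), 0 ≤ M →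
      (∀ w ξ, 0 < ρ w → ‖ξ‖ = ρ w + δ → ‖f (w, ξ)‖ ≤ M) →
      ‖Λ (cmp2 Z1 Z2 f hf.continuous)‖ ≤ A * M := by
  obtain ⟨A, hA0, hA⟩ := core_k Z1 Z2 Λ hs hρ hρ0 hR1 hout hc hout2 hm hC hG
  set q : ℝ := B / (B + δ) with hq
  have hq0 : 0 ≤ q := by positivity
  have hq1 : q < 1 := by rw [hq, div_lt_one (by positivity)]; linarith
  refine ⟨A * (1 - q)⁻¹, by have : 0 < 1 - q := by linarith
                            positivity, ?_⟩
  intro f hf M hM hfM
  have hk : ∀ k : ℕ, ‖Λ (Z2 ^ k * cmp (tk f k) (differentiable_tk hf k).continuous Z1)‖ ≤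
      A * M * q ^ k := by
    intro k
    rw [mul_assoc]
    apply hA k (tk f k) (differentiable_tk hf k) (M * q ^ k) (by positivity)
    intro w hw
    have hr : 0 < ρ w + δ := by positivity
    have h1 := norm_tk_le hf k w hr (fun ξ hξ => hfM w ξ hw hξ)
    calc ‖tk f k w‖ * ρ w ^ k ≤ M / (ρ w + δ) ^ k * ρ w ^ k := by gcongr
      _ = M * (ρ w / (ρ w + δ)) ^ k := by rw [div_pow]; ring
      _ ≤ M * q ^ k := by
          gcongr
          rw [hq, div_le_div_iff₀ hr (by positivity)]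
          have := hB w
          nlinarith
  have h1 := (hasSum_cmp2 Z1 Z2 hf).map Λ Λ.continuous
  have h2 : HasSum (fun k : ℕ => A * M * q ^ k) (A * M * (1 - q)⁻¹) :=
    (hasSum_geometric_of_lt_one hq0 hq1).mul_left _
  have h3 := h1.tsum_eq
  rw [← h3]
  calc _ ≤ A * M * (1 - q)⁻¹ := tsum_of_norm_bounded h2 hk
    _ = _ := by ring

end

end Pool.Agent.H765R2.CS
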