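import Mathlib
import Pool.Agent.H765R2.CS3
import Pool.Agent.H765R2.CS7

set_option autoImplicit false

open Set Metric Topology MeasureTheory Complex

namespace Pool.Agent.H765R2.CS

variable {X : Type*} [TopologicalSpace X] [CompactSpace X]

/-- The Paley–Wiener–Ehrenpreis–Martineau theorem for the convex sets
`{|z₁| + |z₂| + (Re z₁ - c₀)⁺ ≤ 1}`. -/
theorem pem [Nonempty X] (Z1 Z2 : C(X, ℂ)) (Λ : C(X, ℂ) →L[ℂ] ℂ) {c0 : ℝ}
    (H : ∀ ε : ℝ, 0 < ε → ∃ C : ℝ, ∀ ζ1 ζ2 : ℂ, ∃ z1 z2 : ℂ,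
      ‖z1‖ + ‖z2‖ + max (z1.re - c0) 0 ≤ 1 ∧
      ‖Λ (NormedSpace.exp (ζ1 • Z1 + ζ2 • Z2))‖ ≤
        C * Real.exp ((ζ1 * z1 + ζ2 * z2).re + ε * (‖ζ1‖ + ‖ζ2‖))) {δ : ℝ} (hδ : 0 < δ) :
    ∃ A : ℝ, 0 ≤ A ∧ ∀ (f : ℂ × ℂ → ℂ) (hf : Differentiable ℂ f) (M : ℝ), 0 ≤ M →
      (∀ w ξ : ℂ, ‖w‖ + ‖ξ‖ + max (w.re - c0) 0 ≤ 1 + 6 * δ → ‖f (w, ξ)‖ ≤ M) →
      ‖Λ (cmp2 Z1 Z2 f hf.continuous)‖ ≤ A * M := by
  obtain ⟨C, hC⟩ := H (δ / 4) (by positivity)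
  have hC0 : 0 ≤ C := by
    obtain ⟨z1, z2, -, h⟩ := hC 0 0
    by_contra hneg
    push Not at hneg
    have h1 := Real.exp_pos ((0 * z1 + 0 * z2 : ℂ).re + δ / 4 * (‖(0 : ℂ)‖ + ‖(0 : ℂ)‖))
    have h2 : C * Real.exp ((0 * z1 + 0 * z2 : ℂ).re + δ / 4 * (‖(0 : ℂ)‖ + ‖(0 : ℂ)‖)) < 0 :=
      mul_neg_of_neg_of_pos hneg h1
    have h3 := norm_nonneg (Λ (NormedSpace.exp ((0 : ℂ) • Z1 + (0 : ℂ) • Z2)))
    linarith
  have hZ1 := norm_nonneg Z1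
  have hc0 := abs_nonneg c0
  have hG : GrowthHyp Z1 Z2 Λ (sf c0 δ) (rf c0 δ) (3 / 4 * δ) C := by
    intro w t ht ξ hξ
    obtain ⟨z1, z2, hz, hb⟩ := hC (t * sf c0 δ w) ξ
    refine hb.trans ?_
    gcongr
    have e1 : (t * sf c0 δ w * z1 + ξ * z2).re = t * (sf c0 δ w * z1).re + (ξ * z2).re := by
      rw [add_re, mul_assoc, re_ofReal_mul]
    have e2 : (ξ * z2).re ≤ t * ‖z2‖ := by
      calc (ξ * z2).re ≤ ‖ξ * z2‖ := re_le_norm _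
        _ = t * ‖z2‖ := by rw [norm_mul, hξ]
    have e3 : ‖(t : ℂ) * sf c0 δ w‖ ≤ t * 2 := by
      rw [norm_mul, norm_real, Real.norm_of_nonneg ht.le]
      gcongr
      exact norm_sf_le hδ w
    have e4 := Rs_concave (c0 := c0) hδ w z1
    have e5 := Rs_ge (c0 := c0) hδ z1
    have e6 := Rs_le_rf (c0 := c0) hδ w
    have e7 : (sf c0 δ w * (w - z1)).re = (sf c0 δ w * w).re - (sf c0 δ w * z1).re := by
      rw [mul_sub, sub_re]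
    have e8 : (sf c0 δ w * z1).re + ‖z2‖ ≤ rf c0 δ w + (sf c0 δ w * w).re - 3 / 2 * δ := by
      linarith
    have e9 : t * ((sf c0 δ w * z1).re + ‖z2‖) ≤
        t * (rf c0 δ w + (sf c0 δ w * w).re - 3 / 2 * δ) := by gcongr
    have e10 : δ / 4 * (‖(t : ℂ) * sf c0 δ w‖ + ‖ξ‖) ≤ δ / 4 * (t * 2 + t) := by
      rw [hξ]; gcongr
    rw [e1]
    calc _ ≤ t * (sf c0 δ w * z1).re + t * ‖z2‖ + δ / 4 * (t * 2 + t) := by gcongr
      _ = t * ((sf c0 δ w * z1).re + ‖z2‖) + δ / 4 * (t * 2 + t) := by ring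
      _ ≤ t * (rf c0 δ w + (sf c0 δ w * w).re - 3 / 2 * δ) + δ / 4 * (t * 2 + t) := by gcongr
      _ = t * (rf c0 δ w + (sf c0 δ w * w).re - 3 / 4 * δ) := by ring
  have hRs1 : ∀ w, Rs c0 δ w ≤ 1 + 3 * δ := by
    intro w
    have h1 := Rs_le (c0 := c0) (δ := δ) w
    have h2 : 0 ≤ max (w.re - c0) 0 := le_max_right _ _
    have h3 := norm_nonneg w
    linarith
  obtain ⟨A, hA0, hA⟩ := core_f Z1 Z2 Λ (s := sf c0 δ) (ρ := rf c0 δ) (contDiff_sf hδ)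
    (contDiff_rf hδ) (rf_nonneg hδ) (R1 := 2 * ‖Z1‖ + |c0| + 4 * δ + 2) (c := 1)
    (m := 3 / 4 * δ) (C := C) (B := 1 + 4 * δ) (δ := δ) (by linarith)
    (fun w hw => rf_eq_zero hδ w (by linarith)) one_pos
    (fun w hw z hz => by
      have e4 := Rs_concave (c0 := c0) hδ w z
      have e5 := Rs_ge (c0 := c0) hδ z
      have e6 := Rs_le (c0 := c0) (δ := δ) w
      have e7 : max (z.re - c0) 0 ≤ ‖Z1‖ + |c0| := by
        apply max_le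
        · have h1 := re_le_norm z
          have h2 := neg_abs_le c0
          linarith
        · positivity
      have e8 : 0 ≤ max (w.re - c0) 0 := le_max_right _ _
      linarith)
    (by positivity) hC0 hG
    (fun w => (rf_le hδ w).trans (by
      have h1 : max (Rs c0 δ w) 0 ≤ 1 + 3 * δ := max_le (hRs1 w) (by positivity)
      linarith)) (by positivity) hδ
  refine ⟨A, hA0, fun f hf M hM hfM => hA f hf M hM (fun w ξ hw hξ => ?_)⟩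
  apply hfM
  have h1 := lt_Rs_of_rf_pos hδ w hw
  have h2 := rf_le (c0 := c0) hδ w
  have h3 := Rs_le (c0 := c0) (δ := δ) w
  rcases le_total (Rs c0 δ w) 0 with h | h
  · rw [max_eq_right h] at h2
    rw [hξ]; linarith
  · rw [max_eq_left h] at h2
    rw [hξ]; linarith

end Pool.Agent.H765R2.CS
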