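import Mathlib

set_option autoImplicit false

open Set Metric Topology

namespace Pool.Agent.H765R2.CS

/-- the Möbius identity `|1 - b̄₀ b|² - |b - b₀|² = (1 - |b₀|²)(1 - |b|²)` -/
theorem mobius_id (b0 b : ℂ) :
    ‖1 - (starRingEnd ℂ) b0 * b‖ ^ 2 - ‖b - b0‖ ^ 2 = (1 - ‖b0‖ ^ 2) * (1 - ‖b‖ ^ 2) := by
  rw [← Complex.normSq_eq_norm_sq, ← Complex.normSq_eq_norm_sq, ← Complex.normSq_eq_norm_sq,
    ← Complex.normSq_eq_norm_sq]
  simp only [Complex.normSq_apply, Complex.sub_re, Complex.sub_im, Complex.mul_re, Complex.mul_im,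
    Complex.conj_re, Complex.conj_im, Complex.one_re, Complex.one_im]
  ring

theorem two_const {b0 : ℂ} (hb0 : ‖b0‖ < 1) {ρ0 η : ℝ} (hρ0 : 0 < ρ0) (hη : 0 < η) :
    ∃ c : ℝ, 0 < c ∧ ∀ (g : ℂ → ℂ), Differentiable ℂ g → ∀ (r M : ℝ), 0 ≤ r → 0 ≤ M →
      (∀ b, ‖b‖ ≤ 1 → ‖b - b0‖ ≤ ρ0 → ‖g b‖ ≤ M * Real.exp (-(η * r))) →
      (∀ b, ‖b‖ ≤ 1 → ‖g b‖ ≤ M) →
      ∀ b, ‖b‖ ≤ 1 → ‖g b‖ ≤ 3 * M * Real.exp (-(c * r * (1 - ‖b‖))) := by
  -- the parameters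
  set ρ1 : ℝ := min (ρ0 / 2) (1 / 2) with hρ1
  have hρ1pos : 0 < ρ1 := by rw [hρ1]; positivity
  have hρ1lt : ρ1 ≤ 1 / 2 := min_le_right _ _
  have hρ1le : ρ1 ≤ ρ0 / 2 := min_le_left _ _
  set Lg : ℝ := -Real.log ρ1 with hLg
  have hLgpos : 0 < Lg := by
    rw [hLg]; have := Real.log_neg hρ1pos (by linarith); linarith
  set a : ℝ := (1 - ‖b0‖ ^ 2) / 8 with ha
  have hb0sq : ‖b0‖ ^ 2 < 1 := by
    have := norm_nonneg b0
    nlinarith
  have hapos : 0 < a := by rw [ha]; linarith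
  have hale : a ≤ 1 := by
    rw [ha]; have := sq_nonneg ‖b0‖; linarith
  set c : ℝ := min η (a * η / Lg) with hc
  have hcpos : 0 < c := by rw [hc]; positivity
  refine ⟨c, hcpos, ?_⟩
  intro g hg r M hr hM H1 H2 b hb
  have hdb : 0 ≤ 1 - ‖b‖ := by linarith
  have hexp1 : ∀ x : ℝ, 0 ≤ x → Real.exp (-(η * r)) * 1 ≤ 3 * Real.exp (-(c * r * (1 - ‖b‖))) := by
    intro x _
    have h1 : c * r * (1 - ‖b‖) ≤ η * r := by
      have h2 : c ≤ η := min_le_left _ _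
      have h3 : 1 - ‖b‖ ≤ 1 := by have := norm_nonneg b; linarith
      calc c * r * (1 - ‖b‖) ≤ c * r * 1 := by gcongr
        _ ≤ η * r := by rw [mul_one]; gcongr
    have h4 : Real.exp (-(η * r)) ≤ Real.exp (-(c * r * (1 - ‖b‖))) :=
      Real.exp_le_exp.2 (by linarith)
    have h5 := Real.exp_pos (-(c * r * (1 - ‖b‖)))
    linarith
  have hone : ‖(1 : ℂ) - (starRingEnd ℂ) b0 * b‖ ≤ 2 := by
    calc ‖(1 : ℂ) - (starRingEnd ℂ) b0 * b‖ ≤ ‖(1 : ℂ)‖ + ‖(starRingEnd ℂ) b0 * b‖ := norm_sub_le _ _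
      _ ≤ 1 + 1 * 1 := by
          rw [norm_one, norm_mul, RCLike.norm_conj]
          gcongr
      _ = 2 := by norm_num
  by_cases hcase : ‖b - b0‖ ≤ ρ1 * ‖1 - (starRingEnd ℂ) b0 * b‖
  · have h1 : ‖b - b0‖ ≤ ρ0 := by
      calc ‖b - b0‖ ≤ ρ1 * ‖1 - (starRingEnd ℂ) b0 * b‖ := hcase
        _ ≤ ρ1 * 2 := by gcongr
        _ ≤ ρ0 := by linarith
    calc ‖g b‖ ≤ M * Real.exp (-(η * r)) := H1 b hb h1
      _ = M * (Real.exp (-(η * r)) * 1) := by ring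
      _ ≤ M * (3 * Real.exp (-(c * r * (1 - ‖b‖)))) := mul_le_mul_of_nonneg_left (hexp1 0 le_rfl) hM
      _ = 3 * M * Real.exp (-(c * r * (1 - ‖b‖))) := by ring
  push Not at hcase
  rcases hb.lt_or_eq with hb1 | hb1
  swap
  · rw [hb1, sub_self, mul_zero, neg_zero, Real.exp_zero, mul_one]
    have := H2 b hb
    linarith
  -- the maximum principle
  set k : ℕ := ⌊η * r / Lg⌋₊ with hk
  have hk1 : (k : ℝ) ≤ η * r / Lg := Nat.floor_le (by positivity)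
  have hk2 : η * r / Lg < k + 1 := Nat.lt_floor_add_one _
  have hρk : Real.exp (-(η * r)) ≤ ρ1 ^ k := by
    have h1 : ρ1 ^ k = Real.exp (-(k * Lg)) := by
      rw [hLg, mul_neg, neg_neg, mul_comm, Real.exp_mul, Real.exp_log hρ1pos, Real.rpow_natCast]
    rw [h1]
    apply Real.exp_le_exp.2
    have : k * Lg ≤ η * r := by
      calc k * Lg ≤ η * r / Lg * Lg := by gcongr
        _ = η * r := by field_simp
    linarith
  let U : Set ℂ := {x | ‖x‖ < 1 ∧ ρ1 * ‖1 - (starRingEnd ℂ) b0 * x‖ < ‖x - b0‖}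
  have hUo : IsOpen U := by
    apply IsOpen.inter
    · exact isOpen_lt continuous_norm continuous_const
    · exact isOpen_lt (f := fun x : ℂ => ρ1 * ‖1 - (starRingEnd ℂ) b0 * x‖)
        (g := fun x : ℂ => ‖x - b0‖) (by fun_prop) (by fun_prop)
  have hUcl : closure U ⊆ {x | ‖x‖ ≤ 1 ∧ ρ1 * ‖1 - (starRingEnd ℂ) b0 * x‖ ≤ ‖x - b0‖} := by
    apply closure_minimal
    · rintro x ⟨h1, h2⟩; exact ⟨h1.le, h2.le⟩
    · apply IsClosed.inter
      · exact isClosed_le continuous_norm continuous_const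
      · exact isClosed_le (f := fun x : ℂ => ρ1 * ‖1 - (starRingEnd ℂ) b0 * x‖)
          (g := fun x : ℂ => ‖x - b0‖) (by fun_prop) (by fun_prop)
  have hpos1 : ∀ x : ℂ, ‖x‖ ≤ 1 → 0 < ‖1 - (starRingEnd ℂ) b0 * x‖ := by
    intro x hx
    rw [norm_pos_iff]
    intro h0
    have h1 : (1 : ℂ) = (starRingEnd ℂ) b0 * x := by linear_combination h0
    have h2 := congrArg norm h1
    rw [norm_one, norm_mul, RCLike.norm_conj] at h2
    have := norm_nonneg b0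
    nlinarith
  have hne : ∀ x : ℂ, ‖x‖ ≤ 1 → ρ1 * ‖1 - (starRingEnd ℂ) b0 * x‖ ≤ ‖x - b0‖ → x - b0 ≠ 0 := by
    intro x hx hx2 h0
    rw [h0, norm_zero] at hx2
    have := mul_pos hρ1pos (hpos1 x hx)
    linarith
  let f : ℂ → ℂ := fun x => g x * ((1 - (starRingEnd ℂ) b0 * x) / (x - b0)) ^ k
  have hfd : DiffContOnCl ℂ f U := by
    apply DifferentiableOn.diffContOnCl
    intro x hx
    obtain ⟨h1, h2⟩ := hUcl hx
    have h3 := hne x h1 h2
    apply DifferentiableAt.differentiableWithinAt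
    refine hg.differentiableAt.mul ?_
    refine DifferentiableAt.pow ?_ _
    exact DifferentiableAt.div (by fun_prop) (by fun_prop) h3
  have hfr : ∀ x ∈ frontier U, ‖f x‖ ≤ M := by
    intro x hx
    rw [hUo.frontier_eq] at hx
    obtain ⟨h1, h2⟩ := hUcl hx.1
    have h3 := hne x h1 h2
    have h4 : 0 < ‖x - b0‖ := norm_pos_iff.2 h3
    have h5 : ‖f x‖ = ‖g x‖ * (‖1 - (starRingEnd ℂ) b0 * x‖ / ‖x - b0‖) ^ k := by
      show ‖g x * ((1 - (starRingEnd ℂ) b0 * x) / (x - b0)) ^ k‖ = _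
      rw [norm_mul, norm_pow, norm_div]
    rw [h5]
    rcases h1.lt_or_eq with h1' | h1'
    · have h6 : ‖x - b0‖ ≤ ρ1 * ‖1 - (starRingEnd ℂ) b0 * x‖ := by
        by_contra h7
        push Not at h7
        exact hx.2 ⟨h1', h7⟩
      have h7 : ‖x - b0‖ = ρ1 * ‖1 - (starRingEnd ℂ) b0 * x‖ := le_antisymm h6 h2
      have h8 : ‖x - b0‖ ≤ ρ0 := by
        have : ‖(1 : ℂ) - (starRingEnd ℂ) b0 * x‖ ≤ 2 := by
          calc ‖(1 : ℂ) - (starRingEnd ℂ) b0 * x‖ ≤ ‖(1 : ℂ)‖ + ‖(starRingEnd ℂ) b0 * x‖ :=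
                norm_sub_le _ _
            _ ≤ 1 + 1 * 1 := by
                rw [norm_one, norm_mul, RCLike.norm_conj]
                gcongr
            _ = 2 := by norm_num
        rw [h7]
        calc ρ1 * ‖1 - (starRingEnd ℂ) b0 * x‖ ≤ ρ1 * 2 := by gcongr
          _ ≤ ρ0 := by linarith
      have h9 := H1 x h1 h8
      have h10 : ‖1 - (starRingEnd ℂ) b0 * x‖ / ‖x - b0‖ = ρ1⁻¹ := by
        rw [h7]
        have := hpos1 x h1
        field_simp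
      rw [h10, inv_pow]
      calc ‖g x‖ * (ρ1 ^ k)⁻¹ ≤ (M * Real.exp (-(η * r))) * (ρ1 ^ k)⁻¹ := by gcongr
        _ ≤ (M * ρ1 ^ k) * (ρ1 ^ k)⁻¹ := by gcongr
        _ = M := by field_simp
    · have h6 := mobius_id b0 x
      rw [h1'] at h6
      have h7 : ‖1 - (starRingEnd ℂ) b0 * x‖ = ‖x - b0‖ := by
        have h8 : ‖1 - (starRingEnd ℂ) b0 * x‖ ^ 2 = ‖x - b0‖ ^ 2 := by linarith
        exact (pow_left_inj₀ (norm_nonneg _) (norm_nonneg _) (by norm_num)).1 h8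
      rw [h7, div_self h4.ne', one_pow, mul_one]
      exact H2 x h1
  have hUb : Bornology.IsBounded U := by
    apply (isBounded_ball (x := (0 : ℂ)) (r := 1)).subset
    rintro x ⟨h1, -⟩
    exact mem_ball_zero_iff.2 h1
  have hbU : b ∈ U := ⟨hb1, hcase⟩
  have hmax := Complex.norm_le_of_forall_mem_frontier_norm_le hUb hfd hfr (subset_closure hbU)
  have hbne : 0 < ‖b - b0‖ := norm_pos_iff.2 (hne b hb hcase.le)
  have hp1 := hpos1 b hb
  -- `q = |m(b)|`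
  set q : ℝ := ‖b - b0‖ / ‖1 - (starRingEnd ℂ) b0 * b‖ with hq
  have hqpos : 0 < q := by rw [hq]; positivity
  have hgb : ‖g b‖ ≤ M * q ^ k := by
    have h5 : ‖f b‖ = ‖g b‖ * (‖1 - (starRingEnd ℂ) b0 * b‖ / ‖b - b0‖) ^ k := by
      show ‖g b * ((1 - (starRingEnd ℂ) b0 * b) / (b - b0)) ^ k‖ = _
      rw [norm_mul, norm_pow, norm_div]
    rw [h5] at hmax
    have h6 : (‖1 - (starRingEnd ℂ) b0 * b‖ / ‖b - b0‖) = q⁻¹ := by rw [hq, inv_div]
    rw [h6, inv_pow] at hmax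
    have h7 : 0 < q ^ k := by positivity
    rwa [← div_eq_mul_inv, div_le_iff₀ h7] at hmax
  have hqle : q ≤ Real.exp (-(a * (1 - ‖b‖))) := by
    have h1 := mobius_id b0 b
    have h2 : q ^ 2 ≤ 1 - 2 * (a * (1 - ‖b‖)) := by
      rw [hq, div_pow]
      rw [div_le_iff₀ (by positivity)]
      have h3 : ‖1 - (starRingEnd ℂ) b0 * b‖ ^ 2 ≤ 4 := by nlinarith [norm_nonneg (1 - (starRingEnd ℂ) b0 * b)]
      have h4 : (1 - ‖b0‖ ^ 2) = 8 * a := by rw [ha]; ring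
      rw [h4] at h1
      have h5 : (1 - ‖b‖) ≤ 1 - ‖b‖ ^ 2 := by nlinarith [norm_nonneg b]
      have h6 : 8 * a * (1 - ‖b‖) ≤ 8 * a * (1 - ‖b‖ ^ 2) := by gcongr
      have h7 : 2 * (a * (1 - ‖b‖)) * ‖1 - (starRingEnd ℂ) b0 * b‖ ^ 2 ≤ 2 * (a * (1 - ‖b‖)) * 4 := by
        gcongr
      nlinarith
    have h3 : q ^ 2 ≤ Real.exp (-(a * (1 - ‖b‖))) ^ 2 := by
      rw [← Real.exp_nat_mul]
      have h4 := Real.add_one_le_exp (-(2 * (a * (1 - ‖b‖))))
      have h5 : ((2 : ℕ) : ℝ) * -(a * (1 - ‖b‖)) = -(2 * (a * (1 - ‖b‖))) := by push_cast; ring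
      rw [h5]
      linarith
    exact (pow_le_pow_iff_left₀ hqpos.le (Real.exp_pos _).le (by norm_num)).1 h3
  calc ‖g b‖ ≤ M * q ^ k := hgb
    _ ≤ M * (Real.exp (-(a * (1 - ‖b‖)))) ^ k := by gcongr
    _ = M * Real.exp (-(k * (a * (1 - ‖b‖)))) := by
        rw [← Real.exp_nat_mul]; congr 2; ring
    _ ≤ M * (3 * Real.exp (-(c * r * (1 - ‖b‖)))) := by
        gcongr
        have h1 : Real.exp (-(k * (a * (1 - ‖b‖)))) ≤ Real.exp (1 + -(c * r * (1 - ‖b‖))) := by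
          apply Real.exp_le_exp.2
          have h2 : c * r ≤ a * η / Lg * r := by
            gcongr
            exact min_le_right _ _
          have h3 : a * η / Lg * r = a * (η * r / Lg) := by ring
          have h4 : a * (η * r / Lg) ≤ a * (k + 1) := by gcongr
          have h5 : c * r * (1 - ‖b‖) ≤ (a * (k + 1)) * (1 - ‖b‖) :=
            mul_le_mul_of_nonneg_right (by linarith) hdb
          have h6 : a * (1 - ‖b‖) ≤ 1 := by
            have h7 : 1 - ‖b‖ ≤ 1 := by have := norm_nonneg b; linarith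
            nlinarith
          nlinarith
        have h8 : Real.exp 1 ≤ 3 := by
          have := Real.exp_one_lt_d9; linarith
        rw [Real.exp_add] at h1
        calc _ ≤ _ := h1
          _ ≤ _ := by gcongr
    _ = 3 * M * Real.exp (-(c * r * (1 - ‖b‖))) := by ring

end Pool.Agent.H765R2.CS
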