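import Mathlib
import Pool.Agent.H765R2.CS2

set_option autoImplicit false

open Set Metric Topology Complex

namespace Pool.Agent.H765R2.CS

theorem unimod_aux (z : ℂ) : ∃ u : ℂ, ‖u‖ ≤ 1 ∧ z * u = (‖z‖ : ℂ) := by
  by_cases hz : z = 0
  · exact ⟨0, by simp, by simp [hz]⟩
  · have h1 : ‖z‖ ≠ 0 := norm_ne_zero_iff.2 hz
    have h1' : (‖z‖ : ℂ) ≠ 0 := by exact_mod_cast h1
    refine ⟨(starRingEnd ℂ) z / ‖z‖, ?_, ?_⟩
    · rw [norm_div, RCLike.norm_conj, norm_real, norm_norm, div_self h1]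
    · have h2 : z * (starRingEnd ℂ) z = (‖z‖ : ℂ) ^ 2 := by
        rw [mul_conj, normSq_eq_norm_sq]; push_cast; rfl
      rw [← mul_div_assoc, h2]
      field_simp

/-- The improved growth: if `G` is smaller than it should be near one direction `(1, b₀)`, then its
growth is dominated by the support function of a smaller set of the form
`{|z₁| + |z₂| + (Re z₁ - c₀)⁺ ≤ 1}`. -/
theorem growth_improve (G : ℂ → ℂ → ℂ) (hGd : ∀ ζ1, Differentiable ℂ (G ζ1))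
    (H1 : ∀ ε : ℝ, 0 < ε → ∃ C : ℝ, ∀ ζ1 ζ2 : ℂ,
      ‖G ζ1 ζ2‖ ≤ C * Real.exp (max ‖ζ1‖ ‖ζ2‖ + ε * (‖ζ1‖ + ‖ζ2‖)))
    {b0 : ℂ} (hb0 : ‖b0‖ < 1) {ρ0 η κ C1 : ℝ} (hρ0 : 0 < ρ0) (hη : 0 < η) (hκ : 0 < κ)
    (H2 : ∀ r : ℝ, 0 ≤ r → ∀ ω : ℂ, ‖ω‖ = 1 → 1 - κ ≤ ω.re → ∀ b : ℂ, ‖b‖ ≤ 1 → ‖b - b0‖ ≤ ρ0 →
      ‖G (r * (starRingEnd ℂ) ω) (r * b)‖ ≤ C1 * Real.exp (r * (1 - η))) :
    ∃ c0 : ℝ, 0 < c0 ∧ c0 < 1 ∧ ∀ ε : ℝ, 0 < ε → ∃ C : ℝ, ∀ ζ1 ζ2 : ℂ, ∃ z1 z2 : ℂ,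
      ‖z1‖ + ‖z2‖ + max (z1.re - c0) 0 ≤ 1 ∧
      ‖G ζ1 ζ2‖ ≤ C * Real.exp ((ζ1 * z1 + ζ2 * z2).re + ε * (‖ζ1‖ + ‖ζ2‖)) := by
  obtain ⟨c, hc, htwo⟩ := two_const hb0 hρ0 hη
  set c0 : ℝ := max (max (1 - c) (1 - κ)) (1 / 2) with hc0
  have hc0a : 1 - c ≤ c0 := (le_max_left _ _).trans (le_max_left _ _)
  have hc0b : 1 - κ ≤ c0 := (le_max_right _ _).trans (le_max_left _ _)
  have hc0c : 1 / 2 ≤ c0 := le_max_right _ _
  have hc0d : c0 < 1 := by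
    rw [hc0]
    refine max_lt (max_lt ?_ ?_) ?_
    · linarith
    · linarith
    · norm_num
  have hc0pos : 0 < c0 := by linarith
  refine ⟨c0, hc0pos, hc0d, ?_⟩
  intro ε hε
  obtain ⟨C, hC⟩ := H1 (ε / 2) (by positivity)
  have hC0 : 0 ≤ C := by
    have h := hC 0 0
    by_contra hneg
    push Not at hneg
    have h2 := mul_neg_of_neg_of_pos hneg
      (Real.exp_pos (max ‖(0 : ℂ)‖ ‖(0 : ℂ)‖ + ε / 2 * (‖(0 : ℂ)‖ + ‖(0 : ℂ)‖)))
    have h3 := norm_nonneg (G 0 0)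
    linarith
  set M0 : ℝ := max C C1 with hM0
  have hM0n : 0 ≤ M0 := hC0.trans (le_max_left _ _)
  refine ⟨3 * M0, ?_⟩
  intro ζ1 ζ2
  have hn1 := norm_nonneg ζ1
  have hn2 := norm_nonneg ζ2
  have hbase : ‖G ζ1 ζ2‖ ≤ 3 * M0 * Real.exp (max ‖ζ1‖ ‖ζ2‖ + ε * (‖ζ1‖ + ‖ζ2‖)) := by
    refine (hC ζ1 ζ2).trans ?_
    have h1 : C ≤ 3 * M0 := by
      have := le_max_left C C1
      rw [← hM0] at this
      linarith
    gcongr
    linarith
  by_cases h12 : ‖ζ1‖ ≤ ‖ζ2‖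
  · obtain ⟨u, hu1, hu2⟩ := unimod_aux ζ2
    refine ⟨0, u, ?_, ?_⟩
    · have : max ((0 : ℂ).re - c0) 0 = 0 := by
        apply max_eq_right; simp; linarith
      rw [this, norm_zero]
      linarith
    · rw [mul_zero, zero_add, hu2, ofReal_re]
      rwa [max_eq_right h12] at hbase
  push Not at h12
  have hr : 0 < ‖ζ1‖ := by linarith
  set r : ℝ := ‖ζ1‖ with hrdef
  have hrc : (r : ℂ) ≠ 0 := by exact_mod_cast hr.ne'
  set ω : ℂ := (starRingEnd ℂ) ζ1 / r with hω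
  have hωn : ‖ω‖ = 1 := by
    rw [hω, norm_div, RCLike.norm_conj, norm_real, Real.norm_of_nonneg hr.le]
    exact div_self hr.ne'
  have hζω : ζ1 * ω = (r : ℂ) := by
    have h2 : ζ1 * (starRingEnd ℂ) ζ1 = (r : ℂ) ^ 2 := by
      rw [mul_conj, normSq_eq_norm_sq]; push_cast; rfl
    rw [hω, ← mul_div_assoc, h2]
    field_simp
  by_cases hωre : ω.re ≤ c0
  · refine ⟨ω, 0, ?_, ?_⟩
    · have : max (ω.re - c0) 0 = 0 := max_eq_right (by linarith)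
      rw [this, hωn, norm_zero]
      norm_num
    · rw [mul_zero, add_zero, hζω, ofReal_re]
      rwa [max_eq_left h12.le] at hbase
  push Not at hωre
  set b : ℂ := ζ2 / r with hb
  have hb1 : ‖b‖ ≤ 1 := by
    rw [hb, norm_div, norm_real, Real.norm_of_nonneg hr.le, div_le_one hr]
    exact h12.le
  have hζ1' : ζ1 = r * (starRingEnd ℂ) ω := by
    rw [hω, map_div₀, conj_conj, conj_ofReal]
    field_simp
  have hζ2' : ζ2 = r * b := by rw [hb]; field_simp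
  have hg : Differentiable ℂ (fun b => G (r * (starRingEnd ℂ) ω) (r * b)) :=
    (hGd _).comp ((differentiable_const _).mul differentiable_id)
  have hMn : 0 ≤ M0 * Real.exp (r * (1 + ε)) := by positivity
  have key := htwo (fun b => G (r * (starRingEnd ℂ) ω) (r * b)) hg r (M0 * Real.exp (r * (1 + ε)))
    hr.le hMn
    (fun b' hb' hbb => by
      refine (H2 r hr.le ω hωn (by linarith) b' hb' hbb).trans ?_
      rw [mul_assoc, ← Real.exp_add]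
      have h1 : C1 ≤ M0 := le_max_right _ _
      have h2 : r * (1 - η) ≤ r * (1 + ε) + -(η * r) := by nlinarith
      calc C1 * Real.exp (r * (1 - η)) ≤ M0 * Real.exp (r * (1 - η)) := by gcongr
        _ ≤ _ := by gcongr)
    (fun b' hb' => by
      refine (hC _ _).trans ?_
      have h1 : C ≤ M0 := le_max_left _ _
      have h2 : ‖(r : ℂ) * (starRingEnd ℂ) ω‖ = r := by
        rw [norm_mul, norm_real, Real.norm_of_nonneg hr.le, RCLike.norm_conj, hωn, mul_one]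
      have h3 : ‖(r : ℂ) * b'‖ ≤ r := by
        rw [norm_mul, norm_real, Real.norm_of_nonneg hr.le]
        nlinarith
      rw [h2]
      have h4 : max r ‖(r : ℂ) * b'‖ = r := max_eq_left h3
      rw [h4]
      have h5 : r + ε / 2 * (r + ‖(r : ℂ) * b'‖) ≤ r * (1 + ε) := by nlinarith
      calc C * Real.exp (r + ε / 2 * (r + ‖(r : ℂ) * b'‖)) ≤
          M0 * Real.exp (r + ε / 2 * (r + ‖(r : ℂ) * b'‖)) := by gcongr
        _ ≤ _ := by gcongr)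
    b hb1
  obtain ⟨v, hv1, hv2⟩ := unimod_aux ζ2
  refine ⟨c0 * ω, (1 - c0 : ℝ) * v, ?_, ?_⟩
  · have h1 : ((c0 : ℂ) * ω).re = c0 * ω.re := re_ofReal_mul _ _
    have h2 : ω.re ≤ 1 := (re_le_norm ω).trans hωn.le
    have h3 : max (((c0 : ℂ) * ω).re - c0) 0 = 0 := by
      apply max_eq_right
      rw [h1]
      nlinarith
    rw [h3, norm_mul, norm_mul, norm_real, norm_real, Real.norm_of_nonneg hc0pos.le,
      Real.norm_of_nonneg (by linarith : (0 : ℝ) ≤ 1 - c0), hωn]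
    have : (1 - c0) * ‖v‖ ≤ (1 - c0) * 1 := by
      apply mul_le_mul_of_nonneg_left hv1; linarith
    linarith
  · have h1 : ζ1 * (c0 * ω) + ζ2 * ((1 - c0 : ℝ) * v) = ((c0 * r + (1 - c0) * ‖ζ2‖ : ℝ) : ℂ) := by
      have : ζ1 * (c0 * ω) + ζ2 * ((1 - c0 : ℝ) * v) = c0 * (ζ1 * ω) + (1 - c0 : ℝ) * (ζ2 * v) := by
        ring
      rw [this, hζω, hv2]
      push_cast
      ring
    rw [h1, ofReal_re]
    have h2 : G ζ1 ζ2 = G (r * (starRingEnd ℂ) ω) (r * b) := by rw [← hζ1', ← hζ2']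
    rw [h2]
    refine key.trans ?_
    have h3 : r * ‖b‖ = ‖ζ2‖ := by
      rw [hb, norm_div, norm_real, Real.norm_of_nonneg hr.le]
      field_simp
    have h4 : 3 * (M0 * Real.exp (r * (1 + ε))) * Real.exp (-(c * r * (1 - ‖b‖))) =
        3 * M0 * Real.exp (r * (1 + ε) + -(c * r * (1 - ‖b‖))) := by
      rw [Real.exp_add]; ring
    rw [h4]
    refine mul_le_mul_of_nonneg_left (Real.exp_le_exp.2 ?_) (by positivity)
    have h5 : (1 - c0) * (r * (1 - ‖b‖)) ≤ c * (r * (1 - ‖b‖)) := by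
      apply mul_le_mul_of_nonneg_right
      · linarith
      · apply mul_nonneg hr.le; linarith
    have h6 : (1 - c0) * (r * (1 - ‖b‖)) = (1 - c0) * r - (1 - c0) * ‖ζ2‖ := by
      rw [← h3]; ring
    have h7 : 0 ≤ ε * ‖ζ2‖ := by positivity
    have h8 : c * (r * (1 - ‖b‖)) = c * r * (1 - ‖b‖) := by ring
    linarith

end Pool.Agent.H765R2.CS
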