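import Mathlib
import Pool.Agent.H765R2.CS1
import Pool.Agent.H765R2.CS8
import Pool.Agent.H765R2.CS9

set_option autoImplicit false

open Set Metric Topology Complex

namespace Pool.Agent.H765R2.CS

/-- the gauge-like function `|z_i| + |z_j| + (Re(u z_i) - c₀)⁺` -/
noncomputable def Nn (i j : Fin 2) (u : ℂ) (c0 : ℝ) (z : Cn 2) : ℝ :=
  ‖z i‖ + ‖z j‖ + max ((u * z i).re - c0) 0

/-- the smaller sets -/
def Ks (i j : Fin 2) (u : ℂ) (c0 : ℝ) : Set (Cn 2) := {z | Nn i j u c0 z ≤ 1}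

theorem continuous_Nn (i j : Fin 2) (u : ℂ) (c0 : ℝ) : Continuous (Nn i j u c0) := by
  unfold Nn
  have h1 : Continuous (fun z : Cn 2 => z i) := PiLp.continuous_apply 2 _ i
  have h2 : Continuous (fun z : Cn 2 => z j) := PiLp.continuous_apply 2 _ j
  have h3 : Continuous (fun z : Cn 2 => (u * z i).re) :=
    Complex.continuous_re.comp (continuous_const.mul h1)
  exact (h1.norm.add h2.norm).add ((h3.sub continuous_const).max continuous_const)

theorem ij_sum {i j : Fin 2} (hij : i ≠ j) (f : Fin 2 → ℝ) : f 0 + f 1 = f i + f j := by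
  fin_cases i <;> fin_cases j <;> simp_all [add_comm]

theorem ij_cases {i j : Fin 2} (hij : i ≠ j) (l : Fin 2) : l = i ∨ l = j := by
  fin_cases i <;> fin_cases j <;> fin_cases l <;> simp_all

theorem norm_le_ij {i j : Fin 2} (hij : i ≠ j) (z : Cn 2) : ‖z‖ ≤ ‖z i‖ + ‖z j‖ := by
  have h : z = EuclideanSpace.single i (z i) + EuclideanSpace.single j (z j) := by
    ext l
    rcases ij_cases hij l with rfl | rfl
    · simp [hij]
    · simp [hij.symm]
  calc ‖z‖ = ‖EuclideanSpace.single i (z i) + EuclideanSpace.single j (z j)‖ := by rw [← h]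
    _ ≤ ‖EuclideanSpace.single i (z i)‖ + ‖EuclideanSpace.single j (z j)‖ := norm_add_le _ _
    _ = ‖z i‖ + ‖z j‖ := by simp

theorem norm_le_Nn {i j : Fin 2} (hij : i ≠ j) (u : ℂ) (c0 : ℝ) (z : Cn 2) :
    ‖z‖ ≤ Nn i j u c0 z := by
  have h1 := norm_le_ij hij z
  have h2 : 0 ≤ max ((u * z i).re - c0) 0 := le_max_right _ _
  unfold Nn
  linarith

theorem isCompact_Nn_le {i j : Fin 2} (hij : i ≠ j) (u : ℂ) (c0 a : ℝ) :
    IsCompact {z | Nn i j u c0 z ≤ a} := by
  apply Metric.isCompact_of_isClosed_isBounded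
  · exact isClosed_le (continuous_Nn i j u c0) continuous_const
  · apply (isBounded_closedBall (x := (0 : Cn 2)) (r := a)).subset
    intro z hz
    rw [mem_closedBall_zero_iff]
    exact (norm_le_Nn hij u c0 z).trans hz

theorem isCompact_Ks {i j : Fin 2} (hij : i ≠ j) (u : ℂ) (c0 : ℝ) : IsCompact (Ks i j u c0) :=
  isCompact_Nn_le hij u c0 1

theorem convex_Ks (i j : Fin 2) (u : ℂ) (c0 : ℝ) : Convex ℝ (Ks i j u c0) := by
  intro x hx y hy a b ha hb hab
  have hx' : ‖x i‖ + ‖x j‖ + max ((u * x i).re - c0) 0 ≤ 1 := hx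
  have hy' : ‖y i‖ + ‖y j‖ + max ((u * y i).re - c0) 0 ≤ 1 := hy
  show ‖(a • x + b • y) i‖ + ‖(a • x + b • y) j‖ + max ((u * (a • x + b • y) i).re - c0) 0 ≤ 1
  have e : ∀ l : Fin 2, (a • x + b • y) l = a • x l + b • y l := fun l => by
    simp
  have h1 : ∀ l : Fin 2, ‖(a • x + b • y) l‖ ≤ a * ‖x l‖ + b * ‖y l‖ := by
    intro l
    rw [e]
    calc ‖a • x l + b • y l‖ ≤ ‖a • x l‖ + ‖b • y l‖ := norm_add_le _ _
      _ = a * ‖x l‖ + b * ‖y l‖ := by
          rw [norm_smul, norm_smul, Real.norm_of_nonneg ha, Real.norm_of_nonneg hb]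
  have h2 : max ((u * (a • x + b • y) i).re - c0) 0 ≤
      a * max ((u * x i).re - c0) 0 + b * max ((u * y i).re - c0) 0 := by
    apply max_le
    · have h3 : (u * (a • x + b • y) i).re = a * (u * x i).re + b * (u * y i).re := by
        rw [e, real_smul, real_smul]
        have : u * ((a : ℂ) * x i + (b : ℂ) * y i) = (a : ℂ) * (u * x i) + (b : ℂ) * (u * y i) := by
          ring
        rw [this, add_re, re_ofReal_mul, re_ofReal_mul]
      rw [h3]
      have h4 : (u * x i).re - c0 ≤ max ((u * x i).re - c0) 0 := le_max_left _ _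
      have h5 : (u * y i).re - c0 ≤ max ((u * y i).re - c0) 0 := le_max_left _ _
      have h6 := mul_le_mul_of_nonneg_left h4 ha
      have h7 := mul_le_mul_of_nonneg_left h5 hb
      have h8 : a * c0 + b * c0 = c0 := by rw [← add_mul, hab, one_mul]
      linarith
    · positivity
  have h3 := h1 i
  have h4 := h1 j
  have h5 := mul_le_mul_of_nonneg_left hx' ha
  have h6 := mul_le_mul_of_nonneg_left hy' hb
  linarith

theorem Ks_subset {i j : Fin 2} (hij : i ≠ j) (u : ℂ) (c0 : ℝ) : Ks i j u c0 ⊆ l1Ball := by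
  intro z hz
  have hz' : ‖z i‖ + ‖z j‖ + max ((u * z i).re - c0) 0 ≤ 1 := hz
  show ‖z 0‖ + ‖z 1‖ ≤ 1
  rw [ij_sum hij (fun l => ‖z l‖)]
  have h2 : 0 ≤ max ((u * z i).re - c0) 0 := le_max_right _ _
  linarith

theorem not_l1Ball_subset {i j : Fin 2} (hij : i ≠ j) {u : ℂ} (hu : ‖u‖ = 1) {c0 : ℝ}
    (hc0 : c0 < 1) : ¬ l1Ball ⊆ Ks i j u c0 := by
  intro h
  have h1 : EuclideanSpace.single i ((starRingEnd ℂ) u) ∈ l1Ball := by
    show ‖_‖ + ‖_‖ ≤ (1 : ℝ)
    rw [ij_sum hij (fun l => ‖(EuclideanSpace.single i ((starRingEnd ℂ) u) : Cn 2) l‖)]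
    simp [hij.symm, hu]
  have h2 : ‖(EuclideanSpace.single i ((starRingEnd ℂ) u) : Cn 2) i‖ +
    ‖(EuclideanSpace.single i ((starRingEnd ℂ) u) : Cn 2) j‖ +
    max ((u * (EuclideanSpace.single i ((starRingEnd ℂ) u) : Cn 2) i).re - c0) 0 ≤ 1 := h h1
  have h3 : (EuclideanSpace.single i ((starRingEnd ℂ) u) : Cn 2) i = (starRingEnd ℂ) u := by simp
  have h4 : (EuclideanSpace.single i ((starRingEnd ℂ) u) : Cn 2) j = 0 := by simp [hij.symm]
  rw [h3, h4, mul_conj, normSq_eq_norm_sq, hu, norm_zero, RCLike.norm_conj, hu] at h2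
  have h5 : (((1 : ℝ) ^ 2 : ℝ) : ℂ).re = 1 := by simp
  rw [h5] at h2
  have h6 : 1 - c0 ≤ max (1 - c0) 0 := le_max_left _ _
  linarith

theorem isCompact_l1Ball : IsCompact l1Ball := by
  apply Metric.isCompact_of_isClosed_isBounded
  · exact isClosed_le ((PiLp.continuous_apply 2 _ 0).norm.add (PiLp.continuous_apply 2 _ 1).norm)
      continuous_const
  · apply (isBounded_closedBall (x := (0 : Cn 2)) (r := 1)).subset
    intro z hz
    rw [mem_closedBall_zero_iff]
    exact (norm_le_ij (by decide : (0 : Fin 2) ≠ 1) z).trans hz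

theorem convex_l1Ball : Convex ℝ l1Ball := by
  intro x hx y hy a b ha hb hab
  have hx' : ‖x 0‖ + ‖x 1‖ ≤ 1 := hx
  have hy' : ‖y 0‖ + ‖y 1‖ ≤ 1 := hy
  show ‖(a • x + b • y) 0‖ + ‖(a • x + b • y) 1‖ ≤ 1
  have e : ∀ l : Fin 2, (a • x + b • y) l = a • x l + b • y l := fun l => by
    simp
  have h1 : ∀ l : Fin 2, ‖(a • x + b • y) l‖ ≤ a * ‖x l‖ + b * ‖y l‖ := by
    intro l
    rw [e]
    calc ‖a • x l + b • y l‖ ≤ ‖a • x l‖ + ‖b • y l‖ := norm_add_le _ _
      _ = a * ‖x l‖ + b * ‖y l‖ := by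
          rw [norm_smul, norm_smul, Real.norm_of_nonneg ha, Real.norm_of_nonneg hb]
  have h3 := h1 0
  have h4 := h1 1
  have h5 := mul_le_mul_of_nonneg_left hx' ha
  have h6 := mul_le_mul_of_nonneg_left hy' hb
  linarith

/-! ### the functional in adapted coordinates -/

section
variable {i j : Fin 2} (hij : i ≠ j) {u : ℂ} (hu : ‖u‖ = 1)

/-- the inverse of the coordinates `(u z_i, z_j)` -/
noncomputable def Phi (i j : Fin 2) (u : ℂ) (p : ℂ × ℂ) : Cn 2 :=
  ((starRingEnd ℂ) u * p.1) • EuclideanSpace.single i (1 : ℂ) + p.2 • EuclideanSpace.single j (1 : ℂ)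

theorem differentiable_Phi : Differentiable ℂ (Phi i j u) := by
  unfold Phi
  fun_prop

include hij in
theorem Phi_i (p : ℂ × ℂ) : Phi i j u p i = (starRingEnd ℂ) u * p.1 := by
  simp [Phi, hij]

include hij in
theorem Phi_j (p : ℂ × ℂ) : Phi i j u p j = p.2 := by
  simp [Phi, hij.symm]

include hij hu in
theorem Phi_coord (z : Cn 2) : Phi i j u (u * z i, z j) = z := by
  have huu : (starRingEnd ℂ) u * u = 1 := by
    rw [← normSq_eq_conj_mul_self, normSq_eq_norm_sq, hu]; simp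
  ext l
  rcases ij_cases hij l with rfl | rfl
  · rw [Phi_i hij, ← mul_assoc, huu, one_mul]
  · rw [Phi_j hij]

/-- the coordinate functions on the compact set `X` -/
noncomputable def coord1 (X : Set (Cn 2)) (i : Fin 2) (u : ℂ) : C(X, ℂ) :=
  ⟨fun z => u * z.1 i, continuous_const.mul
    ((PiLp.continuous_apply 2 _ i).comp continuous_subtype_val)⟩

/-- the exponential `e^{ζ₁ u z_i + ζ₂ z_j}` -/
noncomputable def expf (i j : Fin 2) (u ζ1 ζ2 : ℂ) (z : Cn 2) : ℂ :=
  Complex.exp (ζ1 * (u * z i) + ζ2 * z j)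

theorem differentiable_coord (i : Fin 2) : Differentiable ℂ (fun z : Cn 2 => z i) :=
  (PiLp.proj 2 (𝕜 := ℂ) (fun _ : Fin 2 => ℂ) i).differentiable

theorem differentiable_expf (i j : Fin 2) (u ζ1 ζ2 : ℂ) : Differentiable ℂ (expf i j u ζ1 ζ2) := by
  unfold expf
  have h1 := differentiable_coord i
  have h2 := differentiable_coord j
  exact ((((h1.const_mul u).const_mul ζ1).add (h2.const_mul ζ2)).cexp)

theorem res_expf (X : Set (Cn 2)) [CompactSpace X] (i j : Fin 2) (u ζ1 ζ2 : ℂ) :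
    res X (expf i j u ζ1 ζ2) (differentiable_expf i j u ζ1 ζ2) =
      NormedSpace.exp (ζ1 • coord1 X i u + ζ2 • coord1 X j 1) := by
  ext z
  rw [exp_cm_apply]
  show Complex.exp (ζ1 * (u * z.1 i) + ζ2 * z.1 j) = Complex.exp (ζ1 * (u * z.1 i) + ζ2 * (1 * z.1 j))
  rw [one_mul]

end

end Pool.Agent.H765R2.CS
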