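import Mathlib
import Pool.Agent.H765R2.CS10

set_option autoImplicit false

open Set Metric Topology Complex

namespace Pool.Agent.H765R2.CS

/-- the growth of the transform of a functional carried by the `ℓ¹` ball -/
theorem growth_l1 {T : (Cn 2 → ℂ) → ℂ} (hK : IsCarrier T l1Ball) {i j : Fin 2} (hij : i ≠ j)
    {u : ℂ} (hu : ‖u‖ = 1) (ε : ℝ) (hε : 0 < ε) : ∃ C : ℝ, ∀ ζ1 ζ2 : ℂ,
      ‖T (expf i j u ζ1 ζ2)‖ ≤
        C * Real.exp (max ‖ζ1‖ ‖ζ2‖ + ε * (‖ζ1‖ + ‖ζ2‖)) := by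
  let ω : Set (Cn 2) := {z | ‖z 0‖ + ‖z 1‖ < 1 + ε}
  have hω : IsOpen ω :=
    isOpen_lt ((PiLp.continuous_apply 2 _ 0).norm.add (PiLp.continuous_apply 2 _ 1).norm)
      continuous_const
  have hKω : l1Ball ⊆ ω := by
    intro z hz
    have : ‖z 0‖ + ‖z 1‖ ≤ 1 := hz
    show ‖z 0‖ + ‖z 1‖ < 1 + ε
    linarith
  obtain ⟨L, hLω, hL, C, hC0, hC⟩ := hK.bound hω hKω
  refine ⟨C, fun ζ1 ζ2 => hC _ (differentiable_expf i j u ζ1 ζ2) _ (Real.exp_pos _).le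
    (fun z hz => ?_)⟩
  have hz1 : ‖z 0‖ + ‖z 1‖ < 1 + ε := hLω hz
  rw [ij_sum hij (fun l => ‖z l‖)] at hz1
  unfold expf
  rw [Complex.norm_exp]
  apply Real.exp_le_exp.2
  have h1 : (ζ1 * (u * z i) + ζ2 * z j).re ≤ ‖ζ1‖ * ‖z i‖ + ‖ζ2‖ * ‖z j‖ := by
    calc (ζ1 * (u * z i) + ζ2 * z j).re ≤ ‖ζ1 * (u * z i) + ζ2 * z j‖ := re_le_norm _
      _ ≤ ‖ζ1 * (u * z i)‖ + ‖ζ2 * z j‖ := norm_add_le _ _
      _ = ‖ζ1‖ * ‖z i‖ + ‖ζ2‖ * ‖z j‖ := by rw [norm_mul, norm_mul, norm_mul, hu, one_mul]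
  set m := max ‖ζ1‖ ‖ζ2‖ with hm
  have hm1 : ‖ζ1‖ ≤ m := le_max_left _ _
  have hm2 : ‖ζ2‖ ≤ m := le_max_right _ _
  have hn1 := norm_nonneg ζ1
  have hn2 := norm_nonneg ζ2
  have hn3 := norm_nonneg (z i)
  have hn4 := norm_nonneg (z j)
  have hm3 : m ≤ ‖ζ1‖ + ‖ζ2‖ := max_le (by linarith) (by linarith)
  have hm0 : 0 ≤ m := hn1.trans hm1
  calc (ζ1 * (u * z i) + ζ2 * z j).re ≤ ‖ζ1‖ * ‖z i‖ + ‖ζ2‖ * ‖z j‖ := h1
    _ ≤ m * ‖z i‖ + m * ‖z j‖ := by gcongr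
    _ = m * (‖z i‖ + ‖z j‖) := by ring
    _ ≤ m * (1 + ε) := by gcongr
    _ = m + ε * m := by ring
    _ ≤ m + ε * (‖ζ1‖ + ‖ζ2‖) := by gcongr

theorem smaller_carrier {T : (Cn 2 → ℂ) → ℂ} (hTa : IsAnalyticFunctional T)
    (hK : IsCarrier T l1Ball) {L : Set (Cn 2)} (hL : IsCompact L) {C : ℝ}
    (hT : ∀ f : Cn 2 → ℂ, Differentiable ℂ f → ∀ M : ℝ, 0 ≤ M → (∀ z ∈ L, ‖f z‖ ≤ M) →
      ‖T f‖ ≤ C * M)
    {i j : Fin 2} (hij : i ≠ j) {ai aj : ℂ} (haj : ‖aj‖ < ‖ai‖) {c' : ℝ} (hc' : c' < ‖ai‖)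
    (hL' : ∀ z ∈ L, (ai * z i + aj * z j).re ≤ c') :
    ∃ (u : ℂ) (c0 : ℝ), ‖u‖ = 1 ∧ c0 < 1 ∧ IsCarrier T (Ks i j u c0) := by
  -- the compact set `X`, a ball
  obtain ⟨R0, hR0⟩ := hL.isBounded.subset_closedBall (0 : Cn 2)
  set R : ℝ := max R0 0 with hR
  have hRn : 0 ≤ R := le_max_right _ _
  set X : Set (Cn 2) := closedBall 0 R with hX
  have hLX : L ⊆ X := hR0.trans (closedBall_subset_closedBall (le_max_left _ _))
  have hXc : CompactSpace X := isCompact_iff_compactSpace.1 (isCompact_closedBall _ _)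
  have hXn : Nonempty X := ⟨⟨0, mem_closedBall_self hRn⟩⟩
  obtain ⟨Λ, hΛ⟩ := exists_lambda hTa X C
    (fun f hfd M hM hf => hT f hfd M hM (fun z hz => hf z (hLX hz)))
  -- the coordinates
  set s : ℝ := ‖ai‖ with hs
  have hspos : 0 < s := (norm_nonneg aj).trans_lt haj
  have hsc : (s : ℂ) ≠ 0 := by exact_mod_cast hspos.ne'
  set u : ℂ := ai / s with hudef
  have hu : ‖u‖ = 1 := by
    rw [hudef, norm_div, norm_real, Real.norm_of_nonneg hspos.le]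
    exact div_self hspos.ne'
  set b0 : ℂ := aj / s with hb0def
  have hb0 : ‖b0‖ < 1 := by
    rw [hb0def, norm_div, norm_real, Real.norm_of_nonneg hspos.le, div_lt_one hspos]
    exact haj
  set G : ℂ → ℂ → ℂ := fun ζ1 ζ2 =>
    Λ (NormedSpace.exp (ζ1 • coord1 X i u + ζ2 • coord1 X j 1)) with hG
  have hGT : ∀ ζ1 ζ2, G ζ1 ζ2 = T (expf i j u ζ1 ζ2) := by
    intro ζ1 ζ2
    rw [hΛ _ (differentiable_expf i j u ζ1 ζ2), res_expf]
  have hGd : ∀ ζ1, Differentiable ℂ (G ζ1) := by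
    intro ζ1 ζ2
    have h1 : G ζ1 = fun ζ2 => Λ (ex (coord1 X j 1) ζ2 * ex (coord1 X i u) ζ1) := by
      ext ζ2
      show Λ (NormedSpace.exp (ζ1 • coord1 X i u + ζ2 • coord1 X j 1)) = _
      rw [exp_add_smul]
    rw [h1]
    have h2 := (hasDerivAt_ex (coord1 X j 1) ζ2).mul_const (ex (coord1 X i u) ζ1)
    exact ((Λ.hasFDerivAt).comp_hasDerivAt ζ2 h2).differentiableAt
  have H1 : ∀ ε : ℝ, 0 < ε → ∃ C : ℝ, ∀ ζ1 ζ2 : ℂ,
      ‖G ζ1 ζ2‖ ≤ C * Real.exp (max ‖ζ1‖ ‖ζ2‖ + ε * (‖ζ1‖ + ‖ζ2‖)) := by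
    intro ε hε
    obtain ⟨C, hC⟩ := growth_l1 hK hij hu ε hε
    exact ⟨C, fun ζ1 ζ2 => by rw [hGT]; exact hC ζ1 ζ2⟩
  -- the improvement near the direction `(1, b₀)`
  set η : ℝ := (1 - c' / s) / 2 with hη
  have hηpos : 0 < η := by
    have : c' / s < 1 := by rw [div_lt_one hspos]; exact hc'
    rw [hη]; linarith
  set τ : ℝ := η / (2 * (R + 1)) with hτ
  have hτpos : 0 < τ := by positivity
  have hτR : τ * R + τ * R ≤ η := by
    have h1 : τ * (2 * (R + 1)) = η := by rw [hτ]; field_simp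
    nlinarith
  have H2 : ∀ r : ℝ, 0 ≤ r → ∀ ω : ℂ, ‖ω‖ = 1 → 1 - τ ^ 2 / 2 ≤ ω.re → ∀ b : ℂ, ‖b‖ ≤ 1 →
      ‖b - b0‖ ≤ τ → ‖G (r * (starRingEnd ℂ) ω) (r * b)‖ ≤ C * Real.exp (r * (1 - η)) := by
    intro r hr ω hω hωre b hb hbb
    rw [hGT]
    apply hT _ (differentiable_expf _ _ _ _ _) _ (Real.exp_pos _).le
    intro z hz
    unfold expf
    rw [Complex.norm_exp]
    apply Real.exp_le_exp.2
    have e1 : ↑r * (starRingEnd ℂ) ω * (u * z i) + ↑r * b * z j =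
        (r : ℂ) * ((starRingEnd ℂ) ω * (u * z i) + b * z j) := by ring
    rw [e1, re_ofReal_mul]
    apply mul_le_mul_of_nonneg_left _ hr
    have e2 : (starRingEnd ℂ) ω * (u * z i) + b * z j =
        (u * z i + b0 * z j) + ((starRingEnd ℂ) ω - 1) * (u * z i) + (b - b0) * z j := by ring
    have e3 : (u * z i + b0 * z j).re ≤ c' / s := by
      have h1 : u * z i + b0 * z j = (ai * z i + aj * z j) / (s : ℂ) := by
        rw [hudef, hb0def]; ring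
      rw [h1, div_ofReal_re]
      exact div_le_div_of_nonneg_right (hL' z hz) hspos.le
    have hzR : ‖z‖ ≤ R := mem_closedBall_zero_iff.1 (hLX hz)
    have hzi : ‖z i‖ ≤ R := (PiLp.norm_apply_le z i).trans hzR
    have hzj : ‖z j‖ ≤ R := (PiLp.norm_apply_le z j).trans hzR
    have e4 : ‖(starRingEnd ℂ) ω - 1‖ ≤ τ := by
      have h1 : (starRingEnd ℂ) ω - 1 = (starRingEnd ℂ) (ω - 1) := by simp
      rw [h1, RCLike.norm_conj]
      have h2 : ‖ω - 1‖ ^ 2 ≤ τ ^ 2 := by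
        have h3 : ‖ω‖ ^ 2 = 1 := by rw [hω]; norm_num
        rw [← normSq_eq_norm_sq] at h3 ⊢
        rw [normSq_apply] at h3 ⊢
        simp only [sub_re, sub_im, one_re, one_im] at *
        nlinarith
      exact (pow_le_pow_iff_left₀ (norm_nonneg _) hτpos.le (by norm_num)).1 h2
    have e5 : (((starRingEnd ℂ) ω - 1) * (u * z i)).re ≤ τ * R := by
      calc _ ≤ ‖((starRingEnd ℂ) ω - 1) * (u * z i)‖ := re_le_norm _
        _ = ‖(starRingEnd ℂ) ω - 1‖ * ‖z i‖ := by rw [norm_mul, norm_mul, hu, one_mul]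
        _ ≤ τ * R := by gcongr
    have e6 : ((b - b0) * z j).re ≤ τ * R := by
      calc _ ≤ ‖(b - b0) * z j‖ := re_le_norm _
        _ = ‖b - b0‖ * ‖z j‖ := norm_mul _ _
        _ ≤ τ * R := by gcongr
    rw [e2, add_re, add_re]
    have e7 : 2 * η = 1 - c' / s := by rw [hη]; ring
    linarith
  obtain ⟨c0, hc0pos, hc0, hgrow⟩ := growth_improve G hGd H1 hb0 hτpos hηpos
    (by positivity : 0 < τ ^ 2 / 2) H2
  refine ⟨u, c0, hu, hc0, ?_⟩
  apply isCarrier_of_bound hTa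
  intro ω hω hKω
  -- a small enlargement of `Ks` is contained in `ω`
  obtain ⟨δ, hδ, hδω⟩ : ∃ δ : ℝ, 0 < δ ∧ {z | Nn i j u c0 z ≤ 1 + 6 * δ} ⊆ ω := by
    have hcomp : IsCompact ({z | Nn i j u c0 z ≤ 2} \ ω) := IsCompact.diff (isCompact_Nn_le hij u c0 2) hω
    rcases ({z | Nn i j u c0 z ≤ 2} \ ω).eq_empty_or_nonempty with he | hne
    · refine ⟨1 / 6, by norm_num, ?_⟩
      intro z hz
      by_contra hzω
      have : z ∈ ({z | Nn i j u c0 z ≤ 2} \ ω) := ⟨by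
        have : Nn i j u c0 z ≤ 1 + 6 * (1 / 6) := hz
        show Nn i j u c0 z ≤ 2
        linarith, hzω⟩
      rw [he] at this
      exact this
    · obtain ⟨z0, hz0, hmin⟩ := hcomp.exists_isMinOn hne (continuous_Nn i j u c0).continuousOn
      have h1 : 1 < Nn i j u c0 z0 := by
        by_contra h2
        push Not at h2
        exact hz0.2 (hKω h2)
      have h2 : Nn i j u c0 z0 ≤ 2 := hz0.1
      refine ⟨(Nn i j u c0 z0 - 1) / 12, by linarith, ?_⟩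
      intro z hz
      by_contra hzω
      have hz' : Nn i j u c0 z ≤ 1 + 6 * ((Nn i j u c0 z0 - 1) / 12) := hz
      have h3 : z ∈ ({z | Nn i j u c0 z ≤ 2} \ ω) := ⟨by
        show Nn i j u c0 z ≤ 2
        linarith, hzω⟩
      have h4 : Nn i j u c0 z0 ≤ Nn i j u c0 z := hmin h3
      linarith
  obtain ⟨A, hA0, hA⟩ := pem (coord1 X i u) (coord1 X j 1) Λ hgrow hδ
  refine ⟨{z | Nn i j u c0 z ≤ 1 + 6 * δ}, hδω, isCompact_Nn_le hij u c0 _, A, ?_⟩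
  intro F hF' M hM hf
  have hFP : Differentiable ℂ (fun p : ℂ × ℂ => F (Phi i j u p)) :=
    hF'.comp differentiable_Phi
  have h1 := hA (fun p : ℂ × ℂ => F (Phi i j u p)) hFP M hM (fun w ξ hwξ => by
    have h2 := hf (Phi i j u (w, ξ)) (by
      show ‖Phi i j u (w, ξ) i‖ + ‖Phi i j u (w, ξ) j‖ +
        max ((u * Phi i j u (w, ξ) i).re - c0) 0 ≤ 1 + 6 * δ
      rw [Phi_i hij, Phi_j hij]
      have h3 : u * ((starRingEnd ℂ) u * w) = w := by
        rw [← mul_assoc, mul_conj, normSq_eq_norm_sq, hu]; simp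
      have h4 : ‖(starRingEnd ℂ) u * w‖ = ‖w‖ := by
        rw [norm_mul, RCLike.norm_conj, hu, one_mul]
      show ‖(starRingEnd ℂ) u * w‖ + ‖ξ‖ + max ((u * ((starRingEnd ℂ) u * w)).re - c0) 0 ≤ 1 + 6 * δ
      rw [h3, h4]
      exact hwξ)
    exact h2)
  rw [hΛ F hF']
  have h5 : res X F hF' = cmp2 (coord1 X i u) (coord1 X j 1) (fun p : ℂ × ℂ => F (Phi i j u p))
      hFP.continuous := by
    ext z
    rw [res_apply, cmp2_apply]
    show F z.1 = F (Phi i j u (u * z.1 i, 1 * z.1 j))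
    rw [one_mul, Phi_coord hij hu]
  rw [h5]
  exact h1

/-- The `ℓ¹` ball of `ℂ²` is a unique C-support. -/
theorem isUniqueCSupport_l1Ball : IsUniqueCSupport l1Ball := by
  intro T hTa hTK K' hTK'
  by_cases hsub : l1Ball ⊆ K'
  · exact (hTK'.2 hTK.1 hsub).antisymm hsub
  exfalso
  obtain ⟨w, hwK, hwK'⟩ := not_subset.1 hsub
  have hK'ne : K'.Nonempty := by
    by_contra h
    rw [not_nonempty_iff_eq_empty] at h
    have h1 : K' ⊆ l1Ball := by rw [h]; exact empty_subset _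
    exact hsub (hTK.2 hTK'.1 h1)
  obtain ⟨hK'c, hK'conv, hK'carr⟩ := hTK'.1
  obtain ⟨f, c, hf1, hf2⟩ := RCLike.geometric_hahn_banach_closed_point (𝕜 := ℂ)
    hK'conv hK'c.isClosed hwK'
  set a : Fin 2 → ℂ := fun l => f (EuclideanSpace.single l 1) with ha
  have hfa : ∀ z : Cn 2, f z = a 0 * z 0 + a 1 * z 1 := by
    intro z
    have h : z = z 0 • EuclideanSpace.single 0 (1 : ℂ) + z 1 • EuclideanSpace.single 1 (1 : ℂ) := by
      ext l
      fin_cases l <;> simp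
    conv_lhs => rw [h]
    rw [map_add, map_smul, map_smul, smul_eq_mul, smul_eq_mul]
    ring
  have hre : ∀ z, (f z).re = (a 0 * z 0 + a 1 * z 1).re := fun z => by rw [hfa]
  have hwc : c < (a 0 * w 0 + a 1 * w 1).re := by rw [← hre]; exact hf2
  have hmax : (a 0 * w 0 + a 1 * w 1).re ≤ max ‖a 0‖ ‖a 1‖ := by
    have hw : ‖w 0‖ + ‖w 1‖ ≤ 1 := hwK
    have h1 : ‖a 0‖ ≤ max ‖a 0‖ ‖a 1‖ := le_max_left _ _
    have h2 : ‖a 1‖ ≤ max ‖a 0‖ ‖a 1‖ := le_max_right _ _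
    have h3 : 0 ≤ max ‖a 0‖ ‖a 1‖ := (norm_nonneg _).trans h1
    calc (a 0 * w 0 + a 1 * w 1).re ≤ ‖a 0 * w 0 + a 1 * w 1‖ := re_le_norm _
      _ ≤ ‖a 0 * w 0‖ + ‖a 1 * w 1‖ := norm_add_le _ _
      _ = ‖a 0‖ * ‖w 0‖ + ‖a 1‖ * ‖w 1‖ := by rw [norm_mul, norm_mul]
      _ ≤ max ‖a 0‖ ‖a 1‖ * ‖w 0‖ + max ‖a 0‖ ‖a 1‖ * ‖w 1‖ := by gcongr
      _ = max ‖a 0‖ ‖a 1‖ * (‖w 0‖ + ‖w 1‖) := by ring
      _ ≤ max ‖a 0‖ ‖a 1‖ * 1 := by gcongr
      _ = _ := mul_one _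
  -- the open half space containing `K'`
  let ω : Set (Cn 2) := {z | (a 0 * z 0 + a 1 * z 1).re < c}
  have hω : IsOpen ω := by
    apply isOpen_lt _ continuous_const
    exact Complex.continuous_re.comp ((continuous_const.mul (PiLp.continuous_apply 2 _ 0)).add
      (continuous_const.mul (PiLp.continuous_apply 2 _ 1)))
  have hK'ω : K' ⊆ ω := fun z hz => by
    show (a 0 * z 0 + a 1 * z 1).re < c
    rw [← hre]; exact hf1 z hz
  obtain ⟨L, hLω, hL, C, hC0, hC⟩ := hK'carr.bound hω hK'ω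
  obtain ⟨c', hc', hLc'⟩ : ∃ c' : ℝ, c' < c ∧ ∀ z ∈ L, (a 0 * z 0 + a 1 * z 1).re ≤ c' := by
    rcases L.eq_empty_or_nonempty with he | hne
    · exact ⟨c - 1, by linarith, fun z hz => by rw [he] at hz; exact hz.elim⟩
    · obtain ⟨z0, hz0, hmx⟩ := hL.exists_isMaxOn (f := fun z : Cn 2 => (a 0 * z 0 + a 1 * z 1).re)
        hne (Complex.continuous_re.comp
        ((continuous_const.mul (PiLp.continuous_apply 2 _ 0)).add
          (continuous_const.mul (PiLp.continuous_apply 2 _ 1)))).continuousOn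
      exact ⟨_, hLω hz0, fun z hz => hmx hz⟩
  -- conclusion from a smaller carrier
  have hfinish : ∀ {i j : Fin 2}, i ≠ j → ∀ {ai aj : ℂ} {c'' : ℝ}, ‖aj‖ < ‖ai‖ → c'' < ‖ai‖ →
      (∀ z ∈ L, (ai * z i + aj * z j).re ≤ c'') → False := by
    intro i j hij ai aj c'' h1 h2 h3
    obtain ⟨u, c0, hu, hc0, hcarr⟩ := smaller_carrier hTa hTK.1.2.2 hL hC hij h1 h2 h3
    exact not_l1Ball_subset hij hu hc0
      (hTK.2 ⟨isCompact_Ks hij u c0, convex_Ks i j u c0, hcarr⟩ (Ks_subset hij u c0))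
  rcases lt_trichotomy ‖a 0‖ ‖a 1‖ with h01 | h01 | h01
  · refine hfinish (i := 1) (j := 0) (by decide) (ai := a 1) (aj := a 0) (c'' := c') h01 ?_ ?_
    · rw [max_eq_right h01.le] at hmax; linarith
    · intro z hz
      have := hLc' z hz
      rwa [add_comm] at this
  · -- equal moduli: perturb
    have hpos : 0 < ‖a 0‖ := by
      rcases (norm_nonneg (a 0)).eq_or_lt with h0 | h0
      · exfalso
        have e0 : a 0 = 0 := norm_eq_zero.1 h0.symm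
        have e1 : a 1 = 0 := norm_eq_zero.1 (by rw [← h01]; exact h0.symm)
        obtain ⟨z, hz⟩ := hK'ne
        have h1 := hf1 z hz
        change (f z).re < c at h1
        rw [hre, e0, e1] at h1
        rw [e0, e1] at hwc
        simp at h1 hwc
        linarith
      · exact h0
    rw [← h01, max_self] at hmax
    obtain ⟨R0, hR0⟩ := hL.isBounded.subset_closedBall (0 : Cn 2)
    set R : ℝ := max R0 0 with hR
    have hRn : 0 ≤ R := le_max_right _ _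
    set τ : ℝ := (c - c') / (2 * (‖a 0‖ * (R + 1))) with hτ
    have hcc : 0 < c - c' := by linarith
    have hτpos : 0 < τ := by positivity
    have hτ2 : τ * (‖a 0‖ * R) ≤ (c - c') := by
      have h1 : τ * (2 * (‖a 0‖ * (R + 1))) = c - c' := by rw [hτ]; field_simp
      have h2 : 0 ≤ τ * ‖a 0‖ * R := by positivity
      have h3 : 0 ≤ τ * ‖a 0‖ := by positivity
      nlinarith
    refine hfinish (i := 0) (j := 1) (by decide) (ai := (1 + τ : ℝ) * a 0) (aj := a 1)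
      (c'' := c) ?_ ?_ ?_
    · rw [norm_mul, norm_real, Real.norm_of_nonneg (by positivity), ← h01]
      nlinarith
    · rw [norm_mul, norm_real, Real.norm_of_nonneg (by positivity)]
      nlinarith
    · intro z hz
      have h1 := hLc' z hz
      have hzR : ‖z‖ ≤ R := (mem_closedBall_zero_iff.1 (hR0 hz)).trans (le_max_left _ _)
      have h2 : (τ * (a 0 * z 0) : ℂ).re ≤ τ * (‖a 0‖ * R) := by
        rw [re_ofReal_mul]
        gcongr
        calc (a 0 * z 0).re ≤ ‖a 0 * z 0‖ := re_le_norm _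
          _ = ‖a 0‖ * ‖z 0‖ := norm_mul _ _
          _ ≤ ‖a 0‖ * R := by
              gcongr
              exact (PiLp.norm_apply_le z 0).trans hzR
      have h3 : ((1 + τ : ℝ) : ℂ) * a 0 * z 0 + a 1 * z 1 =
          (a 0 * z 0 + a 1 * z 1) + τ * (a 0 * z 0) := by push_cast; ring
      rw [h3, add_re]
      linarith
  · refine hfinish (i := 0) (j := 1) (by decide) (ai := a 0) (aj := a 1) (c'' := c') h01 ?_ ?_
    · rw [max_eq_left h01.le] at hmax; linarith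
    · exact hLc'

end Pool.Agent.H765R2.CS
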