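import Mathlib
import Pool.Agent.H765R2.CS10

set_option autoImplicit false

open Set Metric Topology Complex

namespace Pool.Agent.H765R2.CS

theorem single_mem_l1Ball (i : Fin 2) (a : ℂ) (ha : ‖a‖ ≤ 1) :
    EuclideanSpace.single i a ∈ l1Ball := by
  show ‖_‖ + ‖_‖ ≤ (1 : ℝ)
  fin_cases i <;> simpa using ha

theorem zero_mem_l1Ball : (0 : Cn 2) ∈ l1Ball := by
  show ‖_‖ + ‖_‖ ≤ (1 : ℝ)
  simp

theorem affineSpan_l1Ball : affineSpan ℂ l1Ball = ⊤ := by
  have h0 : (0 : Cn 2) ∈ affineSpan ℂ l1Ball := subset_affineSpan ℂ _ zero_mem_l1Ball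
  have he : ∀ i : Fin 2, EuclideanSpace.single i (1 : ℂ) ∈ affineSpan ℂ l1Ball := fun i =>
    subset_affineSpan ℂ _ (single_mem_l1Ball i 1 (by simp))
  rw [← AffineSubspace.direction_eq_top_iff_of_nonempty ⟨0, h0⟩, eq_top_iff]
  intro z _
  have h : z = z 0 • (EuclideanSpace.single 0 (1 : ℂ) -ᵥ (0 : Cn 2)) +
      z 1 • (EuclideanSpace.single 1 (1 : ℂ) -ᵥ (0 : Cn 2)) := by
    ext l
    fin_cases l <;> simp
  rw [h]
  exact Submodule.add_mem _
    (Submodule.smul_mem _ _ (AffineSubspace.vsub_mem_direction (he 0) h0))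
    (Submodule.smul_mem _ _ (AffineSubspace.vsub_mem_direction (he 1) h0))

theorem lt_of_mem_intrinsicInterior {z : Cn 2} (hz : z ∈ intrinsicInterior ℂ l1Ball) :
    ‖z 0‖ + ‖z 1‖ < 1 := by
  obtain ⟨y, hy, rfl⟩ := mem_intrinsicInterior.1 hz
  have hyK' : y ∈ ((↑) ⁻¹' l1Ball : Set (affineSpan ℂ l1Ball)) := interior_subset hy
  have hyK : ‖(y : Cn 2) 0‖ + ‖(y : Cn 2) 1‖ ≤ 1 := hyK'
  by_contra hge
  push Not at hge
  have heq : ‖(y : Cn 2) 0‖ + ‖(y : Cn 2) 1‖ = 1 := le_antisymm hyK hge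
  have hmem : ∀ v : Cn 2, v ∈ affineSpan ℂ l1Ball := fun v => by
    rw [affineSpan_l1Ball]; exact AffineSubspace.mem_top ℂ _ _
  let c : ℝ → affineSpan ℂ l1Ball := fun t => ⟨(1 + t) • (y : Cn 2), hmem _⟩
  have hc : Continuous c := by
    apply Continuous.subtype_mk
    fun_prop
  have hc0 : c 0 = y := by
    apply Subtype.ext
    show (1 + (0 : ℝ)) • (y : Cn 2) = y
    simp
  have h1 : interior ((↑) ⁻¹' l1Ball : Set (affineSpan ℂ l1Ball)) ∈ 𝓝 (c 0) := by
    rw [hc0]; exact isOpen_interior.mem_nhds hy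
  have h2 := hc.continuousAt.eventually h1
  obtain ⟨ε, hε, hball⟩ := Metric.eventually_nhds_iff.1 h2
  have h3 := interior_subset (hball (y := ε / 2) (by
    rw [dist_zero_right, Real.norm_of_nonneg (by positivity)]; linarith))
  have h4 : ‖((1 + ε / 2) • (y : Cn 2)) 0‖ + ‖((1 + ε / 2) • (y : Cn 2)) 1‖ ≤ 1 := h3
  have h5 : ∀ l : Fin 2, ‖((1 + ε / 2) • (y : Cn 2)) l‖ = (1 + ε / 2) * ‖(y : Cn 2) l‖ := by
    intro l
    rw [PiLp.smul_apply, norm_smul, Real.norm_of_nonneg (by positivity)]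
  rw [h5, h5, ← mul_add, heq] at h4
  linarith

/-- the extreme points of the `ℓ¹` ball are on the coordinate axes -/
theorem extreme_l1Ball {x : Cn 2} (hx : x ∈ l1Ball.extremePoints ℝ) :
    ∃ i j : Fin 2, i ≠ j ∧ ‖x i‖ = 1 ∧ x j = 0 := by
  rw [mem_extremePoints] at hx
  obtain ⟨hxK, hext⟩ := hx
  have hxK' : ‖x 0‖ + ‖x 1‖ ≤ 1 := hxK
  -- one of the coordinates vanishes
  have hzero : x 0 = 0 ∨ x 1 = 0 := by
    by_contra hne
    push Not at hne
    have h0 : 0 < ‖x 0‖ := norm_pos_iff.2 hne.1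
    have h1 : 0 < ‖x 1‖ := norm_pos_iff.2 hne.2
    set n : ℝ := ‖x 0‖ + ‖x 1‖ with hn
    have hnpos : 0 < n := by positivity
    have h0c : ((‖x 0‖ : ℝ) : ℂ) ≠ 0 := by exact_mod_cast h0.ne'
    have h1c : ((‖x 1‖ : ℝ) : ℂ) ≠ 0 := by exact_mod_cast h1.ne'
    have hnc : (n : ℂ) ≠ 0 := by exact_mod_cast hnpos.ne'
    have hp : EuclideanSpace.single 0 ((n : ℂ) * (x 0 / ‖x 0‖)) ∈ l1Ball := by
      apply single_mem_l1Ball
      rw [norm_mul, norm_div, norm_real, norm_real, norm_norm, div_self h0.ne', mul_one,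
        Real.norm_of_nonneg hnpos.le]
      exact hxK'
    have hq : EuclideanSpace.single 1 ((n : ℂ) * (x 1 / ‖x 1‖)) ∈ l1Ball := by
      apply single_mem_l1Ball
      rw [norm_mul, norm_div, norm_real, norm_real, norm_norm, div_self h1.ne', mul_one,
        Real.norm_of_nonneg hnpos.le]
      exact hxK'
    have hseg : x ∈ openSegment ℝ (EuclideanSpace.single 0 ((n : ℂ) * (x 0 / ‖x 0‖)))
        (EuclideanSpace.single 1 ((n : ℂ) * (x 1 / ‖x 1‖))) := by
      refine ⟨‖x 0‖ / n, ‖x 1‖ / n, by positivity, by positivity, by rw [← add_div, div_self hnpos.ne'], ?_⟩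
      ext l
      fin_cases l
      · simp only [PiLp.add_apply, PiLp.smul_apply, real_smul, PiLp.single_apply]
        simp only [Fin.zero_eta, if_true, Fin.isValue, zero_ne_one, if_false, mul_zero, add_zero]
        push_cast
        field_simp
      · simp only [PiLp.add_apply, PiLp.smul_apply, real_smul, PiLp.single_apply]
        simp only [Fin.mk_one, if_true, Fin.isValue, one_ne_zero, if_false, mul_zero, zero_add]
        push_cast
        field_simp
    have h2 := (hext _ hp _ hq hseg).1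
    have h3 := congrArg (fun v : Cn 2 => v 1) h2
    simp at h3
    exact hne.2 h3.symm
  -- the other coordinate is unimodular
  have hmod : ∀ i j : Fin 2, i ≠ j → x j = 0 → ‖x i‖ = 1 := by
    intro i j hij hj
    have hsum : ‖x i‖ ≤ 1 := by
      have := ij_sum hij (fun l => ‖x l‖)
      simp only [hj, norm_zero, add_zero] at this
      linarith
    by_contra hne
    have hlt : ‖x i‖ < 1 := lt_of_le_of_ne hsum hne
    set ε : ℝ := 1 - ‖x i‖ with hε
    have hεpos : 0 < ε := by rw [hε]; linarith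
    have hxi : x = EuclideanSpace.single i (x i) := by
      ext l
      rcases ij_cases hij l with rfl | rfl
      · simp
      · simp [hij.symm, hj]
    have hp : EuclideanSpace.single i (x i + ε) ∈ l1Ball := by
      apply single_mem_l1Ball
      calc ‖x i + ε‖ ≤ ‖x i‖ + ‖(ε : ℂ)‖ := norm_add_le _ _
        _ = 1 := by rw [norm_real, Real.norm_of_nonneg hεpos.le, hε]; ring
    have hq : EuclideanSpace.single i (x i - ε) ∈ l1Ball := by
      apply single_mem_l1Ball
      calc ‖x i - ε‖ ≤ ‖x i‖ + ‖(ε : ℂ)‖ := norm_sub_le _ _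
        _ = 1 := by rw [norm_real, Real.norm_of_nonneg hεpos.le, hε]; ring
    have hseg : x ∈ openSegment ℝ (EuclideanSpace.single i (x i + ε))
        (EuclideanSpace.single i (x i - ε)) := by
      refine ⟨1 / 2, 1 / 2, by norm_num, by norm_num, by norm_num, ?_⟩
      ext l
      rcases ij_cases hij l with rfl | rfl
      · simp only [PiLp.add_apply, PiLp.smul_apply, real_smul, PiLp.single_apply, if_true]
        push_cast
        ring
      · simp [hij.symm, hj]
    have h2 := (hext _ hp _ hq hseg).1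
    have h3 := congrArg (fun v : Cn 2 => v i) h2
    simp only [PiLp.single_apply, if_true] at h3
    have h4 : (ε : ℂ) = 0 := by linear_combination h3
    have h5 : ε = 0 := by exact_mod_cast h4
    linarith
  rcases hzero with h | h
  · exact ⟨1, 0, by decide, hmod 1 0 (by decide) h, h⟩
  · exact ⟨0, 1, by decide, hmod 0 1 (by decide) h, h⟩

/-- the linear form `conj(a) z_i + b z_j` -/
noncomputable def form (i j : Fin 2) (a b : ℂ) : Cn 2 →ₗ[ℂ] ℂ :=
  (starRingEnd ℂ) a • (PiLp.proj 2 (𝕜 := ℂ) (fun _ : Fin 2 => ℂ) i).toLinearMap +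
    b • (PiLp.proj 2 (𝕜 := ℂ) (fun _ : Fin 2 => ℂ) j).toLinearMap

theorem form_apply (i j : Fin 2) (a b : ℂ) (z : Cn 2) :
    form i j a b z = (starRingEnd ℂ) a * z i + b * z j := rfl

/-- the complex line through `x` which is a level set of `form` -/
noncomputable def lineThrough (i j : Fin 2) (a b : ℂ) (x : Cn 2) : AffineSubspace ℂ (Cn 2) :=
  AffineSubspace.mk' x (LinearMap.ker (form i j a b))

theorem mem_lineThrough {i j : Fin 2} {a b : ℂ} {x z : Cn 2} :
    z ∈ lineThrough i j a b x ↔ form i j a b z = form i j a b x := by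
  unfold lineThrough
  rw [AffineSubspace.mem_mk', LinearMap.mem_ker, vsub_eq_sub, map_sub, sub_eq_zero]

theorem lineThrough_isCSH {i j : Fin 2} (hij : i ≠ j) {x : Cn 2} (hxi : ‖x i‖ = 1)
    (hxj : x j = 0) {b : ℂ} (hb : ‖b‖ ≤ 1) :
    IsComplexSupportingHyperplane l1Ball (lineThrough i j (x i) b x) := by
  have hfx : form i j (x i) b x = 1 := by
    rw [form_apply, hxj, mul_zero, add_zero, ← normSq_eq_conj_mul_self, normSq_eq_norm_sq, hxi]
    simp
  refine ⟨?_, ?_, ?_, ?_⟩
  · rw [affineSpan_l1Ball]; exact le_top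
  · rw [affineSpan_l1Ball, AffineSubspace.direction_top, finrank_top]
    unfold lineThrough
    rw [AffineSubspace.direction_mk']
    have h1 := LinearMap.finrank_range_add_finrank_ker (form i j (x i) b)
    have h2 : LinearMap.range (form i j (x i) b) = ⊤ := by
      rw [LinearMap.range_eq_top]
      intro y
      exact ⟨y • x, by rw [map_smul, hfx, smul_eq_mul, mul_one]⟩
    rw [h2, finrank_top, Module.finrank_self] at h1
    rw [← h1, add_comm]
  · refine ⟨x, mem_lineThrough.2 rfl, ?_⟩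
    show ‖x 0‖ + ‖x 1‖ ≤ 1
    rw [ij_sum hij (fun l => ‖x l‖)]
    simp [hxi, hxj]
  · rw [Set.disjoint_left]
    intro z hz hzi
    have h1 := lt_of_mem_intrinsicInterior hzi
    rw [ij_sum hij (fun l => ‖z l‖)] at h1
    have h2 : form i j (x i) b z = 1 := by
      rw [← hfx]; exact mem_lineThrough.1 hz
    rw [form_apply] at h2
    have h3 : ‖(starRingEnd ℂ) (x i) * z i + b * z j‖ = 1 := by rw [h2, norm_one]
    have h4 : ‖(starRingEnd ℂ) (x i) * z i + b * z j‖ ≤ ‖z i‖ + ‖z j‖ := by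
      calc _ ≤ ‖(starRingEnd ℂ) (x i) * z i‖ + ‖b * z j‖ := norm_add_le _ _
        _ ≤ ‖z i‖ + 1 * ‖z j‖ := by
            rw [norm_mul, norm_mul, RCLike.norm_conj, hxi, one_mul]
            gcongr
        _ = _ := by rw [one_mul]
    linarith

/-- no extreme point of the `ℓ¹` ball lies in exactly one complex supporting hyperplane -/
theorem not_existsUnique {x : Cn 2} (hx : x ∈ l1Ball.extremePoints ℝ) :
    ¬ ∃! h : AffineSubspace ℂ (Cn 2), IsComplexSupportingHyperplane l1Ball h ∧ x ∈ h := by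
  intro hu
  obtain ⟨i, j, hij, hxi, hxj⟩ := extreme_l1Ball hx
  have h0 := lineThrough_isCSH hij hxi hxj (b := 0) (by simp)
  have h1 := lineThrough_isCSH hij hxi hxj (b := 1) (by simp)
  have heq : lineThrough i j (x i) 0 x = lineThrough i j (x i) 1 x :=
    hu.unique ⟨h0, mem_lineThrough.2 rfl⟩ ⟨h1, mem_lineThrough.2 rfl⟩
  -- the point `x + e_j` lies in the first line only
  have hm : x + EuclideanSpace.single j (1 : ℂ) ∈ lineThrough i j (x i) 0 x := by
    rw [mem_lineThrough, form_apply, form_apply]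
    simp [hij]
  rw [heq, mem_lineThrough, form_apply, form_apply] at hm
  simp [hij] at hm

theorem suppHyp₀_l1Ball : suppHyp₀ l1Ball = ∅ := by
  rw [Set.eq_empty_iff_forall_notMem]
  rintro p ⟨-, x, ⟨hx, -⟩, hu⟩
  exact not_existsUnique hx hu

theorem suppHyp_l1Ball_nonempty : (suppHyp l1Ball).Nonempty := by
  refine ⟨(EuclideanSpace.single 0 (1 : ℂ), 1), ?_, ⟨EuclideanSpace.single 0 (1 : ℂ), ?_, ?_⟩,
    Or.inl ?_⟩
  · simp
  · show (inner ℂ (EuclideanSpace.single 0 (1 : ℂ) : Cn 2) (EuclideanSpace.single 0 (1 : ℂ))).re = 1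
    rw [EuclideanSpace.inner_single_left]
    simp
  · exact single_mem_l1Ball 0 1 (by simp)
  · intro z hz
    show (inner ℂ (EuclideanSpace.single 0 (1 : ℂ) : Cn 2) z).re ≤ 1
    rw [EuclideanSpace.inner_single_left]
    have h1 : ‖z 0‖ + ‖z 1‖ ≤ 1 := hz
    have h2 := norm_nonneg (z 1)
    have h3 := re_le_norm (z 0)
    simp only [map_one, one_mul]
    linarith

theorem interior_l1Ball_nonempty : (interior l1Ball).Nonempty := by
  refine ⟨0, ?_⟩
  rw [mem_interior_iff_mem_nhds]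
  apply Filter.mem_of_superset (ball_mem_nhds (0 : Cn 2) (by norm_num : (0 : ℝ) < 1 / 2))
  intro z hz
  rw [mem_ball_zero_iff] at hz
  have h0 := (PiLp.norm_apply_le z 0).trans hz.le
  have h1 := (PiLp.norm_apply_le z 1).trans hz.le
  show ‖z 0‖ + ‖z 1‖ ≤ 1
  linarith

end Pool.Agent.H765R2.CS
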