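import Mathlib
import Pool.Agent.H765R2.CS12

set_option autoImplicit false

open Set Metric Topology Complex

namespace Pool.Agent.H765R2.CS

/-- a dense sequence on the unit circle -/
noncomputable def qs (n : ℕ) : ℂ := Complex.exp (((TopologicalSpace.denseSeq ℝ n : ℝ) : ℂ) * I)

theorem norm_qs (n : ℕ) : ‖qs n‖ = 1 := Complex.norm_exp_ofReal_mul_I _

theorem single_qs_mem (i : Fin 2) (n : ℕ) : EuclideanSpace.single i (qs n) ∈ l1Ball :=
  single_mem_l1Ball i _ (norm_qs n).le

/-- the analytic functional `∑ 2⁻ⁿ (δ_{q_n e_0} + δ_{q_n e_1})` -/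
noncomputable def T0 (f : Cn 2 → ℂ) : ℂ :=
  ∑' n : ℕ, (1 / 2 : ℂ) ^ n * (f (EuclideanSpace.single 0 (qs n)) + f (EuclideanSpace.single 1 (qs n)))

theorem T0_term_le {f : Cn 2 → ℂ} {M : ℝ} (hf : ∀ z ∈ l1Ball, ‖f z‖ ≤ M) (n : ℕ) :
    ‖(1 / 2 : ℂ) ^ n * (f (EuclideanSpace.single 0 (qs n)) + f (EuclideanSpace.single 1 (qs n)))‖ ≤
      (1 / 2 : ℝ) ^ n * (2 * M) := by
  rw [norm_mul, norm_pow]
  have h1 : ‖(1 / 2 : ℂ)‖ = 1 / 2 := by simp
  rw [h1]
  gcongr
  calc _ ≤ M + M := (norm_add_le _ _).trans
        (add_le_add (hf _ (single_qs_mem 0 n)) (hf _ (single_qs_mem 1 n)))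
    _ = 2 * M := by ring

theorem T0_summable {f : Cn 2 → ℂ} (hf : Continuous f) :
    Summable (fun n : ℕ => (1 / 2 : ℂ) ^ n *
      (f (EuclideanSpace.single 0 (qs n)) + f (EuclideanSpace.single 1 (qs n)))) := by
  obtain ⟨M, hM⟩ := isCompact_l1Ball.exists_bound_of_continuousOn hf.continuousOn
  exact Summable.of_norm_bounded
    ((summable_geometric_of_lt_one (by norm_num) (by norm_num)).mul_right (2 * M)) (T0_term_le hM)

theorem T0_bound {f : Cn 2 → ℂ} {M : ℝ} (hf : ∀ z ∈ l1Ball, ‖f z‖ ≤ M) :
    ‖T0 f‖ ≤ 4 * M := by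
  have h1 : HasSum (fun n : ℕ => (1 / 2 : ℝ) ^ n * (2 * M)) (2 * (2 * M)) := by
    have h2 := (hasSum_geometric_of_lt_one (r := (1 / 2 : ℝ)) (by norm_num) (by norm_num)).mul_right
      (2 * M)
    have h3 : (1 - (1 / 2 : ℝ))⁻¹ = 2 := by norm_num
    rwa [h3] at h2
  calc ‖T0 f‖ ≤ 2 * (2 * M) := tsum_of_norm_bounded h1 (T0_term_le hf)
    _ = 4 * M := by ring

theorem T0_functional : IsAnalyticFunctional T0 := by
  refine ⟨?_, ?_, l1Ball, 4, isCompact_l1Ball, subset_univ _, by norm_num, ?_⟩
  · intro f g hf hg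
    have hf' : Continuous f := (differentiableOn_univ.1 hf).continuous
    have hg' : Continuous g := (differentiableOn_univ.1 hg).continuous
    unfold T0
    rw [← (T0_summable hf').tsum_add (T0_summable hg')]
    congr 1
    ext n
    ring
  · intro c f hf
    unfold T0
    rw [← tsum_mul_left]
    congr 1
    ext n
    ring
  · intro f _ M _ hfM
    exact T0_bound hfM

theorem T0_carrier : IsCarrier T0 l1Ball := by
  apply isCarrier_of_bound T0_functional
  intro ω _ hKω
  exact ⟨l1Ball, hKω, isCompact_l1Ball, 4, fun f _ M _ hf => T0_bound hf⟩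

/-- a closed convex set containing the points `q_n e_i` contains the `ℓ¹` ball -/
theorem l1Ball_subset_of {K' : Set (Cn 2)} (hc : IsClosed K') (hconv : Convex ℝ K')
    (h : ∀ i n, EuclideanSpace.single i (qs n) ∈ K') : l1Ball ⊆ K' := by
  have h1 : ∀ (i : Fin 2) (θ : ℝ), EuclideanSpace.single i (Complex.exp (θ * I)) ∈ K' := by
    intro i
    have hcont : Continuous (fun θ : ℝ => (EuclideanSpace.single i (Complex.exp (θ * I)) : Cn 2)) := by
      have h2 : Continuous (fun θ : ℝ => Complex.exp (θ * I) • (EuclideanSpace.single i (1 : ℂ) : Cn 2)) := by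
        fun_prop
      convert h2 using 2 with θ
      ext l
      by_cases hl : l = i <;> simp [hl]
    have hcl : IsClosed {θ : ℝ | (EuclideanSpace.single i (Complex.exp (θ * I)) : Cn 2) ∈ K'} :=
      hc.preimage hcont
    have hd : Dense {θ : ℝ | (EuclideanSpace.single i (Complex.exp (θ * I)) : Cn 2) ∈ K'} := by
      apply (TopologicalSpace.denseRange_denseSeq ℝ).mono
      rintro _ ⟨n, rfl⟩
      exact h i n
    intro θ
    have : θ ∈ closure {θ : ℝ | (EuclideanSpace.single i (Complex.exp (θ * I)) : Cn 2) ∈ K'} := hd θ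
    rwa [hcl.closure_eq] at this
  have h2 : ∀ (i : Fin 2) (a : ℂ), ‖a‖ ≤ 1 → EuclideanSpace.single i a ∈ K' := by
    intro i a ha
    have ha1 := h1 i (arg a)
    have ha2 := h1 i (arg a + Real.pi)
    have e : (EuclideanSpace.single i a : Cn 2) =
        ((1 + ‖a‖) / 2 : ℝ) • EuclideanSpace.single i (Complex.exp ((arg a : ℝ) * I)) +
        ((1 - ‖a‖) / 2 : ℝ) • EuclideanSpace.single i (Complex.exp ((arg a + Real.pi : ℝ) * I)) := by
      have e1 : Complex.exp (((arg a + Real.pi : ℝ) : ℂ) * I) = - Complex.exp ((arg a : ℝ) * I) := by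
        push_cast
        rw [add_mul, exp_add, exp_pi_mul_I]
        ring
      have e2 : a = (‖a‖ : ℂ) * Complex.exp ((arg a : ℝ) * I) := (norm_mul_exp_arg_mul_I a).symm
      rw [e1]
      ext l
      by_cases hl : l = i
      · subst hl
        simp only [PiLp.add_apply, PiLp.smul_apply, real_smul, PiLp.single_apply, if_true]
        conv_lhs => rw [e2]
        push_cast
        ring
      · simp [hl]
    rw [e]
    exact hconv ha1 ha2 (by have := norm_nonneg a; positivity) (by linarith) (by ring)
  intro z hz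
  have hz' : ‖z 0‖ + ‖z 1‖ ≤ 1 := hz
  have hn0 := norm_nonneg (z 0)
  have hn1 := norm_nonneg (z 1)
  set lam : ℝ := ‖z 0‖ with hlam
  have hlam1 : 0 ≤ 1 - lam := by linarith
  have ha := h2 0 (z 0 / lam) (by
    rw [norm_div, norm_real, Real.norm_of_nonneg hn0, ← hlam]
    exact div_self_le_one _)
  have hb := h2 1 (z 1 / ((1 - lam : ℝ) : ℂ)) (by
    rw [norm_div, norm_real, Real.norm_of_nonneg hlam1]
    exact div_le_one_of_le₀ (by linarith) hlam1)
  have e : z = lam • EuclideanSpace.single 0 (z 0 / lam) +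
      (1 - lam) • EuclideanSpace.single 1 (z 1 / ((1 - lam : ℝ) : ℂ)) := by
    ext l
    fin_cases l
    · simp only [PiLp.add_apply, PiLp.smul_apply, real_smul, PiLp.single_apply]
      simp only [Fin.zero_eta, if_true, Fin.isValue, zero_ne_one, if_false, mul_zero, add_zero]
      by_cases h0 : lam = 0
      · have : z 0 = 0 := norm_eq_zero.1 h0
        simp [this]
      · have : (lam : ℂ) ≠ 0 := by exact_mod_cast h0
        field_simp
    · simp only [PiLp.add_apply, PiLp.smul_apply, real_smul, PiLp.single_apply]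
      simp only [Fin.mk_one, if_true, Fin.isValue, one_ne_zero, if_false, mul_zero, zero_add]
      by_cases h0 : 1 - lam = 0
      · have : z 1 = 0 := norm_eq_zero.1 (by linarith)
        simp [this]
      · have : ((1 - lam : ℝ) : ℂ) ≠ 0 := by exact_mod_cast h0
        field_simp
  rw [e]
  exact hconv ha hb hn0 hlam1 (by ring)

theorem T0_minimal {K' : Set (Cn 2)} (hK'c : IsCompact K') (hconv : Convex ℝ K')
    (hcarr : IsCarrier T0 K') (hsub : K' ⊆ l1Ball) : l1Ball ⊆ K' := by
  apply l1Ball_subset_of hK'c.isClosed hconv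
  intro i m
  by_contra hnot
  obtain ⟨j, hij⟩ : ∃ j : Fin 2, i ≠ j := by
    fin_cases i
    · exact ⟨1, by decide⟩
    · exact ⟨0, by decide⟩
  set v : ℂ := (starRingEnd ℂ) (qs m) with hv
  have hvn : ‖v‖ = 1 := by rw [hv, RCLike.norm_conj, norm_qs]
  have hvq : v * qs m = 1 := by
    rw [hv, ← normSq_eq_conj_mul_self, normSq_eq_norm_sq, norm_qs]; simp
  have hcontv : Continuous (fun z : Cn 2 => (v * z i).re) :=
    Complex.continuous_re.comp (continuous_const.mul (PiLp.continuous_apply 2 _ i))
  -- if `Re(v a) ≥ 1` with `|a| ≤ 1` then `a = q_m`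
  have hpeak : ∀ a : ℂ, ‖a‖ ≤ 1 → 1 ≤ (v * a).re → a = qs m := by
    intro a ha h1
    have h2 : ‖v * a‖ ≤ 1 := by rw [norm_mul, hvn, one_mul]; exact ha
    have h3 : (v * a).re ^ 2 + (v * a).im ^ 2 ≤ 1 := by
      have h4 : ‖v * a‖ ^ 2 ≤ 1 := by have := norm_nonneg (v * a); nlinarith
      rw [← normSq_eq_norm_sq, normSq_apply] at h4
      nlinarith
    have h5 : (v * a).re = 1 := by
      have := (re_le_norm (v * a)).trans h2
      linarith
    have h6 : (v * a).im = 0 := by
      rw [h5] at h3
      have : (v * a).im ^ 2 ≤ 0 := by linarith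
      exact pow_eq_zero_iff (two_ne_zero) |>.1 (le_antisymm this (sq_nonneg _))
    have h7 : v * a = 1 := Complex.ext (by simp [h5]) (by simp [h6])
    have hv0 : v ≠ 0 := by rw [← norm_ne_zero_iff, hvn]; norm_num
    exact mul_left_cancel₀ hv0 (h7.trans hvq.symm)
  -- a half space
  obtain ⟨c, hc1, hcK⟩ : ∃ c : ℝ, c < 1 ∧ ∀ z ∈ K', (v * z i).re < c := by
    rcases K'.eq_empty_or_nonempty with he | hne
    · exact ⟨0, one_pos, fun z hz => by rw [he] at hz; exact hz.elim⟩
    · obtain ⟨z0, hz0, hmx⟩ := hK'c.exists_isMaxOn hne hcontv.continuousOn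
      have hlt : (v * z0 i).re < 1 := by
        by_contra hge
        push Not at hge
        have hz0K : ‖z0 0‖ + ‖z0 1‖ ≤ 1 := hsub hz0
        rw [ij_sum hij (fun l => ‖z0 l‖)] at hz0K
        have hnj := norm_nonneg (z0 j)
        have h1 := hpeak (z0 i) (by linarith) hge
        have h2 : z0 j = 0 := by
          rw [h1, norm_qs] at hz0K
          exact norm_eq_zero.1 (le_antisymm (by linarith) hnj)
        apply hnot
        have h3 : z0 = EuclideanSpace.single i (qs m) := by
          ext l
          rcases ij_cases hij l with rfl | rfl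
          · simp [h1]
          · simp [hij.symm, h2]
        rw [← h3]
        exact hz0
      refine ⟨(1 + (v * z0 i).re) / 2, by linarith, fun z hz => ?_⟩
      have : (v * z i).re ≤ (v * z0 i).re := hmx hz
      linarith
  let ω : Set (Cn 2) := {z | (v * z i).re < c}
  obtain ⟨L, hLω, -, C, hC0, hC⟩ := hcarr.bound (ω := ω) (isOpen_lt hcontv continuous_const) hcK
  -- the test functions `e^{t v z_i}`
  have hval : ∀ t : ℝ, HasSum (fun n => (1 / 2 : ℂ) ^ n * (Complex.exp (t * (v * qs n)) + 1))
      (T0 (expf i j 1 (t * v) 0)) := by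
    intro t
    have h1 : HasSum _ (T0 (expf i j 1 (t * v) 0)) :=
      (T0_summable (differentiable_expf i j 1 (t * v) 0).continuous).hasSum
    have h2 : (fun n => (1 / 2 : ℂ) ^ n *
        (expf i j 1 (t * v) 0 (EuclideanSpace.single 0 (qs n)) +
          expf i j 1 (t * v) 0 (EuclideanSpace.single 1 (qs n)))) =
        (fun n => (1 / 2 : ℂ) ^ n * (Complex.exp (t * (v * qs n)) + 1)) := by
      ext n
      congr 1
      have h3 : ∀ l : Fin 2, expf i j 1 (t * v) 0 (EuclideanSpace.single l (qs n)) =
          Complex.exp (t * v * (1 * (EuclideanSpace.single l (qs n) : Cn 2) i) +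
            0 * (EuclideanSpace.single l (qs n) : Cn 2) j) := fun l => rfl
      rw [h3, h3]
      have h4 : i = 0 ∨ i = 1 := by fin_cases i <;> simp
      rcases h4 with rfl | rfl
      · simp [mul_assoc]
      · simp [mul_assoc, add_comm]
    rw [h2] at h1
    exact h1
  have hbd : ∀ t : ℝ, 0 ≤ t →
      ‖T0 (expf i j 1 (t * v) 0)‖ ≤ C * Real.exp (t * c) := by
    intro t ht
    apply hC _ (differentiable_expf i j 1 (t * v) 0) _ (Real.exp_pos _).le
    intro z hz
    unfold expf
    rw [Complex.norm_exp]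
    apply Real.exp_le_exp.2
    have h1 : (v * z i).re < c := hLω hz
    have h2 : ((t : ℂ) * v * (1 * z i) + 0 * z j).re = t * (v * z i).re := by
      have : (t : ℂ) * v * (1 * z i) + 0 * z j = (t : ℂ) * (v * z i) := by ring
      rw [this, re_ofReal_mul]
    rw [h2]
    gcongr
  -- limits
  set φ : ℝ → ℂ := fun t => Complex.exp (-(t : ℂ)) * T0 (expf i j 1 (t * v) 0) with hφ
  have hφ0 : Filter.Tendsto φ Filter.atTop (𝓝 0) := by
    rw [tendsto_zero_iff_norm_tendsto_zero]
    have h1 : Filter.Tendsto (fun t : ℝ => C * Real.exp (-((1 - c) * t))) Filter.atTop (𝓝 0) := by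
      have h2 : Filter.Tendsto (fun t : ℝ => (1 - c) * t) Filter.atTop Filter.atTop :=
        Filter.Tendsto.const_mul_atTop (by linarith) Filter.tendsto_id
      have h3 := (Real.tendsto_exp_neg_atTop_nhds_zero.comp h2).const_mul C
      simpa using h3
    refine squeeze_zero' (Filter.Eventually.of_forall (fun t => norm_nonneg _)) ?_ h1
    filter_upwards [Filter.eventually_ge_atTop 0] with t ht
    rw [hφ]
    simp only [norm_mul]
    have h2 : ‖Complex.exp (-(t : ℂ))‖ = Real.exp (-t) := by rw [Complex.norm_exp]; simp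
    rw [h2]
    calc Real.exp (-t) * _ ≤ Real.exp (-t) * (C * Real.exp (t * c)) := by
          gcongr
          exact hbd t ht
      _ = C * (Real.exp (-t) * Real.exp (t * c)) := by ring
      _ = C * Real.exp (-((1 - c) * t)) := by rw [← Real.exp_add]; congr 2; ring
  have hφ1 : Filter.Tendsto φ Filter.atTop
      (𝓝 (∑' n, (1 / 2 : ℂ) ^ n * (if qs n = qs m then 1 else 0))) := by
    have h1 : φ = fun t : ℝ => ∑' n, (1 / 2 : ℂ) ^ n *
        (Complex.exp (t * (v * qs n - 1)) + Complex.exp (-(t : ℂ))) := by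
      ext t
      rw [hφ]
      have h2 := ((hval t).mul_left (Complex.exp (-(t : ℂ)))).tsum_eq
      simp only
      rw [← h2]
      congr 1
      ext n
      have h3 : Complex.exp (t * (v * qs n - 1)) =
          Complex.exp (-(t : ℂ)) * Complex.exp (t * (v * qs n)) := by
        rw [← exp_add]; congr 1; ring
      rw [h3]
      ring
    rw [h1]
    apply tendsto_tsum_of_dominated_convergence (bound := fun n => (1 / 2 : ℝ) ^ n * 2)
    · exact (summable_geometric_of_lt_one (by norm_num) (by norm_num)).mul_right 2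
    · intro n
      apply Filter.Tendsto.const_mul
      have h4 : Filter.Tendsto (fun t : ℝ => Complex.exp (-(t : ℂ))) Filter.atTop (𝓝 0) := by
        rw [tendsto_zero_iff_norm_tendsto_zero]
        have : (fun t : ℝ => ‖Complex.exp (-(t : ℂ))‖) = fun t => Real.exp (-t) := by
          ext t; rw [Complex.norm_exp]; simp
        rw [this]
        exact Real.tendsto_exp_neg_atTop_nhds_zero
      by_cases hn : qs n = qs m
      · rw [if_pos hn, hn, hvq, sub_self]
        simp only [mul_zero, Complex.exp_zero]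
        simpa using h4.const_add 1
      · rw [if_neg hn]
        have h5 : (v * qs n).re < 1 := by
          by_contra hge
          push Not at hge
          exact hn (hpeak (qs n) (norm_qs n).le hge)
        have h6 : Filter.Tendsto (fun t : ℝ => Complex.exp (t * (v * qs n - 1))) Filter.atTop
            (𝓝 0) := by
          rw [tendsto_zero_iff_norm_tendsto_zero]
          have : (fun t : ℝ => ‖Complex.exp (t * (v * qs n - 1))‖) =
              fun t => Real.exp (-((1 - (v * qs n).re) * t)) := by
            ext t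
            rw [Complex.norm_exp, re_ofReal_mul, sub_re, one_re]
            congr 1
            ring
          rw [this]
          exact Real.tendsto_exp_neg_atTop_nhds_zero.comp
            (Filter.Tendsto.const_mul_atTop (by linarith) Filter.tendsto_id)
        simpa using h6.add h4
    · filter_upwards [Filter.eventually_ge_atTop 0] with t ht n
      rw [norm_mul, norm_pow]
      have h7 : ‖(1 / 2 : ℂ)‖ = 1 / 2 := by simp
      rw [h7]
      gcongr
      refine (norm_add_le _ _).trans ?_
      have h8 : ‖Complex.exp (t * (v * qs n - 1))‖ ≤ 1 := by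
        rw [Complex.norm_exp, re_ofReal_mul, sub_re, one_re, Real.exp_le_one_iff]
        have h9 : (v * qs n).re ≤ 1 := by
          refine (re_le_norm _).trans ?_
          rw [norm_mul, hvn, norm_qs, one_mul]
        exact mul_nonpos_of_nonneg_of_nonpos ht (by linarith)
      have h10 : ‖Complex.exp (-(t : ℂ))‖ ≤ 1 := by
        rw [Complex.norm_exp, Real.exp_le_one_iff]
        simpa using ht
      linarith
  have heq := tendsto_nhds_unique hφ0 hφ1
  -- but the sum is at least `(1/2)^m`
  have hsum : (∑' n, (1 / 2 : ℂ) ^ n * (if qs n = qs m then 1 else 0)) =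
      ((∑' n, (1 / 2 : ℝ) ^ n * (if qs n = qs m then 1 else 0) : ℝ) : ℂ) := by
    rw [Complex.ofReal_tsum]
    congr 1
    ext n
    split_ifs <;> simp
  rw [hsum] at heq
  have heq' : (∑' n, (1 / 2 : ℝ) ^ n * (if qs n = qs m then 1 else 0) : ℝ) = 0 := by
    exact_mod_cast heq.symm
  have hsummable : Summable (fun n => (1 / 2 : ℝ) ^ n * (if qs n = qs m then (1 : ℝ) else 0)) := by
    apply Summable.of_nonneg_of_le (fun n => by split_ifs <;> positivity)
      (fun n => ?_) (summable_geometric_of_lt_one (r := 1 / 2) (by norm_num) (by norm_num))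
    split_ifs
    · rw [mul_one]
    · rw [mul_zero]; positivity
  have hle := hsummable.le_tsum m (fun n _ => by split_ifs <;> positivity)
  rw [if_pos rfl, mul_one, heq'] at hle
  have : (0 : ℝ) < (1 / 2) ^ m := by positivity
  linarith

theorem isCSupport_T0 : IsCSupport T0 l1Ball :=
  ⟨⟨isCompact_l1Ball, convex_l1Ball, T0_carrier⟩, fun _ hK' hsub =>
    T0_minimal hK'.1 hK'.2.1 hK'.2.2 hsub⟩

end Pool.Agent.H765R2.CS
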