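import Mathlib

/-!
# A Riemann surface over the disc: the surface and its topology
-/

open Filter Topology Complex Set

namespace Pool.Agent.H765R2.RS

/-- `a n z = (2 z^(n+1))^(n+1)`. -/
noncomputable def a (n : ℕ) (z : ℂ) : ℂ := (2 * z ^ (n + 1)) ^ (n + 1)

lemma a_zero (n : ℕ) : a n 0 = 0 := by simp [a]

lemma norm_a (n : ℕ) (z : ℂ) : ‖a n z‖ = (2 * ‖z‖ ^ (n + 1)) ^ (n + 1) := by
  simp [a]

lemma norm_a_mono (n : ℕ) {z : ℂ} {r : ℝ} (h : ‖z‖ ≤ r) : ‖a n z‖ ≤ (2 * r ^ (n + 1)) ^ (n + 1) := by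
  rw [norm_a]; gcongr

lemma a_cont (n : ℕ) : Continuous (a n) := by unfold a; fun_prop

lemma a_diff (n : ℕ) : Differentiable ℂ (a n) := by unfold a; fun_prop

lemma a_tail {r : ℝ} (hr0 : 0 ≤ r) (hr : r < 1) {δ : ℝ} (hδ : 0 < δ) :
    ∃ m : ℕ, ∀ n ≥ m, ∀ z : ℂ, ‖z‖ ≤ r → ‖a n z‖ < δ := by
  have h1 : Tendsto (fun n : ℕ => 2 * r ^ (n + 1)) atTop (𝓝 0) := by
    have := (tendsto_pow_atTop_nhds_zero_of_lt_one hr0 hr)
    have h2 := (this.comp (tendsto_add_atTop_nat 1)).const_mul 2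
    simpa using h2
  have h2 : Tendsto (fun n : ℕ => (1 / 2 : ℝ) ^ (n + 1)) atTop (𝓝 0) :=
    (tendsto_pow_atTop_nhds_zero_of_lt_one (by norm_num) (by norm_num)).comp
      (tendsto_add_atTop_nat 1)
  have h3 : ∀ᶠ n : ℕ in atTop, 2 * r ^ (n + 1) < 1 / 2 := h1.eventually (gt_mem_nhds (by norm_num))
  have h4 : ∀ᶠ n : ℕ in atTop, (1 / 2 : ℝ) ^ (n + 1) < δ := h2.eventually (gt_mem_nhds hδ)
  obtain ⟨m, hm⟩ := eventually_atTop.1 (h3.and h4)
  refine ⟨m, fun n hn z hz => ?_⟩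
  obtain ⟨h5, h6⟩ := hm n hn
  calc ‖a n z‖ ≤ (2 * r ^ (n + 1)) ^ (n + 1) := norm_a_mono n hz
    _ ≤ (1 / 2 : ℝ) ^ (n + 1) := by
        apply pow_le_pow_left₀ (by positivity) h5.le
    _ < δ := h6

/-- The surface: points `(z, Y)` with `‖z‖ < 1`, `Y n ^ 2 = 1 - a n z` and `0 < re (Y n)` for all
large `n`. -/
@[ext] structure Surf where
  z : ℂ
  Y : ℕ → ℂ
  hz : ‖z‖ < 1
  eq : ∀ n, Y n ^ 2 = 1 - a n z
  tail : ∃ m, ∀ n ≥ m, 0 < (Y n).re

/-- The topology: the coordinate `z` and uniform convergence of `Y`. -/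
noncomputable instance : TopologicalSpace Surf :=
  TopologicalSpace.induced (fun x => (x.z, (UniformFun.ofFun x.Y : UniformFun ℕ ℂ))) inferInstance

lemma tendsto_iff {T : Type*} {l : Filter T} {G : T → Surf} {x : Surf} :
    Tendsto G l (𝓝 x) ↔ Tendsto (fun t => (G t).z) l (𝓝 x.z) ∧
      ∀ ε > 0, ∀ᶠ t in l, ∀ n, ‖(G t).Y n - x.Y n‖ < ε := by
  rw [nhds_induced, tendsto_comap_iff, nhds_prod_eq, tendsto_prod_iff']
  refine and_congr Iff.rfl ?_
  rw [UniformFun.tendsto_iff_tendstoUniformly, Metric.tendstoUniformly_iff]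
  refine forall₂_congr fun ε hε => ?_
  refine eventually_congr (Eventually.of_forall fun t => ?_)
  refine forall_congr' fun n => ?_
  rw [dist_comm, dist_eq_norm]
  rfl

lemma cont_z : Continuous Surf.z := by
  rw [continuous_iff_continuousAt]
  intro x
  exact (tendsto_iff.1 (tendsto_id : Tendsto id (𝓝 x) (𝓝 x))).1

lemma cont_Y (n : ℕ) : Continuous fun x : Surf => x.Y n := by
  rw [continuous_iff_continuousAt]
  intro x
  have h := (tendsto_iff.1 (tendsto_id : Tendsto id (𝓝 x) (𝓝 x))).2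
  rw [ContinuousAt, Metric.tendsto_nhds]
  intro ε hε
  filter_upwards [h ε hε] with y hy
  rw [dist_eq_norm]
  exact hy n

instance : T2Space Surf :=
  T2Space.of_injective_continuous (f := fun x : Surf => (x.z, x.Y))
    (fun x y h => by
      simp only [Prod.mk.injEq] at h
      exact Surf.ext h.1 h.2)
    (cont_z.prodMk (continuous_pi cont_Y))

/-- If `Re Y > 0` then `|Y - 1| ≤ |Y² - 1|`. -/
lemma norm_sub_one_le {y : ℂ} (hy : 0 ≤ y.re) : ‖y - 1‖ ≤ ‖y ^ 2 - 1‖ := by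
  have h1 : y ^ 2 - 1 = (y - 1) * (y + 1) := by ring
  rw [h1, norm_mul]
  have h2 : 1 ≤ ‖y + 1‖ := by
    calc (1 : ℝ) ≤ (y + 1).re := by simp; exact hy
      _ ≤ ‖y + 1‖ := Complex.re_le_norm _
  nlinarith [norm_nonneg (y - 1)]

lemma Surf.norm_Y_sub_one (x : Surf) {n : ℕ} (h : 0 ≤ (x.Y n).re) : ‖x.Y n - 1‖ ≤ ‖a n x.z‖ := by
  have := norm_sub_one_le h
  rwa [x.eq n, sub_sub_cancel_left, norm_neg] at this

/-- The criterion for convergence in the surface. -/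
lemma tendsto_crit {T : Type*} {l : Filter T} {G : T → Surf} {x : Surf}
    (h1 : Tendsto (fun t => (G t).z) l (𝓝 x.z))
    (h2 : ∀ n, Tendsto (fun t => (G t).Y n) l (𝓝 (x.Y n)))
    (h3 : ∃ m, ∀ᶠ t in l, ∀ n ≥ m, 0 ≤ ((G t).Y n).re) : Tendsto G l (𝓝 x) := by
  rw [tendsto_iff]
  refine ⟨h1, fun ε hε => ?_⟩
  obtain ⟨r, hr1, hr2⟩ := exists_between x.hz
  have hr0 : 0 ≤ r := (norm_nonneg _).trans hr1.le
  obtain ⟨m1, hm1⟩ := a_tail hr0 hr2 (δ := ε / 2) (by positivity)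
  obtain ⟨m2, hm2⟩ := h3
  obtain ⟨m3, hm3⟩ := x.tail
  set m := max m1 (max m2 m3) with hm
  have h4 : ∀ᶠ t in l, ‖(G t).z‖ < r := h1.norm.eventually (gt_mem_nhds hr1)
  have h5 : ∀ᶠ t in l, ∀ n ∈ Finset.range m, ‖(G t).Y n - x.Y n‖ < ε := by
    rw [eventually_all_finset]
    intro n _
    have := h2 n
    rw [Metric.tendsto_nhds] at this
    filter_upwards [this ε hε] with t ht
    rwa [dist_eq_norm] at ht
  filter_upwards [h4, h5, hm2] with t ht1 ht2 ht3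
  intro n
  by_cases hn : n < m
  · exact ht2 n (Finset.mem_range.2 hn)
  · push Not at hn
    have e1 : ‖(G t).Y n - 1‖ ≤ ‖a n (G t).z‖ :=
      (G t).norm_Y_sub_one (ht3 n (by omega))
    have e2 : ‖x.Y n - 1‖ ≤ ‖a n x.z‖ := x.norm_Y_sub_one (hm3 n (by omega)).le
    have e3 := hm1 n (by omega) _ ht1.le
    have e4 := hm1 n (by omega) _ hr1.le
    calc ‖(G t).Y n - x.Y n‖ = ‖((G t).Y n - 1) - (x.Y n - 1)‖ := by congr 1; ring
      _ ≤ ‖(G t).Y n - 1‖ + ‖x.Y n - 1‖ := norm_sub_le _ _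
      _ < ε := by linarith

/-- Near a point the tail condition holds with a uniform bound. -/
lemma eventually_tail (x : Surf) : ∃ m, ∀ᶠ y in 𝓝 x, ∀ n ≥ m, 1 / 2 < (y.Y n).re := by
  obtain ⟨r, hr1, hr2⟩ := exists_between x.hz
  have hr0 : 0 ≤ r := (norm_nonneg _).trans hr1.le
  obtain ⟨m1, hm1⟩ := a_tail hr0 hr2 (δ := 1 / 4) (by positivity)
  obtain ⟨m3, hm3⟩ := x.tail
  refine ⟨max m1 m3, ?_⟩
  have h := (tendsto_iff.1 (tendsto_id : Tendsto id (𝓝 x) (𝓝 x))).2 (1 / 4) (by norm_num)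
  filter_upwards [h] with y hy
  intro n hn
  have e1 := hy n
  have e2 : ‖x.Y n - 1‖ ≤ ‖a n x.z‖ := x.norm_Y_sub_one (hm3 n (by omega)).le
  have e3 := hm1 n (by omega) _ hr1.le
  have e4 : ‖y.Y n - 1‖ < 1 / 2 := by
    calc ‖y.Y n - 1‖ = ‖(y.Y n - x.Y n) + (x.Y n - 1)‖ := by congr 1; ring
      _ ≤ ‖y.Y n - x.Y n‖ + ‖x.Y n - 1‖ := norm_add_le _ _
      _ < 1 / 2 := by
        simp only [id] at e1
        linarith
  have e5 : |(y.Y n - 1).re| ≤ ‖y.Y n - 1‖ := Complex.abs_re_le_norm _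
  rw [abs_le] at e5
  simp only [sub_re, one_re] at e5
  linarith [e5.1]

/-- Sets given by an open condition on the tail are open. -/
lemma eventually_all_ge (x : Surf) (P : ℕ → Surf → Prop) (hP : ∀ n, ∀ᶠ y in 𝓝 x, P n y)
    (hT : ∃ m, ∀ᶠ y in 𝓝 x, ∀ n ≥ m, P n y) : ∀ᶠ y in 𝓝 x, ∀ n, P n y := by
  obtain ⟨m, hm⟩ := hT
  have h5 : ∀ᶠ t in 𝓝 x, ∀ n ∈ Finset.range m, P n t := by
    rw [eventually_all_finset]
    intro n _
    exact hP n
  filter_upwards [hm, h5] with y h1 h2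
  intro n
  by_cases hn : n < m
  · exact h2 n (Finset.mem_range.2 hn)
  · push Not at hn
    exact h1 n hn

/-- The base point. -/
noncomputable def p0 : Surf where
  z := 0
  Y := fun _ => 1
  hz := by simp
  eq := fun n => by rw [a_zero]; norm_num
  tail := ⟨0, fun n _ => by norm_num⟩

/-- The condition for `(z, Y)` to be a point of the surface. -/
def Good (z : ℂ) (Y : ℕ → ℂ) : Prop :=
  ‖z‖ < 1 ∧ (∀ n, Y n ^ 2 = 1 - a n z) ∧ ∃ m, ∀ n ≥ m, 0 < (Y n).re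

open Classical in
/-- Total constructor. -/
noncomputable def mk' (z : ℂ) (Y : ℕ → ℂ) : Surf :=
  if h : Good z Y then ⟨z, Y, h.1, h.2.1, h.2.2⟩ else p0

lemma mk'_z {z : ℂ} {Y : ℕ → ℂ} (h : Good z Y) : (mk' z Y).z = z := by
  rw [mk', dif_pos h]

lemma mk'_Y {z : ℂ} {Y : ℕ → ℂ} (h : Good z Y) : (mk' z Y).Y = Y := by
  rw [mk', dif_pos h]

lemma Surf.good (x : Surf) : Good x.z x.Y := ⟨x.hz, x.eq, x.tail⟩

lemma mk'_self (x : Surf) : mk' x.z x.Y = x := by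
  rw [mk', dif_pos x.good]

/-- The flip of the sign of `Y n`. -/
noncomputable def tau (n : ℕ) (x : Surf) : Surf where
  z := x.z
  Y := fun j => if j = n then -x.Y j else x.Y j
  hz := x.hz
  eq := fun j => by
    by_cases h : j = n
    · simp only [h, ↓reduceIte, neg_sq]; exact x.eq n
    · simp only [h, ↓reduceIte]; exact x.eq j
  tail := by
    obtain ⟨m, hm⟩ := x.tail
    refine ⟨max m (n + 1), fun j hj => ?_⟩
    have : j ≠ n := by omega
    simp only [this, ↓reduceIte]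
    exact hm j (by omega)

lemma tau_z (n : ℕ) (x : Surf) : (tau n x).z = x.z := rfl

lemma tau_Y (n : ℕ) (x : Surf) (j : ℕ) : (tau n x).Y j = if j = n then -x.Y j else x.Y j := rfl

lemma tau_Y_self (n : ℕ) (x : Surf) : (tau n x).Y n = -x.Y n := by simp [tau_Y]

lemma tau_cont (n : ℕ) : Continuous (tau n) := by
  rw [continuous_iff_continuousAt]
  intro x
  apply tendsto_crit
  · exact cont_z.continuousAt
  · intro j
    by_cases h : j = n
    · simp only [tau_Y, h, ↓reduceIte]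
      exact (cont_Y n).continuousAt.neg
    · simp only [tau_Y, h, ↓reduceIte]
      exact (cont_Y j).continuousAt
  · obtain ⟨m, hm⟩ := eventually_tail x
    refine ⟨max m (n + 1), ?_⟩
    filter_upwards [hm] with y hy
    intro j hj
    have : j ≠ n := by omega
    simp only [tau_Y, this, ↓reduceIte]
    linarith [hy j (by omega)]

lemma tau_fix {n : ℕ} {x : Surf} (h : x.Y n = 0) : tau n x = x := by
  apply Surf.ext
  · rfl
  · funext j
    rw [tau_Y]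
    by_cases hj : j = n
    · simp [hj, h]
    · simp [hj]

end Pool.Agent.H765R2.RS
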