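import Pool.Agent.H765R2.RS1

/-!
# A Riemann surface over the disc: the charts
-/

open Filter Topology Complex Set

namespace Pool.Agent.H765R2.RS

lemma sqrt_sq' (w : ℂ) : Complex.sqrt w ^ 2 = w := by
  have := Complex.cpow_nat_inv_pow w (n := 2) (by norm_num)
  simp [Complex.sqrt]

lemma sqrt_re_nonneg (w : ℂ) : 0 ≤ (Complex.sqrt w).re := by
  rw [Complex.sqrt, cpow_inv_two_re]; positivity

lemma sqrt_re_pos {w : ℂ} (hw : w ∈ slitPlane) : 0 < (Complex.sqrt w).re := by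
  rw [Complex.sqrt, cpow_inv_two_re]
  apply Real.sqrt_pos.2
  rw [mem_slitPlane_iff] at hw
  have h1 : -‖w‖ ≤ w.re := (abs_le.1 (Complex.abs_re_le_norm w)).1
  rcases eq_or_lt_of_le h1 with h | h
  · exfalso
    rcases hw with hw | hw
    · linarith [norm_nonneg w]
    · apply hw
      have h2 : |w.re| = ‖w‖ := by rw [← h, abs_neg, abs_of_nonneg (norm_nonneg _)]
      exact (Complex.abs_re_eq_norm.1 h2)
  · linarith

lemma sq_mem_slit {w : ℂ} (hw : 0 < w.re) : w ^ 2 ∈ slitPlane := by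
  rw [mem_slitPlane_iff]
  by_contra h
  push Not at h
  obtain ⟨h1, h2⟩ := h
  have e1 : (w ^ 2).re = w.re ^ 2 - w.im ^ 2 := by rw [sq, mul_re]; ring
  have e2 : (w ^ 2).im = 2 * w.re * w.im := by rw [sq, mul_im]; ring
  rw [e1] at h1
  rw [e2] at h2
  have h3 : w.im = 0 := by
    rcases mul_eq_zero.1 h2 with h | h
    · linarith
    · exact h
  rw [h3] at h1
  nlinarith

lemma sqrt_sq_of_re_pos {w : ℂ} (hw : 0 < w.re) : Complex.sqrt (w ^ 2) = w := by
  rw [Complex.sqrt]; exact sq_cpow_two_inv hw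

lemma sqrt_diffAt {w : ℂ} (hw : w ∈ slitPlane) : DifferentiableAt ℂ Complex.sqrt w := by
  unfold Complex.sqrt
  exact differentiableAt_id.cpow_const hw

lemma mem_slit_of_near_one {w : ℂ} (h : ‖w - 1‖ < 1) : w ∈ slitPlane := by
  rw [mem_slitPlane_iff]
  left
  have := (abs_le.1 (Complex.abs_re_le_norm (w - 1))).1
  simp at this
  linarith

/-- The coordinate functions. -/
def coord : Option ℕ → Surf → ℂ
  | none => Surf.z
  | some n => fun x => x.Y n

lemma coord_cont (i : Option ℕ) : Continuous (coord i) := by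
  cases i with
  | none => exact cont_z
  | some n => exact cont_Y n

lemma eventually_near_one (x : Surf) {δ : ℝ} (hδ : 0 < δ) :
    ∃ m, ∀ᶠ y in 𝓝 x, ∀ n ≥ m, ‖y.Y n - 1‖ < δ := by
  obtain ⟨r, hr1, hr2⟩ := exists_between x.hz
  have hr0 : 0 ≤ r := (norm_nonneg _).trans hr1.le
  obtain ⟨m1, hm1⟩ := a_tail hr0 hr2 hδ
  obtain ⟨m2, hm2⟩ := eventually_tail x
  refine ⟨max m1 m2, ?_⟩
  have h1 : ∀ᶠ y in 𝓝 x, ‖y.z‖ < r :=
    (cont_z.continuousAt (x := x)).norm.eventually (gt_mem_nhds hr1)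
  filter_upwards [hm2, h1] with y hy1 hy2
  intro n hn
  have h2 := hy1 n (by omega)
  exact (y.norm_Y_sub_one (by linarith)).trans_lt (hm1 n (by omega) _ hy2.le)

lemma re_div_pos {u v : ℂ} (hu : ‖u - 1‖ < 1 / 4) (hv : ‖v - 1‖ < 1 / 4) : 0 < (u / v).re := by
  have h1 : 3 / 4 < ‖v‖ := by
    have : (1 : ℝ) ≤ ‖v‖ + ‖v - 1‖ := by
      calc (1 : ℝ) = ‖v - (v - 1)‖ := by simp
        _ ≤ ‖v‖ + ‖v - 1‖ := norm_sub_le _ _
    linarith
  have hv0 : v ≠ 0 := by
    intro h; rw [h, norm_zero] at h1; linarith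
  have h2 : ‖u / v - 1‖ < 1 := by
    have : u / v - 1 = (u - v) / v := by field_simp
    rw [this, norm_div, div_lt_one (by linarith)]
    calc ‖u - v‖ = ‖(u - 1) - (v - 1)‖ := by congr 1; ring
      _ ≤ ‖u - 1‖ + ‖v - 1‖ := norm_sub_le _ _
      _ < ‖v‖ := by linarith
  have := (abs_le.1 (Complex.abs_re_le_norm (u / v - 1))).1
  simp only [sub_re, one_re] at this
  linarith

/-- The quotient `(1 - a n z) / (1 - a n z0)` is close to one for large `n`. -/
lemma quot_near_one {z z0 : ℂ} {n : ℕ} {δ : ℝ} (hδ : δ ≤ 1 / 16) (h1 : ‖a n z‖ < δ) (h0 : ‖a n z0‖ < δ) :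
    ‖(1 - a n z) / (1 - a n z0) - 1‖ < 1 / 4 := by
  have h2 : 15 / 16 < ‖1 - a n z0‖ := by
    have : (1 : ℝ) ≤ ‖1 - a n z0‖ + ‖a n z0‖ := by
      calc (1 : ℝ) = ‖(1 - a n z0) + a n z0‖ := by simp
        _ ≤ _ := norm_add_le _ _
    linarith
  have hv0 : 1 - a n z0 ≠ 0 := by
    intro h; rw [h, norm_zero] at h2; linarith
  have h3 : (1 - a n z) / (1 - a n z0) - 1 = (a n z0 - a n z) / (1 - a n z0) := by
    field_simp; ring
  rw [h3, norm_div, div_lt_iff₀ (by linarith)]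
  calc ‖a n z0 - a n z‖ ≤ ‖a n z0‖ + ‖a n z‖ := norm_sub_le _ _
    _ < 1 / 4 * ‖1 - a n z0‖ := by linarith

lemma re_mul_sqrt_pos {y w : ℂ} (hy : ‖y - 1‖ < 1 / 4) (hw : ‖w - 1‖ < 1 / 4) :
    0 < (y * Complex.sqrt w).re := by
  have h1 : ‖Complex.sqrt w - 1‖ < 1 / 4 := by
    have := norm_sub_one_le (sqrt_re_nonneg w)
    rw [sqrt_sq'] at this
    linarith
  have h2 : ‖y‖ < 5 / 4 := by
    calc ‖y‖ = ‖(y - 1) + 1‖ := by simp
      _ ≤ ‖y - 1‖ + ‖(1 : ℂ)‖ := norm_add_le _ _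
      _ < 5 / 4 := by rw [norm_one]; linarith
  have h3 : ‖y * Complex.sqrt w - 1‖ < 1 := by
    calc ‖y * Complex.sqrt w - 1‖ = ‖y * (Complex.sqrt w - 1) + (y - 1)‖ := by congr 1; ring
      _ ≤ ‖y * (Complex.sqrt w - 1)‖ + ‖y - 1‖ := norm_add_le _ _
      _ < 1 := by
        rw [norm_mul]
        nlinarith [norm_nonneg y, norm_nonneg (Complex.sqrt w - 1)]
  have := (abs_le.1 (Complex.abs_re_le_norm (y * Complex.sqrt w - 1))).1
  simp only [sub_re, one_re] at this
  linarith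

/-- General construction of charts. -/
lemma exists_chart_aux (x0 : Surf) (φ : Surf → ℂ) (hφ : Continuous φ) (V0 : Set ℂ)
    (hV0 : IsOpen V0) (Z : ℂ → ℂ) (hZ : DifferentiableOn ℂ Z V0) (U0 : Set Surf)
    (hU0 : IsOpen U0) (hx0 : x0 ∈ U0) (h1 : ∀ x ∈ U0, φ x ∈ V0 ∧ Z (φ x) = x.z)
    (S0 : ℕ → ℂ → ℂ)
    (h2 : ∀ n, x0.Y n = 0 → (DifferentiableOn ℂ (S0 n) V0 ∧
      (∀ y ∈ V0, S0 n y ^ 2 = 1 - a n (Z y)) ∧ ∀ x ∈ U0, x.Y n = S0 n (φ x)))
    (h3 : ∀ y ∈ V0, ∀ Y, Good (Z y) Y → (∀ n, x0.Y n = 0 → Y n = S0 n y) →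
      mk' (Z y) Y ∈ U0 ∧ φ (mk' (Z y) Y) = y) :
    ∃ e : OpenPartialHomeomorph Surf ℂ, x0 ∈ e.source ∧ (∀ x, e x = φ x) ∧
      ∀ i, DifferentiableOn ℂ (fun w => coord i (e.symm w)) e.target := by
  classical
  set w : ℕ → ℂ → ℂ := fun n y => (1 - a n (Z y)) / (1 - a n x0.z) with hw
  set S : ℕ → ℂ → ℂ := fun n y =>
    if x0.Y n = 0 then S0 n y else x0.Y n * Complex.sqrt (w n y) with hS
  set V : Set ℂ := {y | y ∈ V0 ∧ ‖Z y‖ < 1 ∧ ∀ n, x0.Y n ≠ 0 → w n y ∈ slitPlane} with hV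
  set U : Set Surf := {x | x ∈ U0 ∧ ∀ n, x0.Y n ≠ 0 → 0 < (x.Y n / x0.Y n).re} with hU
  set inv : ℂ → Surf := fun y => mk' (Z y) (fun n => S n y) with hinv
  have hZc : ContinuousOn Z V0 := hZ.continuousOn
  obtain ⟨r0, hr01, hr02⟩ := exists_between x0.hz
  have hr00 : 0 ≤ r0 := (norm_nonneg _).trans hr01.le
  -- tail of x0
  obtain ⟨m0, hm0⟩ : ∃ m, ∀ n ≥ m, ‖x0.Y n - 1‖ < 1 / 4 ∧ ‖a n x0.z‖ < 1 / 16 := by
    obtain ⟨m1, hm1⟩ := a_tail hr00 hr02 (δ := 1 / 16) (by norm_num)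
    obtain ⟨m2, hm2⟩ := x0.tail
    refine ⟨max m1 m2, fun n hn => ?_⟩
    have := hm1 n (by omega) x0.z hr01.le
    exact ⟨(x0.norm_Y_sub_one (hm2 n (by omega)).le).trans_lt (by linarith), this⟩
  have hne : ∀ n, x0.Y n ≠ 0 → 1 - a n x0.z ≠ 0 := by
    intro n hn
    rw [← x0.eq n]
    exact pow_ne_zero _ hn
  -- uniform tail near a point of V
  have htail : ∀ y1 ∈ V, ∃ m ≥ m0, ∀ᶠ y in 𝓝 y1, y ∈ V0 ∧ ‖Z y‖ < 1 ∧
      ∀ n ≥ m, ‖w n y - 1‖ < 1 / 4 := by
    intro y1 hy1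
    obtain ⟨r, hr1, hr2⟩ := exists_between hy1.2.1
    have hr0 : 0 ≤ r := (norm_nonneg _).trans hr1.le
    obtain ⟨m1, hm1⟩ := a_tail hr0 hr2 (δ := 1 / 16) (by norm_num)
    refine ⟨max m0 m1, le_max_left _ _, ?_⟩
    have e1 : ∀ᶠ y in 𝓝 y1, y ∈ V0 := hV0.mem_nhds hy1.1
    have e2 : ∀ᶠ y in 𝓝 y1, ‖Z y‖ < r :=
      ((hZc.continuousAt (hV0.mem_nhds hy1.1)).norm).eventually (gt_mem_nhds hr1)
    filter_upwards [e1, e2] with y hy2 hy3
    refine ⟨hy2, hy3.trans hr2, fun n hn => ?_⟩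
    exact quot_near_one le_rfl (hm1 n (by omega) _ hy3.le) (hm0 n (by omega)).2
  have hY0 : ∀ n ≥ m0, x0.Y n ≠ 0 := by
    intro n hn h
    have := (hm0 n hn).1
    rw [h] at this
    norm_num at this
  have hwc : ∀ n, x0.Y n ≠ 0 → ContinuousOn (w n) V0 := by
    intro n hn
    exact (continuousOn_const.sub ((a_cont n).comp_continuousOn hZc)).div_const _
  have hVo : IsOpen V := by
    rw [isOpen_iff_mem_nhds]
    intro y1 hy1
    obtain ⟨m, hmm0, hm⟩ := htail y1 hy1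
    have e3 : ∀ᶠ y in 𝓝 y1, ∀ n ∈ Finset.range m, x0.Y n ≠ 0 → w n y ∈ slitPlane := by
      rw [eventually_all_finset]
      intro n _
      by_cases hn : x0.Y n = 0
      · exact Eventually.of_forall fun y h => absurd hn h
      · have := ((hwc n hn).continuousAt (hV0.mem_nhds hy1.1)).eventually
          (isOpen_slitPlane.mem_nhds (hy1.2.2 n hn))
        exact this.mono fun y hy _ => hy
    show ∀ᶠ y in 𝓝 y1, y ∈ V
    filter_upwards [hm, e3] with y hy1 hy2
    refine ⟨hy1.1, hy1.2.1, fun n hn => ?_⟩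
    by_cases h : n < m
    · exact hy2 n (Finset.mem_range.2 h) hn
    · exact mem_slit_of_near_one ((hy1.2.2 n (by omega)).trans (by norm_num))
  have hUo : IsOpen U := by
    refine IsOpen.inter (t := {x : Surf | ∀ n, x0.Y n ≠ 0 → 0 < (x.Y n / x0.Y n).re}) hU0 ?_
    rw [isOpen_iff_mem_nhds]
    intro x1 hx1
    apply eventually_all_ge x1 (fun n x => x0.Y n ≠ 0 → 0 < (x.Y n / x0.Y n).re)
    · intro n
      by_cases hn : x0.Y n = 0
      · exact Eventually.of_forall fun y h => absurd hn h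
      · have hc : Continuous fun x : Surf => (x.Y n / x0.Y n).re :=
          Complex.continuous_re.comp ((cont_Y n).div_const _)
        exact (hc.continuousAt.eventually (lt_mem_nhds (hx1 n hn))).mono fun y hy _ => hy
    · obtain ⟨m, hm⟩ := eventually_near_one x1 (δ := 1 / 4) (by norm_num)
      refine ⟨max m m0, ?_⟩
      filter_upwards [hm] with y hy
      intro n hn _
      exact re_div_pos (hy n (by omega)) (hm0 n (by omega)).1
  have hgood : ∀ y ∈ V, Good (Z y) (fun n => S n y) := by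
    intro y hy
    refine ⟨hy.2.1, fun n => ?_, ?_⟩
    · by_cases hn : x0.Y n = 0
      · simp only [hS, hn, ↓reduceIte]
        exact (h2 n hn).2.1 y hy.1
      · simp only [hS, hn, ↓reduceIte]
        rw [mul_pow, sqrt_sq', x0.eq n]
        exact mul_div_cancel₀ _ (hne n hn)
    · obtain ⟨m, hmm0, hm⟩ := htail y hy
      refine ⟨m, fun n hn => ?_⟩
      have hn0 : x0.Y n ≠ 0 := hY0 n (by omega)
      simp only [hS, hn0, ↓reduceIte]
      exact re_mul_sqrt_pos (hm0 n (by omega)).1 ((hm.self_of_nhds).2.2 n hn)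
  have hSc : ∀ n, DifferentiableOn ℂ (S n) V := by
    intro n
    by_cases hn : x0.Y n = 0
    · simp only [hS, hn, ↓reduceIte]
      exact (h2 n hn).1.mono fun y hy => hy.1
    · simp only [hS, hn, ↓reduceIte]
      intro y hy
      have hZy : DifferentiableAt ℂ Z y := hZ.differentiableAt (hV0.mem_nhds hy.1)
      have hwy : DifferentiableAt ℂ (w n) y :=
        ((differentiableAt_const _).sub (((a_diff n) _).comp y hZy)).div_const _
      exact (((sqrt_diffAt (hy.2.2 n hn)).comp y hwy).const_mul _).differentiableWithinAt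
  have hinvz : ∀ y ∈ V, (inv y).z = Z y := fun y hy => mk'_z (hgood y hy)
  have hinvY : ∀ y ∈ V, ∀ n, (inv y).Y n = S n y := fun y hy n => by
    rw [hinv]; simp only; rw [mk'_Y (hgood y hy)]
  have hinvU0 : ∀ y ∈ V, inv y ∈ U0 ∧ φ (inv y) = y := by
    intro y hy
    apply h3 y hy.1 _ (hgood y hy)
    intro n hn
    simp only [hS, hn, ↓reduceIte]
  have hsq : ∀ x : Surf, ∀ n, x0.Y n ≠ 0 → (x.Y n / x0.Y n) ^ 2 = (1 - a n x.z) / (1 - a n x0.z) := by
    intro x n hn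
    rw [div_pow, x.eq n, x0.eq n]
  let e : OpenPartialHomeomorph Surf ℂ :=
    { toFun := φ
      invFun := inv
      source := U
      target := V
      map_source' := by
        intro x hx
        obtain ⟨e1, e2⟩ := h1 x hx.1
        refine ⟨e1, by rw [e2]; exact x.hz, fun n hn => ?_⟩
        simp only [hw, e2]
        rw [← hsq x n hn]
        exact sq_mem_slit (hx.2 n hn)
      map_target' := by
        intro y hy
        refine ⟨(hinvU0 y hy).1, fun n hn => ?_⟩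
        rw [hinvY y hy]
        simp only [hS, hn, ↓reduceIte]
        rw [mul_div_cancel_left₀ _ hn]
        exact sqrt_re_pos (hy.2.2 n hn)
      left_inv' := by
        intro x hx
        obtain ⟨e1, e2⟩ := h1 x hx.1
        have e3 : (fun n => S n (φ x)) = x.Y := by
          funext n
          by_cases hn : x0.Y n = 0
          · simp only [hS, hn, ↓reduceIte]
            exact ((h2 n hn).2.2 x hx.1).symm
          · simp only [hS, hn, ↓reduceIte, hw, e2]
            rw [← hsq x n hn, sqrt_sq_of_re_pos (hx.2 n hn), mul_div_cancel₀ _ hn]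
        show mk' (Z (φ x)) (fun n => S n (φ x)) = x
        rw [e3, e2, mk'_self]
      right_inv' := fun y hy => (hinvU0 y hy).2
      open_source := hUo
      open_target := hVo
      continuousOn_toFun := hφ.continuousOn
      continuousOn_invFun := by
        intro y1 hy1
        apply ContinuousAt.continuousWithinAt
        have hVn : ∀ᶠ y in 𝓝 y1, y ∈ V := hVo.mem_nhds hy1
        apply tendsto_crit
        · rw [hinvz y1 hy1]
          have : Tendsto Z (𝓝 y1) (𝓝 (Z y1)) := hZc.continuousAt (hV0.mem_nhds hy1.1)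
          exact this.congr' (hVn.mono fun y hy => (hinvz y hy).symm)
        · intro n
          rw [hinvY y1 hy1]
          have : Tendsto (S n) (𝓝 y1) (𝓝 (S n y1)) :=
            ((hSc n).differentiableAt (hVo.mem_nhds hy1)).continuousAt
          exact this.congr' (hVn.mono fun y hy => (hinvY y hy n).symm)
        · obtain ⟨m, hmm0, hm⟩ := htail y1 hy1
          refine ⟨m, ?_⟩
          filter_upwards [hm, hVn] with y hy1 hy2
          intro n hn
          rw [hinvY y hy2]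
          have hn0 : x0.Y n ≠ 0 := hY0 n (by omega)
          simp only [hS, hn0, ↓reduceIte]
          exact (re_mul_sqrt_pos (hm0 n (by omega)).1 (hy1.2.2 n hn)).le }
  refine ⟨e, ⟨hx0, fun n hn => ?_⟩, fun x => rfl, fun i => ?_⟩
  · rw [div_self hn]; norm_num
  · cases i with
    | none =>
      have : DifferentiableOn ℂ Z V := hZ.mono fun y hy => hy.1
      exact this.congr fun y hy => hinvz y hy
    | some n =>
      exact (hSc n).congr fun y hy => hinvY y hy n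

end Pool.Agent.H765R2.RS
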