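import Pool.Agent.H765R2.RS2

/-!
# A Riemann surface over the disc: the complex structure
-/

open Filter Topology Complex Set
open scoped Manifold

namespace Pool.Agent.H765R2.RS

lemma exp_slit {w : ℂ} (h : |w.im| < Real.pi) : exp w ∈ slitPlane ∧ log (exp w) = w := by
  rw [abs_lt] at h
  have h1 : log (exp w) = w := log_exp h.1 h.2.le
  refine ⟨?_, h1⟩
  rw [mem_slitPlane_iff_arg]
  refine ⟨?_, exp_ne_zero _⟩
  have : (log (exp w)).im = (exp w).arg := log_im _
  rw [← this, h1]
  exact h.2.ne

lemma a_mul (n : ℕ) (z u : ℂ) : a n (z * u) = a n z * u ^ ((n + 1) * (n + 1)) := by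
  simp only [a, mul_pow]
  ring

lemma zero_unique {x : Surf} {m n : ℕ} (hm : x.Y m = 0) (hn : x.Y n = 0) : m = n := by
  have h1 : ∀ k, x.Y k = 0 → 2 * ‖x.z‖ ^ (k + 1) = 1 := by
    intro k hk
    have h2 : a k x.z = 1 := by
      have := x.eq k
      rw [hk] at this
      linear_combination this
    have h3 := norm_a k x.z
    rw [h2, norm_one] at h3
    exact (pow_eq_one_iff_of_nonneg (by positivity) (by omega)).1 h3.symm
  have e1 := h1 m hm
  have e2 := h1 n hn
  have hz0 : 0 < ‖x.z‖ := by
    by_contra h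
    have : ‖x.z‖ = 0 := le_antisymm (not_lt.1 h) (norm_nonneg _)
    rw [this] at e1
    simp at e1
  have e3 : ‖x.z‖ ^ (m + 1) = ‖x.z‖ ^ (n + 1) := by linarith
  have := (pow_right_injective₀ hz0 x.hz.ne) e3
  omega

lemma Surf.a_eq_one {x : Surf} {n : ℕ} (h : x.Y n = 0) : a n x.z = 1 := by
  have := x.eq n
  rw [h] at this
  linear_combination this

lemma Surf.z_ne_zero {x : Surf} {n : ℕ} (h : x.Y n = 0) : x.z ≠ 0 := by
  intro h0
  have := x.a_eq_one h
  rw [h0, a_zero] at this
  exact zero_ne_one this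

lemma exists_chart (x0 : Surf) : ∃ e : OpenPartialHomeomorph Surf ℂ, x0 ∈ e.source ∧
    (∃ i, ∀ x, e x = coord i x) ∧ (∀ i, DifferentiableOn ℂ (fun w => coord i (e.symm w)) e.target) ∧
    (∀ n, x0.Y n = 0 → ∀ x, e x = x.Y n) := by
  by_cases h : ∀ n, x0.Y n ≠ 0
  · obtain ⟨e, h1, h2, h3⟩ := exists_chart_aux x0 Surf.z cont_z univ isOpen_univ id
      differentiable_id.differentiableOn univ isOpen_univ (mem_univ _)
      (fun x _ => ⟨mem_univ _, rfl⟩) (fun _ _ => 0) (fun n hn => absurd hn (h n))
      (fun y _ Y hY _ => ⟨mem_univ _, mk'_z hY⟩)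
    exact ⟨e, h1, ⟨none, h2⟩, h3, fun n hn => absurd hn (h n)⟩
  · push Not at h
    obtain ⟨m, hm⟩ := h
    have huniq : ∀ n, x0.Y n = 0 → n = m := fun n hn => zero_unique hn hm
    have hz0 : x0.z ≠ 0 := x0.z_ne_zero hm
    set N : ℕ := (m + 1) * (m + 1) with hN
    have hN0 : 0 < N := by positivity
    have hNc : (N : ℂ) ≠ 0 := by exact_mod_cast hN0.ne'
    have hNr : (0 : ℝ) < N := by exact_mod_cast hN0
    have hN1 : (1 : ℝ) ≤ N := by exact_mod_cast hN0
    set Z : ℂ → ℂ := fun y => x0.z * exp (log (1 - y ^ 2) / N) with hZ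
    set V0 : Set ℂ := {y | 1 - y ^ 2 ∈ slitPlane} with hV0
    set U0 : Set Surf := {x | x.z / x0.z ∈ slitPlane ∧ |(log (x.z / x0.z)).im| < Real.pi / N} with hU0
    have hV0o : IsOpen V0 := isOpen_slitPlane.preimage (by fun_prop)
    have hZd : DifferentiableOn ℂ Z V0 := by
      intro y hy
      apply DifferentiableAt.differentiableWithinAt
      have h1 : DifferentiableAt ℂ (fun y : ℂ => log (1 - y ^ 2)) y :=
        DifferentiableAt.clog (by fun_prop) hy
      exact ((h1.div_const _).cexp).const_mul _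
    have hU0o : IsOpen U0 := by
      rw [isOpen_iff_mem_nhds]
      intro x1 hx1
      have hc : ContinuousAt (fun x : Surf => x.z / x0.z) x1 := (cont_z.div_const _).continuousAt
      have h1 : ∀ᶠ x in 𝓝 x1, x.z / x0.z ∈ slitPlane :=
        hc.eventually (isOpen_slitPlane.mem_nhds hx1.1)
      have h2 : ContinuousAt (fun x : Surf => |(log (x.z / x0.z)).im|) x1 :=
        (Complex.continuous_im.continuousAt.comp (hc.clog hx1.1)).abs
      exact h1.and (h2.eventually (gt_mem_nhds hx1.2))
    have key : ∀ l : ℂ, a m (x0.z * exp (l / N)) = exp l := by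
      intro l
      rw [a_mul, x0.a_eq_one hm, one_mul, ← exp_nat_mul, ← hN]
      congr 1
      field_simp
    obtain ⟨e, h1, h2, h3⟩ := exists_chart_aux x0 (fun x => x.Y m) (cont_Y m) V0 hV0o Z hZd U0 hU0o
      (by
        refine ⟨?_, ?_⟩
        · rw [div_self hz0]; exact one_mem_slitPlane
        · rw [div_self hz0, log_one]; simp; positivity)
      (by
        intro x hx
        set L := log (x.z / x0.z) with hL
        have hne : x.z / x0.z ≠ 0 := slitPlane_ne_zero hx.1
        have e1 : exp L = x.z / x0.z := exp_log hne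
        have e2 : x.z = x0.z * exp ((N * L) / N) := by
          rw [mul_div_cancel_left₀ _ hNc, e1]
          field_simp
        have e3 : 1 - x.Y m ^ 2 = exp (N * L) := by
          rw [x.eq m, sub_sub_cancel, ← key (N * L), ← e2]
        have e4 : |((N : ℂ) * L).im| < Real.pi := by
          have : ((N : ℂ) * L).im = N * L.im := by simp
          rw [this, abs_mul, abs_of_pos hNr]
          have := hx.2
          rw [lt_div_iff₀ hNr] at this
          linarith
        have e5 := exp_slit e4
        refine ⟨?_, ?_⟩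
        · show 1 - x.Y m ^ 2 ∈ slitPlane
          rw [e3]; exact e5.1
        · show x0.z * exp (log (1 - x.Y m ^ 2) / N) = x.z
          rw [e3, e5.2, ← e2])
      (fun _ y => y)
      (by
        intro n hn
        obtain rfl := huniq n hn
        refine ⟨differentiable_id.differentiableOn, ?_, fun x _ => rfl⟩
        intro y hy
        have hy' : 1 - y ^ 2 ≠ 0 := slitPlane_ne_zero hy
        show y ^ 2 = 1 - a n (x0.z * exp (log (1 - y ^ 2) / N))
        rw [key, exp_log hy']
        ring)
      (by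
        intro y hy Y hY hYm
        refine ⟨?_, ?_⟩
        · have e1 : (mk' (Z y) Y).z / x0.z = exp (log (1 - y ^ 2) / N) := by
            rw [mk'_z hY]
            show x0.z * exp (log (1 - y ^ 2) / N) / x0.z = _
            rw [mul_div_cancel_left₀ _ hz0]
          have e2 : |(log (1 - y ^ 2) / (N : ℂ)).im| < Real.pi / N := by
            have : (log (1 - y ^ 2) / (N : ℂ)).im = (log (1 - y ^ 2)).im / N := by
              rw [← ofReal_natCast, div_ofReal_im]
            rw [this, abs_div, abs_of_pos hNr, log_im]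
            apply div_lt_div_of_pos_right _ hNr
            have h5 : (1 - y ^ 2).arg ≠ Real.pi := (mem_slitPlane_iff_arg.1 hy).1
            rw [abs_lt]
            exact ⟨neg_pi_lt_arg _, lt_of_le_of_ne (arg_le_pi _) h5⟩
          have e3 : |(log (1 - y ^ 2) / (N : ℂ)).im| < Real.pi :=
            e2.trans_le (div_le_self Real.pi_pos.le hN1)
          have e4 := exp_slit e3
          show _ ∧ _
          rw [e1, e4.2]
          exact ⟨e4.1, e2⟩
        · show (mk' (Z y) Y).Y m = y
          rw [mk'_Y hY]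
          exact hYm m hm)
    exact ⟨e, h1, ⟨some m, h2⟩, h3, fun n hn x => by rw [huniq n hn]; exact h2 x⟩

/-- The charts: partial homeomorphisms given by a coordinate in terms of which all coordinates are
holomorphic. -/
def GoodChart (e : OpenPartialHomeomorph Surf ℂ) : Prop :=
  (∃ i, ∀ x, e x = coord i x) ∧ ∀ i, DifferentiableOn ℂ (fun w => coord i (e.symm w)) e.target

noncomputable instance : ChartedSpace ℂ Surf where
  atlas := {e | GoodChart e}
  chartAt x := Classical.choose (exists_chart x)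
  mem_chart_source x := (Classical.choose_spec (exists_chart x)).1
  chart_mem_atlas x :=
    ⟨(Classical.choose_spec (exists_chart x)).2.1, (Classical.choose_spec (exists_chart x)).2.2.1⟩

lemma chartAt_Y {x : Surf} {n : ℕ} (h : x.Y n = 0) (y : Surf) : chartAt ℂ x y = y.Y n :=
  (Classical.choose_spec (exists_chart x)).2.2.2 n h y

lemma good_of_mem {e : OpenPartialHomeomorph Surf ℂ} (h : e ∈ atlas ℂ Surf) : GoodChart e := h

instance : IsManifold 𝓘(ℂ) ⊤ Surf := by
  apply isManifold_of_contDiffOn
  intro e e' he he'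
  obtain ⟨⟨i', hi'⟩, h2'⟩ := good_of_mem he'
  obtain ⟨⟨i, hi⟩, h2⟩ := good_of_mem he
  simp only [modelWithCornersSelf_coe, modelWithCornersSelf_coe_symm, preimage_id, range_id,
    inter_univ, Function.id_comp, Function.comp_id]
  apply DifferentiableOn.contDiffOn
  · have h3 : DifferentiableOn ℂ (fun w => coord i' (e.symm w)) (e.symm ≫ₕ e').source := by
      apply (h2 i').mono
      intro w hw
      rw [OpenPartialHomeomorph.trans_source] at hw
      exact hw.1
    refine h3.congr fun w hw => ?_
    exact hi' (e.symm w)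
  · exact (e.symm ≫ₕ e').open_source

instance : IsManifold 𝓘(ℂ) 1 Surf := IsManifold.of_le (n := ⊤) le_top

lemma mdiff_iff {f : Surf → ℂ} : MDifferentiable 𝓘(ℂ) 𝓘(ℂ) f ↔
    ∀ x : Surf, DifferentiableOn ℂ (f ∘ (chartAt ℂ x).symm) (chartAt ℂ x).target := by
  constructor
  · intro h x
    have h1 : MDifferentiableOn 𝓘(ℂ) 𝓘(ℂ) (chartAt ℂ x).symm (chartAt ℂ x).target :=
      mdifferentiableOn_atlas_symm (chart_mem_atlas ℂ x)
    have h2 : MDifferentiableOn 𝓘(ℂ) 𝓘(ℂ) (f ∘ (chartAt ℂ x).symm) (chartAt ℂ x).target :=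
      h.comp_mdifferentiableOn h1
    exact h2.differentiableOn
  · intro h x
    have h1 := h x
    have h2 : DifferentiableAt ℂ (f ∘ (chartAt ℂ x).symm) (chartAt ℂ x x) :=
      h1.differentiableAt ((chartAt ℂ x).open_target.mem_nhds (mem_chart_target ℂ x))
    rw [mdifferentiableAt_iff]
    refine ⟨?_, ?_⟩
    · have h3 : ContinuousAt (fun y => (f ∘ (chartAt ℂ x).symm) (chartAt ℂ x y)) x :=
        ContinuousAt.comp (f := chartAt ℂ x) h2.continuousAt
          ((chartAt ℂ x).continuousAt (mem_chart_source ℂ x))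
      apply h3.congr
      filter_upwards [(chartAt ℂ x).open_source.mem_nhds (mem_chart_source ℂ x)] with y hy
      simp [(chartAt ℂ x).left_inv hy]
    · simp only [writtenInExtChartAt, extChartAt, mfld_simps]
      exact h2.differentiableWithinAt

lemma mdiff_coord (i : Option ℕ) : MDifferentiable 𝓘(ℂ) 𝓘(ℂ) (coord i) := by
  rw [mdiff_iff]
  intro x
  exact (good_of_mem (chart_mem_atlas ℂ x)).2 i

end Pool.Agent.H765R2.RS
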