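import Pool.Agent.H765R2.RS3

/-!
# A Riemann surface over the disc: connectedness
-/

open Filter Topology Complex Set
open scoped Manifold

namespace Pool.Agent.H765R2.RS

open Classical in
/-- The sign attached to a finite set of indices. -/
noncomputable def sgn (A : Finset ℕ) (n : ℕ) : ℂ := if n ∈ A then -1 else 1

lemma sgn_sq (A : Finset ℕ) (n : ℕ) : sgn A n ^ 2 = 1 := by
  unfold sgn; split_ifs <;> norm_num

lemma sgn_eq_one {A : Finset ℕ} {n : ℕ} (h : n ∉ A) : sgn A n = 1 := by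
  unfold sgn; simp [h]

lemma exists_not_mem (A : Finset ℕ) : ∃ m, ∀ n ≥ m, n ∉ A := by
  refine ⟨A.sup id + 1, fun n hn h => ?_⟩
  have : n ≤ A.sup id := Finset.le_sup (f := id) h
  omega

/-- The Y-coordinates of the section. -/
noncomputable def secY (A : Finset ℕ) (z : ℂ) : ℕ → ℂ := fun n => sgn A n * Complex.sqrt (1 - a n z)

/-- The section of the surface given by a finite set of signs. -/
noncomputable def sec (A : Finset ℕ) (z : ℂ) : Surf := mk' z (secY A z)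

lemma good_sec (A : Finset ℕ) {z : ℂ} (hz : ‖z‖ < 1) : Good z (secY A z) := by
  refine ⟨hz, fun n => ?_, ?_⟩
  · rw [secY, mul_pow, sgn_sq, sqrt_sq', one_mul]
  · obtain ⟨m1, hm1⟩ := a_tail (norm_nonneg z) hz (δ := 1) one_pos
    obtain ⟨m2, hm2⟩ := exists_not_mem A
    refine ⟨max m1 m2, fun n hn => ?_⟩
    rw [secY, sgn_eq_one (hm2 n (by omega)), one_mul]
    apply sqrt_re_pos
    apply mem_slit_of_near_one
    have := hm1 n (by omega) z le_rfl
    rwa [sub_sub_cancel_left, norm_neg]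

lemma sec_z (A : Finset ℕ) {z : ℂ} (hz : ‖z‖ < 1) : (sec A z).z = z := mk'_z (good_sec A hz)

lemma sec_Y (A : Finset ℕ) {z : ℂ} (hz : ‖z‖ < 1) : (sec A z).Y = secY A z := mk'_Y (good_sec A hz)

lemma exists_sec (x : Surf) : ∃ A : Finset ℕ, x = sec A x.z := by
  classical
  obtain ⟨m1, hm1⟩ := a_tail (norm_nonneg x.z) x.hz (δ := 1) one_pos
  obtain ⟨m2, hm2⟩ := x.tail
  set m := max m1 m2 with hm
  refine ⟨(Finset.range m).filter (fun n => x.Y n ≠ Complex.sqrt (1 - a n x.z)), ?_⟩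
  apply Surf.ext
  · rw [sec_z _ x.hz]
  · rw [sec_Y _ x.hz]
    funext n
    by_cases hn : n < m
    · by_cases h : x.Y n = Complex.sqrt (1 - a n x.z)
      · rw [secY, sgn_eq_one (by simp [h]), one_mul, h]
      · have h1 : x.Y n ^ 2 = Complex.sqrt (1 - a n x.z) ^ 2 := by rw [sqrt_sq', x.eq n]
        rcases sq_eq_sq_iff_eq_or_eq_neg.1 h1 with h2 | h2
        · exact absurd h2 h
        · rw [secY, sgn, if_pos (by simp [hn, h]), h2]; ring
    · rw [secY, sgn_eq_one (by simp [hn]), one_mul]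
      push Not at hn
      rw [← x.eq n, sqrt_sq_of_re_pos (hm2 n (by omega))]

lemma sqrt_ray (u : ℂ) : ContinuousOn (fun s : ℝ => Complex.sqrt (1 - s * u)) (Ici 0) := by
  by_cases hu : u.im ≤ 0
  · have h1 : ContinuousOn (fun s : ℝ => ((√((‖1 - (s : ℂ) * u‖ + (1 - (s : ℂ) * u).re) / 2) : ℝ) : ℂ) +
        1 * ((√((‖1 - (s : ℂ) * u‖ - (1 - (s : ℂ) * u).re) / 2) : ℝ) : ℂ) * I) (Ici 0) := by
      apply Continuous.continuousOn
      have : Continuous fun s : ℝ => (1 - (s : ℂ) * u).re := Complex.continuous_re.comp (by fun_prop)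
      fun_prop
    refine h1.congr fun s hs => ?_
    simp only
    rw [Complex.sqrt_eq_real_add_ite, if_pos]
    have : (1 - (s : ℂ) * u).im = - (s * u.im) := by simp
    rw [this]
    have hs : (0 : ℝ) ≤ s := hs
    nlinarith
  · push Not at hu
    have h1 : ContinuousOn (fun s : ℝ => ((√((‖1 - (s : ℂ) * u‖ + (1 - (s : ℂ) * u).re) / 2) : ℝ) : ℂ) +
        (-1) * ((√((‖1 - (s : ℂ) * u‖ - (1 - (s : ℂ) * u).re) / 2) : ℝ) : ℂ) * I) (Ici 0) := by
      apply Continuous.continuousOn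
      have : Continuous fun s : ℝ => (1 - (s : ℂ) * u).re := Complex.continuous_re.comp (by fun_prop)
      fun_prop
    refine h1.congr fun s hs => ?_
    simp only
    rw [Complex.sqrt_eq_real_add_ite]
    have hs : (0 : ℝ) ≤ s := hs
    rcases eq_or_lt_of_le hs with h | h
    · simp [← h]
    · rw [if_neg]
      have : (1 - (s : ℂ) * u).im = - (s * u.im) := by simp
      rw [this]
      have : 0 < s * u.im := mul_pos h hu
      linarith

lemma ray_cont (A : Finset ℕ) (w : ℂ) :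
    ContinuousOn (fun t : ℝ => sec A (w * t)) {t | 0 ≤ t ∧ ‖w * (t : ℂ)‖ < 1} := by
  intro t0 ht0
  have hmem : ∀ᶠ t : ℝ in 𝓝[{t | 0 ≤ t ∧ ‖w * (t : ℂ)‖ < 1}] t0, 0 ≤ t ∧ ‖w * (t : ℂ)‖ < 1 :=
    self_mem_nhdsWithin
  apply tendsto_crit
  · rw [sec_z A ht0.2]
    have h1 : Tendsto (fun t : ℝ => w * (t : ℂ)) (𝓝[{t | 0 ≤ t ∧ ‖w * (t : ℂ)‖ < 1}] t0)
        (𝓝 (w * (t0 : ℂ))) := by
      have : Continuous fun t : ℝ => w * (t : ℂ) := by fun_prop
      exact this.continuousWithinAt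
    exact h1.congr' (hmem.mono fun t ht => (sec_z A ht.2).symm)
  · intro n
    rw [sec_Y A ht0.2]
    have h1 : ContinuousWithinAt (fun t : ℝ => secY A (w * t) n) {t | 0 ≤ t ∧ ‖w * (t : ℂ)‖ < 1} t0 := by
      have h2 : ContinuousOn (fun t : ℝ => sgn A n *
          Complex.sqrt (1 - ((t ^ ((n + 1) * (n + 1)) : ℝ) : ℂ) * a n w)) (Ici 0) := by
        apply continuousOn_const.mul
        exact (sqrt_ray (a n w)).comp (f := fun t : ℝ => t ^ ((n + 1) * (n + 1)))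
          (by fun_prop) (fun t (ht : 0 ≤ t) => mem_Ici.2 (pow_nonneg ht _))
      have h3 := (h2.mono (t := {t : ℝ | 0 ≤ t ∧ ‖w * (t : ℂ)‖ < 1}) fun t ht => ht.1) t0 ht0
      refine h3.congr (fun t _ => ?_) ?_
      · rw [secY, a_mul]; push_cast; ring_nf
      · rw [secY, a_mul]; push_cast; ring_nf
    exact Tendsto.congr' (hmem.mono fun t ht => by simp only; rw [sec_Y A ht.2]) h1
  · obtain ⟨m, hm⟩ := exists_not_mem A
    refine ⟨m, hmem.mono fun t ht n hn => ?_⟩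
    rw [sec_Y A ht.2, secY, sgn_eq_one (hm n hn), one_mul]
    exact sqrt_re_nonneg _

lemma comp_sec (A : Finset ℕ) {w : ℂ} (hw : ‖w‖ < 1) :
    connectedComponent (sec A w) = connectedComponent (sec A 0) := by
  have h1 : IsPreconnected ((fun t : ℝ => sec A (w * t)) '' Icc 0 1) := by
    apply isPreconnected_Icc.image
    apply (ray_cont A w).mono
    intro t ht
    refine ⟨ht.1, ?_⟩
    rw [norm_mul, Complex.norm_real, Real.norm_eq_abs, abs_of_nonneg ht.1]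
    calc ‖w‖ * t ≤ ‖w‖ * 1 := by gcongr; exact ht.2
      _ < 1 := by linarith
  have h2 : sec A w ∈ (fun t : ℝ => sec A (w * t)) '' Icc 0 1 := ⟨1, by simp, by simp⟩
  have h3 : sec A 0 ∈ (fun t : ℝ => sec A (w * t)) '' Icc 0 1 := ⟨0, by simp, by simp⟩
  exact connectedComponent_eq (h1.subset_connectedComponent h2 h3)

lemma exists_root {n : ℕ} (hn : 0 < n) : ∃ z : ℂ, z ^ n = 1 / 2 ∧ ‖z‖ < 1 ∧ ‖z‖ ^ n = 1 / 2 := by
  obtain ⟨z, hz⟩ := IsAlgClosed.exists_pow_nat_eq (1 / 2 : ℂ) hn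
  have h1 : ‖z‖ ^ n = 1 / 2 := by
    rw [← norm_pow, hz]; norm_num
  refine ⟨z, hz, ?_, h1⟩
  by_contra h
  push Not at h
  have := one_le_pow₀ h (n := n)
  rw [h1] at this
  norm_num at this

lemma comp_sec_zero (A : Finset ℕ) : connectedComponent (sec A 0) = connectedComponent p0 := by
  classical
  induction A using Finset.induction_on with
  | empty =>
    congr 1
    apply Surf.ext
    · rw [sec_z _ (by simp)]; rfl
    · rw [sec_Y _ (by simp)]
      funext n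
      rw [secY, sgn_eq_one (by simp), a_zero, sub_zero, Complex.sqrt_one, one_mul]
      rfl
  | insert n A hn ih =>
    obtain ⟨z, hz, hz1, -⟩ := exists_root (Nat.succ_pos n)
    have h1 : sec (insert n A) z = sec A z := by
      apply Surf.ext
      · rw [sec_z _ hz1, sec_z _ hz1]
      · rw [sec_Y _ hz1, sec_Y _ hz1]
        funext j
        by_cases hj : j = n
        · have : a j z = 1 := by
            rw [hj, a, hz]; norm_num
          rw [secY, secY, this, sub_self, Complex.sqrt_zero, mul_zero, mul_zero]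
        · rw [secY, secY, sgn, sgn]
          simp [hj]
    rw [← comp_sec (insert n A) hz1, h1, comp_sec A hz1, ih]

instance : ConnectedSpace Surf := by
  rw [connectedSpace_iff_connectedComponent]
  refine ⟨p0, ?_⟩
  rw [eq_univ_iff_forall]
  intro x
  obtain ⟨A, hA⟩ := exists_sec x
  have h1 : connectedComponent x = connectedComponent p0 := by
    rw [hA, comp_sec A x.hz, comp_sec_zero]
  rw [← h1]
  exact mem_connectedComponent

/-- Every neighbourhood of a point contains points with a larger `‖z‖`. -/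
lemma outward (x : Surf) {s : Set Surf} (hs : s ∈ 𝓝 x) : ∃ y ∈ s, ‖x.z‖ < ‖y.z‖ := by
  obtain ⟨A, hA⟩ := exists_sec x
  by_cases hz : x.z = 0
  · have h1 := ray_cont A 1 0 ⟨le_rfl, by simp⟩
    have h2 : Tendsto (fun t : ℝ => sec A (1 * t)) (𝓝[{t | 0 ≤ t ∧ ‖(1 : ℂ) * (t : ℂ)‖ < 1}] 0) (𝓝 x) := by
      have h1' : Tendsto (fun t : ℝ => sec A (1 * t)) (𝓝[{t | 0 ≤ t ∧ ‖(1 : ℂ) * (t : ℂ)‖ < 1}] 0)
        (𝓝 (sec A (1 * ((0 : ℝ) : ℂ)))) := h1
      rw [ofReal_zero, mul_zero, ← hz, ← hA] at h1'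
      exact h1'
    have h3 : 𝓝[>] (0 : ℝ) ≤ 𝓝[{t : ℝ | 0 ≤ t ∧ ‖(1 : ℂ) * (t : ℂ)‖ < 1}] 0 := by
      rw [nhdsWithin_le_iff]
      have : Ioo (0 : ℝ) 1 ∈ 𝓝[>] (0 : ℝ) := Ioo_mem_nhdsGT one_pos
      filter_upwards [this] with t ht
      refine ⟨ht.1.le, ?_⟩
      rw [one_mul, Complex.norm_real, Real.norm_eq_abs, abs_of_pos ht.1]
      exact ht.2
    have h4 := (h2.mono_left h3).eventually hs
    have h5 : Ioo (0 : ℝ) 1 ∈ 𝓝[>] (0 : ℝ) := Ioo_mem_nhdsGT one_pos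
    obtain ⟨t, ht1, ht2⟩ := (h4.and h5).exists
    refine ⟨_, ht1, ?_⟩
    rw [hz, norm_zero, sec_z]
    · rw [one_mul, Complex.norm_real, Real.norm_eq_abs, abs_of_pos ht2.1]
      exact ht2.1
    · rw [one_mul, Complex.norm_real, Real.norm_eq_abs, abs_of_pos ht2.1]
      exact ht2.2
  · have hzp : 0 < ‖x.z‖ := norm_pos_iff.2 hz
    have hz1 : 1 < 1 / ‖x.z‖ := by rw [lt_div_iff₀ hzp]; linarith [x.hz]
    have hn : ∀ t : ℝ, 0 < t → ‖x.z * (t : ℂ)‖ = ‖x.z‖ * t := by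
      intro t ht
      rw [norm_mul, Complex.norm_real, Real.norm_eq_abs, abs_of_pos ht]
    have h1 := ray_cont A x.z 1 ⟨zero_le_one, by simpa using x.hz⟩
    have h2 : Tendsto (fun t : ℝ => sec A (x.z * t)) (𝓝[{t | 0 ≤ t ∧ ‖x.z * (t : ℂ)‖ < 1}] 1) (𝓝 x) := by
      have h1' : Tendsto (fun t : ℝ => sec A (x.z * t)) (𝓝[{t | 0 ≤ t ∧ ‖x.z * (t : ℂ)‖ < 1}] 1)
        (𝓝 (sec A (x.z * ((1 : ℝ) : ℂ)))) := h1
      rw [ofReal_one, mul_one, ← hA] at h1'
      exact h1'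
    have h5 : Ioo (1 : ℝ) (1 / ‖x.z‖) ∈ 𝓝[>] (1 : ℝ) := Ioo_mem_nhdsGT hz1
    have h6 : ∀ t ∈ Ioo (1 : ℝ) (1 / ‖x.z‖), 0 < t ∧ ‖x.z‖ < ‖x.z‖ * t ∧ ‖x.z‖ * t < 1 := by
      intro t ht
      have h7 : ‖x.z‖ * t < 1 := by
        have := ht.2
        rw [lt_div_iff₀ hzp] at this
        linarith
      exact ⟨by linarith [ht.1], by nlinarith [ht.1], h7⟩
    have h3 : 𝓝[>] (1 : ℝ) ≤ 𝓝[{t : ℝ | 0 ≤ t ∧ ‖x.z * (t : ℂ)‖ < 1}] 1 := by
      rw [nhdsWithin_le_iff]
      filter_upwards [h5] with t ht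
      obtain ⟨e1, e2, e3⟩ := h6 t ht
      exact ⟨e1.le, by rw [hn t e1]; exact e3⟩
    have h4 := (h2.mono_left h3).eventually hs
    obtain ⟨t, ht1, ht2⟩ := (h4.and h5).exists
    obtain ⟨e1, e2, e3⟩ := h6 t ht2
    refine ⟨_, ht1, ?_⟩
    rw [sec_z, hn t e1]
    · exact e2
    · rw [hn t e1]; exact e3

end Pool.Agent.H765R2.RS
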