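import Pool.Agent.H765R2.RS4

/-!
# A Riemann surface over the disc: the maximum principle and the main estimate
-/

open Filter Topology Complex Set
open scoped Manifold

namespace Pool.Agent.H765R2.RS

lemma mdiffAt_of {f : Surf → ℂ} {x : Surf}
    (h2 : DifferentiableAt ℂ (f ∘ (chartAt ℂ x).symm) (chartAt ℂ x x)) :
    MDifferentiableAt 𝓘(ℂ) 𝓘(ℂ) f x := by
  rw [mdifferentiableAt_iff]
  refine ⟨?_, ?_⟩
  · have h3 : ContinuousAt (fun y => (f ∘ (chartAt ℂ x).symm) (chartAt ℂ x y)) x :=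
      ContinuousAt.comp (f := chartAt ℂ x) h2.continuousAt
        ((chartAt ℂ x).continuousAt (mem_chart_source ℂ x))
    apply h3.congr
    filter_upwards [(chartAt ℂ x).open_source.mem_nhds (mem_chart_source ℂ x)] with y hy
    simp [(chartAt ℂ x).left_inv hy]
  · simp only [writtenInExtChartAt, extChartAt, mfld_simps]
    exact h2.differentiableWithinAt

lemma coord_tau (n : ℕ) (i : Option ℕ) : ∃ c : ℂ, ∀ x, coord i (tau n x) = c * coord i x := by
  cases i with
  | none => exact ⟨1, fun x => by rw [one_mul]; rfl⟩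
  | some j =>
    by_cases h : j = n
    · exact ⟨-1, fun x => by simp [coord, tau_Y, h]⟩
    · exact ⟨1, fun x => by simp [coord, tau_Y, h]⟩

lemma mdiff_tau (n : ℕ) : MDifferentiable 𝓘(ℂ) 𝓘(ℂ) (tau n) := by
  intro x
  rw [mdifferentiableAt_iff]
  refine ⟨(tau_cont n).continuousAt, ?_⟩
  obtain ⟨i, hi⟩ := (good_of_mem (chart_mem_atlas ℂ (tau n x))).1
  obtain ⟨c, hc⟩ := coord_tau n i
  have h1 : DifferentiableOn ℂ (fun w => c * coord i ((chartAt ℂ x).symm w)) (chartAt ℂ x).target :=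
    ((good_of_mem (chart_mem_atlas ℂ x)).2 i).const_mul c
  have h2 := h1.differentiableAt ((chartAt ℂ x).open_target.mem_nhds (mem_chart_target ℂ x))
  have h3 : (fun w => c * coord i ((chartAt ℂ x).symm w)) =
      (chartAt ℂ (tau n x)) ∘ (tau n) ∘ (chartAt ℂ x).symm := by
    funext w
    rw [Function.comp, Function.comp, hi, hc]
  rw [h3] at h2
  simp only [writtenInExtChartAt, extChartAt, mfld_simps]
  exact h2.differentiableWithinAt

/-- The odd part of `f` (twice). -/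
noncomputable def odd (n : ℕ) (f : Surf → ℂ) (x : Surf) : ℂ := f x - f (tau n x)

lemma mdiff_odd (n : ℕ) {f : Surf → ℂ} (hf : MDifferentiable 𝓘(ℂ) 𝓘(ℂ) f) :
    MDifferentiable 𝓘(ℂ) 𝓘(ℂ) (odd n f) := by
  rw [mdiff_iff]
  intro x
  have h1 := mdiff_iff.1 hf x
  have h2 := mdiff_iff.1 (hf.comp (mdiff_tau n)) x
  exact h1.sub h2

open Classical in
/-- The quotient `(f - f ∘ tau n) / Y n`, extended over the zeros of `Y n`. -/
noncomputable def quo (n : ℕ) (f : Surf → ℂ) (x : Surf) : ℂ :=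
  if x.Y n = 0 then deriv (odd n f ∘ (chartAt ℂ x).symm) 0 else odd n f x / x.Y n

lemma mdiff_quo (n : ℕ) {f : Surf → ℂ} (hf : MDifferentiable 𝓘(ℂ) 𝓘(ℂ) f) :
    MDifferentiable 𝓘(ℂ) 𝓘(ℂ) (quo n f) := by
  intro x
  apply mdiffAt_of
  set e := chartAt ℂ x with he
  have hF : DifferentiableOn ℂ (odd n f ∘ e.symm) e.target := mdiff_iff.1 (mdiff_odd n hf) x
  have hY : DifferentiableOn ℂ (fun w => coord (some n) (e.symm w)) e.target :=
    (good_of_mem (chart_mem_atlas ℂ x)).2 (some n)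
  have hmem : e.target ∈ 𝓝 (e x) := e.open_target.mem_nhds (mem_chart_target ℂ x)
  have hex : e.symm (e x) = x := e.left_inv (mem_chart_source ℂ x)
  by_cases h : x.Y n = 0
  · have h0 : e x = 0 := by rw [he, chartAt_Y h, h]
    have hYe : ∀ w ∈ e.target, (e.symm w).Y n = w := by
      intro w hw
      have h5 := e.right_inv hw
      rw [he, chartAt_Y h] at h5
      exact h5
    have h1 : DifferentiableOn ℂ (dslope (odd n f ∘ e.symm) 0) e.target :=
      (Complex.differentiableOn_dslope (h0 ▸ hmem)).2 hF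
    have h2 : EqOn (quo n f ∘ e.symm) (dslope (odd n f ∘ e.symm) 0) e.target := by
      intro w hw
      by_cases hw0 : w = 0
      · have h6 : e.symm w = x := by rw [hw0, ← h0, hex]
        rw [Function.comp, h6, hw0, dslope_same, quo, if_pos h]
      · have h7 : odd n f (e.symm 0) = 0 := by
          have h8 : e.symm 0 = x := by rw [← h0]; exact hex
          rw [h8, odd, tau_fix h, sub_self]
        rw [dslope_of_ne _ hw0, Function.comp, quo, if_neg (by rw [hYe w hw]; exact hw0),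
          hYe w hw, slope_def_field, sub_zero, Function.comp, Function.comp, h7, sub_zero]
    exact ((h1.differentiableAt hmem).congr_of_eventuallyEq
      (h2.eventuallyEq_of_mem hmem))
  · have h1 : DifferentiableAt ℂ (fun w => (odd n f ∘ e.symm) w / coord (some n) (e.symm w)) (e x) := by
      apply (hF.differentiableAt hmem).div (hY.differentiableAt hmem)
      rw [hex]; exact h
    apply h1.congr_of_eventuallyEq
    have h2 : ∀ᶠ w in 𝓝 (e x), coord (some n) (e.symm w) ≠ 0 := by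
      apply (hY.differentiableAt hmem).continuousAt.eventually_ne
      rw [hex]; exact h
    filter_upwards [h2] with w hw
    have hw' : (e.symm w).Y n ≠ 0 := hw
    rw [Function.comp, quo, if_neg hw']
    rfl

/-- The compact pieces. -/
def piece (r : ℝ) (m : ℕ) : Set Surf := {x | ‖x.z‖ ≤ r ∧ ∀ j ≥ m, 0 < (x.Y j).re}

lemma norm_Y_le (x : Surf) (n : ℕ) : ‖x.Y n‖ ≤ 1 + 2 ^ (n + 1) := by
  have h1 : ‖x.Y n‖ ^ 2 ≤ 1 + 2 ^ (n + 1) := by
    rw [← norm_pow, x.eq n]
    calc ‖1 - a n x.z‖ ≤ ‖(1 : ℂ)‖ + ‖a n x.z‖ := norm_sub_le _ _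
      _ ≤ 1 + (2 * 1 ^ (n + 1)) ^ (n + 1) := by
        rw [norm_one]
        gcongr
        exact norm_a_mono n x.hz.le
      _ = 1 + 2 ^ (n + 1) := by simp
  by_contra h
  push Not at h
  have h2 : (1 : ℝ) ≤ 2 ^ (n + 1) := one_le_pow₀ (by norm_num)
  nlinarith

lemma isCompact_piece {r : ℝ} (hr : r < 1) {m : ℕ}
    (hm : ∀ n ≥ m, ∀ z : ℂ, ‖z‖ ≤ r → ‖a n z‖ < 1) : IsCompact (piece r m) := by
  rw [isCompact_iff_ultrafilter_le_nhds]
  intro F hF
  have hF' : piece r m ∈ F := by simpa using hF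
  obtain ⟨z1, hz1, hz2⟩ := (isCompact_closedBall (0 : ℂ) r).ultrafilter_le_nhds (F.map Surf.z) (by
    rw [le_principal_iff]
    have : piece r m ⊆ Surf.z ⁻¹' Metric.closedBall 0 r := fun x hx => by
      simpa using hx.1
    exact Filter.mem_map.2 (mem_of_superset hF' this))
  have hY : ∀ n, ∃ y : ℂ, Tendsto (fun x : Surf => x.Y n) F (𝓝 y) := by
    intro n
    obtain ⟨y, -, hy⟩ := (isCompact_closedBall (0 : ℂ) (1 + 2 ^ (n + 1))).ultrafilter_le_nhds
      (F.map (fun x : Surf => x.Y n)) (by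
        rw [le_principal_iff]
        apply Filter.mem_map.2
        apply Filter.univ_mem'
        intro x
        simpa using norm_Y_le x n)
    exact ⟨y, hy⟩
  choose Y hY using hY
  have hz2' : Tendsto Surf.z F (𝓝 z1) := hz2
  have hz1' : ‖z1‖ ≤ r := by simpa using hz1
  have heq : ∀ n, Y n ^ 2 = 1 - a n z1 := by
    intro n
    have h1 : Tendsto (fun x : Surf => x.Y n ^ 2) F (𝓝 (Y n ^ 2)) := (hY n).pow 2
    have h2 : Tendsto (fun x : Surf => 1 - a n x.z) F (𝓝 (1 - a n z1)) :=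
      tendsto_const_nhds.sub (((a_cont n).tendsto _).comp hz2')
    have h3 : (fun x : Surf => x.Y n ^ 2) = fun x : Surf => 1 - a n x.z := by
      funext x; exact x.eq n
    rw [h3] at h1
    exact tendsto_nhds_unique h1 h2
  have hpos : ∀ j ≥ m, 0 < (Y j).re := by
    intro j hj
    have h1 : 0 ≤ (Y j).re := by
      have h2 : Tendsto (fun x : Surf => (x.Y j).re) F (𝓝 (Y j).re) :=
        (Complex.continuous_re.tendsto _).comp (hY j)
      apply ge_of_tendsto h2
      filter_upwards [hF'] with x hx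
      exact (hx.2 j hj).le
    rcases eq_or_lt_of_le h1 with h | h
    · exfalso
      have h3 := congrArg Complex.re (heq j)
      have h4 : (Y j ^ 2).re = (Y j).re ^ 2 - (Y j).im ^ 2 := by rw [sq, mul_re]; ring
      rw [h4, ← h] at h3
      have h5 := (abs_le.1 (Complex.abs_re_le_norm (a j z1))).2
      have h6 := hm j hj z1 hz1'
      simp only [sub_re, one_re] at h3
      nlinarith [sq_nonneg (Y j).im]
    · exact h
  let x : Surf := ⟨z1, Y, hz1'.trans_lt hr, heq, m, hpos⟩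
  refine ⟨x, ⟨hz1', hpos⟩, ?_⟩
  have : Tendsto id (F : Filter Surf) (𝓝 x) := by
    apply tendsto_crit
    · exact hz2'
    · exact hY
    · refine ⟨m, ?_⟩
      filter_upwards [hF'] with y hy
      intro n hn
      exact (hy.2 n hn).le
  exact this

lemma piece_nhds {r : ℝ} {m : ℕ} {x : Surf} (hx : x ∈ piece r m) (hr : ‖x.z‖ < r) :
    piece r m ∈ 𝓝 x := by
  have h1 : ∀ᶠ y in 𝓝 x, ‖y.z‖ < r := (cont_z.continuousAt (x := x)).norm.eventually (gt_mem_nhds hr)
  have h2 : ∀ᶠ y in 𝓝 x, ∀ j, j ≥ m → 0 < (y.Y j).re := by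
    apply eventually_all_ge x (fun j y => j ≥ m → 0 < (y.Y j).re)
    · intro j
      by_cases hj : j ≥ m
      · have hc : Continuous fun y : Surf => (y.Y j).re := Complex.continuous_re.comp (cont_Y j)
        exact (hc.continuousAt.eventually (lt_mem_nhds (hx.2 j hj))).mono fun y hy _ => hy
      · exact Eventually.of_forall fun y h => absurd h hj
    · obtain ⟨m', hm'⟩ := eventually_tail x
      refine ⟨m', hm'.mono fun y hy n hn _ => ?_⟩
      linarith [hy n hn]
  filter_upwards [h1, h2] with y hy1 hy2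
  exact ⟨hy1.le, hy2⟩

/-- The maximum principle. -/
lemma max_principle {g : Surf → ℂ} (hg : MDifferentiable 𝓘(ℂ) 𝓘(ℂ) g) {r B : ℝ} (hr0 : 0 ≤ r)
    (hr : r < 1) (hB : ∀ x : Surf, ‖x.z‖ = r → ‖g x‖ ≤ B) : ‖g p0‖ ≤ B := by
  obtain ⟨m, hm⟩ := a_tail hr0 hr (δ := 1) one_pos
  have hK := isCompact_piece hr hm
  have hp : p0 ∈ piece r m := ⟨by simpa [p0] using hr0, fun j _ => by simp [p0]⟩
  obtain ⟨x0, hx0, hmax⟩ := hK.exists_isMaxOn ⟨p0, hp⟩ hg.continuous.norm.continuousOn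
  set K' := piece r m ∩ {x | ‖g x‖ = ‖g x0‖} with hK'
  have hK'c : IsCompact K' := hK.inter_right (isClosed_eq hg.continuous.norm continuous_const)
  obtain ⟨x1, hx1, hmax1⟩ := hK'c.exists_isMaxOn ⟨x0, hx0, rfl⟩ cont_z.norm.continuousOn
  have hx1m : ∀ y ∈ piece r m, ‖g y‖ ≤ ‖g x1‖ := by
    intro y hy
    rw [hx1.2]
    exact hmax hy
  have hle := hx1m p0 hp
  rcases eq_or_lt_of_le hx1.1.1 with h | h
  · exact hle.trans (hB x1 h)
  · exfalso
    have hnhds := piece_nhds hx1.1 h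
    have hloc : IsLocalMax (norm ∘ g) x1 := by
      filter_upwards [hnhds] with y hy
      exact hx1m y hy
    have hev := Complex.norm_eventually_eq_of_mdifferentiableAt_of_isLocalMax (I := 𝓘(ℂ))
      (Eventually.of_forall fun z => hg z) hloc
    obtain ⟨y, ⟨hy1, hy2⟩, hy3⟩ := outward x1 (inter_mem hnhds hev)
    have hyK : y ∈ K' := ⟨hy1, by
      show ‖g y‖ = ‖g x0‖
      rw [← hx1.2]; exact hy2⟩
    have := hmax1 hyK
    have this' : ‖y.z‖ ≤ ‖x1.z‖ := this
    linarith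

/-- The main estimate. -/
lemma main_estimate {f : Surf → ℂ} (hf : MDifferentiable 𝓘(ℂ) 𝓘(ℂ) f) {C : ℝ}
    (hC : ∀ x, ‖f x‖ ≤ C) {n : ℕ} (hn : 1 ≤ n) :
    ‖f p0 - f (tau n p0)‖ ≤ 2 * C / Real.sqrt (2 ^ n - 1) := by
  obtain ⟨ζ, -, hζ1, hζ2⟩ := exists_root (n := (n + 1) * (n + 1)) (by positivity)
  have h2n : (2 : ℝ) ≤ 2 ^ n := by
    calc (2 : ℝ) = 2 ^ 1 := by norm_num
      _ ≤ 2 ^ n := pow_le_pow_right₀ (by norm_num) hn
  have hs : 0 < Real.sqrt (2 ^ n - 1) := Real.sqrt_pos.2 (by linarith)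
  have h1 : ‖quo n f p0‖ ≤ 2 * C / Real.sqrt (2 ^ n - 1) := by
    apply max_principle (mdiff_quo n hf) (norm_nonneg ζ) hζ1
    intro x hx
    have e1 : ‖a n x.z‖ = 2 ^ n := by
      rw [norm_a, hx, mul_pow, ← pow_mul, hζ2, pow_succ]; ring
    have e2 : 2 ^ n - 1 ≤ ‖x.Y n‖ ^ 2 := by
      rw [← norm_pow, x.eq n, ← e1]
      have : ‖a n x.z‖ ≤ ‖1 - a n x.z‖ + ‖(1 : ℂ)‖ := by
        calc ‖a n x.z‖ = ‖1 - (1 - a n x.z)‖ := by congr 1; ring
          _ ≤ ‖(1 : ℂ)‖ + ‖1 - a n x.z‖ := norm_sub_le _ _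
          _ = _ := by ring
      rw [norm_one] at this
      linarith
    have e3 : Real.sqrt (2 ^ n - 1) ≤ ‖x.Y n‖ := by
      rw [← Real.sqrt_sq (norm_nonneg (x.Y n))]
      exact Real.sqrt_le_sqrt e2
    have e4 : x.Y n ≠ 0 := by
      intro h0
      rw [h0, norm_zero] at e3
      linarith
    have e5 : ‖odd n f x‖ ≤ 2 * C := by
      calc ‖f x - f (tau n x)‖ ≤ ‖f x‖ + ‖f (tau n x)‖ := norm_sub_le _ _
        _ ≤ 2 * C := by linarith [hC x, hC (tau n x)]
    rw [quo, if_neg e4, norm_div]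
    have hC0 : 0 ≤ 2 * C := (norm_nonneg _).trans e5
    gcongr
  have h2 : quo n f p0 = f p0 - f (tau n p0) := by
    have h3 : p0.Y n = 1 := rfl
    rw [quo, h3, if_neg one_ne_zero, div_one, odd]
  rwa [h2] at h1

lemma tendsto_eval {f : Surf → ℂ} (hf : MDifferentiable 𝓘(ℂ) 𝓘(ℂ) f) {C : ℝ}
    (hC : ∀ x, ‖f x‖ ≤ C) : Tendsto (fun n => f (tau n p0)) atTop (𝓝 (f p0)) := by
  rw [tendsto_iff_norm_sub_tendsto_zero]
  have h1 : Tendsto (fun n : ℕ => 2 * C / Real.sqrt (2 ^ n - 1)) atTop (𝓝 0) := by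
    apply Tendsto.const_div_atTop
    apply Real.tendsto_sqrt_atTop.comp
    apply tendsto_atTop_add_const_right
    exact tendsto_pow_atTop_atTop_of_one_lt (by norm_num)
  apply squeeze_zero' (Eventually.of_forall fun n => norm_nonneg _) _ h1
  filter_upwards [eventually_ge_atTop 1] with n hn
  rw [norm_sub_rev]
  exact main_estimate hf hC hn

lemma not_tendsto : ¬ Tendsto (fun n => tau n p0) atTop (𝓝 p0) := by
  intro h
  have h1 := (tendsto_iff.1 h).2 1 one_pos
  obtain ⟨n, hn⟩ := h1.exists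
  have h2 := hn n
  rw [tau_Y_self] at h2
  have h3 : p0.Y n = 1 := rfl
  rw [h3] at h2
  norm_num at h2

lemma separates (x y : Surf) (h : x ≠ y) : ∃ f : Surf → ℂ, MDifferentiable 𝓘(ℂ) 𝓘(ℂ) f ∧
    (∃ C : ℝ, ∀ z, ‖f z‖ ≤ C) ∧ f x ≠ f y := by
  by_cases hz : x.z = y.z
  · have : ∃ n, x.Y n ≠ y.Y n := by
      by_contra hc
      push Not at hc
      exact h (Surf.ext hz (funext hc))
    obtain ⟨n, hn⟩ := this
    exact ⟨coord (some n), mdiff_coord _, ⟨1 + 2 ^ (n + 1), fun z => norm_Y_le z n⟩, hn⟩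
  · exact ⟨coord none, mdiff_coord _, ⟨1, fun z => z.hz.le⟩, hz⟩

end Pool.Agent.H765R2.RS
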